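import Pool.Agent.P.MP_9e9aa3_co.D6b
set_option autoImplicit false
set_option maxRecDepth 100000

namespace Pool.Agent.P.MP_9e9aa3_co.E

theorem tsG6bx0 : Nat.ble 1 (tabS sp6b TG6bx0 G6bx0) = true := by decide +kernel
theorem tcG6bx0_2 : Nat.ble 1 (tabC sp6b TG6bx0 (exIn 2 lam) G6bx0 2) = true := by decide +kernel
theorem tcG6bx0_3 : Nat.ble 1 (tabC sp6b TG6bx0 (exIn 2 lam) G6bx0 3) = true := by decide +kernel
theorem rG6bx0_0 : Nat.ble 1 (run sp6b TG6bx0 [] 4000 FG6bx0_0 CG6bx0_0 0x7f140064288802b104401286220070211002c088ae188283083e9083640840008320082c0081e00816008001041231944487884064c418204001a8b0163a2245002032c2000c452d33df12500104401028010006a406cbaf8924088280082200814008002381064f6c49f00414004110040a00400098f3cb8c001058440167e2800cc511005220880240c44804414004153c40b084075c41c204230840268400100b3e0082c68824d08002b16389104401058d1049a100030b8881ba8de1e028480ad9e32009c27c724c1a5841800423cf04300045a11002a1b2918889140080cb0800318062c76c4910040a00400098b2800800151650010006a108817f161501002302d006201922009a200171319002100882b018308950481528a206d142404f071989b180046b0880341654f10500100561071610002a3c616300b85011040e48881f32c6636c600080f0cc8c2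e40c00351e4901868d18006218491200d00231e00b180026b08801c16201101d710280104401000402cd8020009c5855c4110040a004001c0b36008001f166c01000302cd802000a1a1d684c1a2811804d1870d180020588802d2044007fe2800e0511005a208801b084400b82230042108220d002068020b8020fa020786201ba211ba20008842e104d1260f1000262c4802000b8581544102c41a004170040d0040900400110f2438c0a88c0cf0c0648c12d8c00103c454744000a20982d9a2461020f3a20c1e20004c21104a010880c82065e74400170b2a088011b10c8de5c4808b0232c8830d2230f863072e3039a30e44302ba3000887804c6000d0f0d08c00103c440140b0e988001b144417c0b08b081a008011b2c6514c400150c22080c58f184004b163302c3000b07988c600120f2480c00195465908610146022c6000b262200485970c4038440012902206f1609f50912030a38880e33c6400c8b0a5883400836408018510440c02222047c219002e2c4f8e48902047c44084163200cc780506231060444620386000e8a504018344a0303ac30004a11100642c782200c220004811105ba50882801668210046c88c8f088003340845988480708872a3b42403105a200400560232005c81101fa40880f51440dc684805382331ae30009481101ea08c9218c16e0c1a50c28d8c1020c08b0c001d1e48d182901835f1800330888029744400734b144c224f3821016203322061620009cb61244812184103971045f1068310543100cc1032010004e208817034440ac843200dd81103c0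68880b684640173422037482c63611260510019608c8270c3610c0cf0c2840c002c1e020185411804f1850e18004821ec9260d0ea0c28f8c001b804400ffe2800dc511006020880230c45a0440e04412044012c40c28418444140841c08406084000d18f1efa6242ae2000ccb19006038c802f1464012ae22d1620007221105e900881330c4405d36220235119003e28858200d3438c1e18c020410338120480f69a2206c1734c7e112034418c801e1e49c1804be20670240901ed10440c7b83200745870c4012a9e2208f1b11046620c801b38165a48693246000c84220061e89b69312320103c1106011005610002670c802e8d022018680163232009e01161610006ac8880f408440628b1610800c0184405a0232008d71103742cb0220067c319393183481812318505186061845d1800623c02e3070230f8e3022030c183000b47804460b0461d14605346132c60078615206000aac2200a036483c0126ca1044a102941051f10001e1b301e00d3658c01f9344408ba22248a200430b198d018005628882f80c440f98b404883c388018e2c6400c0f2450c002a1e31b18004c3c62a3009a3090c3022c30b44300085f1100202cf822009c2073420006181104ca508826216743105da1003b248caa80c000e14429800680158f0c68c3658c00271e3201845f1800423c012300045a1100702c4022009a200054528f2d312054ea8881f95c44062be3200d861105a020882b1162df104c810054e28c80233c440ec164147a624032d41900383c0163070830240308c63000c4581565e1a08a1844a18004288ed2cf0d1008c0270c1cf8c000e344401016220034011)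 = true := by decide +kernel

end Pool.Agent.P.MP_9e9aa3_co.E
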