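import Pool.Agent.P.MP_9e9aa3_co.D6c
set_option autoImplicit false
set_option maxRecDepth 100000

namespace Pool.Agent.P.MP_9e9aa3_co.E

theorem pG6cx56 : Nat.ble 1 (p1S sp6c 1 [G6cx108,G6cx109] G6cx56 2 3 [] 0x1002000) = true := by decide +kernel
theorem pG6cx57 : Nat.ble 1 (p1S sp6c 1 [G6cx110] G6cx57 2 3 [] 0x1000) = true := by decide +kernel
theorem pG6cx58 : Nat.ble 1 (p1S sp6c 1 [G6cx111,G6cx110] G6cx58 2 4 [] 0x18e07e189e44e34f40c2c81c92865d44d559275a65b718142043100003000) = true := by decide +kernel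
theorem pG6cx59 : Nat.ble 1 (p1S sp6c 1 [G6cx92,G6cx93] G6cx59 2 4 [] 0x144f34e3108e17e07a25d54d44962c91c818a75b65a61c14304200400344f34e3108e17e07a25d54d44962c91c818a75b65a61c143042004001) = true := by decide +kernel
theorem pG6cx60 : Nat.ble 1 (p1S sp6c 1 [G6cx112] G6cx60 2 4 [] 0x1000) = true := by decide +kernel
theorem pG6cx61 : Nat.ble 1 (p1S sp6c 1 [G6cx113,G6cx114,G6cx103,G6cx98] G6cx61 2 4 [] 0x171b69d61959551749340f39130d8a182379f10308500128920b18700771b69d61959551749340f39130d8a182379f10308500128920b187005002000) = true := by decide +kernel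
theorem pG6cx62 : Nat.ble 1 (p1S sp6c 1 [G6cx91,G6cx109] G6cx62 2 4 [] 0x175a6dc6198e086279f44e3d030d5d45564932c824a1871420c40010033d035138c8627e381e0c40450806dc65d6985564d751224a1cb206001) = true := by decide +kernel
theorem pG6cx63 : Nat.ble 1 (p1S sp6c 1 [G6cx113] G6cx63 2 4 [] 0x13d044e34c5565d44d26dc75a6588628e07de0c414204024a2c81c6001) = true := by decide +kernel
theorem pG6cx64 : Nat.ble 1 (p1S sp6c 1 [G6cx105] G6cx64 2 4 [] 0x18e07e285e44e3503cc2c81ca24675a65c6d85d44d65521420440c0001) = true := by decide +kernel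
theorem pG6cx65 : Nat.ble 1 (p1S sp6c 1 [G6cx108] G6cx65 2 4 [] 0x165d6da61c4d75544961cb24818a0450c20047e38607a23513ce310001) = true := by decide +kernel
theorem pG6cx66 : Nat.ble 1 (p1S sp6c 1 [G6cx115,G6cx106] G6cx66 2 4 [] 0x175a6dc6198e086279f44e3d030d5d45564932c824a1871420c4001003000) = true := by decide +kernel
theorem pG6cx67 : Nat.ble 1 (p1S sp6c 1 [G6cx92] G6cx67 2 4 [] 0x18e07e189e44e34f40c2c81c92865d44d559275a65b718142043100001) = true := by decide +kernel
theorem pG6cx68 : Nat.ble 1 (p1S sp6c 1 [G6cx83,G6cx85] G6cx68 2 4 [] 0x18e17e281e5d54d65122c91ca20675b65c69844f35038c1430440800038e17e281e5d54d65122c91ca20675b65c69844f35038c143044080001) = true := by decide +kernel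
theorem pG6cx69 : Nat.ble 1 (p1S sp6c 1 [G6cx104,G6cx107] G6cx69 2 4 [] 0x175b65a71844f34e40c1430421008e17e089e5d54d45922c91c82860038e17e281e5d54d65122c91ca20675b65c69844f35038c143044080001) = true := by decide +kernel
theorem pG6cx70 : Nat.ble 1 (p1S sp6c 1 [G6cx87,G6cx116] G6cx70 2 4 [] 0x10028e07e189e44e34f40c2c81c92865d44d559275a65b718142043100001) = true := by decide +kernel
theorem pG6cx71 : Nat.ble 1 (p1S sp6c 1 [G6cx117,G6cx118] G6cx71 2 4 [] 0x1002000) = true := by decide +kernel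
theorem pG6cx72 : Nat.ble 1 (p1S sp6c 1 [G6cx86,G6cx84] G6cx72 2 3 [] 0x16dc65d61a0c40450025564d749424a1cb1883d035130e8627e37a00037e282385e3503913cc0440850c04d65175521ca20b24665c69d6d8001) = true := by decide +kernel
theorem pG6cx73 : Nat.ble 1 (p1S sp6c 1 [G6cx100,G6cx106] G6cx73 2 3 [] 0x11cb2462887e385e8a04d75525940450c010265d6d871a3513cc40e0038227e18de5164d55d208404314039034f44c69c65b75820a1c92c6001) = true := by decide +kernel
theorem pG6cx74 : Nat.ble 1 (p1S sp6c 1 [G6cx119,G6cx120,G6cx112] G6cx74 2 4 [] 0x11020450c05944d75528a07e385e2881cb24671a65d6d840e3513cc00571d69b6198a382179f41138f30d59751549310508300128b209187003002000) = true := by decide +kernel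
theorem pG6cx75 : Nat.ble 1 (p1S sp6c 1 [G6cx120,G6cx86] G6cx75 2 4 [] 0x15d35564948df8627a02c724a18844d3d030e7596dc61a1410c40020031cb24818a7e38607a24d75544963513ce3100450c200465d6da61c001) = true := by decide +kernel
theorem pG6cx76 : Nat.ble 1 (p1S sp6c 1 [G6cx102] G6cx76 2 3 [] 0x15954d45d240f34e44c1030421408a17e08de71b65a7582891c82c6001) = true := by decide +kernel
theorem pG6cx77 : Nat.ble 1 (p1S sp6c 1 [G6cx109] G6cx77 2 3 [] 0x12482ca1870c21440015545d64933ce45030d8608e279f6da75c619001) = true := by decide +kernel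
theorem pG6cx78 : Nat.ble 1 (p1S sp6c 1 [G6cx85,G6cx121,G6cx122] G6cx78 2 4 [] 0x10041c62ca2480401440c27de8e286065875c6da4d25d655434c4503ce00300224a1c82c63d034e44c8627e08de0c40421405564d45d26dc65a758001) = true := by decide +kernel
theorem pG6cx79 : Nat.ble 1 (p1S sp6c 1 [G6cx83] G6cx79 2 4 [] 0x18e07e285e44e3503cc2c81ca24675a65c6d85d44d65521420440c0001) = true := by decide +kernel
theorem pG6cx80 : Nat.ble 1 (p1S sp6c 1 [G6cx86] G6cx80 2 4 [] 0x140f38c3512892061cb10308004571b69865d8a181e7e35955124d7001) = true := by decide +kernel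
theorem pG6cx81 : Nat.ble 1 (p1S sp6c 1 [G6cx114,G6cx94] G6cx81 2 4 [] 0x15d54964d475b61c65a44f31034e2c918a1c88e17a27e01430040420038e07e189e44e34f40c2c81c92865d44d559275a65b718142043100001) = true := by decide +kernel
theorem pG6cx82 : Nat.ble 1 (p1S sp6c 1 [G6cx118] G6cx82 2 3 [] 0x11010c21407196da7582872482c65935545d240d3ce44c89f8608de001) = true := by decide +kernel
theorem pG6cx83 : Nat.ble 1 (p1S sp6c 1 [G6cx123] G6cx83 2 5 [] 0x1000) = true := by decide +kernel
theorem pG6cx84 : Nat.ble 1 (p1S sp6c 1 [G6cx124] G6cx84 2 5 [] 0x1000) = true := by decide +kernel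
theorem pG6cx85 : Nat.ble 1 (p1S sp6c 1 [G6cx125] G6cx85 2 5 [] 0x1000) = true := by decide +kernel
theorem pG6cx86 : Nat.ble 1 (p1S sp6c 1 [G6cx126] G6cx86 2 5 [] 0x1000) = true := by decide +kernel
theorem pG6cx87 : Nat.ble 1 (p1S sp6c 1 [G6cx127] G6cx87 2 5 [] 0x1000) = true := by decide +kernel
theorem pG6cx88 : Nat.ble 1 (p1S sp6c 1 [G6cx128] G6cx88 2 5 [] 0x1000) = true := by decide +kernel
theorem pG6cx89 : Nat.ble 1 (p1S sp6c 1 [G6cx129] G6cx89 2 5 [] 0x1000) = true := by decide +kernel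
theorem pG6cx90 : Nat.ble 1 (p1S sp6c 1 [fr2] G6cx90 2 5 [] 0x114b45d5e328489641c3e10c96d569420280e4cd65f04779848c180001) = true := by decide +kernel
theorem pG6cx91 : Nat.ble 1 (p1S sp6c 1 [G6cx128] G6cx91 2 5 [] 0x17de8608e24d25545d61c62482ca6586da75c0400c214434c3ce450001) = true := by decide +kernel
theorem pG6cx92 : Nat.ble 1 (p1S sp6c 1 [G6cx130] G6cx92 2 5 [] 0x1000) = true := by decide +kernel
theorem pG6cx93 : Nat.ble 1 (p1S sp6c 1 [G6cx131] G6cx93 2 5 [] 0x1000) = true := by decide +kernel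
theorem pG6cx94 : Nat.ble 1 (p1S sp6c 1 [G6cx132] G6cx94 2 5 [] 0x1000) = true := by decide +kernel
theorem pG6cx95 : Nat.ble 1 (p1S sp6c 1 [G6cx133] G6cx95 2 5 [] 0x1000) = true := by decide +kernel
theorem pG6cx96 : Nat.ble 1 (p1S sp6c 1 [fr1] G6cx96 2 5 [] 0x17168902846d584f2437578d12c569480e2026537cd1c161278c180001) = true := by decide +kernel
theorem pG6cx97 : Nat.ble 1 (p1S sp6c 1 [G6cx134] G6cx97 2 5 [] 0x1000) = true := by decide +kernel
theorem pG6cx98 : Nat.ble 1 (p1S sp6c 1 [G6cx131] G6cx98 2 5 [] 0x16dc75a65824a2c81c65565d44d20c41420408628e07de3d044e34c001) = true := by decide +kernel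
theorem pG6cx99 : Nat.ble 1 (p1S sp6c 1 [G6cx134] G6cx99 2 5 [] 0x134e45030f4d45d64951c82ca1890421440037e08e27a165a75c61b001) = true := by decide +kernel
theorem pG6cx100 : Nat.ble 1 (p1S sp6c 1 [G6cx135] G6cx100 2 5 [] 0x1000) = true := by decide +kernel
theorem pG6cx101 : Nat.ble 1 (p1S sp6c 1 [G6cx135] G6cx101 2 5 [] 0x139140f34c8238a17de69d71b6585175954d220b2891c6085103040001) = true := by decide +kernel
theorem pG6cx102 : Nat.ble 1 (p1S sp6c 1 [G6cx136] G6cx102 2 5 [] 0x1000) = true := by decide +kernel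
theorem pG6cx103 : Nat.ble 1 (p1S sp6c 1 [G6cx131] G6cx103 2 5 [] 0x15d45564931420c400175a6dc6192c824a18744e3d030d8e086279f001) = true := by decide +kernel
theorem pG6cx104 : Nat.ble 1 (p1S sp6c 1 [G6cx137] G6cx104 2 5 [] 0x1000) = true := by decide +kernel
theorem pG6cx105 : Nat.ble 1 (p1S sp6c 1 [G6cx138] G6cx105 2 5 [] 0x1000) = true := by decide +kernel
theorem pG6cx106 : Nat.ble 1 (p1S sp6c 1 [G6cx138] G6cx106 2 5 [] 0x11ca2c824665c75a6d87e28e085e35044e3cc4d65d45520441420c0001) = true := by decide +kernel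
theorem pG6cx107 : Nat.ble 1 (p1S sp6c 1 [G6cx139] G6cx107 2 4 [] 0x1000) = true := by decide +kernel
theorem pG6cx108 : Nat.ble 1 (p1S sp6c 1 [G6cx136] G6cx108 2 5 [] 0x18218a379f38f41130d51559749369b71d61920928b187083105001001) = true := by decide +kernel
theorem pG6cx109 : Nat.ble 1 (p1S sp6c 1 [G6cx126] G6cx109 2 5 [] 0x14d55d459204314210034f44e40c65b75a7181c92c82867e18e089e001) = true := by decide +kernel
theorem pG6cx110 : Nat.ble 1 (p1S sp6c 1 [G6cx140] G6cx110 2 5 [] 0x1000) = true := by decide +kernel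
theorem pG6cx111 : Nat.ble 1 (p1S sp6c 1 [fr0] G6cx111 2 5 [] 0x18e18a07de5d55944d275b71a65844f40e34c2c92881c6143102040001) = true := by decide +kernel
theorem pG6cx112 : Nat.ble 1 (p1S sp6c 1 [G6cx132] G6cx112 2 5 [] 0x11cb24a2067e386281e4d755651265d6dc6983513d038c0450c4080001) = true := by decide +kernel
theorem pG6cx113 : Nat.ble 1 (p1S sp6c 1 [G6cx129] G6cx113 2 5 [] 0x10440c50807e286381e3503d138c65c6dd6984d65575121ca24b206001) = true := by decide +kernel
theorem pG6cx114 : Nat.ble 1 (p1S sp6c 1 [G6cx129] G6cx114 2 5 [] 0x114310108075b71969844f40d38c8e189f81e2c92872065d5593512001) = true := by decide +kernel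
theorem pG6cx115 : Nat.ble 1 (p1S sp6c 1 [G6cx140] G6cx115 2 5 [] 0x140f34c44e2891c62c871b65875a8a17de8e05954d25d4103040142001) = true := by decide +kernel
theorem pG6cx116 : Nat.ble 1 (p1S sp6c 1 [G6cx125] G6cx116 2 5 [] 0x175b65a71844f34e40c1430421005d54d45928e17e089e2c91c8286001) = true := by decide +kernel
theorem pG6cx117 : Nat.ble 1 (p1S sp6c 1 [G6cx125] G6cx117 2 5 [] 0x10450c210065d6da7183513ce40c4d75545927e386089e1cb248286001) = true := by decide +kernel
theorem pG6cx118 : Nat.ble 1 (p1S sp6c 1 [G6cx141] G6cx118 2 5 [] 0x1000) = true := by decide +kernel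
theorem pG6cx119 : Nat.ble 1 (p1S sp6c 1 [fr2] G6cx119 2 5 [] 0x119e31260040a5a211c6cf24385581a08850e5c57512e30537d9347001) = true := by decide +kernel
theorem pG6cx120 : Nat.ble 1 (p1S sp6c 1 [G6cx132] G6cx120 2 5 [] 0x16da65c61d0c20440058607e27a32481ca18b3ce3503115544d6497001) = true := by decide +kernel
theorem pG6cx121 : Nat.ble 1 (p1S sp6c 1 [G6cx126] G6cx121 2 5 [] 0x141138f34c5975154d210508304028b2091c68a38217de71d69b658001) = true := by decide +kernel
theorem pG6cx122 : Nat.ble 1 (p1S sp6c 1 [G6cx126] G6cx122 2 5 [] 0x18218a37de69b71d65808310504020928b1c638f41134c5155974d2001) = true := by decide +kernel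
theorem tsG6cx123 : Nat.ble 1 (tabS sp6c TG6cx123 G6cx123) = true := by decide +kernel
theorem tcG6cx123_3 : Nat.ble 1 (tabC sp6c TG6cx123 ex1 G6cx123 3) = true := by decide +kernel
theorem rG6cx123_0 : Nat.ble 1 (run sp6c TG6cx123 [] 4000 FG6cx123_0 CG6cx123_0 0x4019) = true := by decide +kernel
theorem tsG6cx124 : Nat.ble 1 (tabS sp6c TG6cx124 G6cx124) = true := by decide +kernel
theorem tcG6cx124_3 : Nat.ble 1 (tabC sp6c TG6cx124 ex1 G6cx124 3) = true := by decide +kernel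
theorem rG6cx124_0 : Nat.ble 1 (run sp6c TG6cx124 [] 4000 FG6cx124_0 CG6cx124_0 0x401c60401a) = true := by decide +kernel
theorem tsG6cx125 : Nat.ble 1 (tabS sp6c TG6cx125 G6cx125) = true := by decide +kernel
theorem tcG6cx125_3 : Nat.ble 1 (tabC sp6c TG6cx125 ex1 G6cx125 3) = true := by decide +kernel
theorem rG6cx125_0 : Nat.ble 1 (run sp6c TG6cx125 [] 4000 FG6cx125_0 CG6cx125_0 0x4019) = true := by decide +kernel
theorem tsG6cx126 : Nat.ble 1 (tabS sp6c TG6cx126 G6cx126) = true := by decide +kernel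
theorem tcG6cx126_3 : Nat.ble 1 (tabC sp6c TG6cx126 ex1 G6cx126 3) = true := by decide +kernel
theorem rG6cx126_0 : Nat.ble 1 (run sp6c TG6cx126 [] 4000 FG6cx126_0 CG6cx126_0 0x4119) = true := by decide +kernel
theorem tsG6cx127 : Nat.ble 1 (tabS sp6c TG6cx127 G6cx127) = true := by decide +kernel
theorem tcG6cx127_3 : Nat.ble 1 (tabC sp6c TG6cx127 ex1 G6cx127 3) = true := by decide +kernel
theorem rG6cx127_0 : Nat.ble 1 (run sp6c TG6cx127 [] 4000 FG6cx127_0 CG6cx127_0 0x4019) = true := by decide +kernel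
theorem tsG6cx128 : Nat.ble 1 (tabS sp6c TG6cx128 G6cx128) = true := by decide +kernel
theorem tcG6cx128_3 : Nat.ble 1 (tabC sp6c TG6cx128 ex1 G6cx128 3) = true := by decide +kernel
theorem rG6cx128_0 : Nat.ble 1 (run sp6c TG6cx128 [] 4000 FG6cx128_0 CG6cx128_0 0x4019) = true := by decide +kernel
theorem tsG6cx129 : Nat.ble 1 (tabS sp6c TG6cx129 G6cx129) = true := by decide +kernel
theorem tcG6cx129_3 : Nat.ble 1 (tabC sp6c TG6cx129 ex1 G6cx129 3) = true := by decide +kernel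
theorem rG6cx129_0 : Nat.ble 1 (run sp6c TG6cx129 [] 4000 FG6cx129_0 CG6cx129_0 0x4019) = true := by decide +kernel
theorem tsG6cx130 : Nat.ble 1 (tabS sp6c TG6cx130 G6cx130) = true := by decide +kernel
theorem tcG6cx130_3 : Nat.ble 1 (tabC sp6c TG6cx130 ex1 G6cx130 3) = true := by decide +kernel
theorem rG6cx130_0 : Nat.ble 1 (run sp6c TG6cx130 [] 4000 FG6cx130_0 CG6cx130_0 0x4019) = true := by decide +kernel
theorem tsG6cx131 : Nat.ble 1 (tabS sp6c TG6cx131 G6cx131) = true := by decide +kernel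
theorem tcG6cx131_3 : Nat.ble 1 (tabC sp6c TG6cx131 ex1 G6cx131 3) = true := by decide +kernel
theorem rG6cx131_0 : Nat.ble 1 (run sp6c TG6cx131 [] 4000 FG6cx131_0 CG6cx131_0 0x4019) = true := by decide +kernel
theorem tsG6cx132 : Nat.ble 1 (tabS sp6c TG6cx132 G6cx132) = true := by decide +kernel
theorem tcG6cx132_3 : Nat.ble 1 (tabC sp6c TG6cx132 ex1 G6cx132 3) = true := by decide +kernel
theorem rG6cx132_0 : Nat.ble 1 (run sp6c TG6cx132 [] 4000 FG6cx132_0 CG6cx132_0 0x4219) = true := by decide +kernel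
theorem tsG6cx133 : Nat.ble 1 (tabS sp6c TG6cx133 G6cx133) = true := by decide +kernel
theorem tcG6cx133_3 : Nat.ble 1 (tabC sp6c TG6cx133 ex1 G6cx133 3) = true := by decide +kernel
theorem rG6cx133_0 : Nat.ble 1 (run sp6c TG6cx133 [] 4000 FG6cx133_0 CG6cx133_0 0x4019) = true := by decide +kernel
theorem tsG6cx134 : Nat.ble 1 (tabS sp6c TG6cx134 G6cx134) = true := by decide +kernel
theorem tcG6cx134_3 : Nat.ble 1 (tabC sp6c TG6cx134 ex1 G6cx134 3) = true := by decide +kernel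
theorem rG6cx134_0 : Nat.ble 1 (run sp6c TG6cx134 [] 4000 FG6cx134_0 CG6cx134_0 0x4119) = true := by decide +kernel
theorem tsG6cx135 : Nat.ble 1 (tabS sp6c TG6cx135 G6cx135) = true := by decide +kernel
theorem tcG6cx135_3 : Nat.ble 1 (tabC sp6c TG6cx135 ex1 G6cx135 3) = true := by decide +kernel
theorem rG6cx135_0 : Nat.ble 1 (run sp6c TG6cx135 [] 4000 FG6cx135_0 CG6cx135_0 0x4119) = true := by decide +kernel
theorem tsG6cx136 : Nat.ble 1 (tabS sp6c TG6cx136 G6cx136) = true := by decide +kernel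
theorem tcG6cx136_3 : Nat.ble 1 (tabC sp6c TG6cx136 ex1 G6cx136 3) = true := by decide +kernel
theorem rG6cx136_0 : Nat.ble 1 (run sp6c TG6cx136 [] 4000 FG6cx136_0 CG6cx136_0 0x4319) = true := by decide +kernel
theorem tsG6cx137 : Nat.ble 1 (tabS sp6c TG6cx137 G6cx137) = true := by decide +kernel
theorem tcG6cx137_3 : Nat.ble 1 (tabC sp6c TG6cx137 ex1 G6cx137 3) = true := by decide +kernel
theorem rG6cx137_0 : Nat.ble 1 (run sp6c TG6cx137 [] 4000 FG6cx137_0 CG6cx137_0 0x4019) = true := by decide +kernel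
theorem tsG6cx138 : Nat.ble 1 (tabS sp6c TG6cx138 G6cx138) = true := by decide +kernel
theorem tcG6cx138_3 : Nat.ble 1 (tabC sp6c TG6cx138 ex1 G6cx138 3) = true := by decide +kernel
theorem rG6cx138_0 : Nat.ble 1 (run sp6c TG6cx138 [] 4000 FG6cx138_0 CG6cx138_0 0x4019) = true := by decide +kernel
theorem tsG6cx139 : Nat.ble 1 (tabS sp6c TG6cx139 G6cx139) = true := by decide +kernel
theorem tcG6cx139_3 : Nat.ble 1 (tabC sp6c TG6cx139 ex1 G6cx139 3) = true := by decide +kernel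
theorem rG6cx139_0 : Nat.ble 1 (run sp6c TG6cx139 [] 4000 FG6cx139_0 CG6cx139_0 0x4019) = true := by decide +kernel
theorem tsG6cx140 : Nat.ble 1 (tabS sp6c TG6cx140 G6cx140) = true := by decide +kernel
theorem tcG6cx140_3 : Nat.ble 1 (tabC sp6c TG6cx140 ex1 G6cx140 3) = true := by decide +kernel
theorem rG6cx140_0 : Nat.ble 1 (run sp6c TG6cx140 [] 4000 FG6cx140_0 CG6cx140_0 0x4219) = true := by decide +kernel
theorem tsG6cx141 : Nat.ble 1 (tabS sp6c TG6cx141 G6cx141) = true := by decide +kernel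
theorem tcG6cx141_3 : Nat.ble 1 (tabC sp6c TG6cx141 ex1 G6cx141 3) = true := by decide +kernel
theorem rG6cx141_0 : Nat.ble 1 (run sp6c TG6cx141 [] 4000 FG6cx141_0 CG6cx141_0 0x4019) = true := by decide +kernel

end Pool.Agent.P.MP_9e9aa3_co.E
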