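import Pool.Agent.P.MP_9e9aa3_co.D6l
set_option autoImplicit false
set_option maxRecDepth 100000

namespace Pool.Agent.P.MP_9e9aa3_co.E

theorem pG6lx0 : Nat.ble 1 (p1N sp6l 0 [G6lx1,G6lx2,G6lx3,G6lx4,G6lx5,G6lx6,G6lx7,G6lx8,G6lx9,G6lx10,G6lx11,G6lx12,G6lx13,G6lx14,G6lx15,G6lx16,G6lx17,G6lx18,G6lx19,G6lx20,G6lx21,G6lx22,G6lx23,G6lx24] G6lx0 3 [] 0x102e02c02a02802602402202001e01c01a01801601401201000e00c00a008006004002000) = true := by decide +kernel
theorem pG6lx1 : Nat.ble 1 (p1N sp6l 0 [G6lx25] G6lx1 4 [] 0x1000) = true := by decide +kernel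
theorem pG6lx2 : Nat.ble 1 (p1N sp6l 0 [G6lx26] G6lx2 4 [] 0x1000) = true := by decide +kernel
theorem pG6lx3 : Nat.ble 1 (p1N sp6l 0 [G6lx27] G6lx3 4 [] 0x1000) = true := by decide +kernel
theorem pG6lx4 : Nat.ble 1 (p1N sp6l 0 [G6lx28] G6lx4 4 [] 0x1000) = true := by decide +kernel
theorem pG6lx5 : Nat.ble 1 (p1N sp6l 0 [G6lx29] G6lx5 4 [] 0x1000) = true := by decide +kernel
theorem pG6lx6 : Nat.ble 1 (p1N sp6l 0 [G6lx30] G6lx6 4 [] 0x1000) = true := by decide +kernel
theorem pG6lx7 : Nat.ble 1 (p1N sp6l 0 [G6lx31] G6lx7 4 [] 0x1000) = true := by decide +kernel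
theorem pG6lx8 : Nat.ble 1 (p1N sp6l 0 [G6lx32] G6lx8 4 [] 0x1000) = true := by decide +kernel
theorem pG6lx9 : Nat.ble 1 (p1N sp6l 0 [G6lx33] G6lx9 4 [] 0x1000) = true := by decide +kernel
theorem pG6lx10 : Nat.ble 1 (p1N sp6l 0 [G6lx34] G6lx10 4 [] 0x1000) = true := by decide +kernel
theorem pG6lx11 : Nat.ble 1 (p1N sp6l 0 [G6lx35] G6lx11 4 [] 0x1000) = true := by decide +kernel
theorem pG6lx12 : Nat.ble 1 (p1N sp6l 0 [G6lx36] G6lx12 4 [] 0x1000) = true := by decide +kernel
theorem pG6lx13 : Nat.ble 1 (p1N sp6l 0 [G6lx37] G6lx13 4 [] 0x1000) = true := by decide +kernel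
theorem pG6lx14 : Nat.ble 1 (p1N sp6l 0 [G6lx38] G6lx14 4 [] 0x1000) = true := by decide +kernel
theorem pG6lx15 : Nat.ble 1 (p1N sp6l 0 [G6lx39] G6lx15 4 [] 0x1000) = true := by decide +kernel
theorem pG6lx16 : Nat.ble 1 (p1N sp6l 0 [G6lx40] G6lx16 4 [] 0x1000) = true := by decide +kernel
theorem pG6lx17 : Nat.ble 1 (p1N sp6l 0 [G6lx41] G6lx17 4 [] 0x1000) = true := by decide +kernel
theorem pG6lx18 : Nat.ble 1 (p1N sp6l 0 [G6lx42] G6lx18 4 [] 0x1000) = true := by decide +kernel
theorem pG6lx19 : Nat.ble 1 (p1N sp6l 0 [G6lx43] G6lx19 4 [] 0x1000) = true := by decide +kernel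
theorem pG6lx20 : Nat.ble 1 (p1N sp6l 0 [G6lx44] G6lx20 4 [] 0x1000) = true := by decide +kernel
theorem pG6lx21 : Nat.ble 1 (p1N sp6l 0 [G6lx45] G6lx21 4 [] 0x1000) = true := by decide +kernel
theorem pG6lx22 : Nat.ble 1 (p1N sp6l 0 [G6lx46] G6lx22 4 [] 0x1000) = true := by decide +kernel
theorem pG6lx23 : Nat.ble 1 (p1N sp6l 0 [G6lx47] G6lx23 4 [] 0x1000) = true := by decide +kernel
theorem pG6lx24 : Nat.ble 1 (p1N sp6l 0 [G6lx48] G6lx24 4 [] 0x1000) = true := by decide +kernel
theorem tsG6lx25 : Nat.ble 1 (tabS sp6l TG6lx25 G6lx25) = true := by decide +kernel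
theorem tcG6lx25_6 : Nat.ble 1 (tabC sp6l TG6lx25 (exOut 7 lam) G6lx25 6) = true := by decide +kernel
theorem tcG6lx25_7 : Nat.ble 1 (tabC sp6l TG6lx25 (exOut 7 lam) G6lx25 7) = true := by decide +kernel
theorem tcG6lx25_8 : Nat.ble 1 (tabC sp6l TG6lx25 (exOut 7 lam) G6lx25 8) = true := by decide +kernel
theorem rG6lx25_0 : Nat.ble 1 (run sp6l TG6lx25 [] 4000 FG6lx25_0 CG6lx25_0 0x1050402d8462008d43100749a0802304c402f8a6200d81410062118805f14c4027906200d163100d82a0803008c40151262015ce4100a8218802204c402e068200d433100a8218802204c401f1c62016cf3100d40a0806014c4025b46200a61410082198805210c40170482009413100a421880394cc40154062019c2410088218803228c40280e8200c82310080198804c09040298862010033100b0398804b2cc4032868201544310068698803f71040310a6200bc23100900a080430cc4017846200a1c310088c98806408c402b8262011903100a4098804458c4013886201ac3310096098805a0cc402db86200f4831005e118806914c401a06620124e3100ac298804b4cc4011026201a0231005221880331cc4027426201004310068198806604c401f846200b1d3100be598803808c40150a62018ff3c) = true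 := by decide +kernel
theorem tsG6lx26 : Nat.ble 1 (tabS sp6l TG6lx26 G6lx26) = true := by decide +kernel
theorem tcG6lx26_6 : Nat.ble 1 (tabC sp6l TG6lx26 (exOut 7 lam) G6lx26 6) = true := by decide +kernel
theorem tcG6lx26_7 : Nat.ble 1 (tabC sp6l TG6lx26 (exOut 7 lam) G6lx26 7) = true := by decide +kernel
theorem tcG6lx26_8 : Nat.ble 1 (tabC sp6l TG6lx26 (exOut 7 lam) G6lx26 8) = true := by decide +kernel
theorem rG6lx26_0 : Nat.ble 1 (run sp6l TG6lx26 [] 4000 FG6lx26_0 CG6lx26_0 0x1050402c026200c1931005ad20803008c402f8a6200a4241004a098805f14c40231a620099b3100d822080420cc40131062012954100c2298802204c4027848201504310044098803454c4027286201a0141009c19880243cc40241a82009013100a4218804005040220662014843100b8498803d44c40338682014c4310086598805d1d04021866200bc23100b21a0802a10c4021866200bc2310096398805828c403284820188531007a9988036890402a8862010433100760a0803208c4020866200b9a31006ef98806408c402c02620134231009c49880416cc401a866201ac531004c218803c1cc402d8a6200f5a31005e118806a10c401e8462015843100b0a98804934c4011026201a4231009409880395cc402f826200dd1310056298806604c401b0662009e23100a451880450cc40130862018ff3c)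 = true := by decide +kernel
theorem tsG6lx27 : Nat.ble 1 (tabS sp6l TG6lx27 G6lx27) = true := by decide +kernel
theorem tcG6lx27_6 : Nat.ble 1 (tabC sp6l TG6lx27 (exOut 7 lam) G6lx27 6) = true := by decide +kernel
theorem tcG6lx27_7 : Nat.ble 1 (tabC sp6l TG6lx27 (exOut 7 lam) G6lx27 7) = true := by decide +kernel
theorem tcG6lx27_8 : Nat.ble 1 (tabC sp6l TG6lx27 (exOut 7 lam) G6lx27 8) = true := by decide +kernel
theorem rG6lx27_0 : Nat.ble 1 (run sp6l TG6lx27 [] 4000 FG6lx27_0 CG6lx27_0 0x2220803408c40279262011c741009e218805f14c401f0482010433100be29880311cc401f906201b0241004a09880365cc402e288200d8231009a2188058050401e826200d8231009a218802c44c402b266201ac141007e098806034c40171c8201805310084198802a1104012026201083310096718802840c4034088201885310070798804a7d04011826200cc23100a60a0805a0cc4011826200cc231008c518805284c403284820140431005059880306d040218662008813100721a0803508c4011026201794310070e98806310c402b066200988310092a18803310c4014046201a8531007e098803740c402e94620134531007021880690cc4025046200f0231007e998802f7cc40110262019c3310050118805144c402f86620148731008a298806610c40180262016413100acd98804238c401586620193f3c)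 = true := by decide +kernel
theorem tsG6lx28 : Nat.ble 1 (tabS sp6l TG6lx28 G6lx28) = true := by decide +kernel
theorem tcG6lx28_6 : Nat.ble 1 (tabC sp6l TG6lx28 (exOut 7 lam) G6lx28 6) = true := by decide +kernel
theorem tcG6lx28_7 : Nat.ble 1 (tabC sp6l TG6lx28 (exOut 7 lam) G6lx28 7) = true := by decide +kernel
theorem tcG6lx28_8 : Nat.ble 1 (tabC sp6l TG6lx28 (exOut 7 lam) G6lx28 8) = true := by decide +kernel
theorem rG6lx28_0 : Nat.ble 1 (run sp6l TG6lx28 [] 4000 FG6lx28_0 CG6lx28_0 0x2120804908c4030106200e874100c0298804e10c4018868200d0231009c218803e1cc4019126201b03410046098804340c40299c82010c33100be298804b05040180262010c33100be298802638c40249a6201a854100a2218804550c402cb28200901310080198805e050402684620090131008019880392cc402d346201a034100c4298802b28c401ec08200d82310044098804609040210662008813100aa798804588c403382820104331006489880295504027886200d4231005c220802504c401a846201615310056b98806414c4024846200a893100ac798804014c4015866201ac431007a098804c04c4024c06200d55310050118806910c401902620110b3100be718805410c40228a62019823100b2198802f34c401e066200c9931004409880650cc40148462016c23100b4b18804e1cc401c0862018ff3c)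 = true := by decide +kernel
theorem tsG6lx29 : Nat.ble 1 (tabS sp6l TG6lx29 G6lx29) = true := by decide +kernel
theorem tcG6lx29_6 : Nat.ble 1 (tabC sp6l TG6lx29 (exOut 7 lam) G6lx29 6) = true := by decide +kernel
theorem tcG6lx29_7 : Nat.ble 1 (tabC sp6l TG6lx29 (exOut 7 lam) G6lx29 7) = true := by decide +kernel
theorem tcG6lx29_8 : Nat.ble 1 (tabC sp6l TG6lx29 (exOut 7 lam) G6lx29 8) = true := by decide +kernel
theorem rG6lx29_0 : Nat.ble 1 (run sp6l TG6lx29 [] 4000 FG6lx29_0 CG6lx29_0 0x473100c0798804200c40218e62006ce3100d4020805f10c40260a8200fc03100a6d18803b8cc40290862012c9310065118806340c40302062015d131007a998803c3cc40340882013813100b8118801a38c401f9262011c931008ab9880306cc40339462012503100b6298801840c402ba26200f633100787988065010401e00620184431006c218805928c40198462015433100a0a9880695cc40220a6200cc141007a018803914c40288a62013d53100cc020803c00c401006620168c3100a6218804c1cc400dbe620193f3c) = true := by decide +kernel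
theorem tsG6lx30 : Nat.ble 1 (tabS sp6l TG6lx30 G6lx30) = true := by decide +kernel
theorem tcG6lx30_6 : Nat.ble 1 (tabC sp6l TG6lx30 (exOut 7 lam) G6lx30 6) = true := by decide +kernel
theorem tcG6lx30_7 : Nat.ble 1 (tabC sp6l TG6lx30 (exOut 7 lam) G6lx30 7) = true := by decide +kernel
theorem tcG6lx30_8 : Nat.ble 1 (tabC sp6l TG6lx30 (exOut 7 lam) G6lx30 8) = true := by decide +kernel
theorem rG6lx30_0 : Nat.ble 1 (run sp6l TG6lx30 [] 4000 FG6lx30_0 CG6lx30_0 0x473100a4a18803500c401b0e62008553100ca020805414c402c088200c803100bf098804770c40300a620164831007ee988064110402d82620138331003ea98803240c401e106200e4831006f018806a2cc402b2e62013c431002eb98804970c40182c6200bd43100d0b9880525cc40249a6200c1631005ea18806640c401c08620100141005e018804510c402f08620170e3100d2020803000c40298a62010c531009859880400cc403104620174e3100ce020803000c400e8462013523100be29880581cc4010b262018ff3c) = true := by decide +kernel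
theorem tsG6lx31 : Nat.ble 1 (tabS sp6l TG6lx31 G6lx31) = true := by decide +kernel
theorem tcG6lx31_6 : Nat.ble 1 (tabC sp6l TG6lx31 (exOut 7 lam) G6lx31 6) = true := by decide +kernel
theorem tcG6lx31_7 : Nat.ble 1 (tabC sp6l TG6lx31 (exOut 7 lam) G6lx31 7) = true := by decide +kernel
theorem tcG6lx31_8 : Nat.ble 1 (tabC sp6l TG6lx31 (exOut 7 lam) G6lx31 8) = true := by decide +kernel
theorem rG6lx31_0 : Nat.ble 1 (run sp6l TG6lx31 [] 4000 FG6lx31_0 CG6lx31_0 0x1010401a866200f424100ac018804658c402716620124e31008e198803e3cc40348e6200ddd3100ba018805c1cc400f38620194241009c118804144c402b16620188b3100be798804c5cc403392620101b310076d98805f44c401934620164e3100b0e98806650c402ca8620161131006e898803274c4031c062017823100aa0a0805900c40280462010823100891988068010402c006200d833100a4198802f24c402a886201205310087198806405040181c62013d731008c198803d1cc400f1a6201abf3c) = true := by decide +kernel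
theorem tsG6lx32 : Nat.ble 1 (tabS sp6l TG6lx32 G6lx32) = true := by decide +kernel
theorem tcG6lx32_6 : Nat.ble 1 (tabC sp6l TG6lx32 (exOut 7 lam) G6lx32 6) = true := by decide +kernel
theorem tcG6lx32_7 : Nat.ble 1 (tabC sp6l TG6lx32 (exOut 7 lam) G6lx32 7) = true := by decide +kernel
theorem tcG6lx32_8 : Nat.ble 1 (tabC sp6l TG6lx32 (exOut 7 lam) G6lx32 8) = true := by decide +kernel
theorem rG6lx32_0 : Nat.ble 1 (run sp6l TG6lx32 [] 4000 FG6lx32_0 CG6lx32_0 0x10104022046200bc3410094018803844c402d146201595310074118803150c40348e62010e23100a0018804f1cc400cc66201a0f310098798804b58c4021ac6200fa23100cc120805a0cc400e1e62012913100b0518805528c4029206201908310065018804820c4018a26200fa1310098a98804b88c40318082012c0310084118806008c401e106201885310076218803670c4033b662014433100c40a0804c00c402d866200d4331006ee188065050401eaa6201710310070118802f1cc400ca66201abf3c) = true := by decide +kernel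
theorem tsG6lx33 : Nat.ble 1 (tabS sp6l TG6lx33 G6lx33) = true := by decide +kernel
theorem tcG6lx33_6 : Nat.ble 1 (tabC sp6l TG6lx33 (exOut 7 lam) G6lx33 6) = true := by decide +kernel
theorem tcG6lx33_7 : Nat.ble 1 (tabC sp6l TG6lx33 (exOut 7 lam) G6lx33 7) = true := by decide +kernel
theorem tcG6lx33_8 : Nat.ble 1 (tabC sp6l TG6lx33 (exOut 7 lam) G6lx33 8) = true := by decide +kernel
theorem rG6lx33_0 : Nat.ble 1 (run sp6l TG6lx33 [] 4000 FG6lx33_0 CG6lx33_0 0x2020804814c402b8682008803100bf118805054c40310a620168a310098b98806638c4022b26200a40310050718801d70c40318e620159d310086398802a4cc401e2a620095b310048c98806915040108262016d3310044498804934c40169a6200a9f3100d099880454cc401e10620095b310048c98806524c4015866201482410048018804d0cc402e8662017073100d4020802500c40238a62014c531007a898805210c40300262017873100c8020802500c400e0262010183100be298805738c400ea862019ff3c) = true := by decide +kernel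
theorem tsG6lx34 : Nat.ble 1 (tabS sp6l TG6lx34 G6lx34) = true := by decide +kernel
theorem tcG6lx34_6 : Nat.ble 1 (tabC sp6l TG6lx34 (exOut 7 lam) G6lx34 6) = true := by decide +kernel
theorem tcG6lx34_7 : Nat.ble 1 (tabC sp6l TG6lx34 (exOut 7 lam) G6lx34 7) = true := by decide +kernel

end Pool.Agent.P.MP_9e9aa3_co.E
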