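import Pool.Agent.P.MP_9e9aa3_co.D6l
set_option autoImplicit false
set_option maxRecDepth 100000

namespace Pool.Agent.P.MP_9e9aa3_co.E

theorem tcG6lx45_6 : Nat.ble 1 (tabC sp6l TG6lx45 (exOut 7 lam) G6lx45 6) = true := by decide +kernel
theorem tcG6lx45_7 : Nat.ble 1 (tabC sp6l TG6lx45 (exOut 7 lam) G6lx45 7) = true := by decide +kernel
theorem tcG6lx45_8 : Nat.ble 1 (tabC sp6l TG6lx45 (exOut 7 lam) G6lx45 8) = true := by decide +kernel
theorem rG6lx45_0 : Nat.ble 1 (run sp6l TG6lx45 [] 4000 FG6lx45_0 CG6lx45_0 0x5731009c698802c00c4016a862006ce3100d0020804f0cc401e888200940310082a18803b70c4021866200f88310064d9880633cc40291e6201390310046598802234c40348e6200f0f31009421880183cc40292062008dc31004469880670d0401d88620058e31004a518802f7cc40152062009d33100ca020802200c4028066200d43310078018801f38c401a026201182310084398806a28c4014886200d03410046018803810c40240862011c73100cc020802200c400e0262014cc310082198803d8cc400dba620193f3c) = true := by decide +kernel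
theorem tsG6lx46 : Nat.ble 1 (tabS sp6l TG6lx46 G6lx46) = true := by decide +kernel
theorem tcG6lx46_6 : Nat.ble 1 (tabC sp6l TG6lx46 (exOut 7 lam) G6lx46 6) = true := by decide +kernel
theorem tcG6lx46_7 : Nat.ble 1 (tabC sp6l TG6lx46 (exOut 7 lam) G6lx46 7) = true := by decide +kernel
theorem tcG6lx46_8 : Nat.ble 1 (tabC sp6l TG6lx46 (exOut 7 lam) G6lx46 8) = true := by decide +kernel
theorem rG6lx46_0 : Nat.ble 1 (run sp6l TG6lx46 [] 4000 FG6lx46_0 CG6lx46_0 0x2020802408c4019028200f0031006c818804d58c40258e6200d0231005e418806a44c4011b6620118031008e418801e70c4031906200c1a310050a98804024c40158e6200f9931007ad9880680504026826200e49310078418804a64c4020c2620100f3100ce698803e34c401e926200ac9310046d9880654cc402102620148241007a018805004c401d826200e953100cc020803e00c4012846201502310060018801b34c4029066200e0431006aa98806415040168e620138f31006c11880328cc400f166201a7f3c) = true := by decide +kernel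
theorem tsG6lx47 : Nat.ble 1 (tabS sp6l TG6lx47 G6lx47) = true := by decide +kernel
theorem tcG6lx47_6 : Nat.ble 1 (tabC sp6l TG6lx47 (exOut 7 lam) G6lx47 6) = true := by decide +kernel
theorem tcG6lx47_7 : Nat.ble 1 (tabC sp6l TG6lx47 (exOut 7 lam) G6lx47 7) = true := by decide +kernel
theorem tcG6lx47_8 : Nat.ble 1 (tabC sp6l TG6lx47 (exOut 7 lam) G6lx47 8) = true := by decide +kernel
theorem rG6lx47_0 : Nat.ble 1 (run sp6l TG6lx47 [] 4000 FG6lx47_0 CG6lx47_0 0x5d310084418803800c401cac62007073100ce020804110c4026868200c803100a0c98802e54c402708620124d31004ab1880630d04017066200687310065018803724c401a9e620089a3100d4598804c28c401e06620078a31008e498803154c4017906201a4a31008e518804224c4018a26200bc83100ca79880360cc4013888200c4031005619880550cc402a1c6201a0041005e018804310c401408620130031003a398802708c402982620144e3100cc020802f00c400d8462011463100a0218804d8cc400e2e620193f3c) = true := by decide +kernel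
theorem tsG6lx48 : Nat.ble 1 (tabS sp6l TG6lx48 G6lx48) = true := by decide +kernel
theorem tcG6lx48_6 : Nat.ble 1 (tabC sp6l TG6lx48 (exOut 7 lam) G6lx48 6) = true := by decide +kernel
theorem tcG6lx48_7 : Nat.ble 1 (tabC sp6l TG6lx48 (exOut 7 lam) G6lx48 7) = true := by decide +kernel
theorem tcG6lx48_8 : Nat.ble 1 (tabC sp6l TG6lx48 (exOut 7 lam) G6lx48 8) = true := by decide +kernel
theorem rG6lx48_0 : Nat.ble 1 (run sp6l TG6lx48 [] 4000 FG6lx48_0 CG6lx48_0 0x2020803004c401284820128031005249880406cc401e9c62009c1310044698806a2cc4018ac62014c03100a8398801854c40339062012c8310092818803940c4018ac6201a01410080118802020c402528620142231009e498803f28c40329062008d331006a398802224c401ca862012ce310092b1880640104024806200c81310090098802300c40109062011c4310056198802870c403334620134231008e0a0804b00c4020846200b8231005ae188063150401d1c62010ca31005209880258cc400c226201a7f3c) = true := by decide +kernel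

end Pool.Agent.P.MP_9e9aa3_co.E
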