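import Pool.Agent.P.MP_9e9aa3_co.D6t
set_option autoImplicit false
set_option maxRecDepth 100000

namespace Pool.Agent.P.MP_9e9aa3_co.E

theorem tsG6tx0 : Nat.ble 1 (tabS sp6t TG6tx0 G6tx0) = true := by decide +kernel
theorem tcG6tx0_3 : Nat.ble 1 (tabC sp6t TG6tx0 ex1 G6tx0 3) = true := by decide +kernel
theorem rG6tx0_0 : Nat.ble 1 (run sp6t TG6tx0 [] 4000 FG6tx0_0 CG6tx0_0 0x4619004440c8015186401312320050619003458c8013186400f14320048019) = true := by decide +kernel

end Pool.Agent.P.MP_9e9aa3_co.E
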