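import Pool.Agent.P.MP_9e9aa3_co.Specs
set_option autoImplicit false
set_option maxRecDepth 100000

namespace Pool.Agent.P.MP_9e9aa3_co.E

def G6tx0 : Cfg := [(0,1090785345),(0,2181570690),(0,4363141380),(0,8726282760),(0,17452565520),(0,34905131040),(1,63),(1,4032),(1,258048),(1,16515072),(1,1056964608),(1,67645734912),(2,34630287489),(2,4437639234),(2,2688553476),(2,17213817096),(2,8607770640),(2,1141408800)]
def TG6tx0 : Tab := ⟨[0x3c1041,
0x4444002042,
0x10900804044,
0xa020408048,
0x20092010050,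
0x1209020060,
0x3c02081,
0x8888001082,
0x1410088084,
0x24200044088,
0x2140220090,
0x100241100a0,
0x3c004101,
0x300450102,
0x22041001104,
0xc80120108,
0x19000082110,
0x4002a08120,
0x3c0008201,
0x308a0202,
0xc008210204,
0x11006001208,
0x401504210,
0x22800042220,
0x3c00010401,
0x30001108402,
0x6460404,
0x118202408,
0x4220801410,
0x80c0084420,
0x3c000020801,
0x3002204802,
0x2a0102804,
0x41890808,
0x80c048810,
0x510401820],
[0x3f,
0xfc0,
0x3f000,
0x3fffffc0000], 8, 0⟩
def FG6tx0_0 : Nat := 0x3ffff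
def CG6tx0_0 : Nat := 0x3ffffffffff

end Pool.Agent.P.MP_9e9aa3_co.E
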