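import Pool.Agent.P.MP_9e9aa3_co.Net

set_option autoImplicit false

namespace Pool.Agent.P.MP_9e9aa3_co

open Finset E

namespace End6

variable {V : Type} [DecidableEq V]
variable {W : Finset V} {X0 X1 X2 X3 D R F : Finset (Finset V)} {f : V → ℕ}

theorem tb_lt {m i n : ℕ} (h : m.testBit i = true) (hm : m < 2 ^ n) : i < n := by
  by_contra hc
  have h1 := Nat.ge_two_pow_of_testBit h
  have h2 : 2 ^ n ≤ 2 ^ i := Nat.pow_le_pow_right (by norm_num) (by omega)
  omega

omit [DecidableEq V] in
theorem lo1 {K : Finset V} {L : Finset (Finset V)} (h : L.card < 1) : ∃ x, x = K ∧ x ∉ L := by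
  have : L = ∅ := card_eq_zero.1 (by omega)
  subst this
  exact ⟨K, rfl, notMem_empty _⟩

def LA : List ℕ := [1090785345, 2181570690, 4363141380, 8726282760, 17452565520, 34905131040]
def LR : List ℕ := [63, 4032, 258048, 16515072, 1056964608, 67645734912]
def LB : List ℕ := [34630287489, 4437639234, 2688553476, 17213817096, 8607770640, 1141408800]

/-- the three classes are carried by `f` to the three standard classes -/
structure Frame (f : V → ℕ) (D R F : Finset (Finset V)) : Prop where
  a : ∀ m ∈ LA, ∃ x, x ∈ D ∧ x.image f = dec m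
  r : ∀ m ∈ LR, ∃ x, x ∈ R ∧ x.image f = dec m
  b : ∀ m ∈ LB, ∃ x, x ∈ F ∧ x.image f = dec m

theorem fr0_a : ∀ m ∈ LA, (1, m) ∈ fr0 := by decide
theorem fr0_r : ∀ m ∈ LR, (0, m) ∈ fr0 := by decide
theorem fr0_b : ∀ m ∈ LB, (2, m) ∈ fr0 := by decide
theorem fr1_a : ∀ m ∈ LA, (0, m) ∈ fr1 := by decide
theorem fr1_r : ∀ m ∈ LR, (1, m) ∈ fr1 := by decide
theorem fr1_b : ∀ m ∈ LB, (2, m) ∈ fr1 := by decide
theorem fr2_a : ∀ m ∈ LA, (0, m) ∈ fr2 := by decide
theorem fr2_r : ∀ m ∈ LR, (2, m) ∈ fr2 := by decide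
theorem fr2_b : ∀ m ∈ LB, (1, m) ∈ fr2 := by decide

theorem fr1_cases : ∀ e ∈ fr1, (e.1 = 0 ∧ e.2 ∈ LA) ∨ (e.1 = 1 ∧ e.2 ∈ LR) ∨ (e.1 = 2 ∧ e.2 ∈ LB) := by
  decide

theorem frb_cases : ∀ e ∈ frb, (e.1 = 0 ∧ e.2 ∈ LR) ∨ (e.1 = 1 ∧ e.2 ∈ LB) ∨
    (e.1 = 3 ∧ e.2 = 1090785345) := by
  decide

theorem frame (hF : Facts) (h : Net W X0 X1 X2 X3) (g0 : Gen X0) (g1 : Gen X1) (g2 : Gen X2) :
    ∃ f : V → ℕ, Set.InjOn f W ∧ W.image f = range 36 ∧
      (Frame f X1 X0 X2 ∨ Frame f X0 X1 X2 ∨ Frame f X0 X2 X1) := by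
  obtain ⟨f, h1, h2, h3⟩ := hF.s6c V W (fun i x => match i with
    | 0 => x ∈ X0 | 1 => x ∈ X1 | 2 => x ∈ X2 | 3 => x ∈ X3 | _ => False) h.card
    (by
      refine ⟨?_, ?_, ?_, ?_, ?_, ?_, ?_, ?_⟩
      · intro i x hx
        rcases i with _ | _ | _ | _ | i
        · exact ⟨h.c0.sub x hx, h.six0 x hx⟩
        · exact ⟨h.c1.sub x hx, h.six1 x hx⟩
        · exact ⟨h.c2.sub x hx, h.six2 x hx⟩
        · exact ⟨h.c3.sub x hx, h.six3 x hx⟩
        · exact hx.elim
      · intro e he x y hx hy
        simp only [sp6c, List.mem_cons, List.not_mem_nil, or_false] at he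
        rcases he with rfl | rfl | rfl | rfl | rfl | rfl | rfl | rfl | rfl | rfl
        · exact g0.rel65 h.six0 hx hy
        · exact g1.rel65 h.six1 hx hy
        · exact g2.rel65 h.six2 hx hy
        · exact h.s03.rel79 hx hy
        · exact rel2 (h.x01 x hx y hy)
        · exact rel2 (h.x02 x hx y hy)
        · exact rel2 (h.x03 x hx y hy)
        · exact rel2 (h.x12 x hx y hy)
        · exact rel2 (h.x13 x hx y hy)
        · exact rel2 (h.x23 x hx y hy)
      · intro i hi s hs
        have hi' : Nat.testBit 15 i = true := hi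
        have := tb_lt (n := 4) hi' (by decide)
        interval_cases i
        · exact h.c0.cover s hs
        · exact h.c1.cover s hs
        · exact h.c2.cover s hs
        · exact h.c3.cover s hs
      · intro i hi
        have hi' : Nat.testBit 8 i = true := hi
        have := tb_lt (n := 4) hi' (by decide)
        interval_cases i
        · exact absurd hi' (by decide)
        · exact absurd hi' (by decide)
        · exact absurd hi' (by decide)
        · exact h.c3.tw
      · intro i B hB
        rcases i with _ | _ | _ | _ | i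
        · exact absurd hB (Nat.not_lt_zero _)
        · exact absurd hB (Nat.not_lt_zero _)
        · exact absurd hB (Nat.not_lt_zero _)
        · exact h.c3.hs B hB
        · exact absurd hB (Nat.not_lt_zero _)
      · intro i L hL
        rcases i with _ | _ | _ | _ | i
        all_goals exact absurd hL (Nat.not_lt_zero _)
      · intro i hi
        exact absurd hi (by simp [sp6c])
      · intro e he
        exact absurd he (by simp [sp6c]))
  refine ⟨f, h1, h2, ?_⟩
  rcases h3 with h3 | h3 | h3
  · exact Or.inl ⟨fun m hm => h3 _ (fr0_a m hm), fun m hm => h3 _ (fr0_r m hm),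
      fun m hm => h3 _ (fr0_b m hm)⟩
  · exact Or.inr (Or.inl ⟨fun m hm => h3 _ (fr1_a m hm), fun m hm => h3 _ (fr1_r m hm),
      fun m hm => h3 _ (fr1_b m hm)⟩)
  · exact Or.inr (Or.inr ⟨fun m hm => h3 _ (fr2_a m hm), fun m hm => h3 _ (fr2_r m hm),
      fun m hm => h3 _ (fr2_b m hm)⟩)

theorem tarry_core (hF : Facts) (h : Net W D R F X3) (g3 : Gen X3) (hf : Set.InjOn f W)
    (hW : W.image f = range 36) (fr : Frame f D R F) : False := by
  have hy : Hyp sp6t W (fun i x => match i with
      | 0 => x ∈ D | 1 => x ∈ R | 2 => x ∈ F | 3 => x ∈ X3 | _ => False) := by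
    refine ⟨?_, ?_, ?_, ?_, ?_, ?_, ?_, ?_⟩
    · intro i x hx
      rcases i with _ | _ | _ | _ | i
      · exact ⟨h.c0.sub x hx, h.six0 x hx⟩
      · exact ⟨h.c1.sub x hx, h.six1 x hx⟩
      · exact ⟨h.c2.sub x hx, h.six2 x hx⟩
      · exact ⟨h.c3.sub x hx, h.six3 x hx⟩
      · exact hx.elim
    · intro e he x y hx hy
      simp only [sp6t, List.mem_cons, List.not_mem_nil, or_false] at he
      rcases he with rfl | rfl | rfl | rfl
      · exact g3.rel65 h.six3 hx hy
      · exact rel2 (h.x03.symm x hx y hy)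
      · exact rel2 (h.x13.symm x hx y hy)
      · exact rel2 (h.x23.symm x hx y hy)
    · intro i hi s hs
      have hi' : Nat.testBit 8 i = true := hi
      have := tb_lt (n := 4) hi' (by decide)
      interval_cases i
      · exact absurd hi' (by decide)
      · exact absurd hi' (by decide)
      · exact absurd hi' (by decide)
      · exact h.c3.cover s hs
    · intro i hi
      exact absurd hi (by simp [sp6t])
    · intro i B hB
      rcases i with _ | _ | _ | _ | i
      all_goals exact absurd hB (Nat.not_lt_zero _)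
    · intro i L hL
      rcases i with _ | _ | _ | _ | i
      all_goals exact absurd hL (Nat.not_lt_zero _)
    · intro i hi
      exact absurd hi (by simp [sp6t])
    · intro e he
      exact absurd he (by simp [sp6t])
  have hm := hy.map hf
  rw [hW] at hm
  refine hF.s6t _ hm ?_
  rintro ⟨i, m⟩ he
  rcases fr1_cases _ he with ⟨h1, h2⟩ | ⟨h1, h2⟩ | ⟨h1, h2⟩
  · cases h1
    exact fr.a m h2
  · cases h1
    exact fr.r m h2
  · cases h1
    exact fr.b m h2

theorem one_inter {p : V} {A : Finset V} (h : p ∈ A) : (({p} : Finset V) ∩ A).card = 1 := by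
  rw [singleton_inter_of_mem h, card_singleton]

theorem ext_core (hF : Facts) (h : Net W D R F X3) (hf : Set.InjOn f W)
    (hW : W.image f = range 36) (fr : Frame f D R F) {c b : Finset V} (hc : c ∈ D)
    (hcf : c.image f = dec 1090785345) (hE : Ext W D R F c b) {m : ℕ}
    (hb : b.image f = dec m) : m ∈ lam := by
  by_contra hm
  obtain ⟨τ, K, Y, t1, t2, t3, t4, t5, hK, hbK, ⟨p, p1, p2, p3⟩, y1, y2, y3, y4, y5⟩ := hE
  have k6 : ∀ A ∈ K, A.card = 6 := fun A hA => (hK.sub A hA).2
  have hy : Hyp sp6l W (fun i x => match i with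
      | 0 => x ∈ D | 1 => x ∈ R | 2 => x ∈ F | 3 => x = τ | 4 => x = {p} | 5 => x = c
      | 6 => x ∈ K | 7 => x = b | 8 => x ∈ Y | _ => False) := by
    refine ⟨?_, ?_, ?_, ?_, ?_, ?_, ?_, ?_⟩
    · intro i x hx
      rcases i with _ | _ | _ | _ | _ | _ | _ | _ | _ | i
      · exact ⟨h.c0.sub x hx, h.six0 x hx⟩
      · exact ⟨h.c1.sub x hx, h.six1 x hx⟩
      · exact ⟨h.c2.sub x hx, h.six2 x hx⟩
      · cases hx
        exact ⟨t1, t2⟩
      · cases hx
        exact ⟨singleton_subset_iff.2 (t1 p2), card_singleton p⟩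
      · cases hx
        exact ⟨h.c0.sub _ hc, h.six0 _ hc⟩
      · exact hK.sub x hx
      · cases hx
        exact hK.sub _ hbK
      · exact y1 x hx
      · exact hx.elim
    · intro e he x y hx hy
      simp only [sp6l, List.mem_cons, List.not_mem_nil, or_false] at he
      rcases he with rfl | rfl | rfl | rfl | rfl | rfl | rfl | rfl | rfl | rfl | rfl | rfl | rfl |
        rfl | rfl | rfl | rfl | rfl
      · cases hx
        exact rel2 (t3 _ (mem_singleton_self _) y hy)
      · cases hx
        exact rel2 (t4 _ (mem_singleton_self _) y hy)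
      · cases hx
        exact rel2 (t5 _ (mem_singleton_self _) y hy)
      · cases hx
        cases hy
        exact rel2 (one_inter p2)
      · cases hx
        cases hy
        exact rel2 (one_inter p3)
      · cases hx
        cases hy
        exact rel2 (one_inter p1)
      · exact hK.gen.rel65 k6 hx hy
      · exact rel2 (hK.xE x hx y hy)
      · exact rel2 (hK.xF x hx y hy)
      · cases hy
        exact rel2 (hK.xt x hx)
      · cases hx
        exact hK.gen.rel65 k6 hbK hy
      · cases hx
        exact rel2 (hK.xE _ hbK y hy)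
      · cases hx
        exact rel2 (hK.xF _ hbK y hy)
      · cases hx
        cases hy
        exact rel2 (hK.xt _ hbK)
      · exact rel2 (y3 x hx y hy)
      · exact rel2 (y4 x hx y hy)
      · exact rel2 (y5 x hx y hy)
      · cases hy
        exact rel2 (y5 x hx _ hbK)
    · intro i hi s hs
      have hi' : Nat.testBit 320 i = true := hi
      have := tb_lt (n := 9) hi' (by decide)
      interval_cases i
      · exact absurd hi' (by decide)
      · exact absurd hi' (by decide)
      · exact absurd hi' (by decide)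
      · exact absurd hi' (by decide)
      · exact absurd hi' (by decide)
      · exact absurd hi' (by decide)
      · exact hK.cov s hs
      · exact absurd hi' (by decide)
      · exact y2 s hs
    · intro i hi
      exact absurd hi (by simp [sp6l])
    · intro i B hB
      rcases i with _ | _ | _ | _ | _ | _ | _ | _ | _ | i
      all_goals exact absurd hB (Nat.not_lt_zero _)
    · intro i L hL
      rcases i with _ | _ | _ | _ | _ | _ | _ | _ | _ | i
      · exact absurd hL (Nat.not_lt_zero _)
      · exact absurd hL (Nat.not_lt_zero _)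
      · exact absurd hL (Nat.not_lt_zero _)
      · exact lo1 hL
      · exact lo1 hL
      · exact absurd hL (Nat.not_lt_zero _)
      · exact absurd hL (Nat.not_lt_zero _)
      · exact lo1 hL
      · exact absurd hL (Nat.not_lt_zero _)
      · exact absurd hL (Nat.not_lt_zero _)
    · intro i hi
      exact absurd hi (by simp [sp6l])
    · intro e he x y z hx hy hz
      simp only [sp6l, List.mem_cons, List.not_mem_nil, or_false] at he
      rcases he with rfl | rfl
      · cases hy
        exact hK.tri x hx z hz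
      · cases hx
        cases hy
        exact hK.tri _ hbK z hz
  have hm' := hy.map hf
  rw [hW] at hm'
  refine hF.s6l _ hm' ?_ ?_
  · rintro ⟨i, n⟩ he
    rcases List.mem_append.1 he with he | he
    · rcases fr1_cases _ he with ⟨h1, h2⟩ | ⟨h1, h2⟩ | ⟨h1, h2⟩
      · cases h1
        exact fr.a n h2
      · cases h1
        exact fr.r n h2
      · cases h1
        exact fr.b n h2
    · rw [List.mem_singleton.1 he]
      exact ⟨c, rfl, hcf⟩
  · rintro n ⟨x, hx, hn⟩
    cases hx
    rw [dec_inj (hn.symm.trans hb)]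
    exact hm

theorem end_core (hF : Facts) (h : Net W D R F X3) (hf : Set.InjOn f W)
    (hW : W.image f = range 36) (fr : Frame f D R F) (hd : Dir W D R F) : False := by
  obtain ⟨c, hc, hcf⟩ := fr.a 1090785345 (by decide)
  obtain ⟨Φ, Ψ, hN, nΦ, hcΨ, hE⟩ := hd c hc
  have hy : Hyp sp6b W (fun i x => match i with
      | 0 => x ∈ R | 1 => x ∈ F | 2 => x ∈ Φ | 3 => x ∈ Ψ | _ => False) := by
    refine ⟨?_, ?_, ?_, ?_, ?_, ?_, ?_, ?_⟩
    · intro i x hx
      rcases i with _ | _ | _ | _ | i
      · exact ⟨hN.c0.sub x hx, hN.six0 x hx⟩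
      · exact ⟨hN.c1.sub x hx, hN.six1 x hx⟩
      · exact ⟨hN.c2.sub x hx, hN.six2 x hx⟩
      · exact ⟨hN.c3.sub x hx, hN.six3 x hx⟩
      · exact hx.elim
    · intro e he x y hx hy
      simp only [sp6b, List.mem_cons, List.not_mem_nil, or_false] at he
      rcases he with rfl | rfl | rfl | rfl | rfl | rfl | rfl
      · exact hN.s02.rel79 hx hy
      · exact hN.s03.rel79 hx hy
      · exact rel2 (hN.x02.symm x hx y hy)
      · exact rel2 (hN.x12.symm x hx y hy)
      · exact rel2 (hN.x03.symm x hx y hy)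
      · exact rel2 (hN.x13.symm x hx y hy)
      · exact rel2 (hN.x23 x hx y hy)
    · intro i hi s hs
      have hi' : Nat.testBit 12 i = true := hi
      have := tb_lt (n := 4) hi' (by decide)
      interval_cases i
      · exact absurd hi' (by decide)
      · exact absurd hi' (by decide)
      · exact hN.c2.cover s hs
      · exact hN.c3.cover s hs
    · intro i hi
      have hi' : Nat.testBit 12 i = true := hi
      have := tb_lt (n := 4) hi' (by decide)
      interval_cases i
      · exact absurd hi' (by decide)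
      · exact absurd hi' (by decide)
      · exact hN.c2.tw
      · exact hN.c3.tw
    · intro i B hB
      rcases i with _ | _ | _ | _ | i
      · exact absurd hB (Nat.not_lt_zero _)
      · exact absurd hB (Nat.not_lt_zero _)
      · exact hN.c2.hs B hB
      · exact hN.c3.hs B hB
      · exact absurd hB (Nat.not_lt_zero _)
    · intro i L hL
      rcases i with _ | _ | _ | _ | i
      · exact absurd hL (Nat.not_lt_zero _)
      · exact absurd hL (Nat.not_lt_zero _)
      · exact hN.c2.lo7 hN.six2 nΦ L hL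
      · exact absurd hL (Nat.not_lt_zero _)
      · exact absurd hL (Nat.not_lt_zero _)
    · intro i hi
      exact absurd hi (by simp [sp6b])
    · intro e he
      exact absurd he (by simp [sp6b])
  have hm := hy.map hf
  rw [hW] at hm
  refine hF.s6b _ hm ?_ ?_
  · rintro ⟨i, n⟩ he
    rcases frb_cases _ he with ⟨h1, h2⟩ | ⟨h1, h2⟩ | ⟨h1, h2⟩
    · cases h1
      exact fr.r n h2
    · cases h1
      exact fr.b n h2
    · cases h1
      cases h2
      exact ⟨c, hcΨ, hcf⟩
  · rintro m ⟨b, hb, hbm⟩
    exact ext_core hF h hf hW fr hc hcf (hE b hb) hbm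

theorem dir_swap (hd : Dir W D R F) : Dir W D F R := by
  intro c hc
  obtain ⟨Φ, Ψ, hN, nΦ, hcΨ, hE⟩ := hd c hc
  refine ⟨Φ, Ψ, hN.s01, nΦ, hcΨ, fun b hb => ?_⟩
  obtain ⟨τ, K, Y, t1, t2, t3, t4, t5, hK, hbK, hp, y1, y2, y3, y4, y5⟩ := hE b hb
  exact ⟨τ, K, Y, t1, t2, t3, t5, t4, ⟨hK.sub, hK.cov, hK.gen, hK.xF, hK.xE, hK.xt, hK.tri⟩, hbK,
    hp, y1, y2, y4, y3, y5⟩

end End6

theorem tarry (hF : Facts) : ∀ (V : Type) [DecidableEq V] (W : Finset V)
    (X0 X1 X2 X3 : Finset (Finset V)),
    Net W X0 X1 X2 X3 → Gen X0 → Gen X1 → Gen X2 → Gen X3 → False := by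
  intro V _ W X0 X1 X2 X3 h g0 g1 g2 g3
  obtain ⟨f, hf, hW, fr | fr | fr⟩ := End6.frame hF h g0 g1 g2
  · exact End6.tarry_core hF h.s01 g3 hf hW fr
  · exact End6.tarry_core hF h g3 hf hW fr
  · exact End6.tarry_core hF h.s12 g3 hf hW fr

theorem end6 (hF : Facts) : ∀ (V : Type) [DecidableEq V] (W : Finset V)
    (X0 X1 X2 X3 : Finset (Finset V)),
    Net W X0 X1 X2 X3 → Gen X0 → Gen X1 → Gen X2 → Dir W X0 X1 X2 → Dir W X1 X0 X2 → False := by
  intro V _ W X0 X1 X2 X3 h g0 g1 g2 d0 d1
  obtain ⟨f, hf, hW, fr | fr | fr⟩ := End6.frame hF h g0 g1 g2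
  · exact End6.end_core hF h.s01 hf hW fr d1
  · exact End6.end_core hF h hf hW fr d0
  · exact End6.end_core hF h.s12 hf hW fr (End6.dir_swap d0)

end Pool.Agent.P.MP_9e9aa3_co
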