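/- Certificate checker for configurations of lines (computational part, no library imports). -/
set_option autoImplicit false

namespace Pool.Agent.P.MP_9e9aa3_co.E

noncomputable section

structure Spec where
  n : Nat
  k : List Nat
  rels : List (Nat × Nat × Nat)
  cov : Nat
  tw : Nat
  hs : List Nat
  lo : List Nat
  c2 : Nat
  two : List (List Nat)
  tri : List (Nat × Nat × Nat)

structure Tab where
  ps : List Nat
  ms : List Nat
  act : Nat
  sym : Nat

abbrev Cfg := List (Nat × Nat)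

def getN (l : List Nat) : Nat → Nat :=
  List.rec (fun _ => 0) (fun a _ ih i => Nat.rec a (fun j _ => ih j) i) l

def getL (l : List (List Nat)) : Nat → List Nat :=
  List.rec (fun _ => []) (fun a _ ih i => Nat.rec a (fun j _ => ih j) i) l

def getC (l : List Cfg) : Nat → (Cfg → Nat) → Nat :=
  List.rec (fun _ _ => 0) (fun a _ ih i f => Nat.rec (f a) (fun j _ => ih j f) i) l

def getP (l : List (Nat × Nat)) : Nat → (Nat → Nat → Nat) → Nat :=
  List.rec (fun _ _ => 0) (fun a _ ih i f => Nat.rec (f a.1 a.2) (fun j _ => ih j f) i) l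

def force (n : Nat) (f : Nat → Nat) : Nat := Nat.rec (f 0) (fun m _ => f (Nat.succ m)) n

def andn (a b : Nat) : Nat := Nat.xor a (Nat.land a b)

def bit (k : Nat) : Nat := Nat.shiftLeft 1 k

/-- if `a = 0` then `x` else `y` -/
def cz (a x y : Nat) : Nat := Bool.rec y x (Nat.beq a 0)

/-- if `a = b` then `x` else `y` -/
def ceq (a b x y : Nat) : Nat := Bool.rec y x (Nat.beq a b)

/-- if `a ≤ b` then `x` else `y` -/
def cle (a b x y : Nat) : Nat := Bool.rec y x (Nat.ble a b)

def tb (a k : Nat) : Nat := Nat.land (Nat.shiftRight a k) 1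

def sq (s : Nat) (f : Nat → Nat) : Nat := Bool.rec (f (Nat.add s 0)) 0 (Nat.beq s 0)

def relF (sp : Spec) (i j : Nat) : Nat :=
  List.rec 255 (fun e _ ih =>
    ceq e.1 i (ceq e.2.1 j (Nat.land ih e.2.2) (ceq e.1 j (ceq e.2.1 i (Nat.land ih e.2.2) ih) ih))
      (ceq e.1 j (ceq e.2.1 i (Nat.land ih e.2.2) ih) ih)) sp.rels

/-- the points below `n` of a mask, in increasing order -/
def pts (n c : Nat) : List Nat :=
  Nat.rec (fun l => l) (fun p ih l => Bool.rec (ih (p :: l)) (ih l) (Nat.beq (Nat.land c (bit p)) 0)) n []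

/-- bit sliced counter over the masks that meet `b` -/
def cntS (l : List Nat) (b : Nat) (f : Nat → Nat → Nat → Nat → Nat) : Nat → Nat → Nat → Nat → Nat :=
  List.rec f (fun p _ ih x y z w =>
    Bool.rec ((fun t => (fun u => ih (Nat.xor x p) (Nat.xor y t) (Nat.xor z u) (Nat.lor w (Nat.land z u)))
      (Nat.land y t)) (Nat.land x p)) (ih x y z w) (Nat.beq (Nat.land p b) 0)) l

/-- bit sliced counter over all the masks -/
def cntA (l : List Nat) (f : Nat → Nat → Nat → Nat → Nat) : Nat → Nat → Nat → Nat → Nat :=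
  List.rec f (fun p _ ih x y z w =>
    (fun t => (fun u => ih (Nat.xor x p) (Nat.xor y t) (Nat.xor z u) (Nat.lor w (Nat.land z u)))
      (Nat.land y t)) (Nat.land x p)) l

def mux (c a b : Nat) : Nat := Nat.xor a (Nat.land c (Nat.xor a b))

def mux8 (A : Nat → Nat) (x y z : Nat) : Nat :=
  mux z (mux y (mux x (A 0) (A 1)) (mux x (A 2) (A 3))) (mux y (mux x (A 4) (A 5)) (mux x (A 6) (A 7)))

/-- union of the class masks whose code `r j` has bit `v` -/
def uni (ms : List Nat) (r : Nat → Nat) (v : Nat) : Nat :=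
  List.rec (motive := fun _ => Nat → Nat) (fun _ => 0)
    (fun m _ ih j => cz (tb (r j) v) (ih (Nat.succ j)) (Nat.lor m (ih (Nat.succ j)))) ms 0

def alw (sp : Spec) (T : Tab) (i v : Nat) : Nat := uni T.ms (relF sp i) v

def clsOf (ms : List Nat) (b : Nat) : Nat :=
  List.rec 0 (fun m _ ih => cz (Nat.land m b) (Nat.succ ih) 0) ms

def okm (sp : Spec) (T : Tab) (k : Nat) : Nat :=
  force (clsOf T.ms (bit k)) fun i => cntS T.ps (bit k) (fun x y z _ => mux8 (alw sp T i) x y z) 0 0 0 0

def kids1 (sp : Spec) (T : Tab) (rc : Nat → Nat → Nat → Nat) (ex : Nat → Nat → Nat → Nat) (F : Nat) :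
    Nat → Nat → Nat → Nat → Nat :=
  fun fu => Nat.rec (motive := fun _ => Nat → Nat → Nat → Nat) (fun _ _ _ => 0)
    (fun _ ih X C S => force (Nat.land S 16383) fun k => Bool.rec
      ((fun X1 S1 => Bool.rec (Bool.rec (ih X1 (ex k S C) S1) 0 (Nat.beq S1 0)) S1 (Nat.beq X1 0))
        (Nat.xor X (bit k))
        (rc (Nat.lor F (bit k)) (Nat.land C (okm sp T k)) (Nat.shiftRight S 15)))
      0 (Nat.beq (Nat.land X (bit k)) 0)) fu

def kids (sp : Spec) (T : Tab) (rc : Nat → Nat → Nat → Nat) (ex : Nat → Nat → Nat → Nat)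
    (F X C S : Nat) : Nat :=
  Bool.rec (kids1 sp T rc ex F 16384 X C S) S (Nat.beq X 0)

def ex0 (k _S C : Nat) : Nat := Nat.xor C (bit k)

def tI (t : Nat) : Nat := Nat.land t 31
def tU (t : Nat) : Nat := Nat.land (Nat.shiftRight t 5) 63
def tV (t : Nat) : Nat := Nat.land (Nat.shiftRight t 11) 63

def mp (T : Tab) (t : Nat) : Nat := Nat.land (getN T.ms (tI t)) (getN T.ps (tU t))

def flag (sp : Spec) (T : Tab) (w t : Nat) : Nat :=
  cle sp.n (tU t) 0 (tb (Nat.land w T.act) (tI t))

def twOK (sp : Spec) (T : Tab) (t : Nat) : Nat := flag sp T sp.tw t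
def twA (T : Tab) (t : Nat) : Nat := andn (mp T t) (getN T.ps (tV t))
def twB (T : Tab) (t : Nat) : Nat :=
  andn (Nat.land (getN T.ms (tI t)) (getN T.ps (tV t))) (getN T.ps (tU t))
def brOK (sp : Spec) (T : Tab) (t : Nat) : Nat := flag sp T sp.cov t
def b2OK (sp : Spec) (T : Tab) (t : Nat) : Nat := flag sp T sp.c2 t

def clr (Y r : Nat) : Nat := Nat.rec Y (fun _ ih => Nat.land ih (Nat.sub ih 1)) r

/-- the masks that must meet `F` for a point to be covered twice -/
def twoM (sp : Spec) (T : Tab) (t : Nat) : List Nat :=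
  List.rec [] (fun c _ ih => andn (getN T.ms c) (getN T.ps (tU t)) :: ih) (getL sp.two (tI t))

def allMeet (l : List Nat) (F x : Nat) : Nat :=
  List.rec x (fun m _ ih => cz (Nat.land F m) 0 ih) l

def br0 (sp : Spec) (T : Tab) (t C : Nat) (f : Nat → Nat) : Nat :=
  Bool.rec (f (Nat.land C (mp T t))) 0 (Nat.beq (brOK sp T t) 0)

def br1 (sp : Spec) (T : Tab) (t F C : Nat) (f : Nat → Nat) : Nat :=
  cz (b2OK sp T t) 0 (allMeet (twoM sp T t) F
    (cz (clr (Nat.land F (mp T t)) 1) (f (andn (Nat.land C (mp T t)) F)) 0))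

def br2 (sp : Spec) (T : Tab) (t F C : Nat) (f : Nat → Nat) : Nat :=
  cz (tb T.act (tI t)) 0 (Nat.rec 0 (fun r _ =>
    cz (clr (Nat.land F (getN T.ms (tI t))) r) (f (andn (Nat.land C (getN T.ms (tI t))) F)) 0)
    (getN sp.lo (tI t)))

def brK (sp : Spec) (T : Tab) (kind t F C : Nat) (f : Nat → Nat) : Nat :=
  Nat.rec (br0 sp T t C f) (fun a _ => Nat.rec (br1 sp T t F C f) (fun _ _ => br2 sp T t F C f) a) kind

def hsL (T : Tab) (r : Nat) : Nat → Nat → Nat :=
  Nat.rec (motive := fun _ => Nat → Nat → Nat) (fun _ X => X)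
    (fun _ ih h X => force (Nat.land h 63) fun p => ih (Nat.shiftRight h 6) (andn X (getN T.ps p))) r

def hsN (sp : Spec) (T : Tab) (i : Nat) : Nat := cz (tb T.act i) 0 (getN sp.hs i)

/-- masks of the points of a cell -/
def cellP (sp : Spec) (T : Tab) (c : Nat) : List Nat :=
  List.rec [] (fun p _ ih => getN T.ps p :: ih) (pts sp.n c)

def twinX (sp : Spec) (T : Tab) (c : Nat) : Nat :=
  List.rec 0 (fun a l _ => List.rec 0 (fun b _ ih => Nat.lor (Nat.xor a b) ih) l) (cellP sp T c)

def canB (sp : Spec) (T : Tab) (c : Nat) : Nat :=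
  List.rec 0 (fun a l ih => List.rec 0 (fun b _ _ => Nat.lor (andn b a) ih) l) (cellP sp T c)

def cell0 (sp : Spec) (T : Tab) (c : Nat) : Nat := cntA (cellP sp T c) (fun x _ _ _ => x) 0 0 0 0
def cell1 (sp : Spec) (T : Tab) (c : Nat) : Nat := cntA (cellP sp T c) (fun _ y _ _ => y) 0 0 0 0
def cell2 (sp : Spec) (T : Tab) (c : Nat) : Nat := cntA (cellP sp T c) (fun _ _ z _ => z) 0 0 0 0

def restP (sp : Spec) (T : Tab) (u : Nat) : List Nat := cellP sp T (andn (Nat.sub (bit sp.n) 1) u)

def agree (l : List Nat) (b : Nat) : Nat → Nat :=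
  List.rec (fun O => O) (fun p _ ih O =>
    Bool.rec (ih (Nat.land O p)) (ih (andn O p)) (Nat.beq (Nat.land p b) 0)) l

def exO (m : Nat) (l1 l2 : List Nat) (k S C : Nat) : Nat :=
  cz (Nat.land S 16384) (Nat.xor C (bit k)) (andn C (agree l1 (bit k) (agree l2 (bit k) m)))

/-- reads cells; `u` union so far, `cb` non canonical lines, `pl` counter planes -/
def rdC (sp : Spec) (T : Tab) (F s : Nat) (f : Nat → Nat → List Nat → Nat → Nat) (nc : Nat) :
    Nat → Nat → List Nat → Nat → Nat :=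
  Nat.rec (motive := fun _ => Nat → Nat → List Nat → Nat → Nat) f
    (fun _ ih u cb pl S => force (Nat.land S 68719476735) fun c =>
      cz (Nat.land u c) (cz (Nat.land F (twinX sp T c))
        (cz (Nat.mul (Nat.land c (bit s)) (Nat.land c (Nat.sub (bit s) 1)))
          (ih (Nat.lor u c) (Nat.lor cb (canB sp T c)) (cell0 sp T c :: cell1 sp T c :: cell2 sp T c :: pl)
            (Nat.shiftRight S 36)) 0) 0) 0) nc

def opSym (sp : Spec) (T : Tab) (rc : Nat → Nat → Nat → Nat) (t F C S : Nat) : Nat :=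
  cz T.sym 0 (rdC sp T F (tU t) (fun u cb pl S1 => force u fun u1 =>
    brK sp T (Nat.land (tV t) 3) t F C fun X =>
      kids sp T rc (exO (getN T.ms (tI t)) pl (restP sp T u1)) F (andn X cb) C S1)
    (Nat.land S 31) 0 0 [] (Nat.shiftRight S 5))

def run (sp : Spec) (T : Tab) (cuts : List (Nat × Nat)) : Nat → Nat → Nat → Nat → Nat :=
  fun fu => Nat.rec (motive := fun _ => Nat → Nat → Nat → Nat) (fun _ _ _ => 0)
    (fun _ ih F C S => Nat.rec
      (force (Nat.shiftRight (Nat.land S 1048575) 3) fun t =>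
        Bool.rec (Bool.rec 0 (ih F (andn C (twB T t)) (Nat.shiftRight S 20))
          (Nat.beq (Nat.land C (twA T t)) 0)) 0 (Nat.beq (twOK sp T t) 0))
      (fun o1 _ => Nat.rec
        (force (Nat.shiftRight (Nat.land S 16383) 3) fun t =>
          br0 sp T t C fun X => kids sp T ih ex0 F X C (Nat.shiftRight S 14))
        (fun o2 _ => Nat.rec
          (force (Nat.shiftRight (Nat.land S 255) 3) fun i =>
            Nat.rec 0 (fun r _ => cz (hsL T r (Nat.shiftRight (Nat.land S 274877906943) 8)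
              (Nat.land C (getN T.ms i))) (Nat.shiftRight S 38) 0) (hsN sp T i))
          (fun o3 _ => Nat.rec
            (force (Nat.shiftRight (Nat.land S 16383) 3) fun t =>
              br1 sp T t F C fun X => kids sp T ih ex0 F X C (Nat.shiftRight S 14))
            (fun o4 _ => Nat.rec
              (force (Nat.shiftRight (Nat.land S 16383) 3) fun t =>
                br2 sp T t F C fun X => kids sp T ih ex0 F X C (Nat.shiftRight S 14))
              (fun o5 _ => Nat.rec
                (force (Nat.shiftRight (Nat.land S 65535) 3) fun t =>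
                  opSym sp T ih t F C (Nat.shiftRight S 16))
                (fun o6 _ => Nat.rec
                  (force (Nat.shiftRight (Nat.land S 255) 3) fun i =>
                    cz (andn (Nat.land F (getN T.ms i)) C) 0 (Nat.shiftRight S 8))
                  (fun _ _ => getP cuts (Nat.shiftRight (Nat.land S 2047) 3) fun F0 C0 =>
                    ceq F F0 (cz (andn C C0) (Nat.shiftRight S 11) 0) 0)
                  o6) o5) o4) o3) o2) o1) (Nat.land S 7)) fu

/- generator of the candidates of a class with respect to a list configuration -/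

def mustL (sp : Spec) (F : Cfg) (i : Nat) : List Nat :=
  List.rec [] (fun e _ ih => Bool.rec ih (e.2 :: ih) (Nat.beq (relF sp i e.1) 2)) F

def isDis (sp : Spec) (i j : Nat) : Nat :=
  cle (getN sp.k j) (getN sp.k i) (andn (relF sp i j) (Nat.lor 1 (bit (getN sp.k i)))) 1

def disU (sp : Spec) (F : Cfg) (i : Nat) : Nat :=
  List.rec 0 (fun e _ ih => cz (isDis sp i e.1) (Nat.lor e.2 ih) ih) F

/-- union of the lines of class `j` through the point with mask `b` -/
def thru (F : Cfg) (j b : Nat) : Nat :=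
  List.rec 0 (fun e _ ih => ceq e.1 j (cz (Nat.land e.2 b) ih (Nat.lor e.2 ih)) ih) F

def remT (sp : Spec) (F : Cfg) (i b : Nat) : Nat :=
  List.rec b (fun e _ ih => ceq e.1 i (cz (thru F e.2.1 b) ih (Nat.lor (thru F e.2.2 b) ih)) ih) sp.tri

def rem (sp : Spec) (F : Cfg) (i p : Nat) : Nat :=
  List.rec (remT sp F i (bit p)) (fun e _ ih =>
    cle (relF sp i e.1) 3 (cz (Nat.land e.2 (bit p)) ih (Nat.lor e.2 ih)) ih) F

def pre (cells : List Nat) (p : Nat) : Nat :=
  List.rec 0 (fun c _ ih => cz (Nat.land c (bit p)) ih (Nat.lor (Nat.land c (Nat.sub (bit p) 1)) ih)) cells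

def fr (rm pr : Nat → Nat) (leaf : List Nat → Nat → Nat → Nat) (l : List Nat) :
    List Nat → Nat → Nat → Nat → Nat → Nat :=
  List.rec (fun cur cm _ r st => Nat.rec (leaf cur cm st) (fun _ _ => st) r)
    (fun p _ ih cur cm av r st => Nat.rec (leaf cur cm st) (fun r1 _ =>
      cz (Nat.land av (bit p)) (ih cur cm av r st) (cz (andn (pr p) cm)
        (sq (ih (p :: cur) (Nat.lor cm (bit p)) (andn av (rm p)) r1 st) (ih cur cm av r))
        (ih cur cm av r st))) r) l

def pick (rm pr : Nat → Nat) (g : List Nat → Nat → Nat → Nat → Nat) (cur : List Nat) (cm av : Nat)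
    (l : List Nat) : Nat → Nat :=
  List.rec (fun st => st) (fun p _ ih st =>
    Bool.rec (cz (andn (pr p) cm) (sq (g (p :: cur) (Nat.lor cm (bit p)) (andn av (rm p)) st) ih) (ih st))
      (ih st) (Nat.beq (Nat.land av (bit p)) 0)) l

def ms (n : Nat) (rm pr : Nat → Nat) (leaf : List Nat → Nat → Nat → Nat) (l : List Nat) :
    List Nat → Nat → Nat → Nat → Nat → Nat :=
  List.rec (fr rm pr leaf (pts n (Nat.sub (bit n) 1)))
    (fun y _ ih cur cm av r st => Bool.rec (ih cur cm av r st)
      (Nat.rec st (fun r1 _ => pick rm pr (fun c m a s => ih c m a r1 s) cur cm av (pts n y) st) r)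
      (Nat.beq (Nat.land cm y) 0)) l

def disC (sp : Spec) (i b : Nat) (leaf : List Nat → Nat → Nat → Nat) (F : Cfg) : Nat → Nat :=
  List.rec (fun st => st) (fun e _ ih st =>
    cz (isDis sp i e.1) (cz (andn b e.2) (sq (leaf (pts sp.n e.2) e.2 st) ih) (ih st)) (ih st)) F

/-- all candidates -/
def genA (sp : Spec) (F : Cfg) (i : Nat) (pr : Nat → Nat) (leaf : List Nat → Nat → Nat → Nat)
    (st : Nat) : Nat :=
  sq (disC sp i 0 leaf F st) (ms sp.n (rem sp F i) pr leaf (mustL sp F i) [] 0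
    (andn (Nat.sub (bit sp.n) 1) (disU sp F i)) (getN sp.k i))

/-- the candidates through `s` -/
def genS (sp : Spec) (F : Cfg) (i s : Nat) (pr : Nat → Nat) (leaf : List Nat → Nat → Nat → Nat)
    (st : Nat) : Nat :=
  sq (disC sp i (bit s) leaf F st) (fun s1 => cz (Nat.land (disU sp F i) (bit s))
    (ms sp.n (rem sp F i) pr leaf (mustL sp F i) [s] (bit s)
      (andn (andn (Nat.sub (bit sp.n) 1) (disU sp F i)) (rem sp F i s)) (Nat.sub (getN sp.k i) 1) s1) s1)

def cntL (y : Nat) (cur : List Nat) : Nat := List.rec 0 (fun p _ ih => Nat.add ih (tb y p)) cur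

/-- `x` if the candidate violates a relation, else `y` -/
def inval (sp : Spec) (F : Cfg) (i : Nat) (cur : List Nat) (x y : Nat) : Nat :=
  List.rec y (fun e _ ih => cz (tb (relF sp i e.1) (cntL e.2 cur)) x ih) F

def qOf (T : Tab) (i : Nat) (cur : List Nat) : Nat :=
  List.rec (getN T.ms i) (fun p _ ih => Nat.land ih (getN T.ps p)) cur

def leafT (sp : Spec) (T : Tab) (ex : Nat → Nat → Nat) (F : Cfg) (i : Nat) (cur : List Nat)
    (cm st : Nat) : Nat :=
  Bool.rec st (cz (ex i cm) st (inval sp F i cur st 0)) (Nat.beq (qOf T i cur) 0)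

def zero1 (_p : Nat) : Nat := 0

/-- completeness of the table for class `i` -/
def tabC (sp : Spec) (T : Tab) (ex : Nat → Nat → Nat) (F : Cfg) (i : Nat) : Nat :=
  genA sp F i zero1 (leafT sp T ex F i) 1

def lineM (l : List Nat) (b : Nat) : Nat :=
  List.rec 0 (fun p _ ih => Nat.add (Nat.mul 2 ih) (cz (Nat.land p b) 0 1)) l

def baseOK (T : Tab) (F : Cfg) : Nat → Nat :=
  List.rec (fun _ => 1) (fun e _ ih t =>
    cz (Nat.land (getN T.ms e.1) (bit t)) 0 (ceq (lineM T.ps (bit t)) e.2 (ih (Nat.succ t)) 0)) F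

def disj (l : List Nat) : Nat → Nat :=
  List.rec (fun _ => 1) (fun m _ ih u => cz (Nat.land m u) (ih (Nat.lor m u)) 0) l

def lorL (l : List Nat) : Nat := List.rec 0 (fun m _ ih => Nat.lor m ih) l

def lenL (l : List Nat) : Nat := List.rec 0 (fun _ _ ih => Nat.succ ih) l

def le7 (l : List Nat) : Nat := List.rec 1 (fun a _ ih => cle a 7 ih 0) l

/-- structural checks of a table -/
def tabS (sp : Spec) (T : Tab) (F : Cfg) : Nat :=
  cz (le7 sp.k) 0 (ceq (lenL T.ps) sp.n (cz (disj T.ms 0) 0 (cz (baseOK T F 0) 0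
    (cntA T.ps (fun x y z w => cz (Nat.land (lorL T.ms) w)
      (cz (andn (lorL T.ms) (mux8 (uni T.ms (fun j => bit (getN sp.k j))) x y z)) 1 0) 0) 0 0 0 0))) 0)

/- first phase -/

def memC (F : Cfg) (i m x y : Nat) : Nat :=
  List.rec y (fun e _ ih => ceq e.2 m (ceq e.1 i x ih) ih) F

def subC (G F : Cfg) (x : Nat) : Nat := List.rec x (fun e _ ih => memC F e.1 e.2 ih 0) G

def rdP (n : Nat) : Nat → List Nat :=
  Nat.rec (motive := fun _ => Nat → List Nat) (fun _ => [])
    (fun _ ih S => bit (Nat.land S 63) :: ih (Nat.shiftRight S 6)) n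

def img (r : List Nat) : Nat → Nat :=
  List.rec (fun _ => 0) (fun b _ ih y =>
    cz (Nat.land y 1) (ih (Nat.shiftRight y 1)) (Nat.lor b (ih (Nat.shiftRight y 1)))) r

def imgC (r : List Nat) (F : Cfg) : Cfg := List.rec [] (fun e _ ih => (e.1, img r e.2) :: ih) F

def iso (n : Nat) (G F : Cfg) (r : List Nat) (x : Nat) : Nat :=
  ceq (lorL r) (Nat.sub (bit n) 1) (subC G (imgC r F) x) 0

def leafP (sp : Spec) (sym : Nat) (L : List Cfg) (F : Cfg) (i nw : Nat) (cur : List Nat)
    (cm st : Nat) : Nat :=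
  inval sp F i cur st ((fun y => cz nw y (memC F i cm st y))
    (getC L (Nat.shiftRight (Nat.land st 4095) 1) fun G =>
      cz (Nat.land st 1) (subC G ((i, cm) :: F) (Nat.shiftRight st 12))
        (cz sym 0 (iso sp.n G ((i, cm) :: F) (rdP sp.n (Nat.shiftRight st 12)) (Nat.shiftRight st 228)))))

def cellOK (n : Nat) (F : Cfg) (s c x : Nat) : Nat :=
  cle (bit n) c 0 (cz (Nat.mul (Nat.land c (bit s)) (Nat.land c (Nat.sub (bit s) 1)))
    (List.rec x (fun e _ ih => cz (Nat.mul (Nat.land e.2 c) (andn c e.2)) ih 0) F) 0)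

def cellsOK (n sym : Nat) (F : Cfg) (s : Nat) (cells : List Nat) (x : Nat) : Nat :=
  List.rec x (fun c _ ih => cz sym 0 (cellOK n F s c ih)) cells

def cntC (F : Cfg) (i : Nat) : Nat := List.rec 0 (fun e _ ih => ceq e.1 i (Nat.succ ih) ih) F

def p1S (sp : Spec) (sym : Nat) (L : List Cfg) (F : Cfg) (i s : Nat) (cells : List Nat) (st : Nat) :
    Nat :=
  cz (le7 sp.k) 0 (cle sp.n s 0 (cz (tb sp.cov i) 0 (cellsOK sp.n sym F s cells
    (genS sp F i s (pre cells) (leafP sp sym L F i 0) st))))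

def p1N (sp : Spec) (sym : Nat) (L : List Cfg) (F : Cfg) (i : Nat) (cells : List Nat) (st : Nat) :
    Nat :=
  cz (le7 sp.k) 0 (cle (getN sp.lo i) (cntC F i) 0 (cellsOK sp.n sym F sp.n cells
    (genA sp F i (pre cells) (leafP sp sym L F i 1) st)))

def ex1 (_i _m : Nat) : Nat := 1

def memL (l : List Nat) (m : Nat) : Nat := List.rec 0 (fun a _ ih => ceq a m 1 ih) l

/-- class `c` lies inside the list -/
def exIn (c : Nat) (l : List Nat) (i m : Nat) : Nat := ceq i c (memL l m) 1

/-- class `c` avoids the list -/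
def exOut (c : Nat) (l : List Nat) (i m : Nat) : Nat := ceq i c (cz (memL l m) 1 0) 1

end

end Pool.Agent.P.MP_9e9aa3_co.E
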