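import Pool.Agent.P.MP_9e9aa3_co.F1c

set_option autoImplicit false

namespace Pool.Agent.P.MP_9e9aa3_co

open Finset E

variable {V : Type} [DecidableEq V]

variable {W : Finset V} {X Y R X0 X1 X2 X3 : Finset (Finset V)}

theorem Rig.rel65 {A B : Finset V} (h : Rig X A) (h6 : ∀ A ∈ X, A.card = 6) (hB : B ∈ X) :
    Nat.testBit 65 (A ∩ B).card = true := by
  rcases h.2 B hB with e | e
  · subst e
    rw [inter_self, h6 A hB]
    decide
  · rw [disjoint_iff_inter_eq_empty.1 e, card_empty]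
    decide

theorem Rig.rel1 {A B : Finset V} (h : Rig X A) (hB : B ∈ X) (hne : A ≠ B) :
    Nat.testBit 1 (A ∩ B).card = true := by
  rw [disjoint_iff_inter_eq_empty.1 ((h.2 B hB).resolve_left hne), card_empty]
  decide

/-- the common shape of the four specifications with rigid lines -/
def sp10 (lo : List Nat) (c2 : Nat) (two : List (List Nat)) : Spec :=
  { sp222x with lo := lo, c2 := c2, two := two }

/-- the ten classes -/
def N10 (X0 X1 X2 X3 : Finset (Finset V)) (P4 P5 P6 P7 P8 P9 : Finset V → Prop) :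
    ℕ → Finset V → Prop := fun i x => match i with
  | 0 => x ∈ X0 | 1 => x ∈ X1 | 2 => x ∈ X2 | 3 => x ∈ X3 | 4 => P4 x | 5 => P5 x | 6 => P6 x
  | 7 => P7 x | 8 => P8 x | 9 => P9 x | _ => False

theorem Net.hyp10 (h : Net W X0 X1 X2 X3) (g0 : Gen X0) {P4 P5 P6 P7 P8 P9 : Finset V → Prop}
    (r4 : ∀ x, P4 x → Rig X1 x) (r5 : ∀ x, P5 x → Rig X1 x) (r6 : ∀ x, P6 x → Rig X2 x)
    (r7 : ∀ x, P7 x → Rig X2 x) (r8 : ∀ x, P8 x → Rig X3 x) (r9 : ∀ x, P9 x → Rig X3 x)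
    (d45 : ∀ x y, P4 x → P5 y → x ≠ y) (d67 : ∀ x y, P6 x → P7 y → x ≠ y)
    (d89 : ∀ x y, P8 x → P9 y → x ≠ y) {lo : List Nat} {c2 : Nat} {two : List (List Nat)}
    (hlo : ∀ i (L : Finset (Finset V)), L.card < getN lo i →
      ∃ x, N10 X0 X1 X2 X3 P4 P5 P6 P7 P8 P9 i x ∧ x ∉ L)
    (htwo : ∀ i, c2.testBit i = true → ∀ s ∈ W,
      (∀ c ∈ getL two i, ∃ y, N10 X0 X1 X2 X3 P4 P5 P6 P7 P8 P9 c y ∧ s ∉ y) →
      ∀ z, ∃ x, N10 X0 X1 X2 X3 P4 P5 P6 P7 P8 P9 i x ∧ s ∈ x ∧ x ≠ z) :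
    Hyp (sp10 lo c2 two) W (N10 X0 X1 X2 X3 P4 P5 P6 P7 P8 P9) := by
  refine ⟨?_, ?_, ?_, ?_, ?_, hlo, htwo, ?_⟩
  · intro i x hx
    rcases i with _ | _ | _ | _ | _ | _ | _ | _ | _ | _ | i
    · exact ⟨h.c0.sub x hx, h.six0 x hx⟩
    · exact ⟨h.c1.sub x hx, h.six1 x hx⟩
    · exact ⟨h.c2.sub x hx, h.six2 x hx⟩
    · exact ⟨h.c3.sub x hx, h.six3 x hx⟩
    · exact ⟨h.c1.sub x (r4 x hx).1, h.six1 x (r4 x hx).1⟩
    · exact ⟨h.c1.sub x (r5 x hx).1, h.six1 x (r5 x hx).1⟩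
    · exact ⟨h.c2.sub x (r6 x hx).1, h.six2 x (r6 x hx).1⟩
    · exact ⟨h.c2.sub x (r7 x hx).1, h.six2 x (r7 x hx).1⟩
    · exact ⟨h.c3.sub x (r8 x hx).1, h.six3 x (r8 x hx).1⟩
    · exact ⟨h.c3.sub x (r9 x hx).1, h.six3 x (r9 x hx).1⟩
    · exact hx.elim
  · intro e he x y hx hy
    simp only [sp10, sp222x, List.mem_cons, List.not_mem_nil, or_false] at he
    rcases he with rfl | rfl | rfl | rfl | rfl | rfl | rfl | rfl | rfl | rfl | rfl | rfl | rfl | rfl |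
      rfl | rfl | rfl | rfl | rfl | rfl | rfl | rfl | rfl | rfl | rfl | rfl | rfl | rfl |
      rfl | rfl | rfl | rfl | rfl | rfl | rfl | rfl | rfl | rfl | rfl | rfl | rfl | rfl |
      rfl | rfl | rfl | rfl | rfl | rfl | rfl
    · exact g0.rel65 h.six0 hx hy
    · exact h.s01.rel79 hx hy
    · exact h.s02.rel79 hx hy
    · exact h.s03.rel79 hx hy
    · exact rel2 (h.x01 x hx y hy)
    · exact rel2 (h.x02 x hx y hy)
    · exact rel2 (h.x03 x hx y hy)
    · exact rel2 (h.x12 x hx y hy)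
    · exact rel2 (h.x13 x hx y hy)
    · exact rel2 (h.x23 x hx y hy)
    · exact rel2 (h.x01.symm x (r4 _ hx).1 y hy)
    · exact (r4 _ hx).rel65 h.six1 hy
    · exact rel2 (h.x12 x (r4 _ hx).1 y hy)
    · exact rel2 (h.x13 x (r4 _ hx).1 y hy)
    · exact (r4 _ hx).rel1 (r5 _ hy).1 (d45 _ _ hx hy)
    · exact rel2 (h.x12 x (r4 _ hx).1 y (r6 _ hy).1)
    · exact rel2 (h.x12 x (r4 _ hx).1 y (r7 _ hy).1)
    · exact rel2 (h.x13 x (r4 _ hx).1 y (r8 _ hy).1)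
    · exact rel2 (h.x13 x (r4 _ hx).1 y (r9 _ hy).1)
    · exact rel2 (h.x01.symm x (r5 _ hx).1 y hy)
    · exact (r5 _ hx).rel65 h.six1 hy
    · exact rel2 (h.x12 x (r5 _ hx).1 y hy)
    · exact rel2 (h.x13 x (r5 _ hx).1 y hy)
    · exact rel2 (h.x12 x (r5 _ hx).1 y (r6 _ hy).1)
    · exact rel2 (h.x12 x (r5 _ hx).1 y (r7 _ hy).1)
    · exact rel2 (h.x13 x (r5 _ hx).1 y (r8 _ hy).1)
    · exact rel2 (h.x13 x (r5 _ hx).1 y (r9 _ hy).1)
    · exact rel2 (h.x02.symm x (r6 _ hx).1 y hy)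
    · exact rel2 (h.x12.symm x (r6 _ hx).1 y hy)
    · exact (r6 _ hx).rel65 h.six2 hy
    · exact rel2 (h.x23 x (r6 _ hx).1 y hy)
    · exact (r6 _ hx).rel1 (r7 _ hy).1 (d67 _ _ hx hy)
    · exact rel2 (h.x23 x (r6 _ hx).1 y (r8 _ hy).1)
    · exact rel2 (h.x23 x (r6 _ hx).1 y (r9 _ hy).1)
    · exact rel2 (h.x02.symm x (r7 _ hx).1 y hy)
    · exact rel2 (h.x12.symm x (r7 _ hx).1 y hy)
    · exact (r7 _ hx).rel65 h.six2 hy
    · exact rel2 (h.x23 x (r7 _ hx).1 y hy)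
    · exact rel2 (h.x23 x (r7 _ hx).1 y (r8 _ hy).1)
    · exact rel2 (h.x23 x (r7 _ hx).1 y (r9 _ hy).1)
    · exact rel2 (h.x03.symm x (r8 _ hx).1 y hy)
    · exact rel2 (h.x13.symm x (r8 _ hx).1 y hy)
    · exact rel2 (h.x23.symm x (r8 _ hx).1 y hy)
    · exact (r8 _ hx).rel65 h.six3 hy
    · exact (r8 _ hx).rel1 (r9 _ hy).1 (d89 _ _ hx hy)
    · exact rel2 (h.x03.symm x (r9 _ hx).1 y hy)
    · exact rel2 (h.x13.symm x (r9 _ hx).1 y hy)
    · exact rel2 (h.x23.symm x (r9 _ hx).1 y hy)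
    · exact (r9 _ hx).rel65 h.six3 hy
  · intro i hi s hs
    have := tb_lt4 (m := 15) hi (by decide)
    interval_cases i
    · exact h.c0.cover s hs
    · exact h.c1.cover s hs
    · exact h.c2.cover s hs
    · exact h.c3.cover s hs
  · intro i hi
    have hi' : Nat.testBit 14 i = true := hi
    have := tb_lt4 hi' (by decide)
    interval_cases i
    · exact absurd hi' (by decide)
    · exact h.c1.tw
    · exact h.c2.tw
    · exact h.c3.tw
  · intro i B hB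
    rcases i with _ | _ | _ | _ | _ | _ | _ | _ | _ | _ | i
    · exact absurd hB (Nat.not_lt_zero _)
    · exact h.c1.hs B hB
    · exact h.c2.hs B hB
    · exact h.c3.hs B hB
    all_goals exact absurd hB (Nat.not_lt_zero _)
  · intro e he
    exact absurd he (by simp [sp10, sp222x])

omit [DecidableEq V] in
theorem Rg.two0 (h : Rg W X ∅) {s : V} (hs : s ∈ W) : ∀ z, ∃ x, x ∈ X ∧ s ∈ x ∧ x ≠ z :=
  h.two s hs (by simp)

omit [DecidableEq V] in
theorem Rg.two1 {a : Finset V} (h : Rg W X {a}) {s : V} (hs : s ∈ W)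
    (ha : ∃ y, y = a ∧ s ∉ y) : ∀ z, ∃ x, x ∈ X ∧ s ∈ x ∧ x ≠ z := by
  obtain ⟨_, rfl, ha⟩ := ha
  exact h.two s hs (by simpa using ha)

theorem Rg.two2 {a b : Finset V} (h : Rg W X {a, b}) {s : V} (hs : s ∈ W)
    (ha : ∃ y, y = a ∧ s ∉ y) (hb : ∃ y, y = b ∧ s ∉ y) : ∀ z, ∃ x, x ∈ X ∧ s ∈ x ∧ x ≠ z := by
  obtain ⟨_, rfl, ha⟩ := ha
  obtain ⟨_, rfl, hb⟩ := hb
  exact h.two s hs (by simp [ha, hb])

omit [DecidableEq V] in
theorem Rg.r1 {a : Finset V} (h : Rg W X {a}) : ∀ x, x = a → Rig X x :=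
  fun x hx => h.rig x (by simp [hx])

theorem Rg.r2a {a b : Finset V} (h : Rg W X {a, b}) : ∀ x, x = a → Rig X x :=
  fun x hx => h.rig x (by simp [hx])

theorem Rg.r2b {a b : Finset V} (h : Rg W X {a, b}) : ∀ x, x = b → Rig X x :=
  fun x hx => h.rig x (by simp [hx])

variable {R1 R2 R3 : Finset (Finset V)}

theorem Net.c22 (hF : Facts) (h : Net W X0 X1 X2 X3) (g0 : Gen X0) (h1 : Rg W X1 R1)
    (h2 : Rg W X2 R2) (e1 : R1.card = 2) (e2 : R2.card = 2) : False := by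
  obtain ⟨a, b, hab, rfl⟩ := card_eq_two.1 e1
  obtain ⟨c, d, hcd, rfl⟩ := card_eq_two.1 e2
  refine hF.s222 V W _ h.card (h.hyp10 (P8 := fun _ => False) (P9 := fun _ => False) g0
    h1.r2a h1.r2b h2.r2a h2.r2b (fun _ f => f.elim) (fun _ f => f.elim)
    (fun x y hx hy => hx ▸ hy ▸ hab) (fun x y hx hy => hx ▸ hy ▸ hcd) (fun _ _ f => f.elim)
    (lo := sp222x.lo) (c2 := 6) (two := sp222x.two) ?_ ?_)
  · intro i L hL
    rcases i with _ | _ | _ | _ | _ | _ | _ | _ | _ | _ | i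
    all_goals first | exact absurd hL (Nat.not_lt_zero _) | exact lo_one hL
  · intro i hi s hs hc
    have := tb_lt4 hi (by decide)
    interval_cases i
    · exact absurd hi (by decide)
    · exact h1.two2 hs (hc 4 (by decide)) (hc 5 (by decide))
    · exact h2.two2 hs (hc 6 (by decide)) (hc 7 (by decide))
    · exact absurd hi (by decide)

theorem Net.c211 (hF : Facts) (h : Net W X0 X1 X2 X3) (g0 : Gen X0) (h1 : Rg W X1 R1)
    (h2 : Rg W X2 R2) (h3 : Rg W X3 R3) (e1 : R1.card = 2) (e2 : R2.card = 1)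
    (e3 : R3.card = 1) : False := by
  obtain ⟨a, b, hab, rfl⟩ := card_eq_two.1 e1
  obtain ⟨c, rfl⟩ := card_eq_one.1 e2
  obtain ⟨d, rfl⟩ := card_eq_one.1 e3
  refine hF.s211 V W _ h.card (h.hyp10 (P7 := fun _ => False) (P9 := fun _ => False) g0
    h1.r2a h1.r2b h2.r1 (fun _ f => f.elim) h3.r1 (fun _ f => f.elim)
    (fun x y hx hy => hx ▸ hy ▸ hab) (fun _ _ _ f => f.elim) (fun _ _ _ f => f.elim)
    (lo := sp2211.lo) (c2 := 14) (two := sp2211.two) ?_ ?_)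
  · intro i L hL
    rcases i with _ | _ | _ | _ | _ | _ | _ | _ | _ | _ | i
    all_goals first | exact absurd hL (Nat.not_lt_zero _) | exact lo_one hL
  · intro i hi s hs hc
    have := tb_lt4 hi (by decide)
    interval_cases i
    · exact absurd hi (by decide)
    · exact h1.two2 hs (hc 4 (by decide)) (hc 5 (by decide))
    · exact h2.two1 hs (hc 6 (by decide))
    · exact h3.two1 hs (hc 8 (by decide))

theorem Net.c210 (hF : Facts) (h : Net W X0 X1 X2 X3) (g0 : Gen X0) (h1 : Rg W X1 R1)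
    (h2 : Rg W X2 R2) (h3 : Rg W X3 R3) (e1 : R1.card = 2) (e2 : R2.card = 1)
    (e3 : R3.card = 0) : False := by
  obtain ⟨a, b, hab, rfl⟩ := card_eq_two.1 e1
  obtain ⟨c, rfl⟩ := card_eq_one.1 e2
  obtain rfl := card_eq_zero.1 e3
  refine hF.s210 V W _ h.card (h.hyp10 (P7 := fun _ => False) (P8 := fun _ => False)
    (P9 := fun _ => False) g0
    h1.r2a h1.r2b h2.r1 (fun _ f => f.elim) (fun _ f => f.elim) (fun _ f => f.elim)
    (fun x y hx hy => hx ▸ hy ▸ hab) (fun _ _ _ f => f.elim) (fun _ _ _ f => f.elim)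
    (lo := sp2210.lo) (c2 := 14) (two := sp2210.two) ?_ ?_)
  · intro i L hL
    rcases i with _ | _ | _ | _ | _ | _ | _ | _ | _ | _ | i
    all_goals first | exact absurd hL (Nat.not_lt_zero _) | exact lo_one hL
  · intro i hi s hs hc
    have := tb_lt4 hi (by decide)
    interval_cases i
    · exact absurd hi (by decide)
    · exact h1.two2 hs (hc 4 (by decide)) (hc 5 (by decide))
    · exact h2.two1 hs (hc 6 (by decide))
    · exact h3.two0 hs

theorem Net.c111 (hF : Facts) (h : Net W X0 X1 X2 X3) (g0 : Gen X0) (h1 : Rg W X1 R1)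
    (h2 : Rg W X2 R2) (h3 : Rg W X3 R3) (e1 : R1.card = 1) (e2 : R2.card = 1)
    (e3 : R3.card = 1) : False := by
  obtain ⟨a, rfl⟩ := card_eq_one.1 e1
  obtain ⟨c, rfl⟩ := card_eq_one.1 e2
  obtain ⟨d, rfl⟩ := card_eq_one.1 e3
  refine hF.s111 V W _ h.card (h.hyp10 (P5 := fun _ => False) (P7 := fun _ => False)
    (P9 := fun _ => False) g0
    h1.r1 (fun _ f => f.elim) h2.r1 (fun _ f => f.elim) h3.r1 (fun _ f => f.elim)
    (fun _ _ _ f => f.elim) (fun _ _ _ f => f.elim) (fun _ _ _ f => f.elim)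
    (lo := sp2111.lo) (c2 := 14) (two := sp2111.two) ?_ ?_)
  · intro i L hL
    rcases i with _ | _ | _ | _ | _ | _ | _ | _ | _ | _ | i
    all_goals first | exact absurd hL (Nat.not_lt_zero _) | exact lo_one hL
  · intro i hi s hs hc
    have := tb_lt4 hi (by decide)
    interval_cases i
    · exact absurd hi (by decide)
    · exact h1.two1 hs (hc 4 (by decide))
    · exact h2.two1 hs (hc 6 (by decide))
    · exact h3.two1 hs (hc 8 (by decide))

/-- the rank lemma -/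
theorem Net.rank_lemma (hF : Facts) (h : Net W X0 X1 X2 X3) (h0 : Gen X0 ∨ Irr X0) (i1 : Irr X1)
    (i2 : Irr X2) (i3 : Irr X3) : False := by
  obtain ⟨Y0, s0, c0, d0⟩ := h.c0.exists_ind h.six0
  obtain ⟨Y1, s1, c1, d1⟩ := h.c1.exists_ind h.six1
  obtain ⟨Y2, s2, c2, d2⟩ := h.c2.exists_ind h.six2
  obtain ⟨Y3, s3, c3, d3⟩ := h.c3.exists_ind h.six3
  have g : Net W Y0 Y1 Y2 Y3 := ⟨c0, c1, c2, c3, h.x01.mono s0 s1, h.x02.mono s0 s2,
    h.x03.mono s0 s3, h.x12.mono s1 s2, h.x13.mono s1 s3, h.x23.mono s2 s3⟩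
  have hr := g.rank d0 d1 d2 d3
  obtain ⟨R0, r0⟩ := c0.exists_rg g.six0 g.card
  obtain ⟨R1, r1⟩ := c1.exists_rg g.six1 g.card
  obtain ⟨R2, r2⟩ := c2.exists_rg g.six2 g.card
  obtain ⟨R3, r3⟩ := c3.exists_rg g.six3 g.card
  have l1 := g.s01.rg_le2 hF (i1.mono s1) r1
  have l2 := g.s02.rg_le2 hF (i2.mono s2) r2
  have l3 := g.s03.rg_le2 hF (i3.mono s3) r3
  have k0 := r0.cnt
  have k1 := r1.cnt
  have k2 := r2.cnt
  have k3 := r3.cnt
  rcases h0 with g0 | i0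
  · have g0 : Gen Y0 := g0.mono s0
    have l0 := card_le_card r0.sub
    have hc : 3 ≤ R1.card + R2.card + R3.card := by omega
    obtain a | a | a : R1.card = 0 ∨ R1.card = 1 ∨ R1.card = 2 := by omega
    all_goals obtain b | b | b : R2.card = 0 ∨ R2.card = 1 ∨ R2.card = 2 := by omega
    all_goals obtain c | c | c : R3.card = 0 ∨ R3.card = 1 ∨ R3.card = 2 := by omega
    all_goals first
      | exact g.c22 hF g0 r1 r2 a b
      | exact g.s23.c22 hF g0 r1 r3 a c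
      | exact g.s13.c22 hF g0 r3 r2 c b
      | exact g.c211 hF g0 r1 r2 r3 a b c
      | exact g.s12.c211 hF g0 r2 r1 r3 b a c
      | exact g.s13.c211 hF g0 r3 r2 r1 c b a
      | exact g.c210 hF g0 r1 r2 r3 a b c
      | exact g.s23.c210 hF g0 r1 r3 r2 a c b
      | exact g.s12.c210 hF g0 r2 r1 r3 b a c
      | exact g.s13.s23.c210 hF g0 r3 r1 r2 c a b
      | exact g.s12.s23.c210 hF g0 r2 r3 r1 b c a
      | exact g.s13.c210 hF g0 r3 r2 r1 c b a
      | exact g.c111 hF g0 r1 r2 r3 a b c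
      | omega
  · have l0 := g.rg_le2 hF (i0.mono s0) r0
    omega

theorem f1_gen (hF : Facts) (h : Net W X0 X1 X2 X3) (g0 : Gen X0) (n1 : ¬ Gen X1) (n2 : ¬ Gen X2)
    (n3 : ¬ Gen X3) : False := by
  by_cases i1 : Irr X1
  · by_cases i2 : Irr X2
    · by_cases i3 : Irr X3
      · exact h.rank_lemma hF (Or.inl g0) i1 i2 i3
      · exact h.s13.step3 hF g0 n3 i3 n2 n1
    · exact h.s12.step3 hF g0 n2 i2 n1 n3
  · exact h.step3 hF g0 n1 i1 n2 n3

/-- in a fractional net with four classes at least two classes are genuine -/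
theorem f1 (hF : Facts) {V : Type} [DecidableEq V] {W : Finset V}
    {X0 X1 X2 X3 : Finset (Finset V)} (h : Net W X0 X1 X2 X3) :
    ¬ Gen X1 → ¬ Gen X2 → ¬ Gen X3 → False := by
  intro n1 n2 n3
  by_cases g0 : Gen X0
  · exact f1_gen hF h g0 n1 n2 n3
  by_cases i0 : Irr X0
  · by_cases i1 : Irr X1
    · by_cases i2 : Irr X2
      · by_cases i3 : Irr X3
        · exact h.rank_lemma hF (Or.inr i0) i1 i2 i3
        · obtain ⟨P, gP, hP, -⟩ := h.s03.repl i3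
          exact f1_gen hF hP gP n1 n2 g0
      · obtain ⟨P, gP, hP, -⟩ := h.s02.repl i2
        exact f1_gen hF hP gP n1 g0 n3
    · obtain ⟨P, gP, hP, -⟩ := h.s01.repl i1
      exact f1_gen hF hP gP g0 n2 n3
  · obtain ⟨P, gP, hP, -⟩ := h.repl i0
    exact f1_gen hF hP gP n1 n2 n3

end Pool.Agent.P.MP_9e9aa3_co
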