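import Pool.Agent.P.MP_9e9aa3_co.Net

set_option autoImplicit false

namespace Pool.Agent.P.MP_9e9aa3_co

open Finset E

variable {V : Type} [DecidableEq V]

/-- no five pairwise disjoint members -/
def Irr (X : Finset (Finset V)) : Prop := ∀ S ⊆ X, Gen S → S.card < 5

variable {W : Finset V} {X Y X0 X1 X2 X3 : Finset (Finset V)}

omit [DecidableEq V] in
theorem Gen.mono (h : Gen X) (hs : Y ⊆ X) : Gen Y := fun A hA B hB => h A (hs hA) B (hs hB)

omit [DecidableEq V] in
theorem Irr.mono (h : Irr X) (hs : Y ⊆ X) : Irr Y := fun S hS hg => h S (hS.trans hs) hg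

theorem Cross.mono {X' Y' : Finset (Finset V)} (h : Cross X Y) (h1 : X' ⊆ X) (h2 : Y' ⊆ Y) :
    Cross X' Y' := fun A hA B hB => h A (h1 hA) B (h2 hB)

theorem Gen.insert {A : Finset V} (h : Gen X) (hA : ∀ B ∈ X, A = B ∨ Disjoint A B) :
    Gen (insert A X) := by
  intro B hB C hC
  rcases mem_insert.1 hB with e | hB'
  · rcases mem_insert.1 hC with e' | hC'
    · exact Or.inl (e.trans e'.symm)
    · exact e ▸ hA C hC'
  · rcases mem_insert.1 hC with e' | hC'
    · exact e' ▸ (hA B hB').imp Eq.symm (fun d => d.symm)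
    · exact h B hB' C hC'

/-- the trace of a set on the union of a genuine family -/
theorem Gen.card_inter (h : Gen X) (B : Finset V) :
    (B ∩ X.biUnion id).card = ∑ A ∈ X, (A ∩ B).card := by
  have : B ∩ X.biUnion id = X.biUnion (fun A => A ∩ B) := by
    ext s
    simp only [mem_inter, mem_biUnion, id]
    constructor
    · rintro ⟨h1, A, hA, h2⟩
      exact ⟨A, hA, h2, h1⟩
    · rintro ⟨A, hA, h2, h1⟩
      exact ⟨h1, A, hA, h2⟩
  rw [this, card_biUnion]
  intro A hA C hC hne
  exact ((h A hA C hC).resolve_left hne).mono inter_subset_left inter_subset_left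

theorem Gen.card_sdiff (h : Gen X) (B : Finset V) (c : ℕ) (hc : ∀ A ∈ X, (A ∩ B).card = c) :
    (B \ X.biUnion id).card + X.card * c = B.card := by
  have h1 := card_sdiff_add_card_inter B (X.biUnion id)
  rw [h.card_inter, sum_congr rfl hc, sum_const, smul_eq_mul] at h1
  exact h1

theorem Gen.card_rest (h : Gen X) (hs : ∀ A ∈ X, A ⊆ W) (h6 : ∀ A ∈ X, A.card = 6) :
    (W \ X.biUnion id).card + X.card * 6 = W.card :=
  h.card_sdiff W 6 fun A hA => by rw [inter_eq_left.2 (hs A hA), h6 A hA]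

theorem inter_rest {B : Finset V} (hB : B ⊆ W) (U : Finset V) : (W \ U) ∩ B = B \ U := by
  ext s
  simp only [mem_inter, mem_sdiff]
  constructor
  · rintro ⟨⟨_, h2⟩, h3⟩
    exact ⟨h3, h2⟩
  · rintro ⟨h1, h2⟩
    exact ⟨⟨hB h1, h2⟩, h1⟩

theorem IsCls.union (hX : IsCls W X) (hY : IsCls W Y) : IsCls W (X ∪ Y) := by
  obtain ⟨w, hw⟩ := hX
  obtain ⟨v, hv⟩ := hY
  have key : ∀ (Z : Finset (Finset V)) (f : Finset V → ℝ) (p : Finset V → Prop) [DecidablePred p],
      Z ⊆ X ∪ Y → ∑ A ∈ (X ∪ Y).filter p, (if A ∈ Z then f A else 0) = ∑ A ∈ Z.filter p, f A := by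
    intro Z f p _ hZ
    rw [← sum_filter]
    refine sum_congr ?_ fun _ _ => rfl
    ext A
    simp only [mem_filter]
    constructor
    · rintro ⟨⟨_, h2⟩, h3⟩
      exact ⟨h3, h2⟩
    · rintro ⟨h1, h2⟩
      exact ⟨⟨hZ h1, h2⟩, h1⟩
  refine ⟨fun A => ((if A ∈ X then w A else 0) + (if A ∈ Y then v A else 0)) / 2, ?_, ?_, ?_, ?_⟩
  · intro A hA
    rcases mem_union.1 hA with h | h
    exacts [hw.sub A h, hv.sub A h]
  · intro A hA
    by_cases h1 : A ∈ X <;> by_cases h2 : A ∈ Y
    · simp only [h1, h2, if_true]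
      linarith [hw.pos A h1, hv.pos A h2]
    · simp only [h1, h2, if_true, if_false]
      linarith [hw.pos A h1]
    · simp only [h1, h2, if_true, if_false]
      linarith [hv.pos A h2]
    · exact absurd (mem_union.1 hA) (by tauto)
  · have a := key X w (fun _ => True) subset_union_left
    have b := key Y v (fun _ => True) subset_union_right
    rw [filter_true, filter_true] at a b
    rw [← sum_div, sum_add_distrib, a, b, hw.tot, hv.tot]
    norm_num
  · intro s hs
    rw [← sum_div, sum_add_distrib, key X w _ subset_union_left, key Y v _ subset_union_right,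
      hw.cov s hs, hv.cov s hs]
    norm_num

/-- replacement of a class with five pairwise disjoint members by a genuine class -/
theorem Net.repl (h : Net W X0 X1 X2 X3) (hI : ¬ Irr X0) :
    ∃ P, Gen P ∧ Net W P X1 X2 X3 ∧ Net W (X0 ∪ P) X1 X2 X3 := by
  unfold Irr at hI
  push Not at hI
  obtain ⟨S0, hS0, hg0, hc0⟩ := hI
  obtain ⟨S, hSS, hc⟩ := exists_subset_card_eq hc0
  have hS : S ⊆ X0 := hSS.trans hS0
  have hg : Gen S := hg0.mono hSS
  set A6 := W \ S.biUnion id with hA6
  have hc6 : A6.card = 6 := by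
    have := hg.card_rest (W := W) (fun A hA => h.c0.sub A (hS hA)) (fun A hA => h.six0 A (hS hA))
    rw [hc, h.card, ← hA6] at this
    omega
  have hd : ∀ B ∈ S, Disjoint A6 B := fun B hB =>
    disjoint_left.2 fun s hs hsB => (mem_sdiff.1 hs).2 (mem_biUnion.2 ⟨B, hB, hsB⟩)
  have hn : A6 ∉ S := fun hm => by
    have := disjoint_self.1 (hd A6 hm)
    rw [this] at hc6
    simp at hc6
  have hgP : Gen (insert A6 S) := hg.insert fun B hB => Or.inr (hd B hB)
  have hsub : ∀ A ∈ insert A6 S, A ⊆ W := by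
    intro A hA
    rcases mem_insert.1 hA with rfl | hA
    · exact sdiff_subset
    · exact h.c0.sub A (hS hA)
  have hP : IsCls W (insert A6 S) := by
    refine ⟨fun _ => 1, hsub, fun _ _ => one_pos, ?_, ?_⟩
    · rw [sum_const, card_insert_of_notMem hn, hc]
      norm_num
    · intro s hs
      have : ∃ A ∈ insert A6 S, s ∈ A := by
        by_cases hm : s ∈ S.biUnion id
        · obtain ⟨A, hA, hsA⟩ := mem_biUnion.1 hm
          exact ⟨A, mem_insert_of_mem hA, hsA⟩
        · exact ⟨A6, mem_insert_self _ _, mem_sdiff.2 ⟨hs, hm⟩⟩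
      obtain ⟨A, hA, hsA⟩ := this
      have : (insert A6 S).filter (fun A => s ∈ A) = {A} := by
        refine eq_singleton_iff_unique_mem.2 ⟨mem_filter.2 ⟨hA, hsA⟩, fun B hB => ?_⟩
        rcases hgP B (mem_filter.1 hB).1 A hA with e | e
        · exact e
        · exact absurd hsA (disjoint_left.1 e (mem_filter.1 hB).2)
      rw [this, sum_singleton]
  have hx : ∀ Z, IsCls W Z → Cross X0 Z → (∀ B ∈ Z, B.card = 6) → Cross (insert A6 S) Z := by
    intro Z hZ hxz h6 A hA B hB
    rcases mem_insert.1 hA with rfl | hA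
    · have := hg.card_sdiff B 1 fun C hC => hxz C (hS hC) B hB
      rw [hc, h6 B hB] at this
      rw [inter_rest (hZ.sub B hB)]
      omega
    · exact hxz A (hS hA) B hB
  have x1 := hx X1 h.c1 h.x01 h.six1
  have x2 := hx X2 h.c2 h.x02 h.six2
  have x3 := hx X3 h.c3 h.x03 h.six3
  have hu : ∀ {Z}, Cross X0 Z → Cross (insert A6 S) Z → Cross (X0 ∪ insert A6 S) Z :=
    fun a b A hA B hB => (mem_union.1 hA).elim (fun h => a A h B hB) (fun h => b A h B hB)
  exact ⟨_, hgP, ⟨hP, h.c1, h.c2, h.c3, x1, x2, x3, h.x12, h.x13, h.x23⟩,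
    ⟨h.c0.union hP, h.c1, h.c2, h.c3, hu h.x01 x1, hu h.x02 x2, hu h.x03 x3, h.x12, h.x13, h.x23⟩⟩

theorem tb_lt4 {m i : ℕ} (h : m.testBit i = true) (hm : m < 16) : i < 4 := by
  by_contra hc
  have h1 := Nat.ge_two_pow_of_testBit h
  have h2 : 2 ^ 4 ≤ 2 ^ i := Nat.pow_le_pow_right (by norm_num) (by omega)
  omega

omit [DecidableEq V] in
theorem lo_one {K : Finset V} {L : Finset (Finset V)} (h : L.card < 1) : ∃ x, x = K ∧ x ∉ L := by
  have : L = ∅ := card_eq_zero.1 (by omega)
  subst this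
  exact ⟨K, rfl, notMem_empty _⟩

/-- one genuine class, one reducible class, two classes that are not genuine -/
theorem Net.step3 (hF : Facts) (h : Net W X0 X1 X2 X3) (g0 : Gen X0) (n1 : ¬ Gen X1)
    (i1 : ¬ Irr X1) (n2 : ¬ Gen X2) (n3 : ¬ Gen X3) : False := by
  obtain ⟨P, gP, hP, hU⟩ := h.s01.repl i1
  have : ¬ X1 ⊆ P := fun hs => n1 (gP.mono hs)
  obtain ⟨K, hK, hKP⟩ := not_subset.1 this
  refine hF.s3 V W (fun i x => match i with
    | 0 => x ∈ X0 | 1 => x ∈ P | 2 => x ∈ X2 | 3 => x ∈ X3 | 4 => x = K | _ => False) h.card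
    ⟨?_, ?_, ?_, ?_, ?_, ?_, ?_, ?_⟩
  · intro i x hx
    rcases i with _ | _ | _ | _ | _ | i
    · exact ⟨h.c0.sub x hx, h.six0 x hx⟩
    · exact ⟨hP.c0.sub x hx, hP.six0 x hx⟩
    · exact ⟨h.c2.sub x hx, h.six2 x hx⟩
    · exact ⟨h.c3.sub x hx, h.six3 x hx⟩
    · cases hx
      exact ⟨h.c1.sub K hK, h.six1 K hK⟩
    · exact hx.elim
  · intro e he x y hx hy
    simp only [sp3, List.mem_cons, List.not_mem_nil, or_false] at he
    rcases he with rfl | rfl | rfl | rfl | rfl | rfl | rfl | rfl | rfl | rfl | rfl | rfl | rfl | rfl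
    · exact g0.rel65 h.six0 hx hy
    · exact gP.rel65 hP.six0 hx hy
    · exact h.s02.rel79 hx hy
    · exact h.s03.rel79 hx hy
    · exact rel2 (hP.x01.symm x hx y hy)
    · exact rel2 (h.x02 x hx y hy)
    · exact rel2 (h.x03 x hx y hy)
    · exact rel2 (hP.x02 x hx y hy)
    · exact rel2 (hP.x03 x hx y hy)
    · exact rel2 (h.x23 x hx y hy)
    · cases hx
      exact rel2 (h.x01.symm K hK y hy)
    · cases hx
      have := hU.le3 (mem_union_left _ hK) (mem_union_right _ hy) (fun e => hKP (e ▸ hy))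
      show Nat.testBit 15 (K ∩ y).card = true
      generalize (K ∩ y).card = c at this
      interval_cases c <;> decide
    · cases hx
      exact rel2 (h.x12 K hK y hy)
    · cases hx
      exact rel2 (h.x13 K hK y hy)
  · intro i hi s hs
    have := tb_lt4 hi (by decide)
    interval_cases i
    · exact h.c0.cover s hs
    · exact hP.c0.cover s hs
    · exact h.c2.cover s hs
    · exact h.c3.cover s hs
  · intro i hi
    have := tb_lt4 hi (by decide)
    interval_cases i
    · exact absurd hi (by decide)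
    · exact absurd hi (by decide)
    · exact h.c2.tw
    · exact h.c3.tw
  · intro i B hB
    rcases i with _ | _ | _ | _ | _ | i
    · exact absurd hB (Nat.not_lt_zero _)
    · exact absurd hB (Nat.not_lt_zero _)
    · exact h.c2.hs B hB
    · exact h.c3.hs B hB
    · exact absurd hB (Nat.not_lt_zero _)
    · exact absurd hB (Nat.not_lt_zero _)
  · intro i L hL
    rcases i with _ | _ | _ | _ | _ | i
    · exact absurd hL (Nat.not_lt_zero _)
    · exact absurd hL (Nat.not_lt_zero _)
    · exact h.c2.lo7 h.six2 n2 L hL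
    · exact h.c3.lo7 h.six3 n3 L hL
    · exact lo_one hL
    · exact absurd hL (Nat.not_lt_zero _)
  · intro i hi
    exact absurd hi (by simp [sp3])
  · intro e he
    exact absurd he (by simp [sp3])

end Pool.Agent.P.MP_9e9aa3_co
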