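import Pool.Agent.P.MP_9e9aa3_co.F1a

set_option autoImplicit false

namespace Pool.Agent.P.MP_9e9aa3_co

open Finset E

variable {V : Type} [DecidableEq V]

/-- the indicator vectors of the members are linearly independent on `W` -/
def Ind (W : Finset V) (X : Finset (Finset V)) : Prop :=
  ∀ c : Finset V → ℝ, (∀ s ∈ W, ∑ A ∈ X.filter (fun A => s ∈ A), c A = 0) → ∀ A ∈ X, c A = 0

variable {W : Finset V} {X Y X0 X1 X2 X3 : Finset (Finset V)}

/-- double counting -/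
theorem sum_pts (hs : ∀ A ∈ X, A ⊆ W) (h6 : ∀ A ∈ X, A.card = 6) (c : Finset V → ℝ) :
    ∑ s ∈ W, ∑ A ∈ X.filter (fun A => s ∈ A), c A = 6 * ∑ A ∈ X, c A := by
  simp only [sum_filter]
  rw [sum_comm, mul_sum]
  refine sum_congr rfl fun A hA => ?_
  rw [← sum_filter, sum_const, nsmul_eq_mul, filter_mem_eq_inter, inter_eq_right.2 (hs A hA),
    h6 A hA]
  norm_num

theorem sum_cross (hs : ∀ A ∈ X, A ⊆ W) (hx : Cross X Y) (c d : Finset V → ℝ) :
    ∑ s ∈ W, (∑ A ∈ X.filter (fun A => s ∈ A), c A) * (∑ B ∈ Y.filter (fun B => s ∈ B), d B) =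
      (∑ A ∈ X, c A) * ∑ B ∈ Y, d B := by
  simp only [sum_filter, sum_mul_sum]
  rw [sum_comm]
  refine sum_congr rfl fun A hA => ?_
  rw [sum_comm]
  refine sum_congr rfl fun B hB => ?_
  have : ∀ s ∈ W, (if s ∈ A then c A else 0) * (if s ∈ B then d B else 0) =
      if s ∈ A ∩ B then c A * d B else 0 := by
    intro s _
    by_cases h1 : s ∈ A <;> by_cases h2 : s ∈ B <;> simp [h1, h2]
  rw [sum_congr rfl this, ← sum_filter, sum_const, nsmul_eq_mul, filter_mem_eq_inter,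
    inter_eq_right.2 (inter_subset_left.trans (hs A hA)), hx A hA B hB]
  simp

/-- a minimal subclass is independent -/
theorem IsCls.exists_ind (h : IsCls W X) (h6 : ∀ A ∈ X, A.card = 6) :
    ∃ X' ⊆ X, IsCls W X' ∧ Ind W X' := by
  classical
  obtain ⟨X', hX', hmin⟩ := exists_min_image (X.powerset.filter (fun Z => IsCls W Z)) card
    ⟨X, mem_filter.2 ⟨mem_powerset_self X, h⟩⟩
  have hsub : X' ⊆ X := mem_powerset.1 (mem_filter.1 hX').1
  obtain ⟨w, hw⟩ := (mem_filter.1 hX').2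
  refine ⟨X', hsub, ⟨w, hw⟩, fun c hc => ?_⟩
  have hsum : ∑ A ∈ X', c A = 0 := by
    have := sum_pts hw.sub (fun A hA => h6 A (hsub hA)) c
    rw [sum_congr rfl hc, sum_const_zero] at this
    linarith
  by_contra hne
  have hpos : ∃ A ∈ X', 0 < c A := by
    by_contra hn
    push Not at hn
    exact hne ((sum_eq_zero_iff_of_nonpos hn).1 hsum)
  obtain ⟨A0, hA0, hm⟩ := exists_min_image (X'.filter (fun A => 0 < c A)) (fun A => w A / c A)
    (by obtain ⟨A, h1, h2⟩ := hpos; exact ⟨A, mem_filter.2 ⟨h1, h2⟩⟩)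
  have hc0 : 0 < c A0 := (mem_filter.1 hA0).2
  have hA0' : A0 ∈ X' := (mem_filter.1 hA0).1
  set t := w A0 / c A0 with ht
  have htp : 0 < t := div_pos (hw.pos A0 hA0') hc0
  have hnn : ∀ A ∈ X', 0 ≤ w A - t * c A := by
    intro A hA
    by_cases hcA : 0 < c A
    · have := hm A (mem_filter.2 ⟨hA, hcA⟩)
      rw [le_div_iff₀ hcA] at this
      linarith
    · have := hw.pos A hA
      nlinarith
  have hz : w A0 - t * c A0 = 0 := by
    rw [ht, div_mul_cancel₀ _ hc0.ne', sub_self]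
  have key : ∀ (p : Finset V → Prop) [DecidablePred p],
      ∑ A ∈ (X'.filter (fun A => 0 < w A - t * c A)).filter p, (w A - t * c A) =
        ∑ A ∈ X'.filter p, w A - t * ∑ A ∈ X'.filter p, c A := by
    intro p _
    rw [mul_sum, ← sum_sub_distrib]
    refine sum_subset (fun A hA => ?_) fun A hA hn => ?_
    · exact mem_filter.2 ⟨(mem_filter.1 (mem_filter.1 hA).1).1, (mem_filter.1 hA).2⟩
    · refine le_antisymm (not_lt.1 fun hp => hn ?_) (hnn A (mem_filter.1 hA).1)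
      exact mem_filter.2 ⟨mem_filter.2 ⟨(mem_filter.1 hA).1, hp⟩, (mem_filter.1 hA).2⟩
  have hnew : IsCls W (X'.filter (fun A => 0 < w A - t * c A)) := by
    refine ⟨fun A => w A - t * c A, fun A hA => hw.sub A (mem_filter.1 hA).1,
      fun A hA => (mem_filter.1 hA).2, ?_, fun s hs => ?_⟩
    · have := key (fun _ => True)
      rw [filter_true, filter_true, hw.tot, hsum] at this
      rw [this]
      ring
    · rw [key, hw.cov s hs, hc s hs]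
      ring
  have h1 := hmin _ (mem_filter.2 ⟨mem_powerset.2 ((filter_subset _ _).trans hsub), hnew⟩)
  have h2 : (X'.filter (fun A => 0 < w A - t * c A)).card < X'.card :=
    card_lt_card (filter_ssubset.2 ⟨A0, hA0', by rw [hz]; exact lt_irrefl _⟩)
  omega

/-- extension by zero -/
noncomputable def ext0 (X : Finset (Finset V)) : (X → ℝ) →ₗ[ℝ] (Finset V → ℝ) where
  toFun c A := if h : A ∈ X then c ⟨A, h⟩ else 0
  map_add' c d := by
    funext A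
    by_cases h : A ∈ X <;> simp [h]
  map_smul' r c := by
    funext A
    by_cases h : A ∈ X <;> simp [h]

/-- the combination of the indicator vectors -/
noncomputable def evL (W : Finset V) (X : Finset (Finset V)) : (Finset V → ℝ) →ₗ[ℝ] (W → ℝ) where
  toFun c s := ∑ A ∈ X.filter (fun A => (s : V) ∈ A), c A
  map_add' c d := by
    funext s
    simp [sum_add_distrib]
  map_smul' r c := by
    funext s
    simp [mul_sum]

/-- the sum of the coefficients -/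
noncomputable def smL (X : Finset (Finset V)) : (Finset V → ℝ) →ₗ[ℝ] ℝ where
  toFun c := ∑ A ∈ X, c A
  map_add' c d := by simp [sum_add_distrib]
  map_smul' r c := by simp [mul_sum]

theorem ext0_eq_zero {c : X → ℝ} (h : ∀ A ∈ X, ext0 X c A = 0) : c = 0 := by
  funext A
  have := h A.1 A.2
  simpa [ext0] using this

theorem Net.ind4 (h : Net W X0 X1 X2 X3) (i0 : Ind W X0) (i1 : Ind W X1) (i2 : Ind W X2)
    (i3 : Ind W X3) (c0 c1 c2 c3 : Finset V → ℝ)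
    (hs : ∀ s ∈ W, ∑ A ∈ X0.filter (fun A => s ∈ A), c0 A + ∑ A ∈ X1.filter (fun A => s ∈ A), c1 A +
      ∑ A ∈ X2.filter (fun A => s ∈ A), c2 A + ∑ A ∈ X3.filter (fun A => s ∈ A), c3 A = 0)
    (s1 : ∑ A ∈ X1, c1 A = 0) (s2 : ∑ A ∈ X2, c2 A = 0) (s3 : ∑ A ∈ X3, c3 A = 0) :
    (∀ A ∈ X0, c0 A = 0) ∧ (∀ A ∈ X1, c1 A = 0) ∧ (∀ A ∈ X2, c2 A = 0) ∧ ∀ A ∈ X3, c3 A = 0 := by
  have x01 := sum_cross h.c0.sub h.x01 c0 c1
  have x02 := sum_cross h.c0.sub h.x02 c0 c2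
  have x03 := sum_cross h.c0.sub h.x03 c0 c3
  have x12 := sum_cross h.c1.sub h.x12 c1 c2
  have x13 := sum_cross h.c1.sub h.x13 c1 c3
  have x23 := sum_cross h.c2.sub h.x23 c2 c3
  simp only [s1, s2, s3, mul_zero] at x01 x02 x03 x12 x13 x23
  unfold Ind at i0 i1 i2 i3
  generalize hu0 : (fun s => ∑ A ∈ X0.filter (fun A => s ∈ A), c0 A) = u0
  generalize hu1 : (fun s => ∑ A ∈ X1.filter (fun A => s ∈ A), c1 A) = u1
  generalize hu2 : (fun s => ∑ A ∈ X2.filter (fun A => s ∈ A), c2 A) = u2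
  generalize hu3 : (fun s => ∑ A ∈ X3.filter (fun A => s ∈ A), c3 A) = u3
  have e0 : ∀ s, ∑ A ∈ X0.filter (fun A => s ∈ A), c0 A = u0 s := fun s => congrFun hu0 s
  have e1 : ∀ s, ∑ A ∈ X1.filter (fun A => s ∈ A), c1 A = u1 s := fun s => congrFun hu1 s
  have e2 : ∀ s, ∑ A ∈ X2.filter (fun A => s ∈ A), c2 A = u2 s := fun s => congrFun hu2 s
  have e3 : ∀ s, ∑ A ∈ X3.filter (fun A => s ∈ A), c3 A = u3 s := fun s => congrFun hu3 s
  simp only [e0, e1, e2, e3] at hs x01 x02 x03 x12 x13 x23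
  have hsq : ∑ s ∈ W, (u0 s ^ 2 + u1 s ^ 2 + u2 s ^ 2 + u3 s ^ 2) = 0 := by
    have : ∀ s ∈ W, u0 s ^ 2 + u1 s ^ 2 + u2 s ^ 2 + u3 s ^ 2 =
        -2 * (u0 s * u1 s + u0 s * u2 s + u0 s * u3 s + u1 s * u2 s + u1 s * u3 s + u2 s * u3 s) := by
      intro s hsW
      have := hs s hsW
      have h2 : (u0 s + u1 s + u2 s + u3 s) ^ 2 = 0 := by rw [this]; ring
      linarith [h2]
    rw [sum_congr rfl this, ← mul_sum]
    simp only [sum_add_distrib, x01, x02, x03, x12, x13, x23]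
    ring
  have hz := (sum_eq_zero_iff_of_nonneg (fun s _ => by positivity)).1 hsq
  refine ⟨i0 c0 fun s hsW => ?_, i1 c1 fun s hsW => ?_, i2 c2 fun s hsW => ?_,
    i3 c3 fun s hsW => ?_⟩
  · rw [e0]
    nlinarith [hz s hsW, sq_nonneg (u0 s), sq_nonneg (u1 s), sq_nonneg (u2 s), sq_nonneg (u3 s)]
  · rw [e1]
    nlinarith [hz s hsW, sq_nonneg (u0 s), sq_nonneg (u1 s), sq_nonneg (u2 s), sq_nonneg (u3 s)]
  · rw [e2]
    nlinarith [hz s hsW, sq_nonneg (u0 s), sq_nonneg (u1 s), sq_nonneg (u2 s), sq_nonneg (u3 s)]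
  · rw [e3]
    nlinarith [hz s hsW, sq_nonneg (u0 s), sq_nonneg (u1 s), sq_nonneg (u2 s), sq_nonneg (u3 s)]

/-- the rank bound -/
theorem Net.rank (h : Net W X0 X1 X2 X3) (i0 : Ind W X0) (i1 : Ind W X1) (i2 : Ind W X2)
    (i3 : Ind W X3) : X0.card + X1.card + X2.card + X3.card ≤ 39 := by
  let p0 : ((X0 → ℝ) × (X1 → ℝ) × (X2 → ℝ) × (X3 → ℝ)) →ₗ[ℝ] (Finset V → ℝ) :=
    ext0 X0 ∘ₗ LinearMap.fst ℝ _ _
  let p1 : ((X0 → ℝ) × (X1 → ℝ) × (X2 → ℝ) × (X3 → ℝ)) →ₗ[ℝ] (Finset V → ℝ) :=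
    ext0 X1 ∘ₗ LinearMap.fst ℝ _ _ ∘ₗ LinearMap.snd ℝ _ _
  let p2 : ((X0 → ℝ) × (X1 → ℝ) × (X2 → ℝ) × (X3 → ℝ)) →ₗ[ℝ] (Finset V → ℝ) :=
    ext0 X2 ∘ₗ LinearMap.fst ℝ _ _ ∘ₗ LinearMap.snd ℝ _ _ ∘ₗ LinearMap.snd ℝ _ _
  let p3 : ((X0 → ℝ) × (X1 → ℝ) × (X2 → ℝ) × (X3 → ℝ)) →ₗ[ℝ] (Finset V → ℝ) :=
    ext0 X3 ∘ₗ LinearMap.snd ℝ _ _ ∘ₗ LinearMap.snd ℝ _ _ ∘ₗ LinearMap.snd ℝ _ _
  let Φ : ((X0 → ℝ) × (X1 → ℝ) × (X2 → ℝ) × (X3 → ℝ)) →ₗ[ℝ] ((W → ℝ) × ℝ × ℝ × ℝ) :=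
    (evL W X0 ∘ₗ p0 + evL W X1 ∘ₗ p1 + evL W X2 ∘ₗ p2 + evL W X3 ∘ₗ p3).prod
      ((smL X1 ∘ₗ p1).prod ((smL X2 ∘ₗ p2).prod (smL X3 ∘ₗ p3)))
  have hinj : Function.Injective Φ := by
    rw [← LinearMap.ker_eq_bot, LinearMap.ker_eq_bot']
    rintro ⟨c0, c1, c2, c3⟩ hc
    have a := congrArg Prod.fst hc
    have b1 := congrArg (fun z => z.2.1) hc
    have b2 := congrArg (fun z => z.2.2.1) hc
    have b3 := congrArg (fun z => z.2.2.2) hc
    obtain ⟨z0, z1, z2, z3⟩ := h.ind4 i0 i1 i2 i3 (ext0 X0 c0) (ext0 X1 c1) (ext0 X2 c2)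
      (ext0 X3 c3) (fun s hs => congrFun a ⟨s, hs⟩) b1 b2 b3
    rw [ext0_eq_zero z0, ext0_eq_zero z1, ext0_eq_zero z2, ext0_eq_zero z3]
    rfl
  have := LinearMap.finrank_le_finrank_of_injective hinj
  simp only [Module.finrank_prod, Module.finrank_fintype_fun_eq_card, Fintype.card_coe,
    Module.finrank_self, h.card] at this
  omega

end Pool.Agent.P.MP_9e9aa3_co
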