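import Pool.Agent.P.MP_9e9aa3_co.F1b

set_option autoImplicit false

namespace Pool.Agent.P.MP_9e9aa3_co

open Finset E

variable {V : Type} [DecidableEq V]

/-- `A` is a member that is disjoint from all other members -/
def Rig (X : Finset (Finset V)) (A : Finset V) : Prop := A ∈ X ∧ ∀ B ∈ X, A = B ∨ Disjoint A B

/-- `R` is the set of rigid members -/
structure Rg (W : Finset V) (X R : Finset (Finset V)) : Prop where
  rig : ∀ A ∈ R, Rig X A
  two : ∀ s ∈ W, (∀ A ∈ R, s ∉ A) → ∀ z, ∃ x, x ∈ X ∧ s ∈ x ∧ x ≠ z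
  cnt : 12 ≤ X.card + R.card

variable {W : Finset V} {X Y R X0 X1 X2 X3 : Finset (Finset V)}

omit [DecidableEq V] in
theorem Rg.sub (h : Rg W X R) : R ⊆ X := fun A hA => (h.rig A hA).1

omit [DecidableEq V] in
theorem Rg.gen (h : Rg W X R) : Gen R := fun A hA B hB => (h.rig A hA).2 B (h.sub hB)

theorem IsCls.exists_rg (h : IsCls W X) (h6 : ∀ A ∈ X, A.card = 6) (hW : W.card = 36) :
    ∃ R, Rg W X R := by
  classical
  obtain ⟨w, hw⟩ := h
  set R := X.filter (fun A => w A = 1) with hR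
  have hrig : ∀ A ∈ R, Rig X A := by
    intro A hA
    obtain ⟨hAX, hA1⟩ := mem_filter.1 hA
    refine ⟨hAX, fun B hB => ?_⟩
    by_contra hn
    push Not at hn
    obtain ⟨p, hp1, hp2⟩ := not_disjoint_iff.1 hn.2
    have h1 := hw.cov p (hw.sub A hAX hp1)
    have h2 : ({A, B} : Finset (Finset V)) ⊆ X.filter (fun A => p ∈ A) := by
      intro C hC
      rcases mem_insert.1 hC with rfl | hC
      · exact mem_filter.2 ⟨hAX, hp1⟩
      · rw [mem_singleton.1 hC]
        exact mem_filter.2 ⟨hB, hp2⟩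
    have h3 := sum_le_sum_of_subset_of_nonneg (f := w) h2
      (fun j hj _ => (hw.pos j (mem_filter.1 hj).1).le)
    rw [sum_pair hn.1, hA1, h1] at h3
    linarith [hw.pos B hB]
  have htwo : ∀ s ∈ W, (∀ A ∈ R, s ∉ A) → ∀ z, ∃ x, x ∈ X ∧ s ∈ x ∧ x ≠ z := by
    intro s hs hno z
    by_contra hc
    push Not at hc
    obtain ⟨A, hA, hsA⟩ := IsCls.cover ⟨w, hw⟩ s hs
    have : X.filter (fun A => s ∈ A) = {A} := by
      refine eq_singleton_iff_unique_mem.2 ⟨mem_filter.2 ⟨hA, hsA⟩, fun B hB => ?_⟩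
      rw [hc B (mem_filter.1 hB).1 (mem_filter.1 hB).2, hc A hA hsA]
    have h1 := hw.cov s hs
    rw [this, sum_singleton] at h1
    exact hno A (mem_filter.2 ⟨hA, h1⟩) hsA
  have hRX : R ⊆ X := filter_subset _ _
  have hg : Gen R := fun A hA B hB => (hrig A hA).2 B (hRX hB)
  refine ⟨R, hrig, htwo, ?_⟩
  have hU := hg.card_rest (W := W) (fun A hA => hw.sub A (hRX hA)) (fun A hA => h6 A (hRX hA))
  have hdc := card_mul_le_card_mul (s := W \ R.biUnion id) (t := X \ R) (m := 2) (n := 6)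
    (fun s A => s ∈ A) (fun s hs => ?_) (fun A hA => ?_)
  · have := card_sdiff_add_card_eq_card hRX
    omega
  · obtain ⟨hsW, hsU⟩ := mem_sdiff.1 hs
    have hno : ∀ A ∈ R, s ∉ A := fun A hA hsA => hsU (mem_biUnion.2 ⟨A, hA, hsA⟩)
    obtain ⟨x, hx, hsx, -⟩ := htwo s hsW hno ∅
    obtain ⟨y, hy, hsy, hne⟩ := htwo s hsW hno x
    refine one_lt_card.2 ⟨x, ?_, y, ?_, hne.symm⟩
    · exact mem_bipartiteAbove _ |>.2 ⟨mem_sdiff.2 ⟨hx, fun hm => hno x hm hsx⟩, hsx⟩
    · exact mem_bipartiteAbove _ |>.2 ⟨mem_sdiff.2 ⟨hy, fun hm => hno y hm hsy⟩, hsy⟩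
  · rw [← h6 A (mem_sdiff.1 hA).1]
    exact card_le_card fun s hs => (mem_bipartiteBelow _ |>.1 hs).2

theorem tw_tr (h : IsCls W X) {G : Finset V} (hG : G ⊆ W) : ∀ u ∈ G, ∀ v,
    (∀ x, (∃ B ∈ X, x = B ∩ G) → u ∈ x → v ∈ x) → ∀ x, (∃ B ∈ X, x = B ∩ G) → v ∈ x → u ∈ x := by
  rintro u hu v huv _ ⟨B, hB, rfl⟩ hv
  refine mem_inter.2 ⟨h.tw u (hG hu) v (fun C hC huC => ?_) B hB (mem_inter.1 hv).1, hu⟩
  exact (mem_inter.1 (huv _ ⟨C, hC, rfl⟩ (mem_inter.2 ⟨huC, hu⟩))).1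

theorem hs_tr (h : IsCls W X) (G B : Finset V) (hB : B.card < 6) :
    ∃ x, (∃ C ∈ X, x = C ∩ G) ∧ Disjoint x B := by
  obtain ⟨C, hC, hd⟩ := h.hs B hB
  exact ⟨_, ⟨C, hC, rfl⟩, hd.mono_left inter_subset_left⟩

theorem cov_tr (h : IsCls W X) {G : Finset V} (hG : G ⊆ W) : ∀ s ∈ G,
    ∃ x, (∃ C ∈ X, x = C ∩ G) ∧ s ∈ x := by
  intro s hs
  obtain ⟨C, hC, hsC⟩ := h.cover s (hG hs)
  exact ⟨_, ⟨C, hC, rfl⟩, mem_inter.2 ⟨hsC, hs⟩⟩

theorem rel3_tr (hx : Cross X Y) (G : Finset V) {x y : Finset V} (h1 : ∃ B ∈ X, x = B ∩ G)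
    (h2 : ∃ B ∈ Y, y = B ∩ G) : Nat.testBit 3 (x ∩ y).card = true := by
  obtain ⟨B, hB, rfl⟩ := h1
  obtain ⟨C, hC, rfl⟩ := h2
  refine rel3 ?_
  rw [← hx B hB C hC]
  exact card_le_card (inter_subset_inter inter_subset_left inter_subset_left)

theorem rel2_tr (hx : Cross X Y) {G x y : Finset V} (h1 : x ∈ X) (hG : x ⊆ G)
    (h2 : ∃ B ∈ Y, y = B ∩ G) : Nat.testBit 2 (x ∩ y).card = true := by
  obtain ⟨C, hC, rfl⟩ := h2
  refine rel2 ?_
  rw [inter_comm C, ← inter_assoc, inter_eq_left.2 hG]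
  exact hx x h1 C hC

/-- an irreducible class has at most two rigid members -/
theorem Net.rg_le2 (hF : Facts) (h : Net W X0 X1 X2 X3) (hI : Irr X0) (hR : Rg W X0 R) :
    R.card ≤ 2 := by
  have h5 := hI R hR.sub hR.gen
  have hU := hR.gen.card_rest (W := W) (fun A hA => h.c0.sub A (hR.sub hA))
    (fun A hA => h.six0 A (hR.sub hA))
  rw [h.card] at hU
  have hins : ∀ B ∈ X0, ∀ A ∈ R, B = A ∨ Disjoint B A := fun B hB A hA =>
    ((hR.rig A hA).2 B hB).imp Eq.symm (fun d => d.symm)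
  have h4 : R.card ≠ 4 := by
    intro h4
    obtain ⟨s, hs⟩ := card_pos.1 (by omega : 0 < (W \ R.biUnion id).card)
    obtain ⟨B, hB, hsB⟩ := h.c0.cover s (mem_sdiff.1 hs).1
    have hBR : B ∉ R := fun hm => (mem_sdiff.1 hs).2 (mem_biUnion.2 ⟨B, hm, hsB⟩)
    have := hI _ (insert_subset hB hR.sub) (hR.gen.insert (hins B hB))
    rw [card_insert_of_notMem hBR] at this
    omega
  by_contra hc
  have h3 : R.card = 3 := by omega
  set G := W \ R.biUnion id with hG
  have hGW : G ⊆ W := sdiff_subset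
  have hin : ∀ x ∈ X0, x ∉ R → x ⊆ G := by
    intro x hx hxR s hs
    refine mem_sdiff.2 ⟨h.c0.sub x hx hs, fun hm => ?_⟩
    obtain ⟨A, hA, hsA⟩ := mem_biUnion.1 hm
    rcases hins x hx A hA with e | e
    · exact hxR (e ▸ hA)
    · exact disjoint_left.1 e hs hsA
  have hout : ∀ s ∈ G, ∀ A ∈ R, s ∉ A := fun s hs A hA hsA =>
    (mem_sdiff.1 hs).2 (mem_biUnion.2 ⟨A, hA, hsA⟩)
  have htr : ∀ {Z}, IsCls W Z → Cross X0 Z → (∀ B ∈ Z, B.card = 6) →
      ∀ x, (∃ B ∈ Z, x = B ∩ G) → x ⊆ G ∧ x.card = 3 := by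
    rintro Z hZ hx h6 _ ⟨B, hB, rfl⟩
    refine ⟨inter_subset_right, ?_⟩
    have := hR.gen.card_sdiff B 1 fun C hC => hx C (hR.sub hC) B hB
    rw [h3, h6 B hB] at this
    rw [inter_comm, hG, inter_rest (hZ.sub B hB)]
    omega
  refine hF.s1 V G (fun i x => match i with
    | 0 => x ∈ X0 ∧ x ∉ R | 1 => ∃ B ∈ X1, x = B ∩ G | 2 => ∃ B ∈ X2, x = B ∩ G
    | 3 => ∃ B ∈ X3, x = B ∩ G | _ => False) (by show G.card = 18; omega)
    ⟨?_, ?_, ?_, ?_, ?_, ?_, ?_, ?_⟩
  · intro i x hx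
    rcases i with _ | _ | _ | _ | i
    · exact ⟨hin x hx.1 hx.2, h.six0 x hx.1⟩
    · exact htr h.c1 h.x01 h.six1 x hx
    · exact htr h.c2 h.x02 h.six2 x hx
    · exact htr h.c3 h.x03 h.six3 x hx
    · exact hx.elim
  · intro e he x y hx hy
    simp only [sp1, List.mem_cons, List.not_mem_nil, or_false] at he
    rcases he with rfl | rfl | rfl | rfl | rfl | rfl | rfl
    · show Nat.testBit 78 (x ∩ y).card = true
      by_cases e : x = y
      · subst e
        rw [inter_self, h.six0 x hx.1]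
        decide
      · have a := h.le3 hx.1 hy.1 e
        have b : (x ∩ y).card ≠ 0 := by
          intro h0
          have hd : Disjoint x y := disjoint_iff_inter_eq_empty.2 (card_eq_zero.1 h0)
          have hg : Gen (insert x (insert y R)) := by
            refine (hR.gen.insert (hins y hy.1)).insert fun B hB => ?_
            rcases mem_insert.1 hB with e' | hB'
            · exact Or.inr (e' ▸ hd)
            · exact hins x hx.1 B hB'
          have := hI _ (insert_subset hx.1 (insert_subset hy.1 hR.sub)) hg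
          rw [card_insert_of_notMem (by simp [e, hx.2]), card_insert_of_notMem hy.2] at this
          omega
        generalize (x ∩ y).card = c at a b
        interval_cases c
        · exact absurd rfl b
        all_goals decide
    · exact rel2_tr h.x01 hx.1 (hin x hx.1 hx.2) hy
    · exact rel2_tr h.x02 hx.1 (hin x hx.1 hx.2) hy
    · exact rel2_tr h.x03 hx.1 (hin x hx.1 hx.2) hy
    · exact rel3_tr h.x12 G hx hy
    · exact rel3_tr h.x13 G hx hy
    · exact rel3_tr h.x23 G hx hy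
  · intro i hi s hs
    have := tb_lt4 hi (by decide)
    interval_cases i
    · obtain ⟨B, hB, hsB⟩ := h.c0.cover s (hGW hs)
      exact ⟨B, ⟨hB, fun hm => hout s hs B hm hsB⟩, hsB⟩
    · exact cov_tr h.c1 hGW s hs
    · exact cov_tr h.c2 hGW s hs
    · exact cov_tr h.c3 hGW s hs
  · intro i hi
    have := tb_lt4 hi (by decide)
    interval_cases i
    · intro u hu v huv x hx hv
      exact h.c0.tw u (hGW hu) v (fun C hC huC => huv C ⟨hC, fun hm => hout u hu C hm huC⟩ huC)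
        x hx.1 hv
    · exact tw_tr h.c1 hGW
    · exact tw_tr h.c2 hGW
    · exact tw_tr h.c3 hGW
  · intro i B hB
    rcases i with _ | _ | _ | _ | i
    · have hB3 : B.card < 3 := hB
      obtain ⟨s, hs⟩ := card_pos.1 (by omega : 0 < G.card)
      obtain ⟨C, hC, -⟩ := h.c1.cover s (hGW hs)
      have hT : (C ∩ R.biUnion id).card = 3 := by
        rw [hR.gen.card_inter, sum_congr rfl (fun A hA => h.x01 A (hR.sub hA) C hC), sum_const,
          h3]
        rfl
      obtain ⟨x, hx, hd⟩ := h.c0.hs (B ∪ C ∩ R.biUnion id)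
        (lt_of_le_of_lt (card_union_le _ _) (by omega))
      refine ⟨x, ⟨hx, fun hm => ?_⟩, hd.mono_right subset_union_left⟩
      obtain ⟨p, hp⟩ := card_pos.1 (by rw [h.x01 x hx C hC]; norm_num : 0 < (x ∩ C).card)
      exact disjoint_left.1 hd (mem_inter.1 hp).1 (mem_union_right _
        (mem_inter.2 ⟨(mem_inter.1 hp).2, mem_biUnion.2 ⟨x, hm, (mem_inter.1 hp).1⟩⟩))
    · exact hs_tr h.c1 G B hB
    · exact hs_tr h.c2 G B hB
    · exact hs_tr h.c3 G B hB
    · exact absurd hB (Nat.not_lt_zero _)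
  · intro i L hL
    rcases i with _ | _ | _ | _ | i <;> exact absurd hL (Nat.not_lt_zero _)
  · intro i hi s hs _ z
    have := tb_lt4 hi (by decide)
    interval_cases i
    · obtain ⟨x, hx, hsx, hne⟩ := hR.two s (hGW hs) (hout s hs) z
      exact ⟨x, ⟨hx, fun hm => hout s hs x hm hsx⟩, hsx, hne⟩
    all_goals exact absurd hi (by decide)
  · intro e he
    exact absurd he (by simp [sp1])

end Pool.Agent.P.MP_9e9aa3_co
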