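import Pool.Agent.P.MP_9e9aa3_co.F1

set_option autoImplicit false

namespace Pool.Agent.P.MP_9e9aa3_co

open Finset E

variable {V : Type} [DecidableEq V]

variable {W : Finset V} {X Y X0 X1 X2 X3 : Finset (Finset V)}

/-- the common shape of the two specifications with twin pairs -/
def sp4 (r1 r3 : Nat) : Spec :=
  { sp4a with rels := [(0,0,65), (1,1,65), (2,2,79), (3,3,79), (0,1,2), (0,2,2), (0,3,2), (1,2,2),
    (1,3,2), (2,3,2), (4,4,5), (4,2,5), (4,0,3), (4,1,3), (4,3,3), (4,5,2), (4,6,2), (5,6,2),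
    (7,5,2), (7,6,2), (7,4,1), (5,0,65), (5,1,2), (5,2,2), (5,3,2), (6,0,2), (6,1,r1), (6,2,2),
    (6,3,r3)] }

/-- twin pairs between two lines -/
def Pr (X : Finset (Finset V)) (b c x : Finset V) : Prop :=
  ∃ u v, x = {u, v} ∧ u ∈ b ∧ u ∉ c ∧ v ∈ c ∧ v ∉ b ∧ ∀ A ∈ X, u ∈ A ↔ v ∈ A

theorem eq_of_one {A B : Finset V} (h : (A ∩ B).card = 1) {u v : V} (h1 : u ∈ A) (h2 : u ∈ B)
    (h3 : v ∈ A) (h4 : v ∈ B) : u = v :=
  card_le_one.1 h.le u (mem_inter.2 ⟨h1, h2⟩) v (mem_inter.2 ⟨h3, h4⟩)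

theorem inter_eq_single {A B : Finset V} (h : (A ∩ B).card = 1) {u : V} (h1 : u ∈ A) (h2 : u ∈ B) :
    A ∩ B = {u} :=
  eq_singleton_iff_unique_mem.2 ⟨mem_inter.2 ⟨h1, h2⟩,
    fun _ hv => eq_of_one h (mem_inter.1 hv).1 (mem_inter.1 hv).2 h1 h2⟩

theorem Pr.rel3 {b c x y : Finset V} (hx : Pr X b c x) (hX : IsCls W X) (hb : b ⊆ W)
    (hc : Cross X Y) (hy : y ∈ Y) : Nat.testBit 3 (x ∩ y).card = true := by
  obtain ⟨u, v, rfl, h1, h2, h3, -, h5⟩ := hx
  refine Pool.Agent.P.MP_9e9aa3_co.rel3 (card_le_one.2 fun p hp q hq => ?_)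
  obtain ⟨A, hA, huA⟩ := hX.cover u (hb h1)
  have hm : ∀ p ∈ ({u, v} : Finset V), p ∈ A := by
    intro p hp
    rcases mem_insert.1 hp with rfl | hp
    · exact huA
    · rw [mem_singleton.1 hp]
      exact (h5 A hA).1 huA
  exact eq_of_one (hc A hA y hy) (hm p (mem_inter.1 hp).1) (mem_inter.1 hp).2
    (hm q (mem_inter.1 hq).1) (mem_inter.1 hq).2

theorem Net.hyp4 (h : Net W X0 X1 X2 X3) (g0 : Gen X0) (g1 : Gen X1) (n2 : ¬ Gen X2)
    {b c : Finset V} (hb : b ∈ X0) (hcW : c ⊆ W) (hc6 : c.card = 6) (c0 : Cross {c} X0)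
    (c2 : Cross {c} X2) (hbc : ∀ A ∈ X2, ∀ A' ∈ X2, A ∩ b = A' ∩ b ↔ A ∩ c = A' ∩ c) {r1 r3 : ℕ}
    (c1 : ∀ y ∈ X1, r1.testBit (c ∩ y).card = true)
    (c3 : ∀ y ∈ X3, r3.testBit (c ∩ y).card = true) : ∃ N, Hyp (sp4 r1 r3) W N := by
  have hbW := h.c0.sub b hb
  have hcb : (c ∩ b).card = 1 := c0 c (mem_singleton_self c) b hb
  have hAb : ∀ A ∈ X2, (A ∩ b).card = 1 := fun A hA => h.x02.symm A hA b hb
  have hAc : ∀ A ∈ X2, (A ∩ c).card = 1 := fun A hA => c2.symm A hA c (mem_singleton_self c)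
  obtain ⟨s, hs⟩ := card_eq_one.1 hcb
  have hsc : s ∈ c := (mem_inter.1 (hs ▸ mem_singleton_self s : s ∈ c ∩ b)).1
  have hsb : s ∈ b := (mem_inter.1 (hs ▸ mem_singleton_self s : s ∈ c ∩ b)).2
  have hex : ∀ u ∈ b \ c, ∃ v, v ∈ c ∧ v ∉ b ∧ ∀ A ∈ X2, u ∈ A ↔ v ∈ A := by
    intro u hu
    obtain ⟨hub, huc⟩ := mem_sdiff.1 hu
    obtain ⟨A, hA, huA⟩ := h.c2.cover u (hbW hub)
    obtain ⟨v, hv⟩ := card_pos.1 (by rw [hAc A hA]; norm_num : 0 < (A ∩ c).card)
    obtain ⟨hvA, hvc⟩ := mem_inter.1 hv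
    refine ⟨v, hvc, fun hvb => huc (eq_of_one (hAb A hA) huA hub hvA hvb ▸ hvc), fun B hB => ?_⟩
    have e := hbc B hB A hA
    rw [inter_eq_single (hAb A hA) huA hub, inter_eq_single (hAc A hA) hvA hvc] at e
    constructor
    · intro huB
      have := e.1 (inter_eq_single (hAb B hB) huB hub)
      exact (mem_inter.1 (this ▸ mem_singleton_self v : v ∈ B ∩ c)).1
    · intro hvB
      have := e.2 (inter_eq_single (hAc B hB) hvB hvc)
      exact (mem_inter.1 (this ▸ mem_singleton_self u : u ∈ B ∩ b)).1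
  refine ⟨fun i x => match i with
    | 0 => x ∈ X0 | 1 => x ∈ X1 | 2 => x ∈ X2 | 3 => x ∈ X3 | 4 => Pr X2 b c x | 5 => x = b
    | 6 => x = c | 7 => x = {s} | _ => False, ?_, ?_, ?_, ?_, ?_, ?_, ?_, ?_⟩
  · intro i x hx
    rcases i with _ | _ | _ | _ | _ | _ | _ | _ | i
    · exact ⟨h.c0.sub x hx, h.six0 x hx⟩
    · exact ⟨h.c1.sub x hx, h.six1 x hx⟩
    · exact ⟨h.c2.sub x hx, h.six2 x hx⟩
    · exact ⟨h.c3.sub x hx, h.six3 x hx⟩
    · obtain ⟨u, v, rfl, h1, h2, h3, -, -⟩ := hx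
      exact ⟨insert_subset (hbW h1) (singleton_subset_iff.2 (hcW h3)),
        card_pair fun e => h2 (e ▸ h3)⟩
    · cases hx
      exact ⟨hbW, h.six0 b hb⟩
    · cases hx
      exact ⟨hcW, hc6⟩
    · cases hx
      exact ⟨singleton_subset_iff.2 (hbW hsb), card_singleton s⟩
    · exact hx.elim
  · intro e he x y hx hy
    simp only [sp4, List.mem_cons, List.not_mem_nil, or_false] at he
    rcases he with rfl | rfl | rfl | rfl | rfl | rfl | rfl | rfl | rfl | rfl | rfl | rfl | rfl | rfl |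
      rfl | rfl | rfl | rfl | rfl | rfl | rfl | rfl | rfl | rfl | rfl | rfl | rfl | rfl | rfl
    · exact g0.rel65 h.six0 hx hy
    · exact g1.rel65 h.six1 hx hy
    · exact h.s02.rel79 hx hy
    · exact h.s03.rel79 hx hy
    · exact rel2 (h.x01 x hx y hy)
    · exact rel2 (h.x02 x hx y hy)
    · exact rel2 (h.x03 x hx y hy)
    · exact rel2 (h.x12 x hx y hy)
    · exact rel2 (h.x13 x hx y hy)
    · exact rel2 (h.x23 x hx y hy)
    · obtain ⟨u, v, rfl, h1, h2, h3, h4, h5⟩ := hx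
      obtain ⟨u', v', rfl, k1, k2, k3, k4, k5⟩ := hy
      show Nat.testBit 5 (({u, v} : Finset V) ∩ {u', v'}).card = true
      obtain ⟨A, hA, huA⟩ := h.c2.cover u (hbW h1)
      have hvA := (h5 A hA).1 huA
      have e : u = u' ↔ v = v' :=
        ⟨fun e => eq_of_one (hAc A hA) hvA h3 ((k5 A hA).1 (e ▸ huA)) k3,
          fun e => eq_of_one (hAb A hA) huA h1 ((k5 A hA).2 (e ▸ hvA)) k1⟩
      by_cases e1 : u = u'
      · rw [← e1, ← e.1 e1, inter_self, card_pair fun e : u = v => h2 (e ▸ h3)]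
        decide
      · have : ({u, v} : Finset V) ∩ {u', v'} = ∅ := by
          have a1 : u ≠ v' := fun e => h2 (e ▸ k3)
          have a2 : v ≠ u' := fun e => h4 (e ▸ k1)
          have a3 : v ≠ v' := fun e' => e1 (e.2 e')
          simp [e1, a1, a2, a3]
        rw [this, card_empty]
        decide
    · obtain ⟨u, v, rfl, h1, h2, h3, h4, h5⟩ := hx
      show Nat.testBit 5 (({u, v} : Finset V) ∩ y).card = true
      by_cases e1 : u ∈ y
      · rw [inter_eq_left.2 (insert_subset e1 (singleton_subset_iff.2 ((h5 y hy).1 e1))),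
          card_pair fun e : u = v => h2 (e ▸ h3)]
        decide
      · have : ({u, v} : Finset V) ∩ y = ∅ := by
          have a1 : v ∉ y := fun e => e1 ((h5 y hy).2 e)
          simp [e1, a1]
        rw [this, card_empty]
        decide
    · exact Pr.rel3 hx h.c2 hbW h.x02.symm hy
    · exact Pr.rel3 hx h.c2 hbW h.x12.symm hy
    · exact Pr.rel3 hx h.c2 hbW h.x23 hy
    · obtain ⟨u, v, rfl, h1, h2, h3, h4, h5⟩ := hx
      cases hy
      exact rel2 (by simp [h1, h4])
    · obtain ⟨u, v, rfl, h1, h2, h3, h4, h5⟩ := hx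
      cases hy
      exact rel2 (by simp [h2, h3])
    · cases hx
      cases hy
      exact rel2 (by rw [inter_comm, hcb])
    · cases hx
      cases hy
      exact rel2 (by simp [hsb])
    · cases hx
      cases hy
      exact rel2 (by simp [hsc])
    · cases hx
      obtain ⟨u, v, rfl, h1, h2, h3, h4, h5⟩ := hy
      show Nat.testBit 1 (({s} : Finset V) ∩ {u, v}).card = true
      have : ({s} : Finset V) ∩ {u, v} = ∅ := by
        have a1 : s ≠ u := fun e => h2 (e ▸ hsc)
        have a2 : s ≠ v := fun e => h4 (e ▸ hsb)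
        simp [a1, a2]
      rw [this, card_empty]
      decide
    · cases hx
      exact g0.rel65 h.six0 hb hy
    · cases hx
      exact rel2 (h.x01 b hb y hy)
    · cases hx
      exact rel2 (h.x02 b hb y hy)
    · cases hx
      exact rel2 (h.x03 b hb y hy)
    · cases hx
      exact rel2 (c0 c (mem_singleton_self c) y hy)
    · cases hx
      exact c1 y hy
    · cases hx
      exact rel2 (c2 c (mem_singleton_self c) y hy)
    · cases hx
      exact c3 y hy
  · intro i hi s hs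
    have := tb_lt4 (m := 15) hi (by decide)
    interval_cases i
    · exact h.c0.cover s hs
    · exact h.c1.cover s hs
    · exact h.c2.cover s hs
    · exact h.c3.cover s hs
  · intro i hi
    have hi' : Nat.testBit 12 i = true := hi
    have := tb_lt4 hi' (by decide)
    interval_cases i
    · exact absurd hi' (by decide)
    · exact absurd hi' (by decide)
    · exact h.c2.tw
    · exact h.c3.tw
  · intro i B hB
    rcases i with _ | _ | _ | _ | _ | _ | _ | _ | i
    · exact absurd hB (Nat.not_lt_zero _)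
    · exact absurd hB (Nat.not_lt_zero _)
    · exact h.c2.hs B hB
    · exact h.c3.hs B hB
    all_goals exact absurd hB (Nat.not_lt_zero _)
  · intro i L hL
    rcases i with _ | _ | _ | _ | _ | _ | _ | _ | i
    · exact absurd hL (Nat.not_lt_zero _)
    · exact absurd hL (Nat.not_lt_zero _)
    · exact h.c2.lo7 h.six2 n2 L hL
    · exact absurd hL (Nat.not_lt_zero _)
    · have hL5 : L.card < 5 := hL
      choose! f hf using hex
      by_contra hn
      push Not at hn
      have h5 : (b \ c).card = 5 := by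
        have := card_sdiff_add_card_inter b c
        rw [inter_comm, hcb, h.six0 b hb] at this
        omega
      have := card_le_card_of_injOn (s := b \ c) (t := L) (fun u => ({u, f u} : Finset V))
        (fun u hu => hn _ ⟨u, f u, rfl, (mem_sdiff.1 hu).1, (mem_sdiff.1 hu).2, hf u hu⟩)
        (fun u hu u' hu' e => by
          have e' : ({u, f u} : Finset V) = {u', f u'} := e
          rcases mem_insert.1 (e' ▸ mem_insert_self u {f u} : u ∈ ({u', f u'} : Finset V)) with
            a | a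
          · exact a
          · exact absurd (mem_singleton.1 a ▸ (hf u' hu').1) (mem_sdiff.1 hu).2)
      omega
    · exact lo_one hL
    · exact lo_one hL
    · exact lo_one hL
    · exact absurd hL (Nat.not_lt_zero _)
  · intro i hi
    exact absurd hi (by simp [sp4, sp4a])
  · intro e he
    exact absurd he (by simp [sp4, sp4a])

theorem f2_gen (hF : Facts) (h : Net W X0 X1 X2 X3) (n0 : ¬ Gen X0) (g1 : Gen X1)
    (g : Gen X2 ∨ Gen X3) {b c : Finset V} (hb : b ∈ X1) (hc : c ∈ X2)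
    (hbc : ∀ A ∈ X0, ∀ A' ∈ X0, A ∩ b = A' ∩ b ↔ A ∩ c = A' ∩ c) : False := by
  have hs : ({c} : Finset (Finset V)) ⊆ X2 := singleton_subset_iff.2 hc
  rcases g with g2 | g3
  · obtain ⟨N, hN⟩ := h.s01.s12.hyp4 (r1 := 65) (r3 := 2) g1 g2 n0 hb (h.c2.sub c hc) (h.six2 c hc)
      (h.x12.symm.mono hs (Subset.refl _)) (h.x02.symm.mono hs (Subset.refl _)) hbc
      (fun y hy => g2.rel65 h.six2 hc hy) (fun y hy => rel2 (h.x23 c hc y hy))
    exact hF.s4a V W N h.card hN
  · obtain ⟨N, hN⟩ := h.s01.s12.s13.hyp4 (r1 := 2) (r3 := 79) g1 g3 n0 hb (h.c2.sub c hc)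
      (h.six2 c hc) (h.x12.symm.mono hs (Subset.refl _)) (h.x02.symm.mono hs (Subset.refl _)) hbc
      (fun y hy => rel2 (h.x23 c hc y hy)) (fun y hy => h.s02.rel79 hc hy)
    exact hF.s4b V W N h.card hN

/-- the field `f2` of `Planar` -/
theorem f2 (hF : Facts) : ∀ (V : Type) [DecidableEq V] (W : Finset V)
    (X0 X1 X2 X3 : Finset (Finset V)), Net W X0 X1 X2 X3 → ∀ b ∈ X1, ∀ c ∈ X2,
    (∀ A ∈ X0, ∀ A' ∈ X0, A ∩ b = A' ∩ b ↔ A ∩ c = A' ∩ c) → Gen X0 := by
  intro V _ W X0 X1 X2 X3 h b hb c hc hbc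
  by_contra n0
  by_cases g1 : Gen X1
  · refine f2_gen hF h n0 g1 ?_ hb hc hbc
    by_contra hn
    exact f1 hF h.s01 n0 (fun a => hn (Or.inl a)) (fun a => hn (Or.inr a))
  · have g2 : Gen X2 := by
      by_contra n2
      exact f1 hF h.s03 g1 n2 n0
    have g3 : Gen X3 := by
      by_contra n3
      exact f1 hF h.s02 g1 n0 n3
    exact f2_gen hF h.s12 n0 g2 (Or.inr g3) hc hb fun A hA A' hA' => (hbc A hA A' hA').symm

theorem tb_lt6 {m i : ℕ} (h : m.testBit i = true) (hm : m < 64) : i < 6 := by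
  by_contra hc
  have h1 := Nat.ge_two_pow_of_testBit h
  have h2 : 2 ^ 6 ≤ 2 ^ i := Nat.pow_le_pow_right (by norm_num) (by omega)
  omega

/-- the field `s5` of `Planar` -/
theorem s5 (hF : Facts) : ∀ (V : Type) [DecidableEq V] (W : Finset V) (D E F X : Finset (Finset V)),
    Net W E D F X → Gen E → Gen D → ∀ τ ∈ X, ∀ K, Col W D E F τ K → Gen F := by
  intro V _ W D E F X h gE gD τ hτ K hK
  by_contra nF
  refine hF.s5 V W (fun i x => match i with
    | 0 => x ∈ E | 1 => x ∈ D | 2 => x ∈ F | 3 => x ∈ X | 4 => x = τ | 5 => x ∈ K | _ => False)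
    h.card ⟨?_, ?_, ?_, ?_, ?_, ?_, ?_, ?_⟩
  · intro i x hx
    rcases i with _ | _ | _ | _ | _ | _ | i
    · exact ⟨h.c0.sub x hx, h.six0 x hx⟩
    · exact ⟨h.c1.sub x hx, h.six1 x hx⟩
    · exact ⟨h.c2.sub x hx, h.six2 x hx⟩
    · exact ⟨h.c3.sub x hx, h.six3 x hx⟩
    · cases hx
      exact ⟨h.c3.sub τ hτ, h.six3 τ hτ⟩
    · exact hK.sub x hx
    · exact hx.elim
  · intro e he x y hx hy
    simp only [sp5, List.mem_cons, List.not_mem_nil, or_false] at he
    rcases he with rfl | rfl | rfl | rfl | rfl | rfl | rfl | rfl | rfl | rfl | rfl | rfl | rfl | rfl |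
      rfl | rfl | rfl | rfl
    · exact gE.rel65 h.six0 hx hy
    · exact gD.rel65 h.six1 hx hy
    · exact h.s02.rel79 hx hy
    · exact h.s03.rel79 hx hy
    · exact rel2 (h.x01 x hx y hy)
    · exact rel2 (h.x02 x hx y hy)
    · exact rel2 (h.x03 x hx y hy)
    · exact rel2 (h.x12 x hx y hy)
    · exact rel2 (h.x13 x hx y hy)
    · exact rel2 (h.x23 x hx y hy)
    · cases hx
      exact rel2 (h.x03.symm τ hτ y hy)
    · cases hx
      exact rel2 (h.x13.symm τ hτ y hy)
    · cases hx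
      exact rel2 (h.x23.symm τ hτ y hy)
    · cases hx
      exact h.s03.rel79 hτ hy
    · exact hK.gen.rel65 (fun A hA => (hK.sub A hA).2) hx hy
    · exact rel2 (hK.xE x hx y hy)
    · exact rel2 (hK.xF x hx y hy)
    · cases hy
      exact rel2 (hK.xt x hx)
  · intro i hi s hs
    have hi' : Nat.testBit 47 i = true := hi
    have := tb_lt6 hi' (by decide)
    interval_cases i
    · exact h.c0.cover s hs
    · exact h.c1.cover s hs
    · exact h.c2.cover s hs
    · exact h.c3.cover s hs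
    · exact absurd hi' (by decide)
    · exact hK.cov s hs
  · intro i hi
    have hi' : Nat.testBit 12 i = true := hi
    have := tb_lt4 hi' (by decide)
    interval_cases i
    · exact absurd hi' (by decide)
    · exact absurd hi' (by decide)
    · exact h.c2.tw
    · exact h.c3.tw
  · intro i B hB
    rcases i with _ | _ | _ | _ | _ | _ | i
    · exact absurd hB (Nat.not_lt_zero _)
    · exact absurd hB (Nat.not_lt_zero _)
    · exact h.c2.hs B hB
    · exact h.c3.hs B hB
    all_goals exact absurd hB (Nat.not_lt_zero _)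
  · intro i L hL
    rcases i with _ | _ | _ | _ | _ | _ | i
    · exact absurd hL (Nat.not_lt_zero _)
    · exact absurd hL (Nat.not_lt_zero _)
    · exact h.c2.lo7 h.six2 nF L hL
    · exact absurd hL (Nat.not_lt_zero _)
    · exact lo_one hL
    all_goals exact absurd hL (Nat.not_lt_zero _)
  · intro i hi
    exact absurd hi (by simp [sp5])
  · intro e he x y z hx hy hz
    simp only [sp5, List.mem_cons, List.not_mem_nil, or_false] at he
    subst he
    cases hy
    exact hK.tri x hx z hz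

end Pool.Agent.P.MP_9e9aa3_co
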