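import Pool.Agent.P.MP_9e9aa3_co.Snd6
import Pool.Agent.P.MP_9e9aa3_co.C1_0
import Pool.Agent.P.MP_9e9aa3_co.C222x_0
import Pool.Agent.P.MP_9e9aa3_co.C222x_1
import Pool.Agent.P.MP_9e9aa3_co.C222x_2
import Pool.Agent.P.MP_9e9aa3_co.C2211_0
import Pool.Agent.P.MP_9e9aa3_co.C2211_1
import Pool.Agent.P.MP_9e9aa3_co.C2211_2
import Pool.Agent.P.MP_9e9aa3_co.C2210_0
import Pool.Agent.P.MP_9e9aa3_co.C2210_1
import Pool.Agent.P.MP_9e9aa3_co.C2111_0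
import Pool.Agent.P.MP_9e9aa3_co.C2111_1
import Pool.Agent.P.MP_9e9aa3_co.C2111_2
import Pool.Agent.P.MP_9e9aa3_co.C3_0
import Pool.Agent.P.MP_9e9aa3_co.C3_1
import Pool.Agent.P.MP_9e9aa3_co.C3_2
import Pool.Agent.P.MP_9e9aa3_co.C4a_0
import Pool.Agent.P.MP_9e9aa3_co.C4a_1
import Pool.Agent.P.MP_9e9aa3_co.C4a_2
import Pool.Agent.P.MP_9e9aa3_co.C4b_0
import Pool.Agent.P.MP_9e9aa3_co.C5_0
import Pool.Agent.P.MP_9e9aa3_co.C5_1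
import Pool.Agent.P.MP_9e9aa3_co.C5_2
import Pool.Agent.P.MP_9e9aa3_co.C5_3
import Pool.Agent.P.MP_9e9aa3_co.C5_4
import Pool.Agent.P.MP_9e9aa3_co.C6c_0
import Pool.Agent.P.MP_9e9aa3_co.C6c_1
import Pool.Agent.P.MP_9e9aa3_co.C6t_0
import Pool.Agent.P.MP_9e9aa3_co.C6l_0
import Pool.Agent.P.MP_9e9aa3_co.C6l_1
import Pool.Agent.P.MP_9e9aa3_co.C6l_2
import Pool.Agent.P.MP_9e9aa3_co.C6b_0

set_option autoImplicit false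
set_option maxRecDepth 100000

namespace Pool.Agent.P.MP_9e9aa3_co.A1

open Finset E

def Gd : Fam → Prop := Hyp sp1 (range sp1.n)

theorem gd : GoodD sp1 1 Gd := good_std _ _

theorem gx : ∀ N, Gd N → ∀ i m, N i (dec m) → ex1 i m ≠ 0 := gx_std Gd

theorem XG1x4 : Ctx sp1 Gd TG1x4 := tab_ctx gd tsG1x4 rfl
theorem RG1x4_0 : Rf Gd TG1x4 FG1x4_0 CG1x4_0 := run_ok XG1x4 rG1x4_0 trivial
theorem QG1x4 : Ref Gd G1x4 := tab_ref XG1x4 gx tsG1x4 (al := [0,1,2,3]) ⟨tcG1x4_0, tcG1x4_1, tcG1x4_2, tcG1x4_3, trivial⟩ (by decide +kernel) RG1x4_0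
theorem QG1x3 : Ref Gd G1x3 := p1S_ok gd pG1x3 ⟨QG1x4, trivial⟩
theorem QG1x2 : Ref Gd G1x2 := p1S_ok gd pG1x2 ⟨QG1x3, trivial⟩
theorem QG1x1 : Ref Gd G1x1 := p1S_ok gd pG1x1 ⟨QG1x2, trivial⟩
theorem QG1x0 : Ref Gd G1x0 := p1S_ok gd pG1x0 ⟨QG1x1, trivial⟩

theorem main : NoCfg sp1 := noCfg_of_ref QG1x0

end Pool.Agent.P.MP_9e9aa3_co.A1

namespace Pool.Agent.P.MP_9e9aa3_co.A222x

open Finset E

def Gd : Fam → Prop := Hyp sp222x (range sp222x.n)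

theorem gd : GoodD sp222x 1 Gd := good_std _ _

theorem gx : ∀ N, Gd N → ∀ i m, N i (dec m) → ex1 i m ≠ 0 := gx_std Gd

theorem XG222xx14 : Ctx sp222x Gd TG222xx14 := tab_ctx gd tsG222xx14 rfl
theorem RG222xx14_0 : Rf Gd TG222xx14 FG222xx14_0 CG222xx14_0 := run_ok XG222xx14 rG222xx14_0 trivial
theorem QG222xx14 : Ref Gd G222xx14 := tab_ref XG222xx14 gx tsG222xx14 (al := [1,2,3]) ⟨tcG222xx14_1, tcG222xx14_2, tcG222xx14_3, trivial⟩ (by decide +kernel) RG222xx14_0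
theorem XG222xx15 : Ctx sp222x Gd TG222xx15 := tab_ctx gd tsG222xx15 rfl
theorem RG222xx15_0 : Rf Gd TG222xx15 FG222xx15_0 CG222xx15_0 := run_ok XG222xx15 rG222xx15_0 trivial
theorem QG222xx15 : Ref Gd G222xx15 := tab_ref XG222xx15 gx tsG222xx15 (al := [1,2,3]) ⟨tcG222xx15_1, tcG222xx15_2, tcG222xx15_3, trivial⟩ (by decide +kernel) RG222xx15_0
theorem XG222xx16 : Ctx sp222x Gd TG222xx16 := tab_ctx gd tsG222xx16 rfl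
theorem RG222xx16_0 : Rf Gd TG222xx16 FG222xx16_0 CG222xx16_0 := run_ok XG222xx16 rG222xx16_0 trivial
theorem QG222xx16 : Ref Gd G222xx16 := tab_ref XG222xx16 gx tsG222xx16 (al := [1,2,3]) ⟨tcG222xx16_1, tcG222xx16_2, tcG222xx16_3, trivial⟩ (by decide +kernel) RG222xx16_0
theorem XG222xx17 : Ctx sp222x Gd TG222xx17 := tab_ctx gd tsG222xx17 rfl
theorem RG222xx17_0 : Rf Gd TG222xx17 FG222xx17_0 CG222xx17_0 := run_ok XG222xx17 rG222xx17_0 trivial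
theorem QG222xx17 : Ref Gd G222xx17 := tab_ref XG222xx17 gx tsG222xx17 (al := [1,2,3]) ⟨tcG222xx17_1, tcG222xx17_2, tcG222xx17_3, trivial⟩ (by decide +kernel) RG222xx17_0
theorem XG222xx18 : Ctx sp222x Gd TG222xx18 := tab_ctx gd tsG222xx18 rfl
theorem RG222xx18_0 : Rf Gd TG222xx18 FG222xx18_0 CG222xx18_0 := run_ok XG222xx18 rG222xx18_0 trivial
theorem QG222xx18 : Ref Gd G222xx18 := tab_ref XG222xx18 gx tsG222xx18 (al := [1,2,3]) ⟨tcG222xx18_1, tcG222xx18_2, tcG222xx18_3, trivial⟩ (by decide +kernel) RG222xx18_0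
theorem XG222xx19 : Ctx sp222x Gd TG222xx19 := tab_ctx gd tsG222xx19 rfl
theorem RG222xx19_0 : Rf Gd TG222xx19 FG222xx19_0 CG222xx19_0 := run_ok XG222xx19 rG222xx19_0 trivial
theorem QG222xx19 : Ref Gd G222xx19 := tab_ref XG222xx19 gx tsG222xx19 (al := [1,2,3]) ⟨tcG222xx19_1, tcG222xx19_2, tcG222xx19_3, trivial⟩ (by decide +kernel) RG222xx19_0
theorem XG222xx20 : Ctx sp222x Gd TG222xx20 := tab_ctx gd tsG222xx20 rfl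
theorem RG222xx20_0 : Rf Gd TG222xx20 FG222xx20_0 CG222xx20_0 := run_ok XG222xx20 rG222xx20_0 trivial
theorem QG222xx20 : Ref Gd G222xx20 := tab_ref XG222xx20 gx tsG222xx20 (al := [1,2,3]) ⟨tcG222xx20_1, tcG222xx20_2, tcG222xx20_3, trivial⟩ (by decide +kernel) RG222xx20_0
theorem XG222xx21 : Ctx sp222x Gd TG222xx21 := tab_ctx gd tsG222xx21 rfl
theorem RG222xx21_0 : Rf Gd TG222xx21 FG222xx21_0 CG222xx21_0 := run_ok XG222xx21 rG222xx21_0 trivial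
theorem QG222xx21 : Ref Gd G222xx21 := tab_ref XG222xx21 gx tsG222xx21 (al := [1,2,3]) ⟨tcG222xx21_1, tcG222xx21_2, tcG222xx21_3, trivial⟩ (by decide +kernel) RG222xx21_0
theorem XG222xx22 : Ctx sp222x Gd TG222xx22 := tab_ctx gd tsG222xx22 rfl
theorem RG222xx22_0 : Rf Gd TG222xx22 FG222xx22_0 CG222xx22_0 := run_ok XG222xx22 rG222xx22_0 trivial
theorem QG222xx22 : Ref Gd G222xx22 := tab_ref XG222xx22 gx tsG222xx22 (al := [1,2,3]) ⟨tcG222xx22_1, tcG222xx22_2, tcG222xx22_3, trivial⟩ (by decide +kernel) RG222xx22_0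
theorem XG222xx23 : Ctx sp222x Gd TG222xx23 := tab_ctx gd tsG222xx23 rfl
theorem RG222xx23_0 : Rf Gd TG222xx23 FG222xx23_0 CG222xx23_0 := run_ok XG222xx23 rG222xx23_0 trivial
theorem QG222xx23 : Ref Gd G222xx23 := tab_ref XG222xx23 gx tsG222xx23 (al := [1,2,3]) ⟨tcG222xx23_1, tcG222xx23_2, tcG222xx23_3, trivial⟩ (by decide +kernel) RG222xx23_0
theorem QG222xx13 : Ref Gd G222xx13 := p1S_ok gd pG222xx13 ⟨QG222xx19, QG222xx20, QG222xx21, QG222xx22, QG222xx23, trivial⟩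
theorem QG222xx12 : Ref Gd G222xx12 := p1S_ok gd pG222xx12 ⟨QG222xx17, QG222xx18, trivial⟩
theorem QG222xx11 : Ref Gd G222xx11 := p1S_ok gd pG222xx11 ⟨QG222xx15, QG222xx16, trivial⟩
theorem QG222xx10 : Ref Gd G222xx10 := p1S_ok gd pG222xx10 ⟨QG222xx14, trivial⟩
theorem QG222xx9 : Ref Gd G222xx9 := p1N_ok gd pG222xx9 ⟨QG222xx10, QG222xx11, QG222xx12, QG222xx13, trivial⟩
theorem QG222xx8 : Ref Gd G222xx8 := p1N_ok gd pG222xx8 ⟨QG222xx9, trivial⟩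
theorem QG222xx7 : Ref Gd G222xx7 := p1N_ok gd pG222xx7 ⟨QG222xx8, trivial⟩
theorem QG222xx6 : Ref Gd G222xx6 := p1N_ok gd pG222xx6 ⟨QG222xx7, trivial⟩
theorem QG222xx5 : Ref Gd G222xx5 := p1S_ok gd pG222xx5 ⟨QG222xx6, trivial⟩
theorem QG222xx4 : Ref Gd G222xx4 := p1S_ok gd pG222xx4 ⟨QG222xx5, trivial⟩
theorem QG222xx3 : Ref Gd G222xx3 := p1S_ok gd pG222xx3 ⟨QG222xx4, trivial⟩
theorem QG222xx2 : Ref Gd G222xx2 := p1S_ok gd pG222xx2 ⟨QG222xx3, trivial⟩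
theorem QG222xx1 : Ref Gd G222xx1 := p1S_ok gd pG222xx1 ⟨QG222xx2, trivial⟩
theorem QG222xx0 : Ref Gd G222xx0 := p1S_ok gd pG222xx0 ⟨QG222xx1, trivial⟩

theorem main : NoCfg sp222x := noCfg_of_ref QG222xx0

end Pool.Agent.P.MP_9e9aa3_co.A222x

namespace Pool.Agent.P.MP_9e9aa3_co.A2211

open Finset E

def Gd : Fam → Prop := Hyp sp2211 (range sp2211.n)

theorem gd : GoodD sp2211 1 Gd := good_std _ _

theorem gx : ∀ N, Gd N → ∀ i m, N i (dec m) → ex1 i m ≠ 0 := gx_std Gd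

theorem XG2211x10 : Ctx sp2211 Gd TG2211x10 := tab_ctx gd tsG2211x10 rfl
theorem RG2211x10_1 : Rf Gd TG2211x10 FG2211x10_1 CG2211x10_1 := run_ok XG2211x10 rG2211x10_1 trivial
theorem RG2211x10_0 : Rf Gd TG2211x10 FG2211x10_0 CG2211x10_0 := run_ok XG2211x10 rG2211x10_0 ⟨RG2211x10_1, trivial⟩
theorem QG2211x10 : Ref Gd G2211x10 := tab_ref XG2211x10 gx tsG2211x10 (al := [1,2,3]) ⟨tcG2211x10_1, tcG2211x10_2, tcG2211x10_3, trivial⟩ (by decide +kernel) RG2211x10_0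
theorem XG2211x11 : Ctx sp2211 Gd TG2211x11 := tab_ctx gd tsG2211x11 rfl
theorem RG2211x11_0 : Rf Gd TG2211x11 FG2211x11_0 CG2211x11_0 := run_ok XG2211x11 rG2211x11_0 trivial
theorem QG2211x11 : Ref Gd G2211x11 := tab_ref XG2211x11 gx tsG2211x11 (al := [1,2,3]) ⟨tcG2211x11_1, tcG2211x11_2, tcG2211x11_3, trivial⟩ (by decide +kernel) RG2211x11_0
theorem XG2211x12 : Ctx sp2211 Gd TG2211x12 := tab_ctx gd tsG2211x12 rfl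
theorem RG2211x12_0 : Rf Gd TG2211x12 FG2211x12_0 CG2211x12_0 := run_ok XG2211x12 rG2211x12_0 trivial
theorem QG2211x12 : Ref Gd G2211x12 := tab_ref XG2211x12 gx tsG2211x12 (al := [1,2,3]) ⟨tcG2211x12_1, tcG2211x12_2, tcG2211x12_3, trivial⟩ (by decide +kernel) RG2211x12_0
theorem XG2211x13 : Ctx sp2211 Gd TG2211x13 := tab_ctx gd tsG2211x13 rfl
theorem RG2211x13_0 : Rf Gd TG2211x13 FG2211x13_0 CG2211x13_0 := run_ok XG2211x13 rG2211x13_0 trivial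
theorem QG2211x13 : Ref Gd G2211x13 := tab_ref XG2211x13 gx tsG2211x13 (al := [1,2,3]) ⟨tcG2211x13_1, tcG2211x13_2, tcG2211x13_3, trivial⟩ (by decide +kernel) RG2211x13_0
theorem XG2211x14 : Ctx sp2211 Gd TG2211x14 := tab_ctx gd tsG2211x14 rfl
theorem RG2211x14_1 : Rf Gd TG2211x14 FG2211x14_1 CG2211x14_1 := run_ok XG2211x14 rG2211x14_1 trivial
theorem RG2211x14_0 : Rf Gd TG2211x14 FG2211x14_0 CG2211x14_0 := run_ok XG2211x14 rG2211x14_0 ⟨RG2211x14_1, trivial⟩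
theorem QG2211x14 : Ref Gd G2211x14 := tab_ref XG2211x14 gx tsG2211x14 (al := [1,2,3]) ⟨tcG2211x14_1, tcG2211x14_2, tcG2211x14_3, trivial⟩ (by decide +kernel) RG2211x14_0
theorem XG2211x15 : Ctx sp2211 Gd TG2211x15 := tab_ctx gd tsG2211x15 rfl
theorem RG2211x15_1 : Rf Gd TG2211x15 FG2211x15_1 CG2211x15_1 := run_ok XG2211x15 rG2211x15_1 trivial
theorem RG2211x15_0 : Rf Gd TG2211x15 FG2211x15_0 CG2211x15_0 := run_ok XG2211x15 rG2211x15_0 ⟨RG2211x15_1, trivial⟩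
theorem QG2211x15 : Ref Gd G2211x15 := tab_ref XG2211x15 gx tsG2211x15 (al := [1,2,3]) ⟨tcG2211x15_1, tcG2211x15_2, tcG2211x15_3, trivial⟩ (by decide +kernel) RG2211x15_0
theorem QG2211x9 : Ref Gd G2211x9 := p1N_ok gd pG2211x9 ⟨QG2211x10, QG2211x11, QG2211x12, QG2211x13, QG2211x14, QG2211x15, trivial⟩
theorem QG2211x8 : Ref Gd G2211x8 := p1N_ok gd pG2211x8 ⟨QG2211x9, trivial⟩
theorem QG2211x7 : Ref Gd G2211x7 := p1N_ok gd pG2211x7 ⟨QG2211x8, trivial⟩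
theorem QG2211x6 : Ref Gd G2211x6 := p1N_ok gd pG2211x6 ⟨QG2211x7, trivial⟩
theorem QG2211x5 : Ref Gd G2211x5 := p1S_ok gd pG2211x5 ⟨QG2211x6, trivial⟩
theorem QG2211x4 : Ref Gd G2211x4 := p1S_ok gd pG2211x4 ⟨QG2211x5, trivial⟩
theorem QG2211x3 : Ref Gd G2211x3 := p1S_ok gd pG2211x3 ⟨QG2211x4, trivial⟩
theorem QG2211x2 : Ref Gd G2211x2 := p1S_ok gd pG2211x2 ⟨QG2211x3, trivial⟩
theorem QG2211x1 : Ref Gd G2211x1 := p1S_ok gd pG2211x1 ⟨QG2211x2, trivial⟩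
theorem QG2211x0 : Ref Gd G2211x0 := p1S_ok gd pG2211x0 ⟨QG2211x1, trivial⟩

theorem main : NoCfg sp2211 := noCfg_of_ref QG2211x0

end Pool.Agent.P.MP_9e9aa3_co.A2211

namespace Pool.Agent.P.MP_9e9aa3_co.A2210

open Finset E

def Gd : Fam → Prop := Hyp sp2210 (range sp2210.n)

theorem gd : GoodD sp2210 1 Gd := good_std _ _

theorem gx : ∀ N, Gd N → ∀ i m, N i (dec m) → ex1 i m ≠ 0 := gx_std Gd

theorem XG2210y10 : Ctx sp2210 Gd TG2210y10 := tab_ctx gd tsG2210y10 rfl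
theorem RG2210y10_4 : Rf Gd TG2210y10 FG2210y10_4 CG2210y10_4 := run_ok XG2210y10 rG2210y10_4 trivial
theorem RG2210y10_3 : Rf Gd TG2210y10 FG2210y10_3 CG2210y10_3 := run_ok XG2210y10 rG2210y10_3 trivial
theorem RG2210y10_2 : Rf Gd TG2210y10 FG2210y10_2 CG2210y10_2 := run_ok XG2210y10 rG2210y10_2 trivial
theorem RG2210y10_1 : Rf Gd TG2210y10 FG2210y10_1 CG2210y10_1 := run_ok XG2210y10 rG2210y10_1 trivial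
theorem RG2210y10_5 : Rf Gd TG2210y10 FG2210y10_5 CG2210y10_5 := run_ok XG2210y10 rG2210y10_5 ⟨RG2210y10_3, RG2210y10_4, trivial⟩
theorem RG2210y10_6 : Rf Gd TG2210y10 FG2210y10_6 CG2210y10_6 := run_ok XG2210y10 rG2210y10_6 ⟨RG2210y10_1, RG2210y10_2, trivial⟩
theorem RG2210y10_0 : Rf Gd TG2210y10 FG2210y10_0 CG2210y10_0 := run_ok XG2210y10 rG2210y10_0 ⟨RG2210y10_6, RG2210y10_5, trivial⟩
theorem QG2210y10 : Ref Gd G2210y10 := tab_ref XG2210y10 gx tsG2210y10 (al := [1,2,3]) ⟨tcG2210y10_1, tcG2210y10_2, tcG2210y10_3, trivial⟩ (by decide +kernel) RG2210y10_0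
theorem QG2210y9 : Ref Gd G2210y9 := p1S_ok gd pG2210y9 ⟨QG2210y10, trivial⟩
theorem QG2210y8 : Ref Gd G2210y8 := p1N_ok gd pG2210y8 ⟨QG2210y9, trivial⟩
theorem QG2210y7 : Ref Gd G2210y7 := p1N_ok gd pG2210y7 ⟨QG2210y8, trivial⟩
theorem QG2210y6 : Ref Gd G2210y6 := p1N_ok gd pG2210y6 ⟨QG2210y7, trivial⟩
theorem QG2210y5 : Ref Gd G2210y5 := p1S_ok gd pG2210y5 ⟨QG2210y6, trivial⟩
theorem QG2210y4 : Ref Gd G2210y4 := p1S_ok gd pG2210y4 ⟨QG2210y5, trivial⟩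
theorem QG2210y3 : Ref Gd G2210y3 := p1S_ok gd pG2210y3 ⟨QG2210y4, trivial⟩
theorem QG2210y2 : Ref Gd G2210y2 := p1S_ok gd pG2210y2 ⟨QG2210y3, trivial⟩
theorem QG2210y1 : Ref Gd G2210y1 := p1S_ok gd pG2210y1 ⟨QG2210y2, trivial⟩
theorem QG2210y0 : Ref Gd G2210y0 := p1S_ok gd pG2210y0 ⟨QG2210y1, trivial⟩

theorem main : NoCfg sp2210 := noCfg_of_ref QG2210y0

end Pool.Agent.P.MP_9e9aa3_co.A2210

namespace Pool.Agent.P.MP_9e9aa3_co.A2111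

open Finset E

def Gd : Fam → Prop := Hyp sp2111 (range sp2111.n)

theorem gd : GoodD sp2111 1 Gd := good_std _ _

theorem gx : ∀ N, Gd N → ∀ i m, N i (dec m) → ex1 i m ≠ 0 := gx_std Gd

theorem XG2111x13 : Ctx sp2111 Gd TG2111x13 := tab_ctx gd tsG2111x13 rfl
theorem RG2111x13_3 : Rf Gd TG2111x13 FG2111x13_3 CG2111x13_3 := run_ok XG2111x13 rG2111x13_3 trivial
theorem RG2111x13_2 : Rf Gd TG2111x13 FG2111x13_2 CG2111x13_2 := run_ok XG2111x13 rG2111x13_2 trivial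
theorem RG2111x13_1 : Rf Gd TG2111x13 FG2111x13_1 CG2111x13_1 := run_ok XG2111x13 rG2111x13_1 trivial
theorem RG2111x13_4 : Rf Gd TG2111x13 FG2111x13_4 CG2111x13_4 := run_ok XG2111x13 rG2111x13_4 ⟨RG2111x13_3, trivial⟩
theorem RG2111x13_5 : Rf Gd TG2111x13 FG2111x13_5 CG2111x13_5 := run_ok XG2111x13 rG2111x13_5 ⟨RG2111x13_1, RG2111x13_2, trivial⟩
theorem RG2111x13_0 : Rf Gd TG2111x13 FG2111x13_0 CG2111x13_0 := run_ok XG2111x13 rG2111x13_0 ⟨RG2111x13_5, RG2111x13_4, trivial⟩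
theorem QG2111x13 : Ref Gd G2111x13 := tab_ref XG2111x13 gx tsG2111x13 (al := [1,2,3]) ⟨tcG2111x13_1, tcG2111x13_2, tcG2111x13_3, trivial⟩ (by decide +kernel) RG2111x13_0
theorem XG2111x14 : Ctx sp2111 Gd TG2111x14 := tab_ctx gd tsG2111x14 rfl
theorem RG2111x14_2 : Rf Gd TG2111x14 FG2111x14_2 CG2111x14_2 := run_ok XG2111x14 rG2111x14_2 trivial
theorem RG2111x14_1 : Rf Gd TG2111x14 FG2111x14_1 CG2111x14_1 := run_ok XG2111x14 rG2111x14_1 trivial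
theorem RG2111x14_4 : Rf Gd TG2111x14 FG2111x14_4 CG2111x14_4 := run_ok XG2111x14 rG2111x14_4 ⟨RG2111x14_2, trivial⟩
theorem RG2111x14_3 : Rf Gd TG2111x14 FG2111x14_3 CG2111x14_3 := run_ok XG2111x14 rG2111x14_3 ⟨RG2111x14_1, trivial⟩
theorem RG2111x14_0 : Rf Gd TG2111x14 FG2111x14_0 CG2111x14_0 := run_ok XG2111x14 rG2111x14_0 ⟨RG2111x14_3, RG2111x14_4, trivial⟩
theorem QG2111x14 : Ref Gd G2111x14 := tab_ref XG2111x14 gx tsG2111x14 (al := [1,2,3]) ⟨tcG2111x14_1, tcG2111x14_2, tcG2111x14_3, trivial⟩ (by decide +kernel) RG2111x14_0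
theorem QG2111x12 : Ref Gd G2111x12 := p1S_ok gd pG2111x12 ⟨QG2111x14, trivial⟩
theorem QG2111x11 : Ref Gd G2111x11 := p1S_ok gd pG2111x11 ⟨QG2111x13, trivial⟩
theorem QG2111x10 : Ref Gd G2111x10 := p1S_ok gd pG2111x10 ⟨QG2111x12, trivial⟩
theorem QG2111x9 : Ref Gd G2111x9 := p1S_ok gd pG2111x9 ⟨QG2111x11, trivial⟩
theorem QG2111x8 : Ref Gd G2111x8 := p1N_ok gd pG2111x8 ⟨QG2111x9, QG2111x10, trivial⟩
theorem QG2111x7 : Ref Gd G2111x7 := p1N_ok gd pG2111x7 ⟨QG2111x8, trivial⟩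
theorem QG2111x6 : Ref Gd G2111x6 := p1N_ok gd pG2111x6 ⟨QG2111x7, trivial⟩
theorem QG2111x5 : Ref Gd G2111x5 := p1S_ok gd pG2111x5 ⟨QG2111x6, trivial⟩
theorem QG2111x4 : Ref Gd G2111x4 := p1S_ok gd pG2111x4 ⟨QG2111x5, trivial⟩
theorem QG2111x3 : Ref Gd G2111x3 := p1S_ok gd pG2111x3 ⟨QG2111x4, trivial⟩
theorem QG2111x2 : Ref Gd G2111x2 := p1S_ok gd pG2111x2 ⟨QG2111x3, trivial⟩
theorem QG2111x1 : Ref Gd G2111x1 := p1S_ok gd pG2111x1 ⟨QG2111x2, trivial⟩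
theorem QG2111x0 : Ref Gd G2111x0 := p1S_ok gd pG2111x0 ⟨QG2111x1, trivial⟩

theorem main : NoCfg sp2111 := noCfg_of_ref QG2111x0

end Pool.Agent.P.MP_9e9aa3_co.A2111

namespace Pool.Agent.P.MP_9e9aa3_co.A3

open Finset E

def Gd : Fam → Prop := Hyp sp3 (range sp3.n)

theorem gd : GoodD sp3 1 Gd := good_std _ _

theorem gx : ∀ N, Gd N → ∀ i m, N i (dec m) → ex1 i m ≠ 0 := gx_std Gd

theorem XG3x45 : Ctx sp3 Gd TG3x45 := tab_ctx gd tsG3x45 rfl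
theorem RG3x45_0 : Rf Gd TG3x45 FG3x45_0 CG3x45_0 := run_ok XG3x45 rG3x45_0 trivial
theorem QG3x45 : Ref Gd G3x45 := tab_ref XG3x45 gx tsG3x45 (al := [2,3]) ⟨tcG3x45_2, tcG3x45_3, trivial⟩ (by decide +kernel) RG3x45_0
theorem XG3x46 : Ctx sp3 Gd TG3x46 := tab_ctx gd tsG3x46 rfl
theorem RG3x46_0 : Rf Gd TG3x46 FG3x46_0 CG3x46_0 := run_ok XG3x46 rG3x46_0 trivial
theorem QG3x46 : Ref Gd G3x46 := tab_ref XG3x46 gx tsG3x46 (al := [2,3]) ⟨tcG3x46_2, tcG3x46_3, trivial⟩ (by decide +kernel) RG3x46_0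
theorem XG3x47 : Ctx sp3 Gd TG3x47 := tab_ctx gd tsG3x47 rfl
theorem RG3x47_0 : Rf Gd TG3x47 FG3x47_0 CG3x47_0 := run_ok XG3x47 rG3x47_0 trivial
theorem QG3x47 : Ref Gd G3x47 := tab_ref XG3x47 gx tsG3x47 (al := [2,3]) ⟨tcG3x47_2, tcG3x47_3, trivial⟩ (by decide +kernel) RG3x47_0
theorem XG3x48 : Ctx sp3 Gd TG3x48 := tab_ctx gd tsG3x48 rfl
theorem RG3x48_0 : Rf Gd TG3x48 FG3x48_0 CG3x48_0 := run_ok XG3x48 rG3x48_0 trivial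
theorem QG3x48 : Ref Gd G3x48 := tab_ref XG3x48 gx tsG3x48 (al := [2,3]) ⟨tcG3x48_2, tcG3x48_3, trivial⟩ (by decide +kernel) RG3x48_0
theorem XG3x49 : Ctx sp3 Gd TG3x49 := tab_ctx gd tsG3x49 rfl
theorem RG3x49_0 : Rf Gd TG3x49 FG3x49_0 CG3x49_0 := run_ok XG3x49 rG3x49_0 trivial
theorem QG3x49 : Ref Gd G3x49 := tab_ref XG3x49 gx tsG3x49 (al := [2,3]) ⟨tcG3x49_2, tcG3x49_3, trivial⟩ (by decide +kernel) RG3x49_0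
theorem XG3x50 : Ctx sp3 Gd TG3x50 := tab_ctx gd tsG3x50 rfl
theorem RG3x50_0 : Rf Gd TG3x50 FG3x50_0 CG3x50_0 := run_ok XG3x50 rG3x50_0 trivial
theorem QG3x50 : Ref Gd G3x50 := tab_ref XG3x50 gx tsG3x50 (al := [2,3]) ⟨tcG3x50_2, tcG3x50_3, trivial⟩ (by decide +kernel) RG3x50_0
theorem XG3x51 : Ctx sp3 Gd TG3x51 := tab_ctx gd tsG3x51 rfl
theorem RG3x51_0 : Rf Gd TG3x51 FG3x51_0 CG3x51_0 := run_ok XG3x51 rG3x51_0 trivial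
theorem QG3x51 : Ref Gd G3x51 := tab_ref XG3x51 gx tsG3x51 (al := [2,3]) ⟨tcG3x51_2, tcG3x51_3, trivial⟩ (by decide +kernel) RG3x51_0
theorem XG3x52 : Ctx sp3 Gd TG3x52 := tab_ctx gd tsG3x52 rfl
theorem RG3x52_0 : Rf Gd TG3x52 FG3x52_0 CG3x52_0 := run_ok XG3x52 rG3x52_0 trivial
theorem QG3x52 : Ref Gd G3x52 := tab_ref XG3x52 gx tsG3x52 (al := [2,3]) ⟨tcG3x52_2, tcG3x52_3, trivial⟩ (by decide +kernel) RG3x52_0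
theorem XG3x53 : Ctx sp3 Gd TG3x53 := tab_ctx gd tsG3x53 rfl
theorem RG3x53_0 : Rf Gd TG3x53 FG3x53_0 CG3x53_0 := run_ok XG3x53 rG3x53_0 trivial
theorem QG3x53 : Ref Gd G3x53 := tab_ref XG3x53 gx tsG3x53 (al := [2,3]) ⟨tcG3x53_2, tcG3x53_3, trivial⟩ (by decide +kernel) RG3x53_0
theorem XG3x54 : Ctx sp3 Gd TG3x54 := tab_ctx gd tsG3x54 rfl
theorem RG3x54_0 : Rf Gd TG3x54 FG3x54_0 CG3x54_0 := run_ok XG3x54 rG3x54_0 trivial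
theorem QG3x54 : Ref Gd G3x54 := tab_ref XG3x54 gx tsG3x54 (al := [2,3]) ⟨tcG3x54_2, tcG3x54_3, trivial⟩ (by decide +kernel) RG3x54_0
theorem XG3x55 : Ctx sp3 Gd TG3x55 := tab_ctx gd tsG3x55 rfl
theorem RG3x55_0 : Rf Gd TG3x55 FG3x55_0 CG3x55_0 := run_ok XG3x55 rG3x55_0 trivial
theorem QG3x55 : Ref Gd G3x55 := tab_ref XG3x55 gx tsG3x55 (al := [2,3]) ⟨tcG3x55_2, tcG3x55_3, trivial⟩ (by decide +kernel) RG3x55_0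
theorem XG3x56 : Ctx sp3 Gd TG3x56 := tab_ctx gd tsG3x56 rfl
theorem RG3x56_0 : Rf Gd TG3x56 FG3x56_0 CG3x56_0 := run_ok XG3x56 rG3x56_0 trivial
theorem QG3x56 : Ref Gd G3x56 := tab_ref XG3x56 gx tsG3x56 (al := [2,3]) ⟨tcG3x56_2, tcG3x56_3, trivial⟩ (by decide +kernel) RG3x56_0
theorem XG3x57 : Ctx sp3 Gd TG3x57 := tab_ctx gd tsG3x57 rfl
theorem RG3x57_0 : Rf Gd TG3x57 FG3x57_0 CG3x57_0 := run_ok XG3x57 rG3x57_0 trivial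
theorem QG3x57 : Ref Gd G3x57 := tab_ref XG3x57 gx tsG3x57 (al := [2,3]) ⟨tcG3x57_2, tcG3x57_3, trivial⟩ (by decide +kernel) RG3x57_0
theorem XG3x58 : Ctx sp3 Gd TG3x58 := tab_ctx gd tsG3x58 rfl
theorem RG3x58_0 : Rf Gd TG3x58 FG3x58_0 CG3x58_0 := run_ok XG3x58 rG3x58_0 trivial
theorem QG3x58 : Ref Gd G3x58 := tab_ref XG3x58 gx tsG3x58 (al := [2,3]) ⟨tcG3x58_2, tcG3x58_3, trivial⟩ (by decide +kernel) RG3x58_0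
theorem XG3x59 : Ctx sp3 Gd TG3x59 := tab_ctx gd tsG3x59 rfl
theorem RG3x59_0 : Rf Gd TG3x59 FG3x59_0 CG3x59_0 := run_ok XG3x59 rG3x59_0 trivial
theorem QG3x59 : Ref Gd G3x59 := tab_ref XG3x59 gx tsG3x59 (al := [2,3]) ⟨tcG3x59_2, tcG3x59_3, trivial⟩ (by decide +kernel) RG3x59_0
theorem XG3x60 : Ctx sp3 Gd TG3x60 := tab_ctx gd tsG3x60 rfl
theorem RG3x60_0 : Rf Gd TG3x60 FG3x60_0 CG3x60_0 := run_ok XG3x60 rG3x60_0 trivial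
theorem QG3x60 : Ref Gd G3x60 := tab_ref XG3x60 gx tsG3x60 (al := [2,3]) ⟨tcG3x60_2, tcG3x60_3, trivial⟩ (by decide +kernel) RG3x60_0
theorem QG3x44 : Ref Gd G3x44 := p1S_ok gd pG3x44 ⟨QG3x59, QG3x60, trivial⟩
theorem QG3x43 : Ref Gd G3x43 := p1S_ok gd pG3x43 ⟨QG3x55, QG3x56, QG3x57, QG3x58, trivial⟩
theorem QG3x42 : Ref Gd G3x42 := p1S_ok gd pG3x42 ⟨QG3x52, QG3x53, QG3x54, trivial⟩
theorem QG3x41 : Ref Gd G3x41 := p1S_ok gd pG3x41 ⟨QG3x50, QG3x51, trivial⟩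
theorem QG3x40 : Ref Gd G3x40 := p1S_ok gd pG3x40 ⟨QG3x48, QG3x49, trivial⟩
theorem QG3x39 : Ref Gd G3x39 := p1S_ok gd pG3x39 ⟨QG3x46, QG3x47, trivial⟩
theorem QG3x38 : Ref Gd G3x38 := p1S_ok gd pG3x38 ⟨QG3x45, trivial⟩
theorem QG3x37 : Ref Gd G3x37 := p1S_ok gd pG3x37 ⟨QG3x44, trivial⟩
theorem QG3x36 : Ref Gd G3x36 := p1S_ok gd pG3x36 ⟨QG3x43, trivial⟩
theorem QG3x35 : Ref Gd G3x35 := p1S_ok gd pG3x35 ⟨QG3x42, trivial⟩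
theorem QG3x34 : Ref Gd G3x34 := p1S_ok gd pG3x34 ⟨QG3x41, trivial⟩
theorem QG3x33 : Ref Gd G3x33 := p1S_ok gd pG3x33 ⟨QG3x40, trivial⟩
theorem QG3x32 : Ref Gd G3x32 := p1S_ok gd pG3x32 ⟨QG3x39, trivial⟩
theorem QG3x31 : Ref Gd G3x31 := p1S_ok gd pG3x31 ⟨QG3x38, trivial⟩
theorem QG3x30 : Ref Gd G3x30 := p1S_ok gd pG3x30 ⟨QG3x36, QG3x37, trivial⟩
theorem QG3x29 : Ref Gd G3x29 := p1S_ok gd pG3x29 ⟨QG3x36, trivial⟩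
theorem QG3x28 : Ref Gd G3x28 := p1S_ok gd pG3x28 ⟨QG3x35, trivial⟩
theorem QG3x27 : Ref Gd G3x27 := p1S_ok gd pG3x27 ⟨QG3x34, trivial⟩
theorem QG3x26 : Ref Gd G3x26 := p1S_ok gd pG3x26 ⟨QG3x33, trivial⟩
theorem QG3x25 : Ref Gd G3x25 := p1S_ok gd pG3x25 ⟨QG3x32, trivial⟩
theorem QG3x24 : Ref Gd G3x24 := p1S_ok gd pG3x24 ⟨QG3x31, trivial⟩
theorem QG3x23 : Ref Gd G3x23 := p1S_ok gd pG3x23 ⟨QG3x26, QG3x29, QG3x30, trivial⟩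
theorem QG3x22 : Ref Gd G3x22 := p1S_ok gd pG3x22 ⟨QG3x28, QG3x29, trivial⟩
theorem QG3x21 : Ref Gd G3x21 := p1S_ok gd pG3x21 ⟨QG3x28, trivial⟩
theorem QG3x20 : Ref Gd G3x20 := p1S_ok gd pG3x20 ⟨QG3x27, trivial⟩
theorem QG3x19 : Ref Gd G3x19 := p1S_ok gd pG3x19 ⟨QG3x26, trivial⟩
theorem QG3x18 : Ref Gd G3x18 := p1S_ok gd pG3x18 ⟨QG3x25, trivial⟩
theorem QG3x17 : Ref Gd G3x17 := p1S_ok gd pG3x17 ⟨QG3x24, trivial⟩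
theorem QG3x16 : Ref Gd G3x16 := p1S_ok gd pG3x16 ⟨QG3x19, QG3x22, QG3x23, trivial⟩
theorem QG3x15 : Ref Gd G3x15 := p1S_ok gd pG3x15 ⟨QG3x18, QG3x21, QG3x22, trivial⟩
theorem QG3x14 : Ref Gd G3x14 := p1S_ok gd pG3x14 ⟨QG3x20, QG3x21, trivial⟩
theorem QG3x13 : Ref Gd G3x13 := p1S_ok gd pG3x13 ⟨QG3x18, QG3x19, trivial⟩
theorem QG3x12 : Ref Gd G3x12 := p1S_ok gd pG3x12 ⟨QG3x18, trivial⟩
theorem QG3x11 : Ref Gd G3x11 := p1S_ok gd pG3x11 ⟨QG3x17, trivial⟩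
theorem QG3x10 : Ref Gd G3x10 := p1S_ok gd pG3x10 ⟨QG3x13, QG3x15, QG3x16, trivial⟩
theorem QG3x9 : Ref Gd G3x9 := p1S_ok gd pG3x9 ⟨QG3x12, QG3x14, QG3x15, trivial⟩
theorem QG3x8 : Ref Gd G3x8 := p1S_ok gd pG3x8 ⟨QG3x11, QG3x12, QG3x13, trivial⟩
theorem QG3x7 : Ref Gd G3x7 := p1S_ok gd pG3x7 ⟨QG3x8, QG3x9, QG3x10, trivial⟩
theorem QG3x6 : Ref Gd G3x6 := p1N_ok gd pG3x6 ⟨QG3x7, trivial⟩
theorem QG3x5 : Ref Gd G3x5 := p1S_ok gd pG3x5 ⟨QG3x6, trivial⟩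
theorem QG3x4 : Ref Gd G3x4 := p1S_ok gd pG3x4 ⟨QG3x5, trivial⟩
theorem QG3x3 : Ref Gd G3x3 := p1S_ok gd pG3x3 ⟨QG3x4, trivial⟩
theorem QG3x2 : Ref Gd G3x2 := p1S_ok gd pG3x2 ⟨QG3x3, trivial⟩
theorem QG3x1 : Ref Gd G3x1 := p1S_ok gd pG3x1 ⟨QG3x2, trivial⟩
theorem QG3x0 : Ref Gd G3x0 := p1S_ok gd pG3x0 ⟨QG3x1, trivial⟩

theorem main : NoCfg sp3 := noCfg_of_ref QG3x0

end Pool.Agent.P.MP_9e9aa3_co.A3

namespace Pool.Agent.P.MP_9e9aa3_co.A4a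

open Finset E

def Gd : Fam → Prop := Hyp sp4a (range sp4a.n)

theorem gd : GoodD sp4a 1 Gd := good_std _ _

theorem gx : ∀ N, Gd N → ∀ i m, N i (dec m) → ex1 i m ≠ 0 := gx_std Gd

theorem XG4ax21 : Ctx sp4a Gd TG4ax21 := tab_ctx gd tsG4ax21 rfl
theorem RG4ax21_0 : Rf Gd TG4ax21 FG4ax21_0 CG4ax21_0 := run_ok XG4ax21 rG4ax21_0 trivial
theorem QG4ax21 : Ref Gd G4ax21 := tab_ref XG4ax21 gx tsG4ax21 (al := [2,3]) ⟨tcG4ax21_2, tcG4ax21_3, trivial⟩ (by decide +kernel) RG4ax21_0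
theorem XG4ax22 : Ctx sp4a Gd TG4ax22 := tab_ctx gd tsG4ax22 rfl
theorem RG4ax22_0 : Rf Gd TG4ax22 FG4ax22_0 CG4ax22_0 := run_ok XG4ax22 rG4ax22_0 trivial
theorem QG4ax22 : Ref Gd G4ax22 := tab_ref XG4ax22 gx tsG4ax22 (al := [2,3]) ⟨tcG4ax22_2, tcG4ax22_3, trivial⟩ (by decide +kernel) RG4ax22_0
theorem XG4ax23 : Ctx sp4a Gd TG4ax23 := tab_ctx gd tsG4ax23 rfl
theorem RG4ax23_0 : Rf Gd TG4ax23 FG4ax23_0 CG4ax23_0 := run_ok XG4ax23 rG4ax23_0 trivial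
theorem QG4ax23 : Ref Gd G4ax23 := tab_ref XG4ax23 gx tsG4ax23 (al := [2,3]) ⟨tcG4ax23_2, tcG4ax23_3, trivial⟩ (by decide +kernel) RG4ax23_0
theorem XG4ax24 : Ctx sp4a Gd TG4ax24 := tab_ctx gd tsG4ax24 rfl
theorem RG4ax24_0 : Rf Gd TG4ax24 FG4ax24_0 CG4ax24_0 := run_ok XG4ax24 rG4ax24_0 trivial
theorem QG4ax24 : Ref Gd G4ax24 := tab_ref XG4ax24 gx tsG4ax24 (al := [2,3]) ⟨tcG4ax24_2, tcG4ax24_3, trivial⟩ (by decide +kernel) RG4ax24_0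
theorem XG4ax25 : Ctx sp4a Gd TG4ax25 := tab_ctx gd tsG4ax25 rfl
theorem RG4ax25_0 : Rf Gd TG4ax25 FG4ax25_0 CG4ax25_0 := run_ok XG4ax25 rG4ax25_0 trivial
theorem QG4ax25 : Ref Gd G4ax25 := tab_ref XG4ax25 gx tsG4ax25 (al := [2,3]) ⟨tcG4ax25_2, tcG4ax25_3, trivial⟩ (by decide +kernel) RG4ax25_0
theorem XG4ax26 : Ctx sp4a Gd TG4ax26 := tab_ctx gd tsG4ax26 rfl
theorem RG4ax26_0 : Rf Gd TG4ax26 FG4ax26_0 CG4ax26_0 := run_ok XG4ax26 rG4ax26_0 trivial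
theorem QG4ax26 : Ref Gd G4ax26 := tab_ref XG4ax26 gx tsG4ax26 (al := [2,3]) ⟨tcG4ax26_2, tcG4ax26_3, trivial⟩ (by decide +kernel) RG4ax26_0
theorem XG4ax27 : Ctx sp4a Gd TG4ax27 := tab_ctx gd tsG4ax27 rfl
theorem RG4ax27_0 : Rf Gd TG4ax27 FG4ax27_0 CG4ax27_0 := run_ok XG4ax27 rG4ax27_0 trivial
theorem QG4ax27 : Ref Gd G4ax27 := tab_ref XG4ax27 gx tsG4ax27 (al := [2,3]) ⟨tcG4ax27_2, tcG4ax27_3, trivial⟩ (by decide +kernel) RG4ax27_0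
theorem QG4ax20 : Ref Gd G4ax20 := p1S_ok gd pG4ax20 ⟨QG4ax21, QG4ax22, QG4ax23, QG4ax24, QG4ax25, QG4ax26, QG4ax27, trivial⟩
theorem QG4ax19 : Ref Gd G4ax19 := p1S_ok gd pG4ax19 ⟨QG4ax20, trivial⟩
theorem QG4ax18 : Ref Gd G4ax18 := p1S_ok gd pG4ax18 ⟨QG4ax19, trivial⟩
theorem QG4ax17 : Ref Gd G4ax17 := p1S_ok gd pG4ax17 ⟨QG4ax18, trivial⟩
theorem QG4ax16 : Ref Gd G4ax16 := p1S_ok gd pG4ax16 ⟨QG4ax17, trivial⟩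
theorem QG4ax15 : Ref Gd G4ax15 := p1S_ok gd pG4ax15 ⟨QG4ax16, trivial⟩
theorem QG4ax14 : Ref Gd G4ax14 := p1S_ok gd pG4ax14 ⟨QG4ax15, trivial⟩
theorem QG4ax13 : Ref Gd G4ax13 := p1S_ok gd pG4ax13 ⟨QG4ax14, trivial⟩
theorem QG4ax12 : Ref Gd G4ax12 := p1S_ok gd pG4ax12 ⟨QG4ax13, trivial⟩
theorem QG4ax11 : Ref Gd G4ax11 := p1S_ok gd pG4ax11 ⟨QG4ax12, trivial⟩
theorem QG4ax10 : Ref Gd G4ax10 := p1S_ok gd pG4ax10 ⟨QG4ax11, trivial⟩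
theorem QG4ax9 : Ref Gd G4ax9 := p1S_ok gd pG4ax9 ⟨QG4ax10, trivial⟩
theorem QG4ax8 : Ref Gd G4ax8 := p1S_ok gd pG4ax8 ⟨QG4ax9, trivial⟩
theorem QG4ax7 : Ref Gd G4ax7 := p1N_ok gd pG4ax7 ⟨QG4ax8, trivial⟩
theorem QG4ax6 : Ref Gd G4ax6 := p1N_ok gd pG4ax6 ⟨QG4ax7, trivial⟩
theorem QG4ax5 : Ref Gd G4ax5 := p1N_ok gd pG4ax5 ⟨QG4ax6, trivial⟩
theorem QG4ax4 : Ref Gd G4ax4 := p1N_ok gd pG4ax4 ⟨QG4ax5, trivial⟩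
theorem QG4ax3 : Ref Gd G4ax3 := p1N_ok gd pG4ax3 ⟨QG4ax4, trivial⟩
theorem QG4ax2 : Ref Gd G4ax2 := p1N_ok gd pG4ax2 ⟨QG4ax3, trivial⟩
theorem QG4ax1 : Ref Gd G4ax1 := p1N_ok gd pG4ax1 ⟨QG4ax2, trivial⟩
theorem QG4ax0 : Ref Gd G4ax0 := p1N_ok gd pG4ax0 ⟨QG4ax1, trivial⟩

theorem main : NoCfg sp4a := noCfg_of_ref QG4ax0

end Pool.Agent.P.MP_9e9aa3_co.A4a

namespace Pool.Agent.P.MP_9e9aa3_co.A4b

open Finset E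

def Gd : Fam → Prop := Hyp sp4b (range sp4b.n)

theorem gd : GoodD sp4b 1 Gd := good_std _ _

theorem gx : ∀ N, Gd N → ∀ i m, N i (dec m) → ex1 i m ≠ 0 := gx_std Gd

theorem XG4bx23 : Ctx sp4b Gd TG4bx23 := tab_ctx gd tsG4bx23 rfl
theorem RG4bx23_0 : Rf Gd TG4bx23 FG4bx23_0 CG4bx23_0 := run_ok XG4bx23 rG4bx23_0 trivial
theorem QG4bx23 : Ref Gd G4bx23 := tab_ref XG4bx23 gx tsG4bx23 (al := [2,3]) ⟨tcG4bx23_2, tcG4bx23_3, trivial⟩ (by decide +kernel) RG4bx23_0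
theorem XG4bx24 : Ctx sp4b Gd TG4bx24 := tab_ctx gd tsG4bx24 rfl
theorem RG4bx24_0 : Rf Gd TG4bx24 FG4bx24_0 CG4bx24_0 := run_ok XG4bx24 rG4bx24_0 trivial
theorem QG4bx24 : Ref Gd G4bx24 := tab_ref XG4bx24 gx tsG4bx24 (al := [2,3]) ⟨tcG4bx24_2, tcG4bx24_3, trivial⟩ (by decide +kernel) RG4bx24_0
theorem QG4bx22 : Ref Gd G4bx22 := p1S_ok gd pG4bx22 ⟨QG4bx24, trivial⟩
theorem QG4bx21 : Ref Gd G4bx21 := p1S_ok gd pG4bx21 ⟨QG4bx23, trivial⟩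
theorem QG4bx20 : Ref Gd G4bx20 := p1S_ok gd pG4bx20 ⟨QG4bx22, QG4bx21, trivial⟩
theorem QG4bx19 : Ref Gd G4bx19 := p1S_ok gd pG4bx19 ⟨QG4bx21, trivial⟩
theorem QG4bx18 : Ref Gd G4bx18 := p1S_ok gd pG4bx18 ⟨QG4bx20, trivial⟩
theorem QG4bx17 : Ref Gd G4bx17 := p1S_ok gd pG4bx17 ⟨QG4bx19, QG4bx20, trivial⟩
theorem QG4bx16 : Ref Gd G4bx16 := p1S_ok gd pG4bx16 ⟨QG4bx17, QG4bx18, trivial⟩
theorem QG4bx15 : Ref Gd G4bx15 := p1S_ok gd pG4bx15 ⟨QG4bx16, trivial⟩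
theorem QG4bx14 : Ref Gd G4bx14 := p1S_ok gd pG4bx14 ⟨QG4bx15, trivial⟩
theorem QG4bx13 : Ref Gd G4bx13 := p1S_ok gd pG4bx13 ⟨QG4bx14, trivial⟩
theorem QG4bx12 : Ref Gd G4bx12 := p1S_ok gd pG4bx12 ⟨QG4bx13, trivial⟩
theorem QG4bx11 : Ref Gd G4bx11 := p1S_ok gd pG4bx11 ⟨QG4bx12, trivial⟩
theorem QG4bx10 : Ref Gd G4bx10 := p1S_ok gd pG4bx10 ⟨QG4bx11, trivial⟩
theorem QG4bx9 : Ref Gd G4bx9 := p1S_ok gd pG4bx9 ⟨QG4bx10, trivial⟩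
theorem QG4bx8 : Ref Gd G4bx8 := p1S_ok gd pG4bx8 ⟨QG4bx9, trivial⟩
theorem QG4bx7 : Ref Gd G4bx7 := p1N_ok gd pG4bx7 ⟨QG4bx8, trivial⟩
theorem QG4bx6 : Ref Gd G4bx6 := p1N_ok gd pG4bx6 ⟨QG4bx7, trivial⟩
theorem QG4bx5 : Ref Gd G4bx5 := p1N_ok gd pG4bx5 ⟨QG4bx6, trivial⟩
theorem QG4bx4 : Ref Gd G4bx4 := p1N_ok gd pG4bx4 ⟨QG4bx5, trivial⟩
theorem QG4bx3 : Ref Gd G4bx3 := p1N_ok gd pG4bx3 ⟨QG4bx4, trivial⟩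
theorem QG4bx2 : Ref Gd G4bx2 := p1N_ok gd pG4bx2 ⟨QG4bx3, trivial⟩
theorem QG4bx1 : Ref Gd G4bx1 := p1N_ok gd pG4bx1 ⟨QG4bx2, trivial⟩
theorem QG4bx0 : Ref Gd G4bx0 := p1N_ok gd pG4bx0 ⟨QG4bx1, trivial⟩

theorem main : NoCfg sp4b := noCfg_of_ref QG4bx0

end Pool.Agent.P.MP_9e9aa3_co.A4b

namespace Pool.Agent.P.MP_9e9aa3_co.A5

open Finset E

def Gd : Fam → Prop := Hyp sp5 (range sp5.n)

theorem gd : GoodD sp5 1 Gd := good_std _ _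

theorem gx : ∀ N, Gd N → ∀ i m, N i (dec m) → ex1 i m ≠ 0 := gx_std Gd

theorem XG5x14 : Ctx sp5 Gd TG5x14 := tab_ctx gd tsG5x14 rfl
theorem RG5x14_1 : Rf Gd TG5x14 FG5x14_1 CG5x14_1 := run_ok XG5x14 rG5x14_1 trivial
theorem RG5x14_25 : Rf Gd TG5x14 FG5x14_25 CG5x14_25 := run_ok XG5x14 rG5x14_25 trivial
theorem RG5x14_15 : Rf Gd TG5x14 FG5x14_15 CG5x14_15 := run_ok XG5x14 rG5x14_15 trivial
theorem RG5x14_19 : Rf Gd TG5x14 FG5x14_19 CG5x14_19 := run_ok XG5x14 rG5x14_19 trivial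
theorem RG5x14_9 : Rf Gd TG5x14 FG5x14_9 CG5x14_9 := run_ok XG5x14 rG5x14_9 trivial
theorem RG5x14_6 : Rf Gd TG5x14 FG5x14_6 CG5x14_6 := run_ok XG5x14 rG5x14_6 trivial
theorem RG5x14_8 : Rf Gd TG5x14 FG5x14_8 CG5x14_8 := run_ok XG5x14 rG5x14_8 trivial
theorem RG5x14_24 : Rf Gd TG5x14 FG5x14_24 CG5x14_24 := run_ok XG5x14 rG5x14_24 trivial
theorem RG5x14_23 : Rf Gd TG5x14 FG5x14_23 CG5x14_23 := run_ok XG5x14 rG5x14_23 trivial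
theorem RG5x14_22 : Rf Gd TG5x14 FG5x14_22 CG5x14_22 := run_ok XG5x14 rG5x14_22 trivial
theorem RG5x14_17 : Rf Gd TG5x14 FG5x14_17 CG5x14_17 := run_ok XG5x14 rG5x14_17 trivial
theorem RG5x14_21 : Rf Gd TG5x14 FG5x14_21 CG5x14_21 := run_ok XG5x14 rG5x14_21 trivial
theorem RG5x14_14 : Rf Gd TG5x14 FG5x14_14 CG5x14_14 := run_ok XG5x14 rG5x14_14 trivial
theorem RG5x14_7 : Rf Gd TG5x14 FG5x14_7 CG5x14_7 := run_ok XG5x14 rG5x14_7 trivial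
theorem RG5x14_5 : Rf Gd TG5x14 FG5x14_5 CG5x14_5 := run_ok XG5x14 rG5x14_5 trivial
theorem RG5x14_2 : Rf Gd TG5x14 FG5x14_2 CG5x14_2 := run_ok XG5x14 rG5x14_2 trivial
theorem RG5x14_3 : Rf Gd TG5x14 FG5x14_3 CG5x14_3 := run_ok XG5x14 rG5x14_3 trivial
theorem RG5x14_10 : Rf Gd TG5x14 FG5x14_10 CG5x14_10 := run_ok XG5x14 rG5x14_10 trivial
theorem RG5x14_4 : Rf Gd TG5x14 FG5x14_4 CG5x14_4 := run_ok XG5x14 rG5x14_4 trivial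
theorem RG5x14_18 : Rf Gd TG5x14 FG5x14_18 CG5x14_18 := run_ok XG5x14 rG5x14_18 trivial
theorem RG5x14_13 : Rf Gd TG5x14 FG5x14_13 CG5x14_13 := run_ok XG5x14 rG5x14_13 trivial
theorem RG5x14_20 : Rf Gd TG5x14 FG5x14_20 CG5x14_20 := run_ok XG5x14 rG5x14_20 trivial
theorem RG5x14_16 : Rf Gd TG5x14 FG5x14_16 CG5x14_16 := run_ok XG5x14 rG5x14_16 trivial
theorem RG5x14_12 : Rf Gd TG5x14 FG5x14_12 CG5x14_12 := run_ok XG5x14 rG5x14_12 trivial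
theorem RG5x14_11 : Rf Gd TG5x14 FG5x14_11 CG5x14_11 := run_ok XG5x14 rG5x14_11 trivial
theorem RG5x14_27 : Rf Gd TG5x14 FG5x14_27 CG5x14_27 := run_ok XG5x14 rG5x14_27 trivial
theorem RG5x14_29 : Rf Gd TG5x14 FG5x14_29 CG5x14_29 := run_ok XG5x14 rG5x14_29 trivial
theorem RG5x14_30 : Rf Gd TG5x14 FG5x14_30 CG5x14_30 := run_ok XG5x14 rG5x14_30 trivial
theorem RG5x14_26 : Rf Gd TG5x14 FG5x14_26 CG5x14_26 := run_ok XG5x14 rG5x14_26 trivial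
theorem RG5x14_28 : Rf Gd TG5x14 FG5x14_28 CG5x14_28 := run_ok XG5x14 rG5x14_28 trivial
theorem RG5x14_0 : Rf Gd TG5x14 FG5x14_0 CG5x14_0 := run_ok XG5x14 rG5x14_0 ⟨RG5x14_28, RG5x14_26, RG5x14_30, RG5x14_29, RG5x14_27, RG5x14_11, RG5x14_12, RG5x14_16, RG5x14_20, RG5x14_13, RG5x14_18, RG5x14_4, RG5x14_10, RG5x14_3, RG5x14_2, RG5x14_5, RG5x14_7, RG5x14_14, RG5x14_21, RG5x14_17, RG5x14_22, RG5x14_23, RG5x14_24, RG5x14_8, RG5x14_6, RG5x14_9, RG5x14_19, RG5x14_15, RG5x14_25, RG5x14_1, trivial⟩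
theorem QG5x14 : Ref Gd G5x14 := tab_ref XG5x14 gx tsG5x14 (al := [2,3,5]) ⟨tcG5x14_2, tcG5x14_3, tcG5x14_5, trivial⟩ (by decide +kernel) RG5x14_0
theorem XG5x15 : Ctx sp5 Gd TG5x15 := tab_ctx gd tsG5x15 rfl
theorem RG5x15_1 : Rf Gd TG5x15 FG5x15_1 CG5x15_1 := run_ok XG5x15 rG5x15_1 trivial
theorem RG5x15_11 : Rf Gd TG5x15 FG5x15_11 CG5x15_11 := run_ok XG5x15 rG5x15_11 trivial
theorem RG5x15_10 : Rf Gd TG5x15 FG5x15_10 CG5x15_10 := run_ok XG5x15 rG5x15_10 trivial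
theorem RG5x15_2 : Rf Gd TG5x15 FG5x15_2 CG5x15_2 := run_ok XG5x15 rG5x15_2 trivial
theorem RG5x15_6 : Rf Gd TG5x15 FG5x15_6 CG5x15_6 := run_ok XG5x15 rG5x15_6 trivial
theorem RG5x15_8 : Rf Gd TG5x15 FG5x15_8 CG5x15_8 := run_ok XG5x15 rG5x15_8 trivial
theorem RG5x15_21 : Rf Gd TG5x15 FG5x15_21 CG5x15_21 := run_ok XG5x15 rG5x15_21 trivial
theorem RG5x15_18 : Rf Gd TG5x15 FG5x15_18 CG5x15_18 := run_ok XG5x15 rG5x15_18 trivial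
theorem RG5x15_14 : Rf Gd TG5x15 FG5x15_14 CG5x15_14 := run_ok XG5x15 rG5x15_14 trivial
theorem RG5x15_22 : Rf Gd TG5x15 FG5x15_22 CG5x15_22 := run_ok XG5x15 rG5x15_22 trivial
theorem RG5x15_7 : Rf Gd TG5x15 FG5x15_7 CG5x15_7 := run_ok XG5x15 rG5x15_7 trivial
theorem RG5x15_13 : Rf Gd TG5x15 FG5x15_13 CG5x15_13 := run_ok XG5x15 rG5x15_13 trivial
theorem RG5x15_5 : Rf Gd TG5x15 FG5x15_5 CG5x15_5 := run_ok XG5x15 rG5x15_5 trivial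
theorem RG5x15_4 : Rf Gd TG5x15 FG5x15_4 CG5x15_4 := run_ok XG5x15 rG5x15_4 trivial
theorem RG5x15_9 : Rf Gd TG5x15 FG5x15_9 CG5x15_9 := run_ok XG5x15 rG5x15_9 trivial
theorem RG5x15_3 : Rf Gd TG5x15 FG5x15_3 CG5x15_3 := run_ok XG5x15 rG5x15_3 trivial
theorem RG5x15_15 : Rf Gd TG5x15 FG5x15_15 CG5x15_15 := run_ok XG5x15 rG5x15_15 trivial
theorem RG5x15_12 : Rf Gd TG5x15 FG5x15_12 CG5x15_12 := run_ok XG5x15 rG5x15_12 trivial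
theorem RG5x15_25 : Rf Gd TG5x15 FG5x15_25 CG5x15_25 := run_ok XG5x15 rG5x15_25 trivial
theorem RG5x15_24 : Rf Gd TG5x15 FG5x15_24 CG5x15_24 := run_ok XG5x15 rG5x15_24 trivial
theorem RG5x15_20 : Rf Gd TG5x15 FG5x15_20 CG5x15_20 := run_ok XG5x15 rG5x15_20 trivial
theorem RG5x15_17 : Rf Gd TG5x15 FG5x15_17 CG5x15_17 := run_ok XG5x15 rG5x15_17 trivial
theorem RG5x15_16 : Rf Gd TG5x15 FG5x15_16 CG5x15_16 := run_ok XG5x15 rG5x15_16 trivial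
theorem RG5x15_19 : Rf Gd TG5x15 FG5x15_19 CG5x15_19 := run_ok XG5x15 rG5x15_19 trivial
theorem RG5x15_26 : Rf Gd TG5x15 FG5x15_26 CG5x15_26 := run_ok XG5x15 rG5x15_26 trivial
theorem RG5x15_28 : Rf Gd TG5x15 FG5x15_28 CG5x15_28 := run_ok XG5x15 rG5x15_28 trivial
theorem RG5x15_27 : Rf Gd TG5x15 FG5x15_27 CG5x15_27 := run_ok XG5x15 rG5x15_27 trivial
theorem RG5x15_29 : Rf Gd TG5x15 FG5x15_29 CG5x15_29 := run_ok XG5x15 rG5x15_29 trivial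
theorem RG5x15_23 : Rf Gd TG5x15 FG5x15_23 CG5x15_23 := run_ok XG5x15 rG5x15_23 trivial
theorem RG5x15_30 : Rf Gd TG5x15 FG5x15_30 CG5x15_30 := run_ok XG5x15 rG5x15_30 trivial
theorem RG5x15_0 : Rf Gd TG5x15 FG5x15_0 CG5x15_0 := run_ok XG5x15 rG5x15_0 ⟨RG5x15_30, RG5x15_23, RG5x15_29, RG5x15_27, RG5x15_28, RG5x15_26, RG5x15_19, RG5x15_16, RG5x15_17, RG5x15_20, RG5x15_24, RG5x15_25, RG5x15_12, RG5x15_15, RG5x15_3, RG5x15_9, RG5x15_4, RG5x15_5, RG5x15_13, RG5x15_7, RG5x15_22, RG5x15_14, RG5x15_18, RG5x15_21, RG5x15_8, RG5x15_6, RG5x15_2, RG5x15_10, RG5x15_11, RG5x15_1, trivial⟩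
theorem QG5x15 : Ref Gd G5x15 := tab_ref XG5x15 gx tsG5x15 (al := [2,3,5]) ⟨tcG5x15_2, tcG5x15_3, tcG5x15_5, trivial⟩ (by decide +kernel) RG5x15_0
theorem QG5x13 : Ref Gd G5x13 := p1S_ok gd pG5x13 ⟨QG5x14, QG5x15, trivial⟩
theorem QG5x12 : Ref Gd G5x12 := p1S_ok gd pG5x12 ⟨QG5x13, trivial⟩
theorem QG5x11 : Ref Gd G5x11 := p1S_ok gd pG5x11 ⟨QG5x12, trivial⟩
theorem QG5x10 : Ref Gd G5x10 := p1S_ok gd pG5x10 ⟨QG5x11, trivial⟩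
theorem QG5x9 : Ref Gd G5x9 := p1S_ok gd pG5x9 ⟨QG5x10, trivial⟩
theorem QG5x8 : Ref Gd G5x8 := p1S_ok gd pG5x8 ⟨QG5x9, trivial⟩
theorem QG5x7 : Ref Gd G5x7 := p1S_ok gd pG5x7 ⟨QG5x8, trivial⟩
theorem QG5x6 : Ref Gd G5x6 := p1N_ok gd pG5x6 ⟨QG5x7, trivial⟩
theorem QG5x5 : Ref Gd G5x5 := p1S_ok gd pG5x5 ⟨QG5x6, trivial⟩
theorem QG5x4 : Ref Gd G5x4 := p1S_ok gd pG5x4 ⟨QG5x5, trivial⟩
theorem QG5x3 : Ref Gd G5x3 := p1S_ok gd pG5x3 ⟨QG5x4, trivial⟩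
theorem QG5x2 : Ref Gd G5x2 := p1S_ok gd pG5x2 ⟨QG5x3, trivial⟩
theorem QG5x1 : Ref Gd G5x1 := p1S_ok gd pG5x1 ⟨QG5x2, trivial⟩
theorem QG5x0 : Ref Gd G5x0 := p1S_ok gd pG5x0 ⟨QG5x1, trivial⟩

theorem main : NoCfg sp5 := noCfg_of_ref QG5x0

end Pool.Agent.P.MP_9e9aa3_co.A5

namespace Pool.Agent.P.MP_9e9aa3_co.A6c

open Finset E

def Gd : Fam → Prop := fun N => Hyp sp6c (range sp6c.n) N ∧ ∀ f : ℕ → ℕ, Set.InjOn f (range 36) →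
  (range 36).image f = range 36 →
  ¬ (SubC fr0 (mapN f N) ∨ SubC fr1 (mapN f N) ∨ SubC fr2 (mapN f N))

theorem gd : GoodD sp6c 1 Gd := by
  refine ⟨fun _ h => h.1, fun hs g h1 h2 N hN => ⟨(good_std sp6c 1).inv hs g h1 h2 N hN.1, ?_⟩⟩
  intro f h3 h4
  have h2' : (range 36).image g = range 36 := h2
  rw [mapN_mapN]
  refine hN.2 _ (h3.comp h1 fun a ha => ?_) (by rw [← image_image, h2', h4])
  have : g a ∈ (range 36).image g := mem_image_of_mem g ha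
  rwa [h2'] at this

theorem gx : ∀ N, Gd N → ∀ i m, N i (dec m) → ex1 i m ≠ 0 := gx_std Gd

theorem sub_id {F : Cfg} {N : Fam} (h : SubC F N) : SubC F (mapN id N) :=
  fun e he => ⟨_, h e he, image_id⟩

theorem Qfr0 : Ref Gd fr0 := fun _ hN h =>
  hN.2 id (Set.injOn_id _) image_id (Or.inl (sub_id h))

theorem Qfr1 : Ref Gd fr1 := fun _ hN h =>
  hN.2 id (Set.injOn_id _) image_id (Or.inr (Or.inl (sub_id h)))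

theorem Qfr2 : Ref Gd fr2 := fun _ hN h =>
  hN.2 id (Set.injOn_id _) image_id (Or.inr (Or.inr (sub_id h)))

theorem XG6cx123 : Ctx sp6c Gd TG6cx123 := tab_ctx gd tsG6cx123 rfl
theorem RG6cx123_0 : Rf Gd TG6cx123 FG6cx123_0 CG6cx123_0 := run_ok XG6cx123 rG6cx123_0 trivial
theorem QG6cx123 : Ref Gd G6cx123 := tab_ref XG6cx123 gx tsG6cx123 (al := [3]) ⟨tcG6cx123_3, trivial⟩ (by decide +kernel) RG6cx123_0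
theorem XG6cx124 : Ctx sp6c Gd TG6cx124 := tab_ctx gd tsG6cx124 rfl
theorem RG6cx124_0 : Rf Gd TG6cx124 FG6cx124_0 CG6cx124_0 := run_ok XG6cx124 rG6cx124_0 trivial
theorem QG6cx124 : Ref Gd G6cx124 := tab_ref XG6cx124 gx tsG6cx124 (al := [3]) ⟨tcG6cx124_3, trivial⟩ (by decide +kernel) RG6cx124_0
theorem XG6cx125 : Ctx sp6c Gd TG6cx125 := tab_ctx gd tsG6cx125 rfl
theorem RG6cx125_0 : Rf Gd TG6cx125 FG6cx125_0 CG6cx125_0 := run_ok XG6cx125 rG6cx125_0 trivial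
theorem QG6cx125 : Ref Gd G6cx125 := tab_ref XG6cx125 gx tsG6cx125 (al := [3]) ⟨tcG6cx125_3, trivial⟩ (by decide +kernel) RG6cx125_0
theorem XG6cx126 : Ctx sp6c Gd TG6cx126 := tab_ctx gd tsG6cx126 rfl
theorem RG6cx126_0 : Rf Gd TG6cx126 FG6cx126_0 CG6cx126_0 := run_ok XG6cx126 rG6cx126_0 trivial
theorem QG6cx126 : Ref Gd G6cx126 := tab_ref XG6cx126 gx tsG6cx126 (al := [3]) ⟨tcG6cx126_3, trivial⟩ (by decide +kernel) RG6cx126_0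
theorem XG6cx127 : Ctx sp6c Gd TG6cx127 := tab_ctx gd tsG6cx127 rfl
theorem RG6cx127_0 : Rf Gd TG6cx127 FG6cx127_0 CG6cx127_0 := run_ok XG6cx127 rG6cx127_0 trivial
theorem QG6cx127 : Ref Gd G6cx127 := tab_ref XG6cx127 gx tsG6cx127 (al := [3]) ⟨tcG6cx127_3, trivial⟩ (by decide +kernel) RG6cx127_0
theorem XG6cx128 : Ctx sp6c Gd TG6cx128 := tab_ctx gd tsG6cx128 rfl
theorem RG6cx128_0 : Rf Gd TG6cx128 FG6cx128_0 CG6cx128_0 := run_ok XG6cx128 rG6cx128_0 trivial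
theorem QG6cx128 : Ref Gd G6cx128 := tab_ref XG6cx128 gx tsG6cx128 (al := [3]) ⟨tcG6cx128_3, trivial⟩ (by decide +kernel) RG6cx128_0
theorem XG6cx129 : Ctx sp6c Gd TG6cx129 := tab_ctx gd tsG6cx129 rfl
theorem RG6cx129_0 : Rf Gd TG6cx129 FG6cx129_0 CG6cx129_0 := run_ok XG6cx129 rG6cx129_0 trivial
theorem QG6cx129 : Ref Gd G6cx129 := tab_ref XG6cx129 gx tsG6cx129 (al := [3]) ⟨tcG6cx129_3, trivial⟩ (by decide +kernel) RG6cx129_0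
theorem XG6cx130 : Ctx sp6c Gd TG6cx130 := tab_ctx gd tsG6cx130 rfl
theorem RG6cx130_0 : Rf Gd TG6cx130 FG6cx130_0 CG6cx130_0 := run_ok XG6cx130 rG6cx130_0 trivial
theorem QG6cx130 : Ref Gd G6cx130 := tab_ref XG6cx130 gx tsG6cx130 (al := [3]) ⟨tcG6cx130_3, trivial⟩ (by decide +kernel) RG6cx130_0
theorem XG6cx131 : Ctx sp6c Gd TG6cx131 := tab_ctx gd tsG6cx131 rfl
theorem RG6cx131_0 : Rf Gd TG6cx131 FG6cx131_0 CG6cx131_0 := run_ok XG6cx131 rG6cx131_0 trivial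
theorem QG6cx131 : Ref Gd G6cx131 := tab_ref XG6cx131 gx tsG6cx131 (al := [3]) ⟨tcG6cx131_3, trivial⟩ (by decide +kernel) RG6cx131_0
theorem XG6cx132 : Ctx sp6c Gd TG6cx132 := tab_ctx gd tsG6cx132 rfl
theorem RG6cx132_0 : Rf Gd TG6cx132 FG6cx132_0 CG6cx132_0 := run_ok XG6cx132 rG6cx132_0 trivial
theorem QG6cx132 : Ref Gd G6cx132 := tab_ref XG6cx132 gx tsG6cx132 (al := [3]) ⟨tcG6cx132_3, trivial⟩ (by decide +kernel) RG6cx132_0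
theorem XG6cx133 : Ctx sp6c Gd TG6cx133 := tab_ctx gd tsG6cx133 rfl
theorem RG6cx133_0 : Rf Gd TG6cx133 FG6cx133_0 CG6cx133_0 := run_ok XG6cx133 rG6cx133_0 trivial
theorem QG6cx133 : Ref Gd G6cx133 := tab_ref XG6cx133 gx tsG6cx133 (al := [3]) ⟨tcG6cx133_3, trivial⟩ (by decide +kernel) RG6cx133_0
theorem XG6cx134 : Ctx sp6c Gd TG6cx134 := tab_ctx gd tsG6cx134 rfl
theorem RG6cx134_0 : Rf Gd TG6cx134 FG6cx134_0 CG6cx134_0 := run_ok XG6cx134 rG6cx134_0 trivial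
theorem QG6cx134 : Ref Gd G6cx134 := tab_ref XG6cx134 gx tsG6cx134 (al := [3]) ⟨tcG6cx134_3, trivial⟩ (by decide +kernel) RG6cx134_0
theorem XG6cx135 : Ctx sp6c Gd TG6cx135 := tab_ctx gd tsG6cx135 rfl
theorem RG6cx135_0 : Rf Gd TG6cx135 FG6cx135_0 CG6cx135_0 := run_ok XG6cx135 rG6cx135_0 trivial
theorem QG6cx135 : Ref Gd G6cx135 := tab_ref XG6cx135 gx tsG6cx135 (al := [3]) ⟨tcG6cx135_3, trivial⟩ (by decide +kernel) RG6cx135_0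
theorem XG6cx136 : Ctx sp6c Gd TG6cx136 := tab_ctx gd tsG6cx136 rfl
theorem RG6cx136_0 : Rf Gd TG6cx136 FG6cx136_0 CG6cx136_0 := run_ok XG6cx136 rG6cx136_0 trivial
theorem QG6cx136 : Ref Gd G6cx136 := tab_ref XG6cx136 gx tsG6cx136 (al := [3]) ⟨tcG6cx136_3, trivial⟩ (by decide +kernel) RG6cx136_0
theorem XG6cx137 : Ctx sp6c Gd TG6cx137 := tab_ctx gd tsG6cx137 rfl
theorem RG6cx137_0 : Rf Gd TG6cx137 FG6cx137_0 CG6cx137_0 := run_ok XG6cx137 rG6cx137_0 trivial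
theorem QG6cx137 : Ref Gd G6cx137 := tab_ref XG6cx137 gx tsG6cx137 (al := [3]) ⟨tcG6cx137_3, trivial⟩ (by decide +kernel) RG6cx137_0
theorem XG6cx138 : Ctx sp6c Gd TG6cx138 := tab_ctx gd tsG6cx138 rfl
theorem RG6cx138_0 : Rf Gd TG6cx138 FG6cx138_0 CG6cx138_0 := run_ok XG6cx138 rG6cx138_0 trivial
theorem QG6cx138 : Ref Gd G6cx138 := tab_ref XG6cx138 gx tsG6cx138 (al := [3]) ⟨tcG6cx138_3, trivial⟩ (by decide +kernel) RG6cx138_0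
theorem XG6cx139 : Ctx sp6c Gd TG6cx139 := tab_ctx gd tsG6cx139 rfl
theorem RG6cx139_0 : Rf Gd TG6cx139 FG6cx139_0 CG6cx139_0 := run_ok XG6cx139 rG6cx139_0 trivial
theorem QG6cx139 : Ref Gd G6cx139 := tab_ref XG6cx139 gx tsG6cx139 (al := [3]) ⟨tcG6cx139_3, trivial⟩ (by decide +kernel) RG6cx139_0
theorem XG6cx140 : Ctx sp6c Gd TG6cx140 := tab_ctx gd tsG6cx140 rfl
theorem RG6cx140_0 : Rf Gd TG6cx140 FG6cx140_0 CG6cx140_0 := run_ok XG6cx140 rG6cx140_0 trivial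
theorem QG6cx140 : Ref Gd G6cx140 := tab_ref XG6cx140 gx tsG6cx140 (al := [3]) ⟨tcG6cx140_3, trivial⟩ (by decide +kernel) RG6cx140_0
theorem XG6cx141 : Ctx sp6c Gd TG6cx141 := tab_ctx gd tsG6cx141 rfl
theorem RG6cx141_0 : Rf Gd TG6cx141 FG6cx141_0 CG6cx141_0 := run_ok XG6cx141 rG6cx141_0 trivial
theorem QG6cx141 : Ref Gd G6cx141 := tab_ref XG6cx141 gx tsG6cx141 (al := [3]) ⟨tcG6cx141_3, trivial⟩ (by decide +kernel) RG6cx141_0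
theorem QG6cx122 : Ref Gd G6cx122 := p1S_ok gd pG6cx122 ⟨QG6cx126, trivial⟩
theorem QG6cx121 : Ref Gd G6cx121 := p1S_ok gd pG6cx121 ⟨QG6cx126, trivial⟩
theorem QG6cx120 : Ref Gd G6cx120 := p1S_ok gd pG6cx120 ⟨QG6cx132, trivial⟩
theorem QG6cx119 : Ref Gd G6cx119 := p1S_ok gd pG6cx119 ⟨Qfr2, trivial⟩
theorem QG6cx118 : Ref Gd G6cx118 := p1S_ok gd pG6cx118 ⟨QG6cx141, trivial⟩
theorem QG6cx117 : Ref Gd G6cx117 := p1S_ok gd pG6cx117 ⟨QG6cx125, trivial⟩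
theorem QG6cx116 : Ref Gd G6cx116 := p1S_ok gd pG6cx116 ⟨QG6cx125, trivial⟩
theorem QG6cx115 : Ref Gd G6cx115 := p1S_ok gd pG6cx115 ⟨QG6cx140, trivial⟩
theorem QG6cx114 : Ref Gd G6cx114 := p1S_ok gd pG6cx114 ⟨QG6cx129, trivial⟩
theorem QG6cx113 : Ref Gd G6cx113 := p1S_ok gd pG6cx113 ⟨QG6cx129, trivial⟩
theorem QG6cx112 : Ref Gd G6cx112 := p1S_ok gd pG6cx112 ⟨QG6cx132, trivial⟩
theorem QG6cx111 : Ref Gd G6cx111 := p1S_ok gd pG6cx111 ⟨Qfr0, trivial⟩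
theorem QG6cx110 : Ref Gd G6cx110 := p1S_ok gd pG6cx110 ⟨QG6cx140, trivial⟩
theorem QG6cx109 : Ref Gd G6cx109 := p1S_ok gd pG6cx109 ⟨QG6cx126, trivial⟩
theorem QG6cx108 : Ref Gd G6cx108 := p1S_ok gd pG6cx108 ⟨QG6cx136, trivial⟩
theorem QG6cx107 : Ref Gd G6cx107 := p1S_ok gd pG6cx107 ⟨QG6cx139, trivial⟩
theorem QG6cx106 : Ref Gd G6cx106 := p1S_ok gd pG6cx106 ⟨QG6cx138, trivial⟩
theorem QG6cx105 : Ref Gd G6cx105 := p1S_ok gd pG6cx105 ⟨QG6cx138, trivial⟩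
theorem QG6cx104 : Ref Gd G6cx104 := p1S_ok gd pG6cx104 ⟨QG6cx137, trivial⟩
theorem QG6cx103 : Ref Gd G6cx103 := p1S_ok gd pG6cx103 ⟨QG6cx131, trivial⟩
theorem QG6cx102 : Ref Gd G6cx102 := p1S_ok gd pG6cx102 ⟨QG6cx136, trivial⟩
theorem QG6cx101 : Ref Gd G6cx101 := p1S_ok gd pG6cx101 ⟨QG6cx135, trivial⟩
theorem QG6cx100 : Ref Gd G6cx100 := p1S_ok gd pG6cx100 ⟨QG6cx135, trivial⟩
theorem QG6cx99 : Ref Gd G6cx99 := p1S_ok gd pG6cx99 ⟨QG6cx134, trivial⟩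
theorem QG6cx98 : Ref Gd G6cx98 := p1S_ok gd pG6cx98 ⟨QG6cx131, trivial⟩
theorem QG6cx97 : Ref Gd G6cx97 := p1S_ok gd pG6cx97 ⟨QG6cx134, trivial⟩
theorem QG6cx96 : Ref Gd G6cx96 := p1S_ok gd pG6cx96 ⟨Qfr1, trivial⟩
theorem QG6cx95 : Ref Gd G6cx95 := p1S_ok gd pG6cx95 ⟨QG6cx133, trivial⟩
theorem QG6cx94 : Ref Gd G6cx94 := p1S_ok gd pG6cx94 ⟨QG6cx132, trivial⟩
theorem QG6cx93 : Ref Gd G6cx93 := p1S_ok gd pG6cx93 ⟨QG6cx131, trivial⟩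
theorem QG6cx92 : Ref Gd G6cx92 := p1S_ok gd pG6cx92 ⟨QG6cx130, trivial⟩
theorem QG6cx91 : Ref Gd G6cx91 := p1S_ok gd pG6cx91 ⟨QG6cx128, trivial⟩
theorem QG6cx90 : Ref Gd G6cx90 := p1S_ok gd pG6cx90 ⟨Qfr2, trivial⟩
theorem QG6cx89 : Ref Gd G6cx89 := p1S_ok gd pG6cx89 ⟨QG6cx129, trivial⟩
theorem QG6cx88 : Ref Gd G6cx88 := p1S_ok gd pG6cx88 ⟨QG6cx128, trivial⟩
theorem QG6cx87 : Ref Gd G6cx87 := p1S_ok gd pG6cx87 ⟨QG6cx127, trivial⟩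
theorem QG6cx86 : Ref Gd G6cx86 := p1S_ok gd pG6cx86 ⟨QG6cx126, trivial⟩
theorem QG6cx85 : Ref Gd G6cx85 := p1S_ok gd pG6cx85 ⟨QG6cx125, trivial⟩
theorem QG6cx84 : Ref Gd G6cx84 := p1S_ok gd pG6cx84 ⟨QG6cx124, trivial⟩
theorem QG6cx83 : Ref Gd G6cx83 := p1S_ok gd pG6cx83 ⟨QG6cx123, trivial⟩
theorem QG6cx82 : Ref Gd G6cx82 := p1S_ok gd pG6cx82 ⟨QG6cx118, trivial⟩
theorem QG6cx81 : Ref Gd G6cx81 := p1S_ok gd pG6cx81 ⟨QG6cx114, QG6cx94, trivial⟩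
theorem QG6cx80 : Ref Gd G6cx80 := p1S_ok gd pG6cx80 ⟨QG6cx86, trivial⟩
theorem QG6cx79 : Ref Gd G6cx79 := p1S_ok gd pG6cx79 ⟨QG6cx83, trivial⟩
theorem QG6cx78 : Ref Gd G6cx78 := p1S_ok gd pG6cx78 ⟨QG6cx85, QG6cx121, QG6cx122, trivial⟩
theorem QG6cx77 : Ref Gd G6cx77 := p1S_ok gd pG6cx77 ⟨QG6cx109, trivial⟩
theorem QG6cx76 : Ref Gd G6cx76 := p1S_ok gd pG6cx76 ⟨QG6cx102, trivial⟩
theorem QG6cx75 : Ref Gd G6cx75 := p1S_ok gd pG6cx75 ⟨QG6cx120, QG6cx86, trivial⟩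
theorem QG6cx74 : Ref Gd G6cx74 := p1S_ok gd pG6cx74 ⟨QG6cx119, QG6cx120, QG6cx112, trivial⟩
theorem QG6cx73 : Ref Gd G6cx73 := p1S_ok gd pG6cx73 ⟨QG6cx100, QG6cx106, trivial⟩
theorem QG6cx72 : Ref Gd G6cx72 := p1S_ok gd pG6cx72 ⟨QG6cx86, QG6cx84, trivial⟩
theorem QG6cx71 : Ref Gd G6cx71 := p1S_ok gd pG6cx71 ⟨QG6cx117, QG6cx118, trivial⟩
theorem QG6cx70 : Ref Gd G6cx70 := p1S_ok gd pG6cx70 ⟨QG6cx87, QG6cx116, trivial⟩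
theorem QG6cx69 : Ref Gd G6cx69 := p1S_ok gd pG6cx69 ⟨QG6cx104, QG6cx107, trivial⟩
theorem QG6cx68 : Ref Gd G6cx68 := p1S_ok gd pG6cx68 ⟨QG6cx83, QG6cx85, trivial⟩
theorem QG6cx67 : Ref Gd G6cx67 := p1S_ok gd pG6cx67 ⟨QG6cx92, trivial⟩
theorem QG6cx66 : Ref Gd G6cx66 := p1S_ok gd pG6cx66 ⟨QG6cx115, QG6cx106, trivial⟩
theorem QG6cx65 : Ref Gd G6cx65 := p1S_ok gd pG6cx65 ⟨QG6cx108, trivial⟩
theorem QG6cx64 : Ref Gd G6cx64 := p1S_ok gd pG6cx64 ⟨QG6cx105, trivial⟩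
theorem QG6cx63 : Ref Gd G6cx63 := p1S_ok gd pG6cx63 ⟨QG6cx113, trivial⟩
theorem QG6cx62 : Ref Gd G6cx62 := p1S_ok gd pG6cx62 ⟨QG6cx91, QG6cx109, trivial⟩
theorem QG6cx61 : Ref Gd G6cx61 := p1S_ok gd pG6cx61 ⟨QG6cx113, QG6cx114, QG6cx103, QG6cx98, trivial⟩
theorem QG6cx60 : Ref Gd G6cx60 := p1S_ok gd pG6cx60 ⟨QG6cx112, trivial⟩
theorem QG6cx59 : Ref Gd G6cx59 := p1S_ok gd pG6cx59 ⟨QG6cx92, QG6cx93, trivial⟩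
theorem QG6cx58 : Ref Gd G6cx58 := p1S_ok gd pG6cx58 ⟨QG6cx111, QG6cx110, trivial⟩
theorem QG6cx57 : Ref Gd G6cx57 := p1S_ok gd pG6cx57 ⟨QG6cx110, trivial⟩
theorem QG6cx56 : Ref Gd G6cx56 := p1S_ok gd pG6cx56 ⟨QG6cx108, QG6cx109, trivial⟩
theorem QG6cx55 : Ref Gd G6cx55 := p1S_ok gd pG6cx55 ⟨QG6cx106, trivial⟩
theorem QG6cx54 : Ref Gd G6cx54 := p1S_ok gd pG6cx54 ⟨QG6cx101, QG6cx107, trivial⟩
theorem QG6cx53 : Ref Gd G6cx53 := p1S_ok gd pG6cx53 ⟨QG6cx106, trivial⟩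
theorem QG6cx52 : Ref Gd G6cx52 := p1S_ok gd pG6cx52 ⟨QG6cx104, QG6cx105, trivial⟩
theorem QG6cx51 : Ref Gd G6cx51 := p1S_ok gd pG6cx51 ⟨QG6cx102, trivial⟩
theorem QG6cx50 : Ref Gd G6cx50 := p1S_ok gd pG6cx50 ⟨QG6cx102, QG6cx103, trivial⟩
theorem QG6cx49 : Ref Gd G6cx49 := p1S_ok gd pG6cx49 ⟨QG6cx101, trivial⟩
theorem QG6cx48 : Ref Gd G6cx48 := p1S_ok gd pG6cx48 ⟨QG6cx99, QG6cx100, trivial⟩
theorem QG6cx47 : Ref Gd G6cx47 := p1S_ok gd pG6cx47 ⟨QG6cx98, trivial⟩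
theorem QG6cx46 : Ref Gd G6cx46 := p1S_ok gd pG6cx46 ⟨QG6cx97, trivial⟩
theorem QG6cx45 : Ref Gd G6cx45 := p1S_ok gd pG6cx45 ⟨QG6cx96, QG6cx97, trivial⟩
theorem QG6cx44 : Ref Gd G6cx44 := p1S_ok gd pG6cx44 ⟨QG6cx95, QG6cx93, trivial⟩
theorem QG6cx43 : Ref Gd G6cx43 := p1S_ok gd pG6cx43 ⟨QG6cx95, trivial⟩
theorem QG6cx42 : Ref Gd G6cx42 := p1S_ok gd pG6cx42 ⟨QG6cx93, QG6cx94, trivial⟩
theorem QG6cx41 : Ref Gd G6cx41 := p1S_ok gd pG6cx41 ⟨QG6cx91, QG6cx92, trivial⟩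
theorem QG6cx40 : Ref Gd G6cx40 := p1S_ok gd pG6cx40 ⟨QG6cx88, trivial⟩
theorem QG6cx39 : Ref Gd G6cx39 := p1S_ok gd pG6cx39 ⟨QG6cx89, QG6cx90, trivial⟩
theorem QG6cx38 : Ref Gd G6cx38 := p1S_ok gd pG6cx38 ⟨QG6cx88, QG6cx89, trivial⟩
theorem QG6cx37 : Ref Gd G6cx37 := p1S_ok gd pG6cx37 ⟨QG6cx87, QG6cx88, trivial⟩
theorem QG6cx36 : Ref Gd G6cx36 := p1S_ok gd pG6cx36 ⟨QG6cx86, trivial⟩
theorem QG6cx35 : Ref Gd G6cx35 := p1S_ok gd pG6cx35 ⟨QG6cx85, trivial⟩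
theorem QG6cx34 : Ref Gd G6cx34 := p1S_ok gd pG6cx34 ⟨QG6cx83, QG6cx84, trivial⟩
theorem QG6cx33 : Ref Gd G6cx33 := p1S_ok gd pG6cx33 ⟨QG6cx78, QG6cx51, QG6cx82, trivial⟩
theorem QG6cx32 : Ref Gd G6cx32 := p1S_ok gd pG6cx32 ⟨QG6cx75, QG6cx78, QG6cx79, QG6cx80, QG6cx81, trivial⟩
theorem QG6cx31 : Ref Gd G6cx31 := p1S_ok gd pG6cx31 ⟨QG6cx75, QG6cx50, QG6cx76, QG6cx73, QG6cx77, trivial⟩
theorem QG6cx30 : Ref Gd G6cx30 := p1S_ok gd pG6cx30 ⟨QG6cx74, QG6cx75, QG6cx72, QG6cx60, QG6cx63, trivial⟩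
theorem QG6cx29 : Ref Gd G6cx29 := p1S_ok gd pG6cx29 ⟨QG6cx72, QG6cx73, QG6cx62, trivial⟩
theorem QG6cx28 : Ref Gd G6cx28 := p1S_ok gd pG6cx28 ⟨QG6cx68, QG6cx69, QG6cx70, QG6cx71, trivial⟩
theorem QG6cx27 : Ref Gd G6cx27 := p1S_ok gd pG6cx27 ⟨QG6cx64, QG6cx65, QG6cx66, QG6cx50, QG6cx67, QG6cx57, trivial⟩
theorem QG6cx26 : Ref Gd G6cx26 := p1S_ok gd pG6cx26 ⟨QG6cx60, QG6cx50, QG6cx61, QG6cx62, QG6cx63, trivial⟩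
theorem QG6cx25 : Ref Gd G6cx25 := p1S_ok gd pG6cx25 ⟨QG6cx47, QG6cx57, QG6cx58, QG6cx59, trivial⟩
theorem QG6cx24 : Ref Gd G6cx24 := p1S_ok gd pG6cx24 ⟨QG6cx55, QG6cx56, QG6cx57, QG6cx48, QG6cx49, trivial⟩
theorem QG6cx23 : Ref Gd G6cx23 := p1S_ok gd pG6cx23 ⟨QG6cx52, QG6cx53, QG6cx42, QG6cx49, QG6cx54, trivial⟩
theorem QG6cx22 : Ref Gd G6cx22 := p1S_ok gd pG6cx22 ⟨QG6cx46, QG6cx48, QG6cx49, QG6cx43, QG6cx50, QG6cx51, trivial⟩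
theorem QG6cx21 : Ref Gd G6cx21 := p1S_ok gd pG6cx21 ⟨QG6cx45, QG6cx46, QG6cx44, QG6cx47, trivial⟩
theorem QG6cx20 : Ref Gd G6cx20 := p1S_ok gd pG6cx20 ⟨QG6cx36, QG6cx38, QG6cx41, QG6cx42, QG6cx43, QG6cx44, trivial⟩
theorem QG6cx19 : Ref Gd G6cx19 := p1S_ok gd pG6cx19 ⟨QG6cx35, QG6cx37, QG6cx38, QG6cx39, QG6cx40, trivial⟩
theorem QG6cx18 : Ref Gd G6cx18 := p1S_ok gd pG6cx18 ⟨QG6cx34, QG6cx35, QG6cx36, trivial⟩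
theorem QG6cx17 : Ref Gd G6cx17 := p1S_ok gd pG6cx17 ⟨QG6cx29, QG6cx27, QG6cx22, QG6cx32, QG6cx24, QG6cx20, QG6cx31, QG6cx33, trivial⟩
theorem QG6cx16 : Ref Gd G6cx16 := p1S_ok gd pG6cx16 ⟨QG6cx28, QG6cx29, QG6cx30, QG6cx31, QG6cx26, trivial⟩
theorem QG6cx15 : Ref Gd G6cx15 := p1S_ok gd pG6cx15 ⟨QG6cx21, QG6cx22, QG6cx23, QG6cx24, QG6cx20, QG6cx25, QG6cx26, QG6cx27, trivial⟩
theorem QG6cx14 : Ref Gd G6cx14 := p1S_ok gd pG6cx14 ⟨QG6cx18, QG6cx19, QG6cx20, trivial⟩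
theorem QG6cx13 : Ref Gd G6cx13 := p1S_ok gd pG6cx13 ⟨QG6cx14, QG6cx15, QG6cx16, QG6cx17, trivial⟩
theorem QG6cx12 : Ref Gd G6cx12 := p1S_ok gd pG6cx12 ⟨QG6cx13, trivial⟩
theorem QG6cx11 : Ref Gd G6cx11 := p1S_ok gd pG6cx11 ⟨QG6cx12, trivial⟩
theorem QG6cx10 : Ref Gd G6cx10 := p1S_ok gd pG6cx10 ⟨QG6cx11, trivial⟩
theorem QG6cx9 : Ref Gd G6cx9 := p1S_ok gd pG6cx9 ⟨QG6cx10, trivial⟩
theorem QG6cx8 : Ref Gd G6cx8 := p1S_ok gd pG6cx8 ⟨QG6cx9, trivial⟩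
theorem QG6cx7 : Ref Gd G6cx7 := p1S_ok gd pG6cx7 ⟨QG6cx8, trivial⟩
theorem QG6cx6 : Ref Gd G6cx6 := p1S_ok gd pG6cx6 ⟨QG6cx7, trivial⟩
theorem QG6cx5 : Ref Gd G6cx5 := p1S_ok gd pG6cx5 ⟨QG6cx6, trivial⟩
theorem QG6cx4 : Ref Gd G6cx4 := p1S_ok gd pG6cx4 ⟨QG6cx5, trivial⟩
theorem QG6cx3 : Ref Gd G6cx3 := p1S_ok gd pG6cx3 ⟨QG6cx4, trivial⟩
theorem QG6cx2 : Ref Gd G6cx2 := p1S_ok gd pG6cx2 ⟨QG6cx3, trivial⟩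
theorem QG6cx1 : Ref Gd G6cx1 := p1S_ok gd pG6cx1 ⟨QG6cx2, trivial⟩
theorem QG6cx0 : Ref Gd G6cx0 := p1S_ok gd pG6cx0 ⟨QG6cx1, trivial⟩

theorem main (α : Type) [DecidableEq α] (G : Finset α) (N : ℕ → Finset α → Prop)
    (hG : G.card = 36) (hN : Hyp sp6c G N) : ∃ f : α → ℕ, Set.InjOn f G ∧ G.image f = range 36 ∧
      (SubC fr0 (mapN f N) ∨ SubC fr1 (mapN f N) ∨ SubC fr2 (mapN f N)) := by
  by_contra hc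
  obtain ⟨f, h1, h2⟩ := exists_label G
  rw [hG] at h2
  have h3 := hN.map h1
  rw [h2] at h3
  refine QG6cx0 (mapN f N) ⟨h3, fun g h4 h5 h6 => hc ⟨g ∘ f, h4.comp h1 fun a ha => ?_, ?_, ?_⟩⟩ ?_
  · have : f a ∈ G.image f := mem_image_of_mem f ha
    rwa [h2] at this
  · rw [← image_image, h2, h5]
  · rwa [mapN_mapN] at h6
  · intro e he
    exact absurd he List.not_mem_nil

end Pool.Agent.P.MP_9e9aa3_co.A6c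

namespace Pool.Agent.P.MP_9e9aa3_co.A6t

open Finset E

def Gd : Fam → Prop := Hyp sp6t (range sp6t.n)

theorem gd : GoodD sp6t 0 Gd := good_std _ _

theorem gx : ∀ N, Gd N → ∀ i m, N i (dec m) → ex1 i m ≠ 0 := gx_std Gd

theorem XG6tx0 : Ctx sp6t Gd TG6tx0 := tab_ctx gd tsG6tx0 rfl
theorem RG6tx0_0 : Rf Gd TG6tx0 FG6tx0_0 CG6tx0_0 := run_ok XG6tx0 rG6tx0_0 trivial
theorem QG6tx0 : Ref Gd G6tx0 := tab_ref XG6tx0 gx tsG6tx0 (al := [3]) ⟨tcG6tx0_3, trivial⟩ (by decide +kernel) RG6tx0_0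

theorem main (N : Fam) (h : Hyp sp6t (range 36) N) (h2 : SubC fr1 N) : False := QG6tx0 N h h2

end Pool.Agent.P.MP_9e9aa3_co.A6t

namespace Pool.Agent.P.MP_9e9aa3_co.A6l

open Finset E

def Gd : Fam → Prop := fun N => Hyp sp6l (range sp6l.n) N ∧ ∀ m, N 7 (dec m) → m ∉ lam

theorem gd : GoodD sp6l 0 Gd := ⟨fun _ h => h.1, fun h => absurd rfl h⟩

theorem gx : ∀ N, Gd N → ∀ i m, N i (dec m) → exOut 7 lam i m ≠ 0 := by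
  intro N hN i m h
  unfold exOut
  rw [ceq_eq, cz_eq]
  split_ifs with h1 h2
  · exact one_ne_zero
  · exact absurd ((memL_ok _ _).1 h2) (hN.2 m (h1 ▸ h))
  · exact one_ne_zero

theorem XG6lx25 : Ctx sp6l Gd TG6lx25 := tab_ctx gd tsG6lx25 rfl
theorem RG6lx25_0 : Rf Gd TG6lx25 FG6lx25_0 CG6lx25_0 := run_ok XG6lx25 rG6lx25_0 trivial
theorem QG6lx25 : Ref Gd G6lx25 := tab_ref XG6lx25 gx tsG6lx25 (al := [6,7,8]) ⟨tcG6lx25_6, tcG6lx25_7, tcG6lx25_8, trivial⟩ (by decide +kernel) RG6lx25_0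
theorem XG6lx26 : Ctx sp6l Gd TG6lx26 := tab_ctx gd tsG6lx26 rfl
theorem RG6lx26_0 : Rf Gd TG6lx26 FG6lx26_0 CG6lx26_0 := run_ok XG6lx26 rG6lx26_0 trivial
theorem QG6lx26 : Ref Gd G6lx26 := tab_ref XG6lx26 gx tsG6lx26 (al := [6,7,8]) ⟨tcG6lx26_6, tcG6lx26_7, tcG6lx26_8, trivial⟩ (by decide +kernel) RG6lx26_0
theorem XG6lx27 : Ctx sp6l Gd TG6lx27 := tab_ctx gd tsG6lx27 rfl
theorem RG6lx27_0 : Rf Gd TG6lx27 FG6lx27_0 CG6lx27_0 := run_ok XG6lx27 rG6lx27_0 trivial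
theorem QG6lx27 : Ref Gd G6lx27 := tab_ref XG6lx27 gx tsG6lx27 (al := [6,7,8]) ⟨tcG6lx27_6, tcG6lx27_7, tcG6lx27_8, trivial⟩ (by decide +kernel) RG6lx27_0
theorem XG6lx28 : Ctx sp6l Gd TG6lx28 := tab_ctx gd tsG6lx28 rfl
theorem RG6lx28_0 : Rf Gd TG6lx28 FG6lx28_0 CG6lx28_0 := run_ok XG6lx28 rG6lx28_0 trivial
theorem QG6lx28 : Ref Gd G6lx28 := tab_ref XG6lx28 gx tsG6lx28 (al := [6,7,8]) ⟨tcG6lx28_6, tcG6lx28_7, tcG6lx28_8, trivial⟩ (by decide +kernel) RG6lx28_0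
theorem XG6lx29 : Ctx sp6l Gd TG6lx29 := tab_ctx gd tsG6lx29 rfl
theorem RG6lx29_0 : Rf Gd TG6lx29 FG6lx29_0 CG6lx29_0 := run_ok XG6lx29 rG6lx29_0 trivial
theorem QG6lx29 : Ref Gd G6lx29 := tab_ref XG6lx29 gx tsG6lx29 (al := [6,7,8]) ⟨tcG6lx29_6, tcG6lx29_7, tcG6lx29_8, trivial⟩ (by decide +kernel) RG6lx29_0
theorem XG6lx30 : Ctx sp6l Gd TG6lx30 := tab_ctx gd tsG6lx30 rfl
theorem RG6lx30_0 : Rf Gd TG6lx30 FG6lx30_0 CG6lx30_0 := run_ok XG6lx30 rG6lx30_0 trivial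
theorem QG6lx30 : Ref Gd G6lx30 := tab_ref XG6lx30 gx tsG6lx30 (al := [6,7,8]) ⟨tcG6lx30_6, tcG6lx30_7, tcG6lx30_8, trivial⟩ (by decide +kernel) RG6lx30_0
theorem XG6lx31 : Ctx sp6l Gd TG6lx31 := tab_ctx gd tsG6lx31 rfl
theorem RG6lx31_0 : Rf Gd TG6lx31 FG6lx31_0 CG6lx31_0 := run_ok XG6lx31 rG6lx31_0 trivial
theorem QG6lx31 : Ref Gd G6lx31 := tab_ref XG6lx31 gx tsG6lx31 (al := [6,7,8]) ⟨tcG6lx31_6, tcG6lx31_7, tcG6lx31_8, trivial⟩ (by decide +kernel) RG6lx31_0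
theorem XG6lx32 : Ctx sp6l Gd TG6lx32 := tab_ctx gd tsG6lx32 rfl
theorem RG6lx32_0 : Rf Gd TG6lx32 FG6lx32_0 CG6lx32_0 := run_ok XG6lx32 rG6lx32_0 trivial
theorem QG6lx32 : Ref Gd G6lx32 := tab_ref XG6lx32 gx tsG6lx32 (al := [6,7,8]) ⟨tcG6lx32_6, tcG6lx32_7, tcG6lx32_8, trivial⟩ (by decide +kernel) RG6lx32_0
theorem XG6lx33 : Ctx sp6l Gd TG6lx33 := tab_ctx gd tsG6lx33 rfl
theorem RG6lx33_0 : Rf Gd TG6lx33 FG6lx33_0 CG6lx33_0 := run_ok XG6lx33 rG6lx33_0 trivial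
theorem QG6lx33 : Ref Gd G6lx33 := tab_ref XG6lx33 gx tsG6lx33 (al := [6,7,8]) ⟨tcG6lx33_6, tcG6lx33_7, tcG6lx33_8, trivial⟩ (by decide +kernel) RG6lx33_0
theorem XG6lx34 : Ctx sp6l Gd TG6lx34 := tab_ctx gd tsG6lx34 rfl
theorem RG6lx34_0 : Rf Gd TG6lx34 FG6lx34_0 CG6lx34_0 := run_ok XG6lx34 rG6lx34_0 trivial
theorem QG6lx34 : Ref Gd G6lx34 := tab_ref XG6lx34 gx tsG6lx34 (al := [6,7,8]) ⟨tcG6lx34_6, tcG6lx34_7, tcG6lx34_8, trivial⟩ (by decide +kernel) RG6lx34_0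
theorem XG6lx35 : Ctx sp6l Gd TG6lx35 := tab_ctx gd tsG6lx35 rfl
theorem RG6lx35_0 : Rf Gd TG6lx35 FG6lx35_0 CG6lx35_0 := run_ok XG6lx35 rG6lx35_0 trivial
theorem QG6lx35 : Ref Gd G6lx35 := tab_ref XG6lx35 gx tsG6lx35 (al := [6,7,8]) ⟨tcG6lx35_6, tcG6lx35_7, tcG6lx35_8, trivial⟩ (by decide +kernel) RG6lx35_0
theorem XG6lx36 : Ctx sp6l Gd TG6lx36 := tab_ctx gd tsG6lx36 rfl
theorem RG6lx36_0 : Rf Gd TG6lx36 FG6lx36_0 CG6lx36_0 := run_ok XG6lx36 rG6lx36_0 trivial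
theorem QG6lx36 : Ref Gd G6lx36 := tab_ref XG6lx36 gx tsG6lx36 (al := [6,7,8]) ⟨tcG6lx36_6, tcG6lx36_7, tcG6lx36_8, trivial⟩ (by decide +kernel) RG6lx36_0
theorem XG6lx37 : Ctx sp6l Gd TG6lx37 := tab_ctx gd tsG6lx37 rfl
theorem RG6lx37_0 : Rf Gd TG6lx37 FG6lx37_0 CG6lx37_0 := run_ok XG6lx37 rG6lx37_0 trivial
theorem QG6lx37 : Ref Gd G6lx37 := tab_ref XG6lx37 gx tsG6lx37 (al := [6,7,8]) ⟨tcG6lx37_6, tcG6lx37_7, tcG6lx37_8, trivial⟩ (by decide +kernel) RG6lx37_0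
theorem XG6lx38 : Ctx sp6l Gd TG6lx38 := tab_ctx gd tsG6lx38 rfl
theorem RG6lx38_0 : Rf Gd TG6lx38 FG6lx38_0 CG6lx38_0 := run_ok XG6lx38 rG6lx38_0 trivial
theorem QG6lx38 : Ref Gd G6lx38 := tab_ref XG6lx38 gx tsG6lx38 (al := [6,7,8]) ⟨tcG6lx38_6, tcG6lx38_7, tcG6lx38_8, trivial⟩ (by decide +kernel) RG6lx38_0
theorem XG6lx39 : Ctx sp6l Gd TG6lx39 := tab_ctx gd tsG6lx39 rfl
theorem RG6lx39_0 : Rf Gd TG6lx39 FG6lx39_0 CG6lx39_0 := run_ok XG6lx39 rG6lx39_0 trivial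
theorem QG6lx39 : Ref Gd G6lx39 := tab_ref XG6lx39 gx tsG6lx39 (al := [6,7,8]) ⟨tcG6lx39_6, tcG6lx39_7, tcG6lx39_8, trivial⟩ (by decide +kernel) RG6lx39_0
theorem XG6lx40 : Ctx sp6l Gd TG6lx40 := tab_ctx gd tsG6lx40 rfl
theorem RG6lx40_0 : Rf Gd TG6lx40 FG6lx40_0 CG6lx40_0 := run_ok XG6lx40 rG6lx40_0 trivial
theorem QG6lx40 : Ref Gd G6lx40 := tab_ref XG6lx40 gx tsG6lx40 (al := [6,7,8]) ⟨tcG6lx40_6, tcG6lx40_7, tcG6lx40_8, trivial⟩ (by decide +kernel) RG6lx40_0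
theorem XG6lx41 : Ctx sp6l Gd TG6lx41 := tab_ctx gd tsG6lx41 rfl
theorem RG6lx41_0 : Rf Gd TG6lx41 FG6lx41_0 CG6lx41_0 := run_ok XG6lx41 rG6lx41_0 trivial
theorem QG6lx41 : Ref Gd G6lx41 := tab_ref XG6lx41 gx tsG6lx41 (al := [6,7,8]) ⟨tcG6lx41_6, tcG6lx41_7, tcG6lx41_8, trivial⟩ (by decide +kernel) RG6lx41_0
theorem XG6lx42 : Ctx sp6l Gd TG6lx42 := tab_ctx gd tsG6lx42 rfl
theorem RG6lx42_0 : Rf Gd TG6lx42 FG6lx42_0 CG6lx42_0 := run_ok XG6lx42 rG6lx42_0 trivial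
theorem QG6lx42 : Ref Gd G6lx42 := tab_ref XG6lx42 gx tsG6lx42 (al := [6,7,8]) ⟨tcG6lx42_6, tcG6lx42_7, tcG6lx42_8, trivial⟩ (by decide +kernel) RG6lx42_0
theorem XG6lx43 : Ctx sp6l Gd TG6lx43 := tab_ctx gd tsG6lx43 rfl
theorem RG6lx43_0 : Rf Gd TG6lx43 FG6lx43_0 CG6lx43_0 := run_ok XG6lx43 rG6lx43_0 trivial
theorem QG6lx43 : Ref Gd G6lx43 := tab_ref XG6lx43 gx tsG6lx43 (al := [6,7,8]) ⟨tcG6lx43_6, tcG6lx43_7, tcG6lx43_8, trivial⟩ (by decide +kernel) RG6lx43_0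
theorem XG6lx44 : Ctx sp6l Gd TG6lx44 := tab_ctx gd tsG6lx44 rfl
theorem RG6lx44_0 : Rf Gd TG6lx44 FG6lx44_0 CG6lx44_0 := run_ok XG6lx44 rG6lx44_0 trivial
theorem QG6lx44 : Ref Gd G6lx44 := tab_ref XG6lx44 gx tsG6lx44 (al := [6,7,8]) ⟨tcG6lx44_6, tcG6lx44_7, tcG6lx44_8, trivial⟩ (by decide +kernel) RG6lx44_0
theorem XG6lx45 : Ctx sp6l Gd TG6lx45 := tab_ctx gd tsG6lx45 rfl
theorem RG6lx45_0 : Rf Gd TG6lx45 FG6lx45_0 CG6lx45_0 := run_ok XG6lx45 rG6lx45_0 trivial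
theorem QG6lx45 : Ref Gd G6lx45 := tab_ref XG6lx45 gx tsG6lx45 (al := [6,7,8]) ⟨tcG6lx45_6, tcG6lx45_7, tcG6lx45_8, trivial⟩ (by decide +kernel) RG6lx45_0
theorem XG6lx46 : Ctx sp6l Gd TG6lx46 := tab_ctx gd tsG6lx46 rfl
theorem RG6lx46_0 : Rf Gd TG6lx46 FG6lx46_0 CG6lx46_0 := run_ok XG6lx46 rG6lx46_0 trivial
theorem QG6lx46 : Ref Gd G6lx46 := tab_ref XG6lx46 gx tsG6lx46 (al := [6,7,8]) ⟨tcG6lx46_6, tcG6lx46_7, tcG6lx46_8, trivial⟩ (by decide +kernel) RG6lx46_0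
theorem XG6lx47 : Ctx sp6l Gd TG6lx47 := tab_ctx gd tsG6lx47 rfl
theorem RG6lx47_0 : Rf Gd TG6lx47 FG6lx47_0 CG6lx47_0 := run_ok XG6lx47 rG6lx47_0 trivial
theorem QG6lx47 : Ref Gd G6lx47 := tab_ref XG6lx47 gx tsG6lx47 (al := [6,7,8]) ⟨tcG6lx47_6, tcG6lx47_7, tcG6lx47_8, trivial⟩ (by decide +kernel) RG6lx47_0
theorem XG6lx48 : Ctx sp6l Gd TG6lx48 := tab_ctx gd tsG6lx48 rfl
theorem RG6lx48_0 : Rf Gd TG6lx48 FG6lx48_0 CG6lx48_0 := run_ok XG6lx48 rG6lx48_0 trivial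
theorem QG6lx48 : Ref Gd G6lx48 := tab_ref XG6lx48 gx tsG6lx48 (al := [6,7,8]) ⟨tcG6lx48_6, tcG6lx48_7, tcG6lx48_8, trivial⟩ (by decide +kernel) RG6lx48_0
theorem QG6lx24 : Ref Gd G6lx24 := p1N_ok gd pG6lx24 ⟨QG6lx48, trivial⟩
theorem QG6lx23 : Ref Gd G6lx23 := p1N_ok gd pG6lx23 ⟨QG6lx47, trivial⟩
theorem QG6lx22 : Ref Gd G6lx22 := p1N_ok gd pG6lx22 ⟨QG6lx46, trivial⟩
theorem QG6lx21 : Ref Gd G6lx21 := p1N_ok gd pG6lx21 ⟨QG6lx45, trivial⟩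
theorem QG6lx20 : Ref Gd G6lx20 := p1N_ok gd pG6lx20 ⟨QG6lx44, trivial⟩
theorem QG6lx19 : Ref Gd G6lx19 := p1N_ok gd pG6lx19 ⟨QG6lx43, trivial⟩
theorem QG6lx18 : Ref Gd G6lx18 := p1N_ok gd pG6lx18 ⟨QG6lx42, trivial⟩
theorem QG6lx17 : Ref Gd G6lx17 := p1N_ok gd pG6lx17 ⟨QG6lx41, trivial⟩
theorem QG6lx16 : Ref Gd G6lx16 := p1N_ok gd pG6lx16 ⟨QG6lx40, trivial⟩
theorem QG6lx15 : Ref Gd G6lx15 := p1N_ok gd pG6lx15 ⟨QG6lx39, trivial⟩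
theorem QG6lx14 : Ref Gd G6lx14 := p1N_ok gd pG6lx14 ⟨QG6lx38, trivial⟩
theorem QG6lx13 : Ref Gd G6lx13 := p1N_ok gd pG6lx13 ⟨QG6lx37, trivial⟩
theorem QG6lx12 : Ref Gd G6lx12 := p1N_ok gd pG6lx12 ⟨QG6lx36, trivial⟩
theorem QG6lx11 : Ref Gd G6lx11 := p1N_ok gd pG6lx11 ⟨QG6lx35, trivial⟩
theorem QG6lx10 : Ref Gd G6lx10 := p1N_ok gd pG6lx10 ⟨QG6lx34, trivial⟩
theorem QG6lx9 : Ref Gd G6lx9 := p1N_ok gd pG6lx9 ⟨QG6lx33, trivial⟩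
theorem QG6lx8 : Ref Gd G6lx8 := p1N_ok gd pG6lx8 ⟨QG6lx32, trivial⟩
theorem QG6lx7 : Ref Gd G6lx7 := p1N_ok gd pG6lx7 ⟨QG6lx31, trivial⟩
theorem QG6lx6 : Ref Gd G6lx6 := p1N_ok gd pG6lx6 ⟨QG6lx30, trivial⟩
theorem QG6lx5 : Ref Gd G6lx5 := p1N_ok gd pG6lx5 ⟨QG6lx29, trivial⟩
theorem QG6lx4 : Ref Gd G6lx4 := p1N_ok gd pG6lx4 ⟨QG6lx28, trivial⟩
theorem QG6lx3 : Ref Gd G6lx3 := p1N_ok gd pG6lx3 ⟨QG6lx27, trivial⟩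
theorem QG6lx2 : Ref Gd G6lx2 := p1N_ok gd pG6lx2 ⟨QG6lx26, trivial⟩
theorem QG6lx1 : Ref Gd G6lx1 := p1N_ok gd pG6lx1 ⟨QG6lx25, trivial⟩
theorem QG6lx0 : Ref Gd G6lx0 := p1N_ok gd pG6lx0 ⟨QG6lx1, QG6lx2, QG6lx3, QG6lx4, QG6lx5, QG6lx6, QG6lx7, QG6lx8, QG6lx9, QG6lx10, QG6lx11, QG6lx12, QG6lx13, QG6lx14, QG6lx15, QG6lx16, QG6lx17, QG6lx18, QG6lx19, QG6lx20, QG6lx21, QG6lx22, QG6lx23, QG6lx24, trivial⟩

theorem main (N : Fam) (h : Hyp sp6l (range 36) N) (h2 : SubC (fr1 ++ [(5, 1090785345)]) N)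
    (h3 : ∀ m, N 7 (dec m) → m ∉ lam) : False := QG6lx0 N ⟨h, h3⟩ h2

end Pool.Agent.P.MP_9e9aa3_co.A6l

namespace Pool.Agent.P.MP_9e9aa3_co.A6b

open Finset E

def Gd : Fam → Prop := fun N => Hyp sp6b (range sp6b.n) N ∧ ∀ m, N 2 (dec m) → m ∈ lam

theorem gd : GoodD sp6b 0 Gd := ⟨fun _ h => h.1, fun h => absurd rfl h⟩

theorem gx : ∀ N, Gd N → ∀ i m, N i (dec m) → exIn 2 lam i m ≠ 0 := by
  intro N hN i m h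
  unfold exIn
  rw [ceq_eq]
  split_ifs with h1
  · exact (memL_ok _ _).2 (hN.2 m (h1 ▸ h))
  · exact one_ne_zero

theorem XG6bx0 : Ctx sp6b Gd TG6bx0 := tab_ctx gd tsG6bx0 rfl
theorem RG6bx0_0 : Rf Gd TG6bx0 FG6bx0_0 CG6bx0_0 := run_ok XG6bx0 rG6bx0_0 trivial
theorem QG6bx0 : Ref Gd G6bx0 := tab_ref XG6bx0 gx tsG6bx0 (al := [2,3]) ⟨tcG6bx0_2, tcG6bx0_3, trivial⟩ (by decide +kernel) RG6bx0_0

theorem main (N : Fam) (h : Hyp sp6b (range 36) N) (h2 : SubC frb N)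
    (h3 : ∀ m, N 2 (dec m) → m ∈ lam) : False := QG6bx0 N ⟨h, h3⟩ h2

end Pool.Agent.P.MP_9e9aa3_co.A6b

namespace Pool.Agent.P.MP_9e9aa3_co

theorem facts : Facts :=
  ⟨A1.main, A222x.main, A2211.main, A2210.main, A2111.main, A3.main, A4a.main, A4b.main, A5.main,
    A6c.main, A6t.main, A6l.main, A6b.main⟩

end Pool.Agent.P.MP_9e9aa3_co
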