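import Mathlib

set_option autoImplicit false

namespace Pool.Agent.P.MP_9e9aa3_co

/-- There is no fractional five-dimensional MDS structure of order six: a finite point set `V`,
five families of subsets with positive weights of total mass six that cover every point exactly
once fractionally, any three members of three different families meeting in exactly one point. -/
def NoFrac5 : Prop :=
  ∀ (V : Type) [Fintype V] [DecidableEq V] (H : Fin 5 → Finset (Finset V))
    (w : Fin 5 → Finset V → ℝ),
    (∀ a A, A ∈ H a → 0 < w a A) →
    (∀ a, ∑ A ∈ H a, w a A = 6) →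
    (∀ a s, ∑ A ∈ (H a).filter (fun A => s ∈ A), w a A = 1) →
    (∀ a b c, a ≠ b → a ≠ c → b ≠ c →
      ∀ A ∈ H a, ∀ B ∈ H b, ∀ C ∈ H c, (A ∩ B ∩ C).card = 1) →
    False

end Pool.Agent.P.MP_9e9aa3_co
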