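import Pool.Agent.P.MP_9e9aa3_co.Net
import Pool.Agent.P.MP_9e9aa3_co.Frac5

set_option autoImplicit false

namespace Pool.Agent.P.MP_9e9aa3_co

open Finset E

namespace Five

variable {V : Type} [DecidableEq V]

/-- five weighted families of planes, three planes of different families meeting in one point -/
structure Sys (H : Fin 5 → Finset (Finset V)) : Prop where
  cls : ∀ a, ∃ w : Finset V → ℝ, (∀ A ∈ H a, 0 < w A) ∧ ∑ A ∈ H a, w A = 6 ∧
    ∀ s, ∑ A ∈ (H a).filter (fun A => s ∈ A), w A = 1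
  tri : ∀ a b c, a ≠ b → a ≠ c → b ≠ c →
    ∀ A ∈ H a, ∀ B ∈ H b, ∀ C ∈ H c, (A ∩ B ∩ C).card = 1

/-- five pairwise different indices -/
structure D5 (a b c d e : Fin 5) : Prop where
  ab : a ≠ b
  ac : a ≠ c
  ad : a ≠ d
  ae : a ≠ e
  bc : b ≠ c
  bd : b ≠ d
  be : b ≠ e
  cd : c ≠ d
  ce : c ≠ e
  de : d ≠ e

variable {a b c d e f g k l : Fin 5}

theorem D5.s01 (h : D5 a b c d e) : D5 b a c d e :=
  ⟨h.ab.symm, h.bc, h.bd, h.be, h.ac, h.ad, h.ae, h.cd, h.ce, h.de⟩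

theorem D5.s12 (h : D5 a b c d e) : D5 a c b d e :=
  ⟨h.ac, h.ab, h.ad, h.ae, h.bc.symm, h.cd, h.ce, h.bd, h.be, h.de⟩

theorem D5.s23 (h : D5 a b c d e) : D5 a b d c e :=
  ⟨h.ab, h.ad, h.ac, h.ae, h.bd, h.bc, h.be, h.cd.symm, h.de, h.ce⟩

theorem D5.s34 (h : D5 a b c d e) : D5 a b c e d :=
  ⟨h.ab, h.ac, h.ae, h.ad, h.bc, h.be, h.bd, h.ce, h.cd, h.de.symm⟩

theorem ex5 : ∀ a b c d : Fin 5, ∃ e, e ≠ a ∧ e ≠ b ∧ e ≠ c ∧ e ≠ d := by decide

theorem ex4 (hab : a ≠ b) (hac : a ≠ c) (had : a ≠ d) (hbc : b ≠ c) (hbd : b ≠ d)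
    (hcd : c ≠ d) : ∃ e, D5 a b c d e := by
  obtain ⟨e, h1, h2, h3, h4⟩ := ex5 a b c d
  exact ⟨e, hab, hac, had, h1.symm, hbc, hbd, h2.symm, hcd, h3.symm, h4.symm⟩

theorem ex3 (hab : a ≠ b) (hac : a ≠ c) (hbc : b ≠ c) : ∃ d e, D5 a b c d e := by
  obtain ⟨d, h1, h2, h3, -⟩ := ex5 a b c c
  obtain ⟨e, h⟩ := ex4 hab hac h1.symm hbc h2.symm h3.symm
  exact ⟨d, e, h⟩

theorem ex2 (hab : a ≠ b) : ∃ c d e, D5 a b c d e := by
  obtain ⟨c, h1, h2, -, -⟩ := ex5 a b b b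
  obtain ⟨d, e, h⟩ := ex3 hab h1.symm h2.symm
  exact ⟨c, d, e, h⟩

theorem ex1 (a : Fin 5) : ∃ b c d e, D5 a b c d e := by
  obtain ⟨b, h1, -, -, -⟩ := ex5 a a a a
  obtain ⟨c, d, e, h⟩ := ex2 h1.symm
  exact ⟨b, c, d, e, h⟩

variable {H : Fin 5 → Finset (Finset V)}

theorem Sys.cover (h : Sys H) (a : Fin 5) (s : V) : ∃ A ∈ H a, s ∈ A := by
  obtain ⟨w, -, -, h3⟩ := h.cls a
  by_contra hc
  push Not at hc
  have := h3 s
  rw [filter_false_of_mem hc] at this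
  simp at this

theorem Sys.ne (h : Sys H) (a : Fin 5) : ∃ A, A ∈ H a := by
  obtain ⟨w, -, h2, -⟩ := h.cls a
  by_contra hc
  push Not at hc
  rw [eq_empty_of_forall_notMem hc] at h2
  simp at h2

theorem Sys.pt (h : Sys H) (hab : a ≠ b) (hac : a ≠ c) (hbc : b ≠ c) {A B C : Finset V}
    (hA : A ∈ H a) (hB : B ∈ H b) (hC : C ∈ H c) : ∃ p, p ∈ A ∧ p ∈ B ∧ p ∈ C := by
  obtain ⟨p, hp⟩ := card_pos.1
    (by rw [h.tri a b c hab hac hbc A hA B hB C hC]; norm_num : 0 < (A ∩ B ∩ C).card)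
  simp only [mem_inter] at hp
  exact ⟨p, hp.1.1, hp.1.2, hp.2⟩

theorem Sys.uq (h : Sys H) (hab : a ≠ b) (hac : a ≠ c) (hbc : b ≠ c) {A B C : Finset V}
    (hA : A ∈ H a) (hB : B ∈ H b) (hC : C ∈ H c) {p q : V} (p1 : p ∈ A) (p2 : p ∈ B) (p3 : p ∈ C)
    (q1 : q ∈ A) (q2 : q ∈ B) (q3 : q ∈ C) : p = q :=
  card_le_one.1 (h.tri a b c hab hac hbc A hA B hB C hC).le p
    (mem_inter.2 ⟨mem_inter.2 ⟨p1, p2⟩, p3⟩) q (mem_inter.2 ⟨mem_inter.2 ⟨q1, q2⟩, q3⟩)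

/-- traces of a family on a plane -/
def tr (X : Finset (Finset V)) (p : Finset V) : Finset (Finset V) := X.image (fun A => A ∩ p)

/-- traces of a family on a plane, transported by a map of points -/
def pr (π : V → V) (X : Finset (Finset V)) (p : Finset V) : Finset (Finset V) :=
  X.image (fun A => (A ∩ p).image π)

theorem pr_id (X : Finset (Finset V)) (p : Finset V) : pr id X p = tr X p := by
  simp [pr, tr]

theorem mem_tr {X : Finset (Finset V)} {p A : Finset V} (hA : A ∈ X) : A ∩ p ∈ tr X p :=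
  mem_image_of_mem (fun A => A ∩ p) hA

theorem mem_pr {π : V → V} {X : Finset (Finset V)} {p A : Finset V} (hA : A ∈ X) :
    (A ∩ p).image π ∈ pr π X p :=
  mem_image_of_mem (fun A => (A ∩ p).image π) hA

theorem Sys.cls_pr (h : Sys H) (a : Fin 5) (π : V → V) (p : Finset V)
    (hπ : Set.InjOn π p) : IsCls (p.image π) (pr π (H a) p) := by
  obtain ⟨w, h1, h2, h3⟩ := h.cls a
  refine ⟨fun B => ∑ A ∈ (H a).filter (fun A => (A ∩ p).image π = B), w A, ?_, ?_, ?_, ?_⟩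
  · intro B hB
    obtain ⟨A, -, rfl⟩ := mem_image.1 hB
    exact image_subset_image inter_subset_right
  · intro B hB
    obtain ⟨A, hA, rfl⟩ := mem_image.1 hB
    exact sum_pos (fun C hC => h1 C (mem_filter.1 hC).1) ⟨A, mem_filter.2 ⟨hA, rfl⟩⟩
  · rw [← h2]
    exact sum_fiberwise_of_maps_to (fun A hA => mem_pr hA) w
  · intro s hs
    obtain ⟨v, hv, rfl⟩ := mem_image.1 hs
    rw [← h3 v]
    have hiff : ∀ A : Finset V, π v ∈ (A ∩ p).image π ↔ v ∈ A := by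
      intro A
      constructor
      · intro hm
        obtain ⟨u, hu, hu'⟩ := mem_image.1 hm
        have : u = v := hπ (mem_coe.2 (mem_inter.1 hu).2) (mem_coe.2 hv) hu'
        exact this ▸ (mem_inter.1 hu).1
      · intro hm
        exact mem_image_of_mem π (mem_inter.2 ⟨hm, hv⟩)
    rw [← sum_fiberwise_of_maps_to (s := (H a).filter (fun A => v ∈ A))
      (t := (pr π (H a) p).filter (fun B => π v ∈ B)) (g := fun A => (A ∩ p).image π)
      (fun A hA => mem_filter.2 ⟨mem_pr (mem_filter.1 hA).1, (hiff A).2 (mem_filter.1 hA).2⟩) w]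
    refine sum_congr rfl fun B hB => sum_congr ?_ fun _ _ => rfl
    ext A
    simp only [mem_filter]
    constructor
    · rintro ⟨hA, rfl⟩
      exact ⟨⟨hA, (hiff A).1 (mem_filter.1 hB).2⟩, rfl⟩
    · rintro ⟨⟨hA, -⟩, h'⟩
      exact ⟨hA, h'⟩

theorem image_inter_pr {π : V → V} {p : Finset V} (hπ : Set.InjOn π p) (A B : Finset V) :
    (A ∩ p).image π ∩ (B ∩ p).image π = (A ∩ B ∩ p).image π := by
  ext s
  simp only [mem_inter, mem_image]
  constructor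
  · rintro ⟨⟨u, ⟨h1, h2⟩, rfl⟩, v, ⟨h3, h4⟩, h5⟩
    have : v = u := hπ (mem_coe.2 h4) (mem_coe.2 h2) h5
    exact ⟨u, ⟨⟨h1, this ▸ h3⟩, h2⟩, rfl⟩
  · rintro ⟨u, ⟨⟨h1, h2⟩, h3⟩, rfl⟩
    exact ⟨⟨u, ⟨h1, h3⟩, rfl⟩, u, ⟨h2, h3⟩, rfl⟩

theorem Sys.cross_pr (h : Sys H) (hab : a ≠ b) (hal : a ≠ l) (hbl : b ≠ l) {π : V → V}
    {p : Finset V} (hp : p ∈ H l) (hπ : Set.InjOn π p) :
    Cross (pr π (H a) p) (pr π (H b) p) := by
  intro x hx y hy
  obtain ⟨A, hA, rfl⟩ := mem_image.1 hx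
  obtain ⟨B, hB, rfl⟩ := mem_image.1 hy
  rw [image_inter_pr hπ, card_image_of_injOn (hπ.mono (coe_subset.2 inter_subset_right))]
  exact h.tri a b l hab hal hbl A hA B hB p hp

theorem Sys.net_pr (h : Sys H) (hD : D5 a b c d l) {π : V → V} {p : Finset V} (hp : p ∈ H l)
    (hπ : Set.InjOn π p) :
    Net (p.image π) (pr π (H a) p) (pr π (H b) p) (pr π (H c) p) (pr π (H d) p) :=
  ⟨h.cls_pr a π p hπ, h.cls_pr b π p hπ, h.cls_pr c π p hπ, h.cls_pr d π p hπ,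
    h.cross_pr hD.ab hD.ae hD.be hp hπ, h.cross_pr hD.ac hD.ae hD.ce hp hπ,
    h.cross_pr hD.ad hD.ae hD.de hp hπ, h.cross_pr hD.bc hD.be hD.ce hp hπ,
    h.cross_pr hD.bd hD.be hD.de hp hπ, h.cross_pr hD.cd hD.ce hD.de hp hπ⟩

theorem Sys.net_tr (h : Sys H) (hD : D5 a b c d l) {p : Finset V} (hp : p ∈ H l) :
    Net p (tr (H a) p) (tr (H b) p) (tr (H c) p) (tr (H d) p) := by
  have := h.net_pr hD hp (π := id) (Set.injOn_id _)
  simpa only [pr_id, image_id] using this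

/-- members of a genuine family that share a point are equal -/
theorem gen_eq {X : Finset (Finset V)} (hg : Gen X) {A B : Finset V} (hA : A ∈ X) (hB : B ∈ X)
    {v : V} (h1 : v ∈ A) (h2 : v ∈ B) : A = B := by
  rcases hg A hA B hB with h | h
  · exact h
  · exact absurd h2 (disjoint_left.1 h h1)

/-- the working form of a genuine trace -/
theorem gen_tr {X : Finset (Finset V)} {p : Finset V} (hg : Gen (tr X p)) {A B : Finset V}
    (hA : A ∈ X) (hB : B ∈ X) {v u : V} (h1 : v ∈ A) (h2 : v ∈ B) (h3 : v ∈ p) (h4 : u ∈ A)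
    (h5 : u ∈ p) : u ∈ B := by
  have := gen_eq hg (mem_tr hA) (mem_tr hB) (mem_inter.2 ⟨h1, h3⟩) (mem_inter.2 ⟨h2, h3⟩)
  have h6 : u ∈ A ∩ p := mem_inter.2 ⟨h4, h5⟩
  rw [this] at h6
  exact (mem_inter.1 h6).1

theorem gen_pr_iff {X : Finset (Finset V)} {p : Finset V} {π : V → V} (hπ : Set.InjOn π p) :
    Gen (pr π X p) ↔ Gen (tr X p) := by
  constructor
  · intro hg x hx y hy
    obtain ⟨A, hA, rfl⟩ := mem_image.1 hx
    obtain ⟨B, hB, rfl⟩ := mem_image.1 hy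
    rcases hg _ (mem_pr hA) _ (mem_pr hB) with h | h
    · left
      have key : ∀ {A B : Finset V}, (A ∩ p).image π = (B ∩ p).image π → A ∩ p ⊆ B ∩ p := by
        intro A B h u hu
        have : π u ∈ (B ∩ p).image π := h ▸ mem_image_of_mem π hu
        obtain ⟨v, hv, hv'⟩ := mem_image.1 this
        have : v = u := hπ (mem_coe.2 (mem_inter.1 hv).2) (mem_coe.2 (mem_inter.1 hu).2) hv'
        exact this ▸ hv
      exact Subset.antisymm (key h) (key h.symm)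
    · right
      exact disjoint_left.2 fun u h1 h2 =>
        disjoint_left.1 h (mem_image_of_mem π h1) (mem_image_of_mem π h2)
  · intro hg x hx y hy
    obtain ⟨A, hA, rfl⟩ := mem_image.1 hx
    obtain ⟨B, hB, rfl⟩ := mem_image.1 hy
    rcases hg _ (mem_tr hA) _ (mem_tr hB) with h | h
    · left
      show (A ∩ p).image π = (B ∩ p).image π
      rw [h]
    · right
      refine disjoint_left.2 fun s h1 h2 => ?_
      obtain ⟨u, hu, rfl⟩ := mem_image.1 h1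
      obtain ⟨v, hv, hv'⟩ := mem_image.1 h2
      have : v = u := hπ (mem_coe.2 (mem_inter.1 hv).2) (mem_coe.2 (mem_inter.1 hu).2) hv'
      exact disjoint_left.1 h hu (this ▸ hv)

theorem gen_tr_of_gen {X : Finset (Finset V)} (hg : Gen X) (p : Finset V) : Gen (tr X p) := by
  intro x hx y hy
  obtain ⟨A, hA, rfl⟩ := mem_image.1 hx
  obtain ⟨B, hB, rfl⟩ := mem_image.1 hy
  rcases hg A hA B hB with h | h
  · left
    rw [h]
  · right
    exact h.mono inter_subset_left inter_subset_left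

/-- propagation of genuine traces -/
theorem Sys.prop (h : Sys H) (hP : Planar) (hD : D5 a b c d l) {p q r : Finset V} (hp : p ∈ H l)
    (hq : q ∈ H b) (hr : r ∈ H c) (gq : Gen (tr (H a) q)) (gr : Gen (tr (H a) r)) :
    Gen (tr (H a) p) := by
  refine hP.f2 V p _ _ _ _ (h.net_tr hD hp) (q ∩ p) (mem_tr hq) (r ∩ p) (mem_tr hr) ?_
  have key : ∀ {b c : Fin 5} {q r : Finset V}, a ≠ b → a ≠ c → b ≠ c → b ≠ l → c ≠ l →
      q ∈ H b → r ∈ H c → Gen (tr (H a) q) → Gen (tr (H a) r) → ∀ A ∈ H a, ∀ A' ∈ H a,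
      A ∩ p ∩ (q ∩ p) = A' ∩ p ∩ (q ∩ p) → A ∩ p ∩ (r ∩ p) ⊆ A' ∩ p ∩ (r ∩ p) := by
    intro b c q r hab hac hbc hbl hcl hq hr gq gr A hA A' hA' he u hu
    obtain ⟨v, v1, v2, v3⟩ := h.pt hab hD.ae hbl hA hq hp
    have v4 : v ∈ A' := by
      have : v ∈ A ∩ p ∩ (q ∩ p) := by simp [v1, v2, v3]
      rw [he] at this
      exact (mem_inter.1 (mem_inter.1 this).1).1
    obtain ⟨t, t1, t2, t3⟩ := h.pt hab hac hbc hA hq hr
    have t4 : t ∈ A' := gen_tr gq hA hA' v1 v4 v2 t1 t2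
    simp only [mem_inter] at hu ⊢
    exact ⟨⟨gen_tr gr hA hA' t1 t4 t3 hu.1.1 hu.2.1, hu.1.2⟩, hu.2⟩
  intro x hx y hy
  obtain ⟨A, hA, rfl⟩ := mem_image.1 hx
  obtain ⟨A', hA', rfl⟩ := mem_image.1 hy
  constructor
  · intro he
    exact Subset.antisymm (key hD.ab hD.ac hD.bc hD.be hD.ce hq hr gq gr A hA A' hA' he)
      (key hD.ab hD.ac hD.bc hD.be hD.ce hq hr gq gr A' hA' A hA he.symm)
  · intro he
    exact Subset.antisymm (key hD.ac hD.ab hD.bc.symm hD.ce hD.be hr hq gr gq A hA A' hA' he)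
      (key hD.ac hD.ab hD.bc.symm hD.ce hD.be hr hq gr gq A' hA' A hA he.symm)

/-- family `a` has a genuine trace on some plane of family `l` -/
def Bs (H : Fin 5 → Finset (Finset V)) (a l : Fin 5) : Prop := ∃ p ∈ H l, Gen (tr (H a) p)

/-- two genuine traces on planes of different families make the whole family genuine -/
theorem Sys.gen_of_two (h : Sys H) (hP : Planar) (hab : a ≠ b) (hac : a ≠ c) (hbc : b ≠ c)
    (h1 : Bs H a b) (h2 : Bs H a c) : Gen (H a) := by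
  obtain ⟨q, hq, gq⟩ := h1
  obtain ⟨r, hr, gr⟩ := h2
  obtain ⟨d, l, hD⟩ := ex3 hab hac hbc
  have gl : ∀ p ∈ H l, Gen (tr (H a) p) := fun p hp => h.prop hP hD hp hq hr gq gr
  have gd : ∀ p ∈ H d, Gen (tr (H a) p) := fun p hp => h.prop hP hD.s34 hp hq hr gq gr
  have key : ∀ A ∈ H a, ∀ A' ∈ H a, ∀ v, v ∈ A → v ∈ A' → A ⊆ A' := by
    intro A hA A' hA' v v1 v2 u hu
    obtain ⟨p, hp, hv⟩ := h.cover d v
    obtain ⟨p', hp', hu'⟩ := h.cover l u
    obtain ⟨t, t1, t2, t3⟩ := h.pt hD.ad hD.ae hD.de hA hp hp'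
    have t4 : t ∈ A' := gen_tr (gd p hp) hA hA' v1 v2 hv t1 t2
    exact gen_tr (gl p' hp') hA hA' t1 t4 t3 hu hu'
  intro A hA A' hA'
  by_cases hd : Disjoint A A'
  · exact Or.inr hd
  · obtain ⟨v, v1, v2⟩ := not_disjoint_iff.1 hd
    exact Or.inl (Subset.antisymm (key A hA A' hA' v v1 v2) (key A' hA' A hA v v2 v1))

/-- in every section one of any three families has a genuine trace -/
theorem Sys.three (h : Sys H) (hP : Planar) (hD : D5 a b c d l) {p : Finset V} (hp : p ∈ H l) :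
    Gen (tr (H b) p) ∨ Gen (tr (H c) p) ∨ Gen (tr (H d) p) := by
  by_contra hc
  push Not at hc
  exact hP.f1 V p _ _ _ _ (h.net_tr hD hp) hc.1 hc.2.1 hc.2.2

theorem Sys.threeB (h : Sys H) (hP : Planar) (hD : D5 a b c d l) :
    Bs H b l ∨ Bs H c l ∨ Bs H d l := by
  obtain ⟨p, hp⟩ := h.ne l
  rcases h.three hP hD hp with h1 | h1 | h1
  · exact Or.inl ⟨p, hp, h1⟩
  · exact Or.inr (Or.inl ⟨p, hp, h1⟩)
  · exact Or.inr (Or.inr ⟨p, hp, h1⟩)

/-- four families cannot all fail to be genuine -/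
theorem Sys.not_four (h : Sys H) (hP : Planar) (hD : D5 a b c d e) (nb : ¬ Gen (H b))
    (nc : ¬ Gen (H c)) (nd : ¬ Gen (H d)) (ne : ¬ Gen (H e)) : False := by
  -- the case where `b` and `c` have genuine traces on planes of `a`
  have key : ∀ {b c d e : Fin 5}, D5 a b c d e → ¬ Gen (H b) → ¬ Gen (H c) → ¬ Gen (H d) →
      ¬ Gen (H e) → Bs H b a → Bs H c a → False := by
    intro b c d e hD nb nc nd ne hb hc
    have bc : ¬ Bs H b c := fun x => nb (h.gen_of_two hP hD.ab.symm hD.bc hD.ac hb x)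
    have bd : ¬ Bs H b d := fun x => nb (h.gen_of_two hP hD.ab.symm hD.bd hD.ad hb x)
    have be : ¬ Bs H b e := fun x => nb (h.gen_of_two hP hD.ab.symm hD.be hD.ae hb x)
    have cb : ¬ Bs H c b := fun x => nc (h.gen_of_two hP hD.ac.symm hD.bc.symm hD.ab hc x)
    have cd : ¬ Bs H c d := fun x => nc (h.gen_of_two hP hD.ac.symm hD.cd hD.ad hc x)
    have ce : ¬ Bs H c e := fun x => nc (h.gen_of_two hP hD.ac.symm hD.ce hD.ae hc x)
    have de : Bs H d e := by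
      rcases h.threeB hP hD with x | x | x
      · exact absurd x be
      · exact absurd x ce
      · exact x
    have ed : Bs H e d := by
      rcases h.threeB hP hD.s34 with x | x | x
      · exact absurd x bd
      · exact absurd x cd
      · exact x
    rcases h.threeB hP hD.s12.s23.s34 with x | x | x
    · exact cb x
    · exact nd (h.gen_of_two hP hD.de hD.bd.symm hD.be.symm de x)
    · exact ne (h.gen_of_two hP hD.de.symm hD.be.symm hD.bd.symm ed x)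
  have hD' : D5 b c d e a := hD.s01.s12.s23.s34
  rcases h.threeB hP hD' with x | x | x
  · rcases h.threeB hP hD'.s01 with y | y | y
    · exact key hD nb nc nd ne y x
    · exact key hD.s12.s23 nc nd nb ne x y
    · exact key hD.s12.s23.s34.s23 nc ne nd nb x y
  · rcases h.threeB hP hD'.s12.s01 with y | y | y
    · exact key hD.s23 nb nd nc ne y x
    · exact key hD.s12.s23 nc nd nb ne y x
    · exact key hD.s23.s12.s34.s23 nd ne nb nc x y
  · rcases h.threeB hP hD'.s23.s12.s01 with y | y | y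
    · exact key hD.s34.s23 nb ne nc nd y x
    · exact key hD.s12.s23.s34.s23 nc ne nd nb y x
    · exact key hD.s23.s12.s34.s23 nd ne nb nc y x

theorem Sys.two_gen (h : Sys H) (hP : Planar) : ∃ d e, d ≠ e ∧ Gen (H d) ∧ Gen (H e) := by
  by_contra hc
  push Not at hc
  by_cases h0 : ∃ a, Gen (H a)
  · obtain ⟨a, ha⟩ := h0
    obtain ⟨b, c, d, e, hD⟩ := ex1 a
    exact h.not_four hP hD (hc a b hD.ab ha) (hc a c hD.ac ha) (hc a d hD.ad ha) (hc a e hD.ae ha)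
  · push Not at h0
    obtain ⟨b, c, d, e, hD⟩ := ex1 0
    exact h.not_four hP hD (h0 _) (h0 _) (h0 _) (h0 _)

/-- two genuine families and a third one that is genuine on every plane of the second -/
theorem Sys.start (h : Sys H) (hP : Planar) : ∃ d e f g k, D5 d e f g k ∧ Gen (H d) ∧
    Gen (H e) ∧ ∀ R ∈ H e, Gen (tr (H f) R) := by
  obtain ⟨d, e, hde, gd, ge⟩ := h.two_gen hP
  obtain ⟨f, g, k, hD⟩ := ex2 hde
  by_cases gf : Gen (H f)
  · exact ⟨d, e, f, g, k, hD, gd, ge, fun R _ => gen_tr_of_gen gf R⟩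
  by_cases gg : Gen (H g)
  · exact ⟨d, e, g, f, k, hD.s23, gd, ge, fun R _ => gen_tr_of_gen gg R⟩
  by_cases gk : Gen (H k)
  · exact ⟨d, e, k, f, g, hD.s34.s23, gd, ge, fun R _ => gen_tr_of_gen gk R⟩
  have key : ∀ {d e f g k : Fin 5}, D5 d e f g k → Gen (H d) → Gen (H e) → ¬ Bs H g e →
      ¬ Bs H k e → ∃ d e f g k, D5 d e f g k ∧ Gen (H d) ∧
      Gen (H e) ∧ ∀ R ∈ H e, Gen (tr (H f) R) := by
    intro d e f g k hD gd ge n1 n2
    refine ⟨d, e, f, g, k, hD, gd, ge, fun R hR => ?_⟩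
    rcases h.three hP hD.s12.s23.s34 hR with x | x | x
    · exact x
    · exact absurd ⟨R, hR, x⟩ n1
    · exact absurd ⟨R, hR, x⟩ n2
  have nf : Bs H f d → Bs H f e → False := fun x y =>
    gf (h.gen_of_two hP hD.ac.symm hD.bc.symm hD.ab x y)
  have ng : Bs H g d → Bs H g e → False := fun x y =>
    gg (h.gen_of_two hP hD.ad.symm hD.bd.symm hD.ab x y)
  have nk : Bs H k d → Bs H k e → False := fun x y =>
    gk (h.gen_of_two hP hD.ae.symm hD.be.symm hD.ab x y)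
  by_cases bf : Bs H f e
  · by_cases bg : Bs H g e
    · exact key hD.s01.s34.s23 ge gd (fun x => nf x bf) (fun x => ng x bg)
    · by_cases bk : Bs H k e
      · exact key hD.s01.s23 ge gd (fun x => nf x bf) (fun x => nk x bk)
      · exact key hD gd ge bg bk
  · by_cases bg : Bs H g e
    · by_cases bk : Bs H k e
      · exact key hD.s01 ge gd (fun x => ng x bg) (fun x => nk x bk)
      · exact key hD.s23 gd ge bf bk
    · exact key hD.s34.s23 gd ge bf bg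

/-- projection onto the plane `ψ` along the families `E` and `F` -/
structure Proj (E F : Finset (Finset V)) (ψ : Finset V) (π : V → V) : Prop where
  mem : ∀ v, π v ∈ ψ
  mE : ∀ R ∈ E, ∀ v, v ∈ R ↔ π v ∈ R
  mF : ∀ D ∈ F, ∀ v, v ∈ D ↔ π v ∈ D

theorem Sys.ex_proj (h : Sys H) (hef : e ≠ f) (hek : e ≠ k) (hfk : f ≠ k) (ge : Gen (H e))
    (gf : ∀ R ∈ H e, Gen (tr (H f) R)) {ψ : Finset V} (hψ : ψ ∈ H k) :
    ∃ π, Proj (H e) (H f) ψ π := by
  have : ∀ v, ∃ u, u ∈ ψ ∧ (∀ R ∈ H e, v ∈ R ↔ u ∈ R) ∧ ∀ D ∈ H f, v ∈ D ↔ u ∈ D := by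
    intro v
    obtain ⟨R, hR, vR⟩ := h.cover e v
    obtain ⟨D, hD, vD⟩ := h.cover f v
    obtain ⟨u, u1, u2, u3⟩ := h.pt hef hek hfk hR hD hψ
    refine ⟨u, u3, fun R' hR' => ⟨fun x => ?_, fun x => ?_⟩, fun D' hD' => ⟨fun x => ?_, fun x => ?_⟩⟩
    · exact gen_eq ge hR hR' vR x ▸ u1
    · exact gen_eq ge hR hR' u1 x ▸ vR
    · exact gen_tr (gf R hR) hD hD' vD x vR u2 u1
    · exact gen_tr (gf R hR) hD hD' u2 x u1 vD vR
  choose π h1 h2 h3 using this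
  exact ⟨π, h1, fun R hR v => h2 v R hR, fun D hD v => h3 v D hD⟩

section proj

variable {ψ : Finset V} {π : V → V}

/-- a point and its projection that lie on a common plane of a third family are equal -/
theorem Sys.proj_eq (h : Sys H) (hπ : Proj (H e) (H f) ψ π) (hef : e ≠ f) (hel : e ≠ l)
    (hfl : f ≠ l) {p : Finset V} (hp : p ∈ H l) {v : V} (h1 : v ∈ p) (h2 : π v ∈ p) :
    π v = v := by
  obtain ⟨R, hR, vR⟩ := h.cover e v
  obtain ⟨D, hD, vD⟩ := h.cover f v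
  exact h.uq hef hel hfl hR hD hp ((hπ.mE R hR v).1 vR) ((hπ.mF D hD v).1 vD) h2 vR vD h1

theorem Sys.proj_inj (h : Sys H) (hπ : Proj (H e) (H f) ψ π) (hef : e ≠ f) (hel : e ≠ l)
    (hfl : f ≠ l) {p : Finset V} (hp : p ∈ H l) : Set.InjOn π p := by
  intro u hu v hv huv
  obtain ⟨R, hR, vR⟩ := h.cover e v
  obtain ⟨D, hD, vD⟩ := h.cover f v
  refine h.uq hef hel hfl hR hD hp ?_ ?_ (mem_coe.1 hu) vR vD (mem_coe.1 hv)
  · exact (hπ.mE R hR u).2 (huv ▸ (hπ.mE R hR v).1 vR)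
  · exact (hπ.mF D hD u).2 (huv ▸ (hπ.mF D hD v).1 vD)

theorem Sys.proj_onto (h : Sys H) (hπ : Proj (H e) (H f) ψ π) (hef : e ≠ f) (hel : e ≠ l)
    (hfl : f ≠ l) (hek : e ≠ k) (hfk : f ≠ k) (hψ : ψ ∈ H k) {p : Finset V} (hp : p ∈ H l) :
    p.image π = ψ := by
  ext s
  constructor
  · intro hs
    obtain ⟨v, -, rfl⟩ := mem_image.1 hs
    exact hπ.mem v
  · intro hs
    obtain ⟨R, hR, sR⟩ := h.cover e s
    obtain ⟨D, hD, sD⟩ := h.cover f s
    obtain ⟨v, v1, v2, v3⟩ := h.pt hef hel hfl hR hD hp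
    exact mem_image.2 ⟨v, v3, h.uq hef hek hfk hR hD hψ ((hπ.mE R hR v).1 v1)
      ((hπ.mF D hD v).1 v2) (hπ.mem v) sR sD hs⟩

theorem pr_eq_tr {X : Finset (Finset V)} {p : Finset V} (h1 : p.image π = ψ)
    (h2 : ∀ R ∈ X, ∀ v, v ∈ R ↔ π v ∈ R) : pr π X p = tr X ψ := by
  refine image_congr fun R hR => ?_
  ext s
  simp only [mem_image, mem_inter]
  constructor
  · rintro ⟨v, ⟨v1, v2⟩, rfl⟩
    exact ⟨(h2 R hR v).1 v1, h1 ▸ mem_image_of_mem π v2⟩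
  · rintro ⟨s1, s2⟩
    rw [← h1] at s2
    obtain ⟨v, v1, rfl⟩ := mem_image.1 s2
    exact ⟨v, ⟨(h2 R hR v).2 s1, v1⟩, rfl⟩

/-- the section by a plane `p`, projected onto `ψ` -/
theorem Sys.net_proj (h : Sys H) (hπ : Proj (H e) (H f) ψ π) (hD : D5 e f a b l) (hek : e ≠ k)
    (hfk : f ≠ k) (hψ : ψ ∈ H k) {p : Finset V} (hp : p ∈ H l) :
    Net ψ (tr (H e) ψ) (tr (H f) ψ) (pr π (H a) p) (pr π (H b) p) := by
  have h1 := h.proj_onto hπ hD.ab hD.ae hD.be hek hfk hψ hp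
  have h2 := h.net_pr hD hp (h.proj_inj hπ hD.ab hD.ae hD.be hp)
  rwa [pr_eq_tr h1 hπ.mE, pr_eq_tr h1 hπ.mF, h1] at h2

theorem Sys.image_fix (h : Sys H) (hπ : Proj (H e) (H f) ψ π) (hef : e ≠ f) (hek : e ≠ k)
    (hfk : f ≠ k) (hψ : ψ ∈ H k) (p : Finset V) : (ψ ∩ p).image π = p ∩ ψ := by
  have : ∀ v ∈ ψ ∩ p, π v = id v := fun v hv =>
    h.proj_eq hπ hef hek hfk hψ (mem_inter.1 hv).1 (hπ.mem v)
  rw [image_congr (fun v hv => this v (mem_coe.1 hv)), image_id, inter_comm]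

theorem Sys.col (h : Sys H) (hπ : Proj (H e) (H f) ψ π) (hD : D5 d e f g k) (gd : Gen (H d))
    (hψ : ψ ∈ H k) {φ : Finset V} (hφ : φ ∈ H g) :
    Col ψ (tr (H d) ψ) (tr (H e) ψ) (tr (H f) ψ) (φ ∩ ψ) (pr π (H d) φ) := by
  have hN := h.net_proj hπ hD.s01.s12.s34 hD.be hD.ce hψ hφ
  have hi := h.proj_inj hπ hD.bc hD.bd hD.cd hφ
  refine ⟨fun x hx => ⟨hN.c2.sub x hx, hN.six2 x hx⟩, hN.c2.cover,
    (gen_pr_iff hi).2 (gen_tr_of_gen gd φ), hN.x02.symm, hN.x12.symm, fun x hx => ?_, ?_⟩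
  · refine hN.x23 x hx _ ?_
    rw [← h.image_fix hπ hD.bc hD.be hD.ce hψ φ]
    exact mem_pr hψ
  · intro x hx z hz p p1 p2 p3 q q1 q2
    obtain ⟨C, hC, rfl⟩ := mem_image.1 hx
    obtain ⟨C', hC', rfl⟩ := mem_image.1 hz
    obtain ⟨v, hv, rfl⟩ := mem_image.1 p1
    obtain ⟨u, hu, rfl⟩ := mem_image.1 q1
    simp only [mem_inter] at hv hu p2 p3 q2
    have e1 : π v = v := h.proj_eq hπ hD.bc hD.bd hD.cd hφ hv.2 p2.1
    have e2 : C = C' := gen_eq gd hC hC' hv.1 (e1 ▸ p3.1)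
    subst e2
    have e3 : π u = u := h.proj_eq hπ hD.bc hD.ab.symm hD.ac.symm hC hu.1 q2.1
    rw [e1, e3]
    exact h.uq hD.ad hD.ae hD.de hC hφ hψ hu.1 hu.2 (e3 ▸ q2.2) hv.1 hv.2 (e1 ▸ p2.2)

end proj

theorem Sys.third (h : Sys H) (hP : Planar) (hD : D5 d e f g k) (gd : Gen (H d))
    (ge : Gen (H e)) (gf : ∀ R ∈ H e, Gen (tr (H f) R)) : Gen (H f) := by
  obtain ⟨ψ, hψ⟩ := h.ne k
  obtain ⟨φ, hφ⟩ := h.ne g
  obtain ⟨R, hR⟩ := h.ne e
  obtain ⟨π, hπ⟩ := h.ex_proj hD.bc hD.be hD.ce ge gf hψ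
  have := hP.s5 V ψ _ _ _ _ (h.net_tr hD.s01 hψ) (gen_tr_of_gen ge ψ) (gen_tr_of_gen gd ψ)
    (φ ∩ ψ) (mem_tr hφ) _ (h.col hπ hD gd hψ hφ)
  exact h.gen_of_two hP hD.bc.symm hD.ce hD.be ⟨R, hR, gf R hR⟩ ⟨ψ, hψ, this⟩

theorem Sys.dir (h : Sys H) (hD : D5 d e f g k) (gd : Gen (H d)) (ge : Gen (H e))
    (gf : Gen (H f)) (nb : ¬ Bs H g d) {ψ : Finset V} (hψ : ψ ∈ H k) :
    Dir ψ (tr (H d) ψ) (tr (H e) ψ) (tr (H f) ψ) := by
  obtain ⟨π, hπ⟩ := h.ex_proj hD.bc hD.be hD.ce ge (fun R _ => gen_tr_of_gen gf R) hψ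
  intro c hc
  obtain ⟨C, hC, rfl⟩ := mem_image.1 hc
  have hi := h.proj_inj hπ hD.bc hD.ab.symm hD.ac.symm hC
  refine ⟨pr π (H g) C, pr π (H k) C, h.net_proj hπ hD.s01.s12.s23.s34 hD.be hD.ce hψ hC,
    fun x => nb ⟨C, hC, (gen_pr_iff hi).1 x⟩, ?_, ?_⟩
  · show C ∩ ψ ∈ _
    rw [← h.image_fix hπ hD.bc hD.be hD.ce hψ C]
    exact mem_pr hψ
  · intro b hb
    obtain ⟨φ, hφ, rfl⟩ := mem_image.1 hb
    have hN := h.net_proj hπ hD.s01.s12.s34 hD.be hD.ce hψ hφ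
    have hM := h.net_tr hD hψ
    have hτ : φ ∩ ψ ∈ tr (H g) ψ := mem_tr hφ
    refine ⟨φ ∩ ψ, pr π (H d) φ, pr π (H k) φ, inter_subset_right, hM.six3 _ hτ, ?_, ?_, ?_,
      h.col hπ hD gd hψ hφ, ?_, ?_, fun y hy => ⟨hN.c3.sub y hy, hN.six3 y hy⟩, hN.c3.cover,
      hN.x03.symm, hN.x13.symm, hN.x23.symm⟩
    · intro x hx y hy
      rw [mem_singleton.1 hx]
      exact hM.x03.symm _ hτ y hy
    · intro x hx y hy
      rw [mem_singleton.1 hx]
      exact hM.x13.symm _ hτ y hy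
    · intro x hx y hy
      rw [mem_singleton.1 hx]
      exact hM.x23.symm _ hτ y hy
    · show (φ ∩ C).image π ∈ _
      rw [inter_comm]
      exact mem_pr hC
    · obtain ⟨p, p1, p2, p3⟩ := h.pt hD.ad hD.ae hD.de hC hφ hψ
      refine ⟨p, mem_image.2 ⟨p, mem_inter.2 ⟨p2, p1⟩, ?_⟩, mem_inter.2 ⟨p2, p3⟩,
        mem_inter.2 ⟨p1, p3⟩⟩
      exact h.proj_eq hπ hD.bc hD.be hD.ce hψ p3 (hπ.mem p)

theorem Sys.elim (h : Sys H) (hP : Planar) : False := by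
  obtain ⟨d, e, f, g, k, hD, gd, ge, gf'⟩ := h.start hP
  have gf := h.third hP hD gd ge gf'
  obtain ⟨ψ, hψ⟩ := h.ne k
  by_cases gg : Gen (H g)
  · exact hP.tarry V ψ _ _ _ _ (h.net_tr hD hψ) (gen_tr_of_gen gd ψ) (gen_tr_of_gen ge ψ)
      (gen_tr_of_gen gf ψ) (gen_tr_of_gen gg ψ)
  have key : ∀ {d e f : Fin 5}, D5 d e f g k → Gen (H d) → Gen (H e) → Gen (H f) →
      ¬ Bs H g d → ¬ Bs H g e → False := by
    intro d e f hD gd ge gf n1 n2
    exact hP.end6 V ψ _ _ _ _ (h.net_tr hD hψ) (gen_tr_of_gen gd ψ) (gen_tr_of_gen ge ψ)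
      (gen_tr_of_gen gf ψ) (h.dir hD gd ge gf n1 hψ) (h.dir hD.s01 ge gd gf n2 hψ)
  by_cases bd : Bs H g d
  · exact key hD.s01.s12 ge gf gd
      (fun x => gg (h.gen_of_two hP hD.ad.symm hD.bd.symm hD.ab bd x))
      (fun x => gg (h.gen_of_two hP hD.ad.symm hD.cd.symm hD.ac bd x))
  · by_cases be : Bs H g e
    · exact key hD.s12 gd gf ge bd
        (fun x => gg (h.gen_of_two hP hD.bd.symm hD.cd.symm hD.bc be x))
    · exact key hD gd ge gf bd be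

end Five

theorem noFrac5_of_planar (hP : Planar) : NoFrac5 := by
  intro V _ _ H w h1 h2 h3 h4
  exact Five.Sys.elim (H := H) ⟨fun a => ⟨w a, h1 a, h2 a, h3 a⟩, h4⟩ hP

end Pool.Agent.P.MP_9e9aa3_co
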