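import Pool.Agent.P.MP_9e9aa3_co.F2
import Pool.Agent.P.MP_9e9aa3_co.End
import Pool.Agent.P.MP_9e9aa3_co.Five

set_option autoImplicit false

namespace Pool.Agent.P.MP_9e9aa3_co

theorem planar_of_facts (hF : Facts) : Planar :=
  ⟨fun _ _ _ _ _ _ _ h => f1 hF h, f2 hF, s5 hF, tarry hF, end6 hF⟩

theorem noFrac5_of_facts (hF : Facts) : NoFrac5 := noFrac5_of_planar (planar_of_facts hF)

end Pool.Agent.P.MP_9e9aa3_co
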