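import Mathlib

set_option autoImplicit false

open Filter Topology

namespace Pool.Agent.P.MP_9e9aa3_co

lemma hamming_le_one_iff {ι β : Type} [Fintype ι] [Nonempty ι] [DecidableEq β]
    (x p : ι → β) : hammingDist x p ≤ 1 ↔ ∃ i, ∀ j, j ≠ i → x j = p j := by
  unfold hammingDist
  rw [Finset.card_le_one_iff_subset_singleton]
  refine exists_congr fun i => ?_
  constructor
  · intro h j hj
    by_contra hn
    exact hj (Finset.mem_singleton.1 (h (Finset.mem_filter.2 ⟨Finset.mem_univ _, hn⟩)))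
  · intro h j hj
    rw [Finset.mem_singleton]
    by_contra hn
    exact (Finset.mem_filter.1 hj).2 (h j hn)

/-- the minimum size of a radius one covering -/
noncomputable def acov (k n : ℕ) : ℕ :=
  sInf {m : ℕ | ∃ S : Finset (Fin (k + 1) → Fin n), S.card = m ∧
    ∀ x, ∃ p ∈ S, hammingDist x p ≤ 1}

lemma acov_spec (k n : ℕ) : ∃ S : Finset (Fin (k + 1) → Fin n), S.card = acov k n ∧
    ∀ x, ∃ p ∈ S, hammingDist x p ≤ 1 := by
  have : {m : ℕ | ∃ S : Finset (Fin (k + 1) → Fin n), S.card = m ∧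
      ∀ x, ∃ p ∈ S, hammingDist x p ≤ 1}.Nonempty :=
    ⟨_, Finset.univ, rfl, fun x => ⟨x, Finset.mem_univ _, by simp⟩⟩
  exact Nat.sInf_mem this

lemma acov_le (k n : ℕ) (S : Finset (Fin (k + 1) → Fin n))
    (h : ∀ x, ∃ p ∈ S, hammingDist x p ≤ 1) : acov k n ≤ S.card :=
  Nat.sInf_le ⟨S, rfl, h⟩

lemma acov_blowup (k n m N : ℕ) (hm : 0 < m) (hN : 0 < N) (hle : N ≤ n * m) :
    acov k N ≤ acov k n * m ^ k := by
  classical
  have : NeZero m := ⟨hm.ne'⟩
  have : Nonempty (Fin N) := ⟨⟨0, hN⟩⟩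
  obtain ⟨S, hS, hcov⟩ := acov_spec k n
  have hcard : Fintype.card (Fin N) ≤ Fintype.card (Fin n × ZMod m) := by
    simpa [ZMod.card] using hle
  obtain ⟨e⟩ := Function.Embedding.nonempty_of_card_le hcard
  let g : Fin n × ZMod m → Fin N := Function.invFun e
  have hg : ∀ y, g (e y) = y := Function.leftInverse_invFun e.injective
  let φ : (Fin (k + 1) → Fin n) × (Fin k → ZMod m) → (Fin (k + 1) → Fin N) :=
    fun q i => g (q.1 i, (Fin.cons (-∑ j, q.2 j) q.2 : Fin (k + 1) → ZMod m) i)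
  refine (acov_le k N ((S ×ˢ Finset.univ).image φ) ?_).trans ?_
  · intro x
    obtain ⟨p, hp, hd⟩ := hcov fun i => (e (x i)).1
    obtain ⟨i0, hi0⟩ := (hamming_le_one_iff _ _).1 hd
    let y : Fin (k + 1) → ZMod m := fun i => (e (x i)).2
    let v : Fin (k + 1) → ZMod m := Function.update y i0 (y i0 - ∑ j, y j)
    have hv : ∑ j, v j = 0 := by
      simp only [v]
      rw [Finset.sum_update_of_mem (Finset.mem_univ _), Finset.sdiff_singleton_eq_erase,
        ← Finset.add_sum_erase _ y (Finset.mem_univ i0)]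
      ring
    have hv2 : (Fin.cons (-∑ j, Fin.tail v j) (Fin.tail v) : Fin (k + 1) → ZMod m) = v := by
      rw [Fin.sum_univ_succ] at hv
      have : -∑ j, Fin.tail v j = v 0 := by
        simp only [Fin.tail]
        linear_combination -hv
      rw [this, Fin.cons_self_tail]
    refine ⟨φ (p, Fin.tail v), Finset.mem_image_of_mem _
      (Finset.mem_product.2 ⟨hp, Finset.mem_univ _⟩), (hamming_le_one_iff _ _).2 ⟨i0, ?_⟩⟩
    intro j hj
    simp only [φ]
    rw [hv2, ← hi0 j hj]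
    simp only [v, Function.update_of_ne hj, y]
    exact (hg _).symm
  · refine Finset.card_image_le.trans ?_
    rw [Finset.card_product, hS]
    simp [ZMod.card]

/-- TASK B (the limit exists). -/
theorem limit_exists (k : ℕ) : ∃ c : ℝ, Tendsto (fun n : ℕ =>
    ((sInf {m : ℕ | ∃ S : Finset (Fin (k + 1) → Fin n), S.card = m ∧
      ∀ x, ∃ p ∈ S, hammingDist x p ≤ 1} : ℕ) : ℝ) / (n : ℝ) ^ k) atTop (𝓝 c) := by
  change ∃ c : ℝ, Tendsto (fun n : ℕ => (acov k n : ℝ) / (n : ℝ) ^ k) atTop (𝓝 c)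
  let f : ℕ → ℝ := fun n => (acov k (n + 1) : ℝ) / ((n + 1 : ℕ) : ℝ) ^ k
  have hbdd : BddBelow (Set.range f) := ⟨0, by rintro _ ⟨n, rfl⟩; positivity⟩
  refine ⟨⨅ n, f n, tendsto_order.2 ⟨fun c hc => ?_, fun c hc => ?_⟩⟩
  · filter_upwards [eventually_ge_atTop 1] with N hN
    obtain ⟨M, rfl⟩ : ∃ M, N = M + 1 := ⟨N - 1, by omega⟩
    exact hc.trans_le (ciInf_le hbdd M)
  · obtain ⟨n, hn⟩ := exists_lt_of_ciInf_lt hc
    have h1 : Tendsto (fun N : ℕ => (acov k (n + 1) : ℝ) * (1 / ((n + 1 : ℕ) : ℝ) + 1 / (N : ℝ)) ^ k)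
        atTop (𝓝 ((acov k (n + 1) : ℝ) * (1 / ((n + 1 : ℕ) : ℝ) + 0) ^ k)) :=
      ((tendsto_const_nhds.add tendsto_one_div_atTop_nhds_zero_nat).pow k).const_mul _
    have h2 : (acov k (n + 1) : ℝ) * (1 / ((n + 1 : ℕ) : ℝ) + 0) ^ k = f n := by
      simp only [f]
      rw [add_zero, one_div_pow, mul_one_div]
    rw [h2] at h1
    filter_upwards [eventually_ge_atTop 1, h1.eventually (gt_mem_nhds hn)] with N hN hlt
    refine lt_of_le_of_lt ?_ hlt
    have hN0 : (0 : ℝ) < N := by exact_mod_cast hN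
    have hb := acov_blowup k (n + 1) (N / (n + 1) + 1) N (Nat.succ_pos _) hN
      (Nat.lt_mul_div_succ N (Nat.succ_pos n)).le
    have hb' : (acov k N : ℝ) ≤ (acov k (n + 1) : ℝ) * ((N / (n + 1) + 1 : ℕ) : ℝ) ^ k := by
      exact_mod_cast hb
    have h3 : ((N / (n + 1) + 1 : ℕ) : ℝ) ≤ (1 / ((n + 1 : ℕ) : ℝ) + 1 / (N : ℝ)) * N := by
      have := @Nat.cast_div_le ℝ _ _ _ N (n + 1)
      rw [Nat.cast_add, Nat.cast_one, add_mul, one_div_mul_cancel hN0.ne', one_div_mul_eq_div]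
      linarith
    rw [div_le_iff₀ (by positivity), mul_assoc, ← mul_pow]
    refine hb'.trans (mul_le_mul_of_nonneg_left ?_ (by positivity))
    exact pow_le_pow_left₀ (by positivity) h3 k

end Pool.Agent.P.MP_9e9aa3_co
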