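import Pool.Agent.P.MP_9e9aa3_co.Sem

set_option autoImplicit false

namespace Pool.Agent.P.MP_9e9aa3_co

open Finset E

variable {V : Type} [DecidableEq V]

/-- positive weights of total mass six that cover every point of `W` exactly once -/
structure Cls (W : Finset V) (X : Finset (Finset V)) (w : Finset V → ℝ) : Prop where
  sub : ∀ A ∈ X, A ⊆ W
  pos : ∀ A ∈ X, 0 < w A
  tot : ∑ A ∈ X, w A = 6
  cov : ∀ s ∈ W, ∑ A ∈ X.filter (fun A => s ∈ A), w A = 1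

def IsCls (W : Finset V) (X : Finset (Finset V)) : Prop := ∃ w, Cls W X w

def Cross (X Y : Finset (Finset V)) : Prop := ∀ A ∈ X, ∀ B ∈ Y, (A ∩ B).card = 1

/-- genuine class: two members are equal or disjoint -/
def Gen (X : Finset (Finset V)) : Prop := ∀ A ∈ X, ∀ B ∈ X, A = B ∨ Disjoint A B

/-- fractional net with four classes -/
structure Net (W : Finset V) (X0 X1 X2 X3 : Finset (Finset V)) : Prop where
  c0 : IsCls W X0
  c1 : IsCls W X1
  c2 : IsCls W X2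
  c3 : IsCls W X3
  x01 : Cross X0 X1
  x02 : Cross X0 X2
  x03 : Cross X0 X3
  x12 : Cross X1 X2
  x13 : Cross X1 X3
  x23 : Cross X2 X3

theorem Cross.symm {X Y : Finset (Finset V)} (h : Cross X Y) : Cross Y X :=
  fun A hA B hB => by rw [inter_comm]; exact h B hB A hA

variable {W : Finset V} {X Y Z T X0 X1 X2 X3 : Finset (Finset V)}

theorem Net.s01 (h : Net W X0 X1 X2 X3) : Net W X1 X0 X2 X3 :=
  ⟨h.c1, h.c0, h.c2, h.c3, h.x01.symm, h.x12, h.x13, h.x02, h.x03, h.x23⟩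

theorem Net.s12 (h : Net W X0 X1 X2 X3) : Net W X0 X2 X1 X3 :=
  ⟨h.c0, h.c2, h.c1, h.c3, h.x02, h.x01, h.x03, h.x12.symm, h.x23, h.x13⟩

theorem Net.s23 (h : Net W X0 X1 X2 X3) : Net W X0 X1 X3 X2 :=
  ⟨h.c0, h.c1, h.c3, h.c2, h.x01, h.x03, h.x02, h.x13, h.x12, h.x23.symm⟩

theorem Net.s02 (h : Net W X0 X1 X2 X3) : Net W X2 X1 X0 X3 := h.s01.s12.s01

theorem Net.s13 (h : Net W X0 X1 X2 X3) : Net W X0 X3 X2 X1 := h.s12.s23.s12

theorem Net.s03 (h : Net W X0 X1 X2 X3) : Net W X3 X1 X2 X0 := h.s01.s13.s01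

theorem IsCls.sub (h : IsCls W X) : ∀ A ∈ X, A ⊆ W := h.choose_spec.sub

theorem IsCls.cover (h : IsCls W X) : ∀ s ∈ W, ∃ A ∈ X, s ∈ A := by
  obtain ⟨w, h⟩ := h
  intro s hs
  by_contra hc
  push Not at hc
  have := h.cov s hs
  rw [filter_false_of_mem hc] at this
  simp at this

/-- double counting: the weighted trace of a subset of `W` -/
theorem Cls.sum_card {w : Finset V → ℝ} (h : Cls W X w) {B : Finset V} (hB : B ⊆ W) :
    ∑ A ∈ X, w A * ((A ∩ B).card : ℝ) = B.card := by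
  have h1 : ∀ A ∈ X, w A * ((A ∩ B).card : ℝ) = ∑ s ∈ B, if s ∈ A then w A else 0 := by
    intro A _
    rw [← sum_filter, sum_const, nsmul_eq_mul, mul_comm, filter_mem_eq_inter, inter_comm]
  rw [sum_congr rfl h1, sum_comm]
  rw [card_eq_sum_ones, Nat.cast_sum]
  refine sum_congr rfl fun s hs => ?_
  rw [← sum_filter, h.cov s (hB hs)]
  simp

theorem IsCls.card6 (hX : IsCls W X) (hY : IsCls W Y) (hc : Cross X Y) : ∀ A ∈ X, A.card = 6 := by
  intro A hA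
  obtain ⟨w, h⟩ := hY
  have h1 := h.sum_card (hX.sub A hA)
  have h2 : ∑ B ∈ Y, w B * ((B ∩ A).card : ℝ) = ∑ B ∈ Y, w B :=
    sum_congr rfl fun B hB => by rw [hc.symm B hB A hA]; simp
  rw [h2, h.tot] at h1
  exact_mod_cast h1.symm

theorem IsCls.card36 (hX : IsCls W X) (h6 : ∀ A ∈ X, A.card = 6) : W.card = 36 := by
  obtain ⟨w, h⟩ := hX
  have h1 := h.sum_card (subset_refl W)
  have h2 : ∑ B ∈ X, w B * ((B ∩ W).card : ℝ) = ∑ B ∈ X, w B * 6 :=
    sum_congr rfl fun B hB => by rw [inter_eq_left.2 (h.sub B hB), h6 B hB]; simp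
  rw [h2, ← sum_mul, h.tot] at h1
  have : (W.card : ℝ) = 36 := by linarith
  exact_mod_cast this

theorem Net.six0 (h : Net W X0 X1 X2 X3) : ∀ A ∈ X0, A.card = 6 := h.c0.card6 h.c1 h.x01
theorem Net.six1 (h : Net W X0 X1 X2 X3) : ∀ A ∈ X1, A.card = 6 := h.s01.six0
theorem Net.six2 (h : Net W X0 X1 X2 X3) : ∀ A ∈ X2, A.card = 6 := h.s02.six0
theorem Net.six3 (h : Net W X0 X1 X2 X3) : ∀ A ∈ X3, A.card = 6 := h.s03.six0
theorem Net.card (h : Net W X0 X1 X2 X3) : W.card = 36 := h.c0.card36 h.six0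

/-- twin propagation -/
theorem IsCls.tw (h : IsCls W X) : ∀ u ∈ W, ∀ v, (∀ x, x ∈ X → u ∈ x → v ∈ x) →
    ∀ x, x ∈ X → v ∈ x → u ∈ x := by
  intro u hu v huv x hx hv
  obtain ⟨w, h⟩ := h
  have hvW := h.sub x hx hv
  by_contra hux
  have hs : X.filter (fun A => u ∈ A) ⊆ X.filter (fun A => v ∈ A) := fun A hA =>
    mem_filter.2 ⟨(mem_filter.1 hA).1, huv A (mem_filter.1 hA).1 (mem_filter.1 hA).2⟩
  have := sum_lt_sum_of_subset hs (i := x) (mem_filter.2 ⟨hx, hv⟩)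
    (fun hm => hux (mem_filter.1 hm).2) (h.pos x hx)
    (fun j hj _ => (h.pos j (mem_filter.1 hj).1).le)
  rw [h.cov u hu, h.cov v hvW] at this
  exact lt_irrefl _ this

/-- fewer than six points do not block a class -/
theorem IsCls.hs (h : IsCls W X) (B : Finset V) (hB : B.card < 6) : ∃ x, x ∈ X ∧ Disjoint x B := by
  obtain ⟨w, h⟩ := h
  by_contra hc
  push Not at hc
  have h1 := h.sum_card (B := B ∩ W) inter_subset_right
  have h2 : ∑ A ∈ X, w A ≤ ∑ A ∈ X, w A * ((A ∩ (B ∩ W)).card : ℝ) := by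
    refine sum_le_sum fun A hA => ?_
    obtain ⟨p, hp1, hp2⟩ := not_disjoint_iff.1 (hc A hA)
    have : 1 ≤ (A ∩ (B ∩ W)).card :=
      card_pos.2 ⟨p, mem_inter.2 ⟨hp1, mem_inter.2 ⟨hp2, h.sub A hA hp1⟩⟩⟩
    have h3 : (1 : ℝ) ≤ ((A ∩ (B ∩ W)).card : ℝ) := by exact_mod_cast this
    nlinarith [h.pos A hA]
  rw [h1, h.tot] at h2
  have h4 : (B ∩ W).card ≤ B.card := card_le_card inter_subset_left
  have h5 : (6 : ℕ) ≤ (B ∩ W).card := by exact_mod_cast h2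
  omega

theorem Cls.le_one {w : Finset V → ℝ} (h : Cls W X w) {A : Finset V} (hA : A ∈ X)
    (hne : A.Nonempty) : w A ≤ 1 := by
  obtain ⟨s, hs⟩ := hne
  rw [← h.cov s (h.sub A hA hs)]
  exact single_le_sum (f := w) (fun j hj => (h.pos j (mem_filter.1 hj).1).le) (mem_filter.2 ⟨hA, hs⟩)

/-- a class that is not genuine has at least seven members -/
theorem IsCls.lo7 (h : IsCls W X) (h6 : ∀ A ∈ X, A.card = 6) (hg : ¬ Gen X)
    (L : Finset (Finset V)) (hL : L.card < 7) : ∃ x, x ∈ X ∧ x ∉ L := by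
  obtain ⟨w, h⟩ := h
  by_contra hc
  push Not at hc
  have hcard : X.card ≤ 6 := by
    have := card_le_card (s := X) (t := L) hc
    omega
  have hle : ∀ A ∈ X, w A ≤ 1 := fun A hA => h.le_one hA (card_pos.1 (by rw [h6 A hA]; norm_num))
  have hone : ∀ A ∈ X, w A = 1 := by
    by_contra hn
    push Not at hn
    obtain ⟨A, hA, hne⟩ := hn
    have : ∑ B ∈ X, w B < ∑ _B ∈ X, (1 : ℝ) :=
      sum_lt_sum hle ⟨A, hA, lt_of_le_of_ne (hle A hA) hne⟩
    rw [h.tot, sum_const, nsmul_eq_mul, mul_one] at this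
    have h7 : (6 : ℕ) < X.card := by exact_mod_cast this
    omega
  apply hg
  intro A hA B hB
  by_contra hn
  push Not at hn
  obtain ⟨p, hp1, hp2⟩ := not_disjoint_iff.1 hn.2
  have h1 := h.cov p (h.sub A hA hp1)
  have h2 : ({A, B} : Finset (Finset V)) ⊆ X.filter (fun A => p ∈ A) := by
    intro C hC
    rcases mem_insert.1 hC with rfl | hC
    · exact mem_filter.2 ⟨hA, hp1⟩
    · rw [mem_singleton.1 hC]
      exact mem_filter.2 ⟨hB, hp2⟩
  have h3 := sum_le_sum_of_subset_of_nonneg (f := w) h2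
    (fun j hj _ => (h.pos j (mem_filter.1 hj).1).le)
  rw [sum_pair hn.1, hone A hA, hone B hB, h1] at h3
  linarith

/-- two different members of a class of a net meet in at most three points -/
theorem Net.le3 (h : Net W X0 X1 X2 X3) {A B : Finset V} (hA : A ∈ X0) (hB : B ∈ X0)
    (hne : A ≠ B) : (A ∩ B).card ≤ 3 := by
  by_contra hc
  have h6A := h.six0 A hA
  have h6B := h.six0 B hB
  have hAB : ¬ A ⊆ B := fun hs => hne (eq_of_subset_of_card_le hs (by omega))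
  obtain ⟨u, huA, huB⟩ := not_subset.1 hAB
  have hd : (B \ A).card ≤ 2 := by
    have := card_sdiff_add_card_inter B A
    rw [inter_comm] at this
    omega
  have huW := h.c0.sub A hA huA
  have key : ∀ Y : Finset (Finset V), IsCls W Y → Cross X0 Y →
      ∃ C ∈ Y, u ∈ C ∧ ∃ v ∈ C, v ∈ B \ A := by
    intro Y hY hx
    obtain ⟨C, hC, huC⟩ := hY.cover u huW
    obtain ⟨v, hv⟩ := card_pos.1 (by rw [hx B hB C hC]; norm_num : 0 < (B ∩ C).card)
    refine ⟨C, hC, huC, v, (mem_inter.1 hv).2, mem_sdiff.2 ⟨(mem_inter.1 hv).1, fun hvA => ?_⟩⟩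
    have := card_le_one.1 (hx A hA C hC).le u (mem_inter.2 ⟨huA, huC⟩) v
      (mem_inter.2 ⟨hvA, (mem_inter.1 hv).2⟩)
    exact huB (this ▸ (mem_inter.1 hv).1)
  obtain ⟨C1, hC1, hu1, v1, hv1, hw1⟩ := key X1 h.c1 h.x01
  obtain ⟨C2, hC2, hu2, v2, hv2, hw2⟩ := key X2 h.c2 h.x02
  obtain ⟨C3, hC3, hu3, v3, hv3, hw3⟩ := key X3 h.c3 h.x03
  have no : ∀ {C D : Finset V} {v : V}, (C ∩ D).card = 1 → u ∈ C → u ∈ D → v ∈ C → v ∈ D →
      v ∈ B \ A → False := by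
    intro C D v h1 a b c d e
    have := card_le_one.1 h1.le u (mem_inter.2 ⟨a, b⟩) v (mem_inter.2 ⟨c, d⟩)
    exact (mem_sdiff.1 e).2 (this ▸ huA)
  have n12 : v1 ≠ v2 := fun e => no (h.x12 C1 hC1 C2 hC2) hu1 hu2 hv1 (e ▸ hv2) hw1
  have n13 : v1 ≠ v3 := fun e => no (h.x13 C1 hC1 C3 hC3) hu1 hu3 hv1 (e ▸ hv3) hw1
  have n23 : v2 ≠ v3 := fun e => no (h.x23 C2 hC2 C3 hC3) hu2 hu3 hv2 (e ▸ hv3) hw2
  have : 2 < (B \ A).card := two_lt_card.2 ⟨v1, hw1, v2, hw2, v3, hw3, n12, n13, n23⟩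
  omega

/- the bit forms of the relations, as they occur in `Hyp.rel` -/

theorem Net.rel79 (h : Net W X0 X1 X2 X3) {A B : Finset V} (hA : A ∈ X0) (hB : B ∈ X0) :
    Nat.testBit 79 (A ∩ B).card = true := by
  by_cases e : A = B
  · subst e
    rw [inter_self, h.six0 A hA]
    decide
  · have := h.le3 hA hB e
    generalize (A ∩ B).card = c at this
    interval_cases c <;> decide

theorem Gen.rel65 (hg : Gen X) (h6 : ∀ A ∈ X, A.card = 6) {A B : Finset V} (hA : A ∈ X)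
    (hB : B ∈ X) : Nat.testBit 65 (A ∩ B).card = true := by
  rcases hg A hA B hB with e | e
  · subst e
    rw [inter_self, h6 A hA]
    decide
  · rw [disjoint_iff_inter_eq_empty.1 e, card_empty]
    decide

theorem rel2 {A B : Finset V} (h : (A ∩ B).card = 1) : Nat.testBit 2 (A ∩ B).card = true := by
  rw [h]
  decide

theorem rel3 {A B : Finset V} (h : (A ∩ B).card ≤ 1) : Nat.testBit 3 (A ∩ B).card = true := by
  generalize (A ∩ B).card = c at h
  interval_cases c <;> decide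

/-- The data carried by a plane `φ` of the third class, seen on `W`: its colour classes `K`,
its common transversal `τ` with `W`. -/
structure Col (W : Finset V) (D E F : Finset (Finset V)) (τ : Finset V)
    (K : Finset (Finset V)) : Prop where
  sub : ∀ x ∈ K, x ⊆ W ∧ x.card = 6
  cov : ∀ s ∈ W, ∃ x ∈ K, s ∈ x
  gen : Gen K
  xE : Cross K E
  xF : Cross K F
  xt : ∀ x ∈ K, (x ∩ τ).card = 1
  tri : ∀ x ∈ K, ∀ z ∈ D, ∀ p, p ∈ x → p ∈ τ → p ∈ z → ∀ q, q ∈ x → q ∈ z → q = p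

/-- `b` is the colour class number `c` of some plane that has a cover by transversals -/
def Ext (W : Finset V) (D E F : Finset (Finset V)) (c b : Finset V) : Prop :=
  ∃ (τ : Finset V) (K Y : Finset (Finset V)), τ ⊆ W ∧ τ.card = 6 ∧
    Cross {τ} D ∧ Cross {τ} E ∧ Cross {τ} F ∧ Col W D E F τ K ∧ b ∈ K ∧
    (∃ p, p ∈ b ∧ p ∈ τ ∧ p ∈ c) ∧ (∀ y ∈ Y, y ⊆ W ∧ y.card = 6) ∧ (∀ s ∈ W, ∃ y ∈ Y, s ∈ y) ∧
    Cross Y E ∧ Cross Y F ∧ Cross Y K

/-- every section in direction `D` has a third class that is not genuine -/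
def Dir (W : Finset V) (D E F : Finset (Finset V)) : Prop :=
  ∀ c ∈ D, ∃ Φ Ψ : Finset (Finset V), Net W E F Φ Ψ ∧ ¬ Gen Φ ∧ c ∈ Ψ ∧ ∀ b ∈ Φ, Ext W D E F c b

/-- the planar facts used by the five dimensional argument -/
structure Planar : Prop where
  f1 : ∀ (V : Type) [DecidableEq V] (W : Finset V) (X0 X1 X2 X3 : Finset (Finset V)),
    Net W X0 X1 X2 X3 → ¬ Gen X1 → ¬ Gen X2 → ¬ Gen X3 → False
  f2 : ∀ (V : Type) [DecidableEq V] (W : Finset V) (X0 X1 X2 X3 : Finset (Finset V)),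
    Net W X0 X1 X2 X3 → ∀ b ∈ X1, ∀ c ∈ X2,
    (∀ A ∈ X0, ∀ A' ∈ X0, A ∩ b = A' ∩ b ↔ A ∩ c = A' ∩ c) → Gen X0
  s5 : ∀ (V : Type) [DecidableEq V] (W : Finset V) (D E F X : Finset (Finset V)),
    Net W E D F X → Gen E → Gen D → ∀ τ ∈ X, ∀ K, Col W D E F τ K → Gen F
  tarry : ∀ (V : Type) [DecidableEq V] (W : Finset V) (X0 X1 X2 X3 : Finset (Finset V)),
    Net W X0 X1 X2 X3 → Gen X0 → Gen X1 → Gen X2 → Gen X3 → False
  end6 : ∀ (V : Type) [DecidableEq V] (W : Finset V) (X0 X1 X2 X3 : Finset (Finset V)),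
    Net W X0 X1 X2 X3 → Gen X0 → Gen X1 → Gen X2 → Dir W X0 X1 X2 → Dir W X1 X0 X2 → False

end Pool.Agent.P.MP_9e9aa3_co
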