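import Pool.Agent.P.MP_9e9aa3_co.Eng
set_option autoImplicit false

namespace Pool.Agent.P.MP_9e9aa3_co.E

def sp1 : Spec where
  n := 18
  k := [6,3,3,3]
  rels := [(0,0,78), (0,1,2), (0,2,2), (0,3,2), (1,2,3), (1,3,3), (2,3,3)]
  cov := 15
  tw := 15
  hs := [3,6,6,6]
  lo := [0,0,0,0]
  c2 := 1
  two := [[],[],[],[]]
  tri := []


def sp222x : Spec where
  n := 36
  k := [6,6,6,6,6,6,6,6,6,6]
  rels := [(0,0,65), (1,1,79), (2,2,79), (3,3,79), (0,1,2), (0,2,2), (0,3,2), (1,2,2), (1,3,2), (2,3,2), (4,0,2), (4,1,65), (4,2,2), (4,3,2), (4,5,1), (4,6,2), (4,7,2), (4,8,2), (4,9,2), (5,0,2), (5,1,65), (5,2,2), (5,3,2), (5,6,2), (5,7,2), (5,8,2), (5,9,2), (6,0,2), (6,1,2), (6,2,65), (6,3,2), (6,7,1), (6,8,2), (6,9,2), (7,0,2), (7,1,2), (7,2,65), (7,3,2), (7,8,2), (7,9,2), (8,0,2), (8,1,2), (8,2,2), (8,3,65), (8,9,1), (9,0,2), (9,1,2), (9,2,2), (9,3,65)]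
  cov := 15
  tw := 14
  hs := [0,6,6,6,0,0,0,0,0,0]
  lo := [0,0,0,0,1,1,1,1,0,0]
  c2 := 6
  two := [[],[4,5],[6,7],[],[],[],[],[],[],[]]
  tri := []


def sp2211 : Spec where
  n := 36
  k := [6,6,6,6,6,6,6,6,6,6]
  rels := [(0,0,65), (1,1,79), (2,2,79), (3,3,79), (0,1,2), (0,2,2), (0,3,2), (1,2,2), (1,3,2), (2,3,2), (4,0,2), (4,1,65), (4,2,2), (4,3,2), (4,5,1), (4,6,2), (4,7,2), (4,8,2), (4,9,2), (5,0,2), (5,1,65), (5,2,2), (5,3,2), (5,6,2), (5,7,2), (5,8,2), (5,9,2), (6,0,2), (6,1,2), (6,2,65), (6,3,2), (6,7,1), (6,8,2), (6,9,2), (7,0,2), (7,1,2), (7,2,65), (7,3,2), (7,8,2), (7,9,2), (8,0,2), (8,1,2), (8,2,2), (8,3,65), (8,9,1), (9,0,2), (9,1,2), (9,2,2), (9,3,65)]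
  cov := 15
  tw := 14
  hs := [0,6,6,6,0,0,0,0,0,0]
  lo := [0,0,0,0,1,1,1,0,1,0]
  c2 := 14
  two := [[],[4,5],[6],[8],[],[],[],[],[],[]]
  tri := []


def sp2210 : Spec where
  n := 36
  k := [6,6,6,6,6,6,6,6,6,6]
  rels := [(0,0,65), (1,1,79), (2,2,79), (3,3,79), (0,1,2), (0,2,2), (0,3,2), (1,2,2), (1,3,2), (2,3,2), (4,0,2), (4,1,65), (4,2,2), (4,3,2), (4,5,1), (4,6,2), (4,7,2), (4,8,2), (4,9,2), (5,0,2), (5,1,65), (5,2,2), (5,3,2), (5,6,2), (5,7,2), (5,8,2), (5,9,2), (6,0,2), (6,1,2), (6,2,65), (6,3,2), (6,7,1), (6,8,2), (6,9,2), (7,0,2), (7,1,2), (7,2,65), (7,3,2), (7,8,2), (7,9,2), (8,0,2), (8,1,2), (8,2,2), (8,3,65), (8,9,1), (9,0,2), (9,1,2), (9,2,2), (9,3,65)]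
  cov := 15
  tw := 14
  hs := [0,6,6,6,0,0,0,0,0,0]
  lo := [0,0,0,0,1,1,1,0,0,0]
  c2 := 14
  two := [[],[4,5],[6],[],[],[],[],[],[],[]]
  tri := []


def sp2111 : Spec where
  n := 36
  k := [6,6,6,6,6,6,6,6,6,6]
  rels := [(0,0,65), (1,1,79), (2,2,79), (3,3,79), (0,1,2), (0,2,2), (0,3,2), (1,2,2), (1,3,2), (2,3,2), (4,0,2), (4,1,65), (4,2,2), (4,3,2), (4,5,1), (4,6,2), (4,7,2), (4,8,2), (4,9,2), (5,0,2), (5,1,65), (5,2,2), (5,3,2), (5,6,2), (5,7,2), (5,8,2), (5,9,2), (6,0,2), (6,1,2), (6,2,65), (6,3,2), (6,7,1), (6,8,2), (6,9,2), (7,0,2), (7,1,2), (7,2,65), (7,3,2), (7,8,2), (7,9,2), (8,0,2), (8,1,2), (8,2,2), (8,3,65), (8,9,1), (9,0,2), (9,1,2), (9,2,2), (9,3,65)]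
  cov := 15
  tw := 14
  hs := [0,6,6,6,0,0,0,0,0,0]
  lo := [0,0,0,0,1,0,1,0,1,0]
  c2 := 14
  two := [[],[4],[6],[8],[],[],[],[],[],[]]
  tri := []


def sp3 : Spec where
  n := 36
  k := [6,6,6,6,6]
  rels := [(0,0,65), (1,1,65), (2,2,79), (3,3,79), (0,1,2), (0,2,2), (0,3,2), (1,2,2), (1,3,2), (2,3,2), (4,0,2), (4,1,15), (4,2,2), (4,3,2)]
  cov := 15
  tw := 12
  hs := [0,0,6,6,0]
  lo := [0,0,7,7,1]
  c2 := 0
  two := [[],[],[],[],[]]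
  tri := []


def sp4a : Spec where
  n := 36
  k := [6,6,6,6,2,6,6,1]
  rels := [(0,0,65), (1,1,65), (2,2,79), (3,3,79), (0,1,2), (0,2,2), (0,3,2), (1,2,2), (1,3,2), (2,3,2), (4,4,5), (4,2,5), (4,0,3), (4,1,3), (4,3,3), (4,5,2), (4,6,2), (5,6,2), (7,5,2), (7,6,2), (7,4,1), (5,0,65), (5,1,2), (5,2,2), (5,3,2), (6,0,2), (6,1,65), (6,2,2), (6,3,2)]
  cov := 15
  tw := 12
  hs := [0,0,6,6,0,0,0,0]
  lo := [0,0,7,0,5,1,1,1]
  c2 := 0
  two := [[],[],[],[],[],[],[],[]]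
  tri := []


def sp4b : Spec where
  n := 36
  k := [6,6,6,6,2,6,6,1]
  rels := [(0,0,65), (1,1,65), (2,2,79), (3,3,79), (0,1,2), (0,2,2), (0,3,2), (1,2,2), (1,3,2), (2,3,2), (4,4,5), (4,2,5), (4,0,3), (4,1,3), (4,3,3), (4,5,2), (4,6,2), (5,6,2), (7,5,2), (7,6,2), (7,4,1), (5,0,65), (5,1,2), (5,2,2), (5,3,2), (6,0,2), (6,1,2), (6,2,2), (6,3,79)]
  cov := 15
  tw := 12
  hs := [0,0,6,6,0,0,0,0]
  lo := [0,0,7,0,5,1,1,1]
  c2 := 0
  two := [[],[],[],[],[],[],[],[]]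
  tri := []


def sp5 : Spec where
  n := 36
  k := [6,6,6,6,6,6]
  rels := [(0,0,65), (1,1,65), (2,2,79), (3,3,79), (0,1,2), (0,2,2), (0,3,2), (1,2,2), (1,3,2), (2,3,2), (4,0,2), (4,1,2), (4,2,2), (4,3,79), (5,5,65), (5,0,2), (5,2,2), (5,4,2)]
  cov := 47
  tw := 12
  hs := [0,0,6,6,0,0]
  lo := [0,0,7,0,1,0]
  c2 := 0
  two := [[],[],[],[],[],[]]
  tri := [(5,4,1)]


def sp6c : Spec where
  n := 36
  k := [6,6,6,6]
  rels := [(0,0,65), (1,1,65), (2,2,65), (3,3,79), (0,1,2), (0,2,2), (0,3,2), (1,2,2), (1,3,2), (2,3,2)]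
  cov := 15
  tw := 8
  hs := [0,0,0,6]
  lo := [0,0,0,0]
  c2 := 0
  two := [[],[],[],[]]
  tri := []

def fr0 : Cfg := [(1,1090785345),(1,2181570690),(1,4363141380),(1,8726282760),(1,17452565520),(1,34905131040),(0,63),(0,4032),(0,258048),(0,16515072),(0,1056964608),(0,67645734912),(2,34630287489),(2,4437639234),(2,2688553476),(2,17213817096),(2,8607770640),(2,1141408800)]
def fr1 : Cfg := [(0,1090785345),(0,2181570690),(0,4363141380),(0,8726282760),(0,17452565520),(0,34905131040),(1,63),(1,4032),(1,258048),(1,16515072),(1,1056964608),(1,67645734912),(2,34630287489),(2,4437639234),(2,2688553476),(2,17213817096),(2,8607770640),(2,1141408800)]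
def fr2 : Cfg := [(0,1090785345),(0,2181570690),(0,4363141380),(0,8726282760),(0,17452565520),(0,34905131040),(2,63),(2,4032),(2,258048),(2,16515072),(2,1056964608),(2,67645734912),(1,34630287489),(1,4437639234),(1,2688553476),(1,17213817096),(1,8607770640),(1,1141408800)]
def lam : List Nat := [1115703300,1210065156,1212162184,1212170512,1346380034,1350697488,1611792514,1612777480,2166424584,2214873090,2214920336,2216697928,2282882049,2416248864,2416574544,4312285704,4312400004,4313973280,4332750849,4364179464,4563698192,4563931408,8624029764,8625591298,8631881888,8724431876,8866763784,9127100546,9127395585,17200873602,17205052420,17248030850,17255375361,17449386052,17717805152,17718870096,34377171458,34380775712,34397495392,34401686544,34427176964,34494226976,34495009056,34897690696]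

def sp6t : Spec where
  n := 36
  k := [6,6,6,6]
  rels := [(3,3,65), (3,0,2), (3,1,2), (3,2,2)]
  cov := 8
  tw := 0
  hs := [0,0,0,0]
  lo := [0,0,0,0]
  c2 := 0
  two := [[],[],[],[]]
  tri := []


def sp6l : Spec where
  n := 36
  k := [6,6,6,6,1,6,6,6,6]
  rels := [(3,0,2), (3,1,2), (3,2,2), (4,3,2), (4,5,2), (4,7,2), (6,6,65), (6,1,2), (6,2,2), (6,3,2), (7,6,65), (7,1,2), (7,2,2), (7,3,2), (8,1,2), (8,2,2), (8,6,2), (8,7,2)]
  cov := 320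
  tw := 0
  hs := [0,0,0,0,0,0,0,0,0]
  lo := [0,0,0,1,1,0,0,1,0]
  c2 := 0
  two := [[],[],[],[],[],[],[],[],[]]
  tri := [(6,3,0), (7,3,0)]


def sp6b : Spec where
  n := 36
  k := [6,6,6,6]
  rels := [(2,2,79), (3,3,79), (2,0,2), (2,1,2), (3,0,2), (3,1,2), (2,3,2)]
  cov := 12
  tw := 12
  hs := [0,0,6,6]
  lo := [0,0,7,0]
  c2 := 0
  two := [[],[],[],[]]
  tri := []


end Pool.Agent.P.MP_9e9aa3_co.E
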