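import Mathlib
import Pool.Agent.P.MP_9e9aa3_co.Specs

set_option autoImplicit false

namespace Pool.Agent.P.MP_9e9aa3_co

open Finset E

/-- `N i` is the family of lines of class `i` on the ground set `G`; the rules listed in `sp` hold. -/
structure Hyp {α : Type} [DecidableEq α] (sp : Spec) (G : Finset α) (N : ℕ → Finset α → Prop) :
    Prop where
  sub : ∀ i x, N i x → x ⊆ G ∧ x.card = getN sp.k i
  rel : ∀ e ∈ sp.rels, ∀ x y, N e.1 x → N e.2.1 y → e.2.2.testBit (x ∩ y).card = true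
  cov : ∀ i, sp.cov.testBit i = true → ∀ s ∈ G, ∃ x, N i x ∧ s ∈ x
  tw : ∀ i, sp.tw.testBit i = true → ∀ u ∈ G, ∀ v, (∀ x, N i x → u ∈ x → v ∈ x) →
    ∀ x, N i x → v ∈ x → u ∈ x
  hs : ∀ i (B : Finset α), B.card < getN sp.hs i → ∃ x, N i x ∧ Disjoint x B
  lo : ∀ i (L : Finset (Finset α)), L.card < getN sp.lo i → ∃ x, N i x ∧ x ∉ L
  two : ∀ i, sp.c2.testBit i = true → ∀ s ∈ G, (∀ c ∈ getL sp.two i, ∃ y, N c y ∧ s ∉ y) →
    ∀ z, ∃ x, N i x ∧ s ∈ x ∧ x ≠ z
  tri : ∀ e ∈ sp.tri, ∀ x y z, N e.1 x → N e.2.1 y → N e.2.2 z →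
    ∀ p, p ∈ x → p ∈ y → p ∈ z → ∀ q, q ∈ x → q ∈ z → q = p

/-- the set of binary digits -/
def dec (m : ℕ) : Finset ℕ := (range m).filter (fun p => m.testBit p = true)

theorem mem_dec {m p : ℕ} : p ∈ dec m ↔ m.testBit p = true := by
  simp only [dec, mem_filter, mem_range, and_iff_right_iff_imp]
  intro h
  exact lt_of_lt_of_le Nat.lt_two_pow_self (Nat.ge_two_pow_of_testBit h)

theorem dec_inj {a b : ℕ} (h : dec a = dec b) : a = b := by
  apply Nat.eq_of_testBit_eq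
  intro i
  have h1 : i ∈ dec a ↔ i ∈ dec b := by rw [h]
  rw [mem_dec, mem_dec] at h1
  cases ha : a.testBit i <;> cases hb : b.testBit i <;> simp_all

theorem exists_dec (x : Finset ℕ) : ∃ m, dec m = x := by
  induction x using Finset.induction_on with
  | empty => exact ⟨0, by simp [dec]⟩
  | insert a s _ ih =>
    obtain ⟨m, hm⟩ := ih
    refine ⟨m ||| 2 ^ a, ?_⟩
    ext p
    rw [mem_dec, Nat.testBit_or, Nat.testBit_two_pow, mem_insert, ← hm, mem_dec]
    by_cases h : a = p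
    · simp [h]
    · simp [h, Ne.symm h]

def mapN {α β : Type} [DecidableEq β] (f : α → β) (N : ℕ → Finset α → Prop) :
    ℕ → Finset β → Prop := fun i y => ∃ x, N i x ∧ x.image f = y

def SubC (F : Cfg) (N : ℕ → Finset ℕ → Prop) : Prop := ∀ e ∈ F, N e.1 (dec e.2)

def NoCfg (sp : Spec) : Prop :=
  ∀ (α : Type) [DecidableEq α] (G : Finset α) (N : ℕ → Finset α → Prop),
    G.card = sp.n → Hyp sp G N → False

theorem image_inter_of_sub {α β : Type} [DecidableEq α] [DecidableEq β] {f : α → β} {G x y : Finset α}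
    (hf : Set.InjOn f G) (hx : x ⊆ G) (hy : y ⊆ G) : x.image f ∩ y.image f = (x ∩ y).image f := by
  ext b
  simp only [mem_inter, mem_image]
  constructor
  · rintro ⟨⟨a, ha, rfl⟩, ⟨c, hc, h⟩⟩
    have : c = a := hf (hy hc) (hx ha) h
    subst this
    exact ⟨c, ⟨ha, hc⟩, rfl⟩
  · rintro ⟨a, ⟨h1, h2⟩, rfl⟩
    exact ⟨⟨a, h1, rfl⟩, ⟨a, h2, rfl⟩⟩

theorem card_image_of_sub {α β : Type} [DecidableEq β] {f : α → β} {G x : Finset α}
    (hf : Set.InjOn f G) (hx : x ⊆ G) : (x.image f).card = x.card :=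
  card_image_of_injOn (hf.mono (by exact_mod_cast hx))

theorem mem_image_of_sub {α β : Type} [DecidableEq β] {f : α → β} {G x : Finset α}
    (hf : Set.InjOn f G) (hx : x ⊆ G) {a : α} (ha : a ∈ G) : f a ∈ x.image f ↔ a ∈ x := by
  constructor
  · intro h
    obtain ⟨c, hc, h⟩ := mem_image.1 h
    have : c = a := hf (hx hc) ha h
    exact this ▸ hc
  · exact mem_image_of_mem f

theorem Hyp.map {α β : Type} [DecidableEq α] [DecidableEq β] {sp : Spec} {G : Finset α}
    {N : ℕ → Finset α → Prop} (h : Hyp sp G N) {f : α → β} (hf : Set.InjOn f G) :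
    Hyp sp (G.image f) (mapN f N) := by
  classical
  refine ⟨?_, ?_, ?_, ?_, ?_, ?_, ?_, ?_⟩
  · rintro i _ ⟨x, hx, rfl⟩
    exact ⟨image_subset_image (h.sub i x hx).1,
      by rw [card_image_of_sub hf (h.sub i x hx).1, (h.sub i x hx).2]⟩
  · rintro e he _ _ ⟨x, hx, rfl⟩ ⟨y, hy, rfl⟩
    rw [image_inter_of_sub hf (h.sub _ x hx).1 (h.sub _ y hy).1,
      card_image_of_sub hf (inter_subset_left.trans (h.sub _ x hx).1)]
    exact h.rel e he x y hx hy
  · intro i hi s hs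
    obtain ⟨a, ha, rfl⟩ := mem_image.1 hs
    obtain ⟨x, hx, hax⟩ := h.cov i hi a ha
    exact ⟨_, ⟨x, hx, rfl⟩, mem_image_of_mem f hax⟩
  · rintro i hi u hu v huv _ ⟨x, hx, rfl⟩ hv
    obtain ⟨a, ha, rfl⟩ := mem_image.1 hu
    obtain ⟨b, hb, rfl⟩ := mem_image.1 hv
    have hbG := (h.sub _ x hx).1 hb
    refine mem_image_of_mem f (h.tw i hi a ha b (fun y hy hay => ?_) x hx hb)
    exact (mem_image_of_sub hf (h.sub _ y hy).1 hbG).1 (huv _ ⟨y, hy, rfl⟩ (mem_image_of_mem f hay))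
  · intro i B hB
    have hc : (G.filter (fun a => f a ∈ B)).card ≤ B.card := by
      apply card_le_card_of_injOn f
      · intro a ha
        exact (mem_filter.1 ha).2
      · exact hf.mono (by exact_mod_cast filter_subset _ _)
    obtain ⟨x, hx, hd⟩ := h.hs i _ (lt_of_le_of_lt hc hB)
    refine ⟨_, ⟨x, hx, rfl⟩, disjoint_left.2 fun b hb hbB => ?_⟩
    obtain ⟨a, ha, rfl⟩ := mem_image.1 hb
    exact disjoint_left.1 hd ha (mem_filter.2 ⟨(h.sub _ x hx).1 ha, hbB⟩)
  · intro i L hL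
    have hc : (G.powerset.filter (fun a => a.image f ∈ L)).card ≤ L.card := by
      apply card_le_card_of_injOn (fun a => a.image f)
      · intro a ha
        exact (mem_filter.1 ha).2
      · intro a ha b hb hab
        have ha' := mem_powerset.1 (mem_filter.1 ha).1
        have hb' := mem_powerset.1 (mem_filter.1 hb).1
        have hab' : a.image f = b.image f := hab
        ext c
        constructor
        · intro hc
          exact (mem_image_of_sub hf hb' (ha' hc)).1 (hab' ▸ mem_image_of_mem f hc)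
        · intro hc
          exact (mem_image_of_sub hf ha' (hb' hc)).1 (hab'.symm ▸ mem_image_of_mem f hc)
    obtain ⟨x, hx, hd⟩ := h.lo i _ (lt_of_le_of_lt hc hL)
    exact ⟨_, ⟨x, hx, rfl⟩, fun hm => hd (mem_filter.2 ⟨mem_powerset.2 (h.sub _ x hx).1, hm⟩)⟩
  · intro i hi s hs hc z
    obtain ⟨a, ha, rfl⟩ := mem_image.1 hs
    have hc' : ∀ c ∈ getL sp.two i, ∃ y, N c y ∧ a ∉ y := by
      intro c hcm
      obtain ⟨_, ⟨y, hy, rfl⟩, hay⟩ := hc c hcm
      exact ⟨y, hy, fun h => hay (mem_image_of_mem f h)⟩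
    obtain ⟨x, hx, hax, hne⟩ := h.two i hi a ha hc' (G.filter (fun a => f a ∈ z))
    refine ⟨_, ⟨x, hx, rfl⟩, mem_image_of_mem f hax, fun he => hne ?_⟩
    ext c
    rw [mem_filter, ← he]
    constructor
    · intro hc
      exact ⟨(h.sub _ x hx).1 hc, mem_image_of_mem f hc⟩
    · rintro ⟨h1, h2⟩
      exact (mem_image_of_sub hf (h.sub _ x hx).1 h1).1 h2
  · rintro e he _ _ _ ⟨x, hx, rfl⟩ ⟨y, hy, rfl⟩ ⟨z, hz, rfl⟩ p hpx hpy hpz q hqx hqz
    obtain ⟨a, ha, rfl⟩ := mem_image.1 hpx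
    obtain ⟨b, hb, rfl⟩ := mem_image.1 hqx
    have haG := (h.sub _ x hx).1 ha
    have hbG := (h.sub _ x hx).1 hb
    rw [h.tri e he x y z hx hy hz a ha ((mem_image_of_sub hf (h.sub _ y hy).1 haG).1 hpy)
      ((mem_image_of_sub hf (h.sub _ z hz).1 haG).1 hpz) b hb
      ((mem_image_of_sub hf (h.sub _ z hz).1 hbG).1 hqz)]

/-- the base configuration of the last search -/
def frb : Cfg := [(0,63),(0,4032),(0,258048),(0,16515072),(0,1056964608),(0,67645734912),
  (1,34630287489),(1,4437639234),(1,2688553476),(1,17213817096),(1,8607770640),(1,1141408800),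
  (3,1090785345)]

/-- everything that the certificates prove -/
structure Facts : Prop where
  s1 : NoCfg sp1
  s222 : NoCfg sp222x
  s211 : NoCfg sp2211
  s210 : NoCfg sp2210
  s111 : NoCfg sp2111
  s3 : NoCfg sp3
  s4a : NoCfg sp4a
  s4b : NoCfg sp4b
  s5 : NoCfg sp5
  s6c : ∀ (α : Type) [DecidableEq α] (G : Finset α) (N : ℕ → Finset α → Prop),
    G.card = 36 → Hyp sp6c G N → ∃ f : α → ℕ, Set.InjOn f G ∧ G.image f = range 36 ∧
      (SubC fr0 (mapN f N) ∨ SubC fr1 (mapN f N) ∨ SubC fr2 (mapN f N))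
  s6t : ∀ N, Hyp sp6t (range 36) N → SubC fr1 N → False
  s6l : ∀ N, Hyp sp6l (range 36) N → SubC (fr1 ++ [(5, 1090785345)]) N →
    (∀ m, N 7 (dec m) → m ∉ lam) → False
  s6b : ∀ N, Hyp sp6b (range 36) N → SubC frb N → (∀ m, N 2 (dec m) → m ∈ lam) → False

end Pool.Agent.P.MP_9e9aa3_co
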