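import Pool.Agent.P.MP_9e9aa3_co.Sem

set_option autoImplicit false

namespace Pool.Agent.P.MP_9e9aa3_co

open Finset E

theorem fold_ind {β γ : Type} {b : γ} {g : β → γ → γ} {P : List β → γ → Prop} (hb : P [] b)
    (hg : ∀ e l r, P l r → P (e :: l) (g e r)) (l : List β) :
    P l (List.rec (motive := fun _ => γ) b (fun e _ ih => g e ih) l) := by
  induction l with
  | nil => exact hb
  | cons e l ih => exact hg e l _ ih

theorem force_eq (n : ℕ) (f : ℕ → ℕ) : force n f = f n := by cases n <;> rfl

theorem brec_beq {α : Type} (a b : ℕ) (x y : α) :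
    (Bool.rec y x (Nat.beq a b) : α) = if a = b then x else y := by
  by_cases h : a = b
  · subst h
    rw [Nat.beq_refl, if_pos rfl]
  · have : Nat.beq a b = false := by
      cases e : Nat.beq a b
      · rfl
      · exact absurd (Nat.eq_of_beq_eq_true e) h
    rw [this, if_neg h]

theorem cz_eq (a x y : ℕ) : cz a x y = if a = 0 then x else y := brec_beq a 0 x y

theorem ceq_eq (a b x y : ℕ) : ceq a b x y = if a = b then x else y := brec_beq a b x y

theorem cle_eq (a b x y : ℕ) : cle a b x y = if a ≤ b then x else y := by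
  unfold cle
  by_cases h : a ≤ b
  · rw [Nat.ble_eq_true_of_le h, if_pos h]
  · have : Nat.ble a b = false := by
      cases e : Nat.ble a b
      · rfl
      · exact absurd (Nat.le_of_ble_eq_true e) h
    rw [this, if_neg h]

theorem cz_ne {a x : ℕ} (h : cz a 0 x ≠ 0) : a ≠ 0 ∧ x ≠ 0 := by
  rw [cz_eq] at h
  split_ifs at h with e
  · exact absurd rfl h
  · exact ⟨e, h⟩

theorem cz_ne' {a x : ℕ} (h : cz a x 0 ≠ 0) : a = 0 ∧ x ≠ 0 := by
  rw [cz_eq] at h
  split_ifs at h with e
  · exact ⟨e, h⟩
  · exact absurd rfl h

theorem ceq_ne {a b x : ℕ} (h : ceq a b x 0 ≠ 0) : a = b ∧ x ≠ 0 := by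
  rw [ceq_eq] at h
  split_ifs at h with e
  · exact ⟨e, h⟩
  · exact absurd rfl h

theorem cle_ne {a b x : ℕ} (h : cle a b 0 x ≠ 0) : b < a ∧ x ≠ 0 := by
  rw [cle_eq] at h
  split_ifs at h with e
  · exact absurd rfl h
  · exact ⟨not_le.1 e, h⟩

theorem sq_ne {s : ℕ} {f : ℕ → ℕ} (h : E.sq s f ≠ 0) : s ≠ 0 ∧ ∃ t, f t ≠ 0 := by
  unfold E.sq at h
  rw [brec_beq] at h
  split_ifs at h with e
  · exact absurd rfl h
  · exact ⟨e, _, h⟩

theorem ble_one {a : ℕ} (h : Nat.ble 1 a = true) : a ≠ 0 := by
  have := Nat.le_of_ble_eq_true h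
  omega

theorem tb_land (a b k : ℕ) : (Nat.land a b).testBit k = (a.testBit k && b.testBit k) :=
  Nat.testBit_and a b k

theorem tb_lor (a b k : ℕ) : (Nat.lor a b).testBit k = (a.testBit k || b.testBit k) :=
  Nat.testBit_or a b k

theorem tb_xor (a b k : ℕ) : (Nat.xor a b).testBit k = (a.testBit k ^^ b.testBit k) :=
  Nat.testBit_xor a b k

theorem tb_andn (a b k : ℕ) : (andn a b).testBit k = (a.testBit k && !b.testBit k) := by
  unfold andn
  rw [tb_xor, tb_land]
  cases a.testBit k <;> cases b.testBit k <;> rfl

theorem bit_eq (k : ℕ) : bit k = 2 ^ k := Nat.one_shiftLeft k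

theorem tb_bit (k j : ℕ) : (bit k).testBit j = decide (k = j) := by
  rw [bit_eq, Nat.testBit_two_pow]

theorem tb_bit_sub (k j : ℕ) : (Nat.sub (bit k) 1).testBit j = decide (j < k) := by
  rw [bit_eq]
  exact Nat.testBit_two_pow_sub_one k j

theorem zero_tb {a : ℕ} (h : a = 0) (k : ℕ) : a.testBit k = false := by
  rw [h, Nat.zero_testBit]

theorem ne_zero_tb {a : ℕ} (h : a ≠ 0) : ∃ k, a.testBit k = true := Nat.exists_testBit_of_ne_zero h

theorem eq_zero_of_tb {a : ℕ} (h : ∀ k, a.testBit k = false) : a = 0 :=
  Nat.eq_of_testBit_eq fun i => by rw [h i, Nat.zero_testBit]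

theorem land_bit_zero (a k : ℕ) : Nat.land a (bit k) = 0 ↔ a.testBit k = false := by
  constructor
  · intro h
    have := zero_tb h k
    rw [tb_land, tb_bit] at this
    simpa using this
  · intro h
    apply eq_zero_of_tb
    intro j
    rw [tb_land, tb_bit]
    by_cases e : k = j
    · subst e
      simp [h]
    · simp [e]

theorem land_bit_ne (a k : ℕ) : Nat.land a (bit k) ≠ 0 ↔ a.testBit k = true := by
  rw [Ne, land_bit_zero]
  simp

theorem tb_zero (a k : ℕ) : tb a k = 0 ↔ a.testBit k = false := by
  unfold tb
  have h : Nat.land (Nat.shiftRight a k) 1 = (a.testBit k).toNat := by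
    show (a >>> k) &&& 1 = _
    rw [Nat.and_one_is_mod, Nat.toNat_testBit, Nat.shiftRight_eq_div_pow]
  rw [h]
  cases a.testBit k <;> simp

theorem tb_val (a k : ℕ) : tb a k = if a.testBit k = true then 1 else 0 := by
  unfold tb
  have h : Nat.land (Nat.shiftRight a k) 1 = (a.testBit k).toNat := by
    show (a >>> k) &&& 1 = _
    rw [Nat.and_one_is_mod, Nat.toNat_testBit, Nat.shiftRight_eq_div_pow]
  rw [h]
  cases a.testBit k <;> simp

theorem tb_ne (a k : ℕ) : tb a k ≠ 0 ↔ a.testBit k = true := by
  rw [Ne, tb_zero]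
  simp

@[simp] theorem getN_nil (i : ℕ) : getN [] i = 0 := rfl
@[simp] theorem getN_zero (a : ℕ) (l : List ℕ) : getN (a :: l) 0 = a := rfl
@[simp] theorem getN_succ (a : ℕ) (l : List ℕ) (i : ℕ) : getN (a :: l) (i + 1) = getN l i := rfl

theorem getN_ge (l : List ℕ) (i : ℕ) (h : l.length ≤ i) : getN l i = 0 := by
  induction l generalizing i with
  | nil => rfl
  | cons a l ih =>
    cases i with
    | zero => simp at h
    | succ i => exact ih i (by simpa using h)

theorem countP_getN (l : List ℕ) (P : ℕ → Bool) :
    l.countP P = ((range l.length).filter (fun s => P (getN l s) = true)).card := by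
  induction l with
  | nil => simp
  | cons a l ih =>
    rw [List.countP_cons, ih, card_filter, card_filter, List.length_cons, sum_range_succ']
    rfl

theorem le7_ok {l : List ℕ} (h : le7 l ≠ 0) (i : ℕ) : getN l i ≤ 7 := by
  induction l generalizing i with
  | nil => simp
  | cons a l ih =>
    have h' : cle a 7 (le7 l) 0 ≠ 0 := h
    rw [cle_eq] at h'
    split_ifs at h' with e
    · cases i with
      | zero => exact e
      | succ i => exact ih h' i
    · exact absurd rfl h'

theorem lenL_eq (l : List ℕ) : lenL l = l.length := by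
  induction l with
  | nil => rfl
  | cons a l ih => exact congrArg Nat.succ ih

theorem tb_lorL (l : List ℕ) (i k : ℕ) (h : (getN l i).testBit k = true) :
    (lorL l).testBit k = true := by
  induction l generalizing i with
  | nil => simp at h
  | cons a l ih =>
    have : lorL (a :: l) = Nat.lor a (lorL l) := rfl
    rw [this, tb_lor]
    cases i with
    | zero => simp [show a.testBit k = true from h]
    | succ i => simp [ih i h]

theorem disj_ok {l : List ℕ} {u : ℕ} (h : disj l u ≠ 0) :
    (∀ i k, (getN l i).testBit k = true → u.testBit k = false) ∧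
    ∀ i j k, (getN l i).testBit k = true → (getN l j).testBit k = true → i = j := by
  induction l generalizing u with
  | nil => simp
  | cons a l ih =>
    have h' : cz (Nat.land a u) (disj l (Nat.lor a u)) 0 ≠ 0 := h
    obtain ⟨h1, h2⟩ := cz_ne' h'
    obtain ⟨h3, h4⟩ := ih h2
    have h5 : ∀ i k, (getN l i).testBit k = true → a.testBit k = false ∧ u.testBit k = false := by
      intro i k hk
      have := h3 i k hk
      rw [tb_lor] at this
      simpa using this
    constructor
    · intro i k hk
      cases i with
      | zero =>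
        have := zero_tb h1 k
        rw [tb_land, show a.testBit k = true from hk] at this
        simpa using this
      | succ i => exact (h5 i k hk).2
    · intro i j k hi hj
      cases i with
      | zero =>
        cases j with
        | zero => rfl
        | succ j =>
          have := (h5 j k hj).1
          rw [show a.testBit k = true from hi] at this
          exact absurd this (by simp)
      | succ i =>
        cases j with
        | zero =>
          have := (h5 i k hi).1
          rw [show a.testBit k = true from hj] at this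
          exact absurd this (by simp)
        | succ j => rw [h4 i j k hi hj]

theorem pts_eq (n c : ℕ) : pts n c = (List.range n).filter (fun p => c.testBit p) := by
  have h : ∀ l : List ℕ, (Nat.rec (fun l => l) (fun p ih l =>
      Bool.rec (ih (p :: l)) (ih l) (Nat.beq (Nat.land c (bit p)) 0)) n : List ℕ → List ℕ) l =
      (List.range n).filter (fun p => c.testBit p) ++ l := by
    induction n with
    | zero => intro l; rfl
    | succ n ih =>
      intro l
      show (Bool.rec _ _ (Nat.beq (Nat.land c (bit n)) 0) : List ℕ) = _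
      rw [brec_beq, ih, ih, List.range_succ, List.filter_append]
      split_ifs with e
      · rw [land_bit_zero] at e
        simp [e]
      · have := (land_bit_ne c n).1 e
        simp [this]
  unfold pts
  rw [h, List.append_nil]

theorem mem_pts {n c p : ℕ} : p ∈ pts n c ↔ p < n ∧ c.testBit p = true := by
  rw [pts_eq]
  simp

theorem pts_sorted (n c : ℕ) : (pts n c).Pairwise (· < ·) := by
  rw [pts_eq]
  exact List.pairwise_lt_range.filter _

theorem pts_nodup (n c : ℕ) : (pts n c).Nodup := by
  rw [pts_eq]
  exact List.nodup_range.filter _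

def val (x y z q : ℕ) : ℕ := (x.testBit q).toNat + 2 * (y.testBit q).toNat + 4 * (z.testBit q).toNat

theorem cntA_ok (l : List ℕ) (x y z w : ℕ) : ∃ x' y' z' w',
    (∀ f, cntA l f x y z w = f x' y' z' w') ∧ ∀ q,
      val x' y' z' q = (val x y z q + l.countP (fun p => p.testBit q)) % 8 ∧
      (w'.testBit q = false → w.testBit q = false ∧
        val x' y' z' q = val x y z q + l.countP (fun p => p.testBit q)) := by
  induction l generalizing x y z w with
  | nil =>
    refine ⟨x, y, z, w, fun f => rfl, fun q => ?_⟩
    unfold val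
    cases x.testBit q <;> cases y.testBit q <;> cases z.testBit q <;> simp
  | cons p l ih =>
    obtain ⟨x', y', z', w', h1, h2⟩ := ih (Nat.xor x p) (Nat.xor y (Nat.land x p))
      (Nat.xor z (Nat.land y (Nat.land x p))) (Nat.lor w (Nat.land z (Nat.land y (Nat.land x p))))
    refine ⟨x', y', z', w', fun f => h1 f, fun q => ?_⟩
    have h3 := h2 q
    rw [List.countP_cons]
    generalize val x' y' z' q = v at h3 ⊢
    generalize List.countP (fun p => p.testBit q) l = c at h3 ⊢
    unfold val at h3 ⊢
    simp only [tb_xor, tb_land, tb_lor] at h3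
    revert h3
    cases x.testBit q <;> cases y.testBit q <;> cases z.testBit q <;> cases p.testBit q <;>
      cases w.testBit q <;> cases w'.testBit q <;> simp <;> omega

theorem cntS_eq (l : List ℕ) (b : ℕ) (f : ℕ → ℕ → ℕ → ℕ → ℕ) (x y z w : ℕ) :
    cntS l b f x y z w = cntA (l.filter (fun p => Nat.land p b ≠ 0)) f x y z w := by
  induction l generalizing x y z w with
  | nil => rfl
  | cons p l ih =>
    show (Bool.rec (cntS l b f _ _ _ _) (cntS l b f x y z w) (Nat.beq (Nat.land p b) 0) : ℕ) = _
    rw [brec_beq]
    split_ifs with e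
    · rw [List.filter_cons_of_neg (by simpa using e), ih]
    · rw [List.filter_cons_of_pos (by simpa using e), ih]
      rfl

theorem val_zero (q : ℕ) : val 0 0 0 q = 0 := by simp [val]

theorem tb_mux (c a b q : ℕ) :
    (mux c a b).testBit q = if c.testBit q = true then b.testBit q else a.testBit q := by
  unfold mux
  rw [tb_xor, tb_land, tb_xor]
  cases c.testBit q <;> cases a.testBit q <;> cases b.testBit q <;> rfl

theorem tb_mux8 (A : ℕ → ℕ) (x y z q : ℕ) :
    (mux8 A x y z).testBit q = (A (val x y z q)).testBit q := by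
  unfold mux8 val
  simp only [tb_mux]
  cases x.testBit q <;> cases y.testBit q <;> cases z.testBit q <;> simp

theorem tb_uni (ms : List ℕ) (r : ℕ → ℕ) (v q : ℕ) :
    (uni ms r v).testBit q = true ↔ ∃ j, (getN ms j).testBit q = true ∧ (r j).testBit v = true := by
  have h : ∀ j0, ((List.rec (motive := fun _ => ℕ → ℕ) (fun _ => 0)
      (fun m _ ih j => cz (tb (r j) v) (ih (Nat.succ j)) (Nat.lor m (ih (Nat.succ j)))) ms j0).testBit q
        = true ↔ ∃ j, (getN ms j).testBit q = true ∧ (r (j0 + j)).testBit v = true) := by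
    induction ms with
    | nil => intro j0; simp
    | cons m ms ih =>
      intro j0
      show (cz (tb (r j0) v) _ _).testBit q = true ↔ _
      rw [cz_eq]
      split_ifs with e
      · rw [ih, tb_zero] at *
        constructor
        · rintro ⟨j, h1, h2⟩
          exact ⟨j + 1, h1, by rwa [show j0 + (j + 1) = Nat.succ j0 + j by omega]⟩
        · rintro ⟨j, h1, h2⟩
          cases j with
          | zero => simp [e] at h2
          | succ j => exact ⟨j, h1, by rwa [show Nat.succ j0 + j = j0 + (j + 1) by omega]⟩
      · rw [tb_lor, Bool.or_eq_true, ih]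
        have e' := (tb_ne _ _).1 e
        constructor
        · rintro (h | ⟨j, h1, h2⟩)
          · exact ⟨0, h, e'⟩
          · exact ⟨j + 1, h1, by rwa [show j0 + (j + 1) = Nat.succ j0 + j by omega]⟩
        · rintro ⟨j, h1, h2⟩
          cases j with
          | zero => exact Or.inl h1
          | succ j => exact Or.inr ⟨j, h1, by rwa [show Nat.succ j0 + j = j0 + (j + 1) by omega]⟩
  unfold uni
  rw [h]
  simp

theorem clsOf_ok (ms : List ℕ) (i k : ℕ) (h : (getN ms i).testBit k = true) :
    (getN ms (clsOf ms (bit k))).testBit k = true := by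
  induction ms generalizing i with
  | nil => simp at h
  | cons m ms ih =>
    have : clsOf (m :: ms) (bit k) = cz (Nat.land m (bit k)) (Nat.succ (clsOf ms (bit k))) 0 := rfl
    rw [this, cz_eq]
    split_ifs with e
    · rw [land_bit_zero] at e
      cases i with
      | zero => rw [show m.testBit k = true from h] at e; exact absurd e (by simp)
      | succ i => exact ih i h
    · exact (land_bit_ne _ _).1 e

theorem relF_ok {α : Type} [DecidableEq α] {sp : Spec} {G : Finset α} {N : ℕ → Finset α → Prop}
    (h : Hyp sp G N) (k7 : ∀ i, getN sp.k i ≤ 7) {i j : ℕ} {x y : Finset α} (hx : N i x)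
    (hy : N j y) : (relF sp i j).testBit (x ∩ y).card = true := by
  have h1 : ∀ e ∈ sp.rels, ∀ x y, N e.1 x → N e.2.1 y → e.2.2.testBit (x ∩ y).card = true := h.rel
  unfold relF
  refine fold_ind (P := fun (l : List (ℕ × ℕ × ℕ)) (r : ℕ) => (∀ e ∈ l, ∀ x y, N e.1 x → N e.2.1 y →
    e.2.2.testBit (x ∩ y).card = true) → r.testBit (x ∩ y).card = true) ?_ ?_ sp.rels h1
  · intro _
    have h2 : (x ∩ y).card ≤ 7 := (card_le_card inter_subset_left).trans ((h.sub i x hx).2 ▸ k7 i)
    generalize (x ∩ y).card = c at h2
    interval_cases c <;> decide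
  · intro e l r ih h1
    have ih' := ih fun e he => h1 e (List.mem_cons_of_mem _ he)
    have h2 := h1 e List.mem_cons_self
    simp only [ceq_eq]
    split_ifs with a b c d c d
    · rw [tb_land, ih', h2 x y (a ▸ hx) (b ▸ hy)]; rfl
    · rw [tb_land, ih', inter_comm, h2 y x (c ▸ hy) (d ▸ hx)]; rfl
    · exact ih'
    · exact ih'
    · rw [tb_land, ih', inter_comm, h2 y x (c ▸ hy) (d ▸ hx)]; rfl
    · exact ih'
    · exact ih'

theorem sub_one_tb (Y : ℕ) : ∃ p, ∀ q, q ≠ p → Y.testBit q = true → (Y - 1).testBit q = true := by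
  induction Y using Nat.strong_induction_on with
  | _ Y ih =>
    rcases Nat.eq_zero_or_pos Y with rfl | hY
    · exact ⟨0, by simp⟩
    by_cases e : Y % 2 = 1
    · refine ⟨0, fun q hq h => ?_⟩
      obtain ⟨q, rfl⟩ := Nat.exists_eq_succ_of_ne_zero hq
      rw [Nat.testBit_succ] at h ⊢
      rwa [show (Y - 1) / 2 = Y / 2 by omega]
    · obtain ⟨p, hp⟩ := ih (Y / 2) (by omega)
      refine ⟨p + 1, fun q hq h => ?_⟩
      cases q with
      | zero =>
        rw [Nat.testBit_zero] at h
        simp at h
        omega
      | succ q =>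
        rw [Nat.testBit_succ] at h ⊢
        rw [show (Y - 1) / 2 = Y / 2 - 1 by omega]
        exact hp q (by omega) h

theorem clr_card (Y r : ℕ) : (dec Y).card ≤ (dec (clr Y r)).card + r := by
  induction r with
  | zero => exact le_refl _
  | succ r ih =>
    have e : clr Y (r + 1) = Nat.land (clr Y r) (Nat.sub (clr Y r) 1) := rfl
    obtain ⟨p, hp⟩ := sub_one_tb (clr Y r)
    have h : dec (clr Y r) ⊆ insert p (dec (clr Y (r + 1))) := by
      intro q hq
      rw [mem_insert, mem_dec, e, tb_land]
      rw [mem_dec] at hq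
      by_cases h : q = p
      · exact Or.inl h
      · right
        rw [hq]
        exact hp q h hq
    have := (card_le_card h).trans (card_insert_le _ _)
    omega

theorem clr_ok {Y r : ℕ} (h : clr Y r = 0) : (dec Y).card ≤ r := by
  have := clr_card Y r
  rw [h] at this
  simpa [dec] using this

end Pool.Agent.P.MP_9e9aa3_co
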