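import Pool.Agent.P.MP_9e9aa3_co.Snd1

set_option autoImplicit false

namespace Pool.Agent.P.MP_9e9aa3_co

open Finset E

abbrev Fam := ℕ → Finset ℕ → Prop

structure GoodD (sp : Spec) (sym : ℕ) (Gd : Fam → Prop) : Prop where
  hyp : ∀ N, Gd N → Hyp sp (range sp.n) N
  inv : sym ≠ 0 → ∀ f : ℕ → ℕ, Set.InjOn f (range sp.n) → (range sp.n).image f = range sp.n →
    ∀ N, Gd N → Gd (mapN f N)

theorem mem_swap {a b p : ℕ} {x : Finset ℕ} :
    p ∈ x.image (Equiv.swap a b) ↔ Equiv.swap a b p ∈ x := by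
  rw [mem_image]
  constructor
  · rintro ⟨q, hq, rfl⟩
    rwa [Equiv.swap_apply_self]
  · intro h
    exact ⟨_, h, Equiv.swap_apply_self _ _ _⟩

theorem swap_fix {a b : ℕ} {y : Finset ℕ} (h : a ∈ y ↔ b ∈ y) : y.image (Equiv.swap a b) = y := by
  ext p
  rw [mem_swap, Equiv.swap_apply_def]
  split_ifs with h1 h2
  · rw [h1, h]
  · rw [h2, h]
  · rfl

theorem swap_eq {a b : ℕ} {x : Finset ℕ} (ha : a ∉ x) (hb : b ∈ x) :
    x.image (Equiv.swap a b) = insert a (x.erase b) := by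
  ext p
  rw [mem_swap, Equiv.swap_apply_def, mem_insert, mem_erase]
  split_ifs with h1 h2
  · simp [h1, hb]
  · simp [h2, ha]
    exact fun h => h1 (h2.trans h)
  · simp [h1, h2]

theorem swap_step {sp : Spec} {sym : ℕ} {Gd : Fam → Prop} (gd : GoodD sp sym Gd) (hs : sym ≠ 0)
    {𝔽 : Fam} {a b : ℕ} (ha : a < sp.n) (hb : b < sp.n) (htw : ∀ j y, 𝔽 j y → (a ∈ y ↔ b ∈ y))
    {N : Fam} (hN : Gd N) (hF : ∀ j y, 𝔽 j y → N j y) {i : ℕ} {x : Finset ℕ} (hx : N i x) :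
    ∃ N', Gd N' ∧ (∀ j y, 𝔽 j y → N' j y) ∧ N' i (x.image (Equiv.swap a b)) := by
  refine ⟨mapN (Equiv.swap a b) N, gd.inv hs _ (Equiv.injective _).injOn ?_ N hN, ?_, x, hx, rfl⟩
  · exact swap_fix (by simp [ha, hb])
  · intro j y hy
    exact ⟨y, hF j y hy, swap_fix (htw j y hy)⟩

/-- the cells consist of twins -/
structure Cells (n sym : ℕ) (𝔽 : Fam) (cs : Finset ℕ → Prop) : Prop where
  sy : ∀ c, cs c → sym ≠ 0
  sub : ∀ c, cs c → ∀ a ∈ c, a < n
  tw : ∀ c, cs c → ∀ a ∈ c, ∀ b ∈ c, ∀ j y, 𝔽 j y → (a ∈ y ↔ b ∈ y)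

theorem wlog_can {sp : Spec} {sym : ℕ} {Gd : Fam → Prop} (gd : GoodD sp sym Gd) {𝔽 : Fam}
    {cs : Finset ℕ → Prop} (hc : Cells sp.n sym 𝔽 cs) {Q : Finset ℕ → Prop}
    (hQ : ∀ c, cs c → ∀ a ∈ c, ∀ b ∈ c, a < b → ∀ x, b ∈ x → a ∉ x → Q x →
      Q (x.image (Equiv.swap a b))) (i : ℕ) (x : Finset ℕ) :
    ∀ N, Gd N → (∀ j y, 𝔽 j y → N j y) → N i x → Q x →
      ∃ N' x', Gd N' ∧ (∀ j y, 𝔽 j y → N' j y) ∧ N' i x' ∧ Q x' ∧
        ∀ c, cs c → ∀ a ∈ c, ∀ b ∈ c, a < b → b ∈ x' → a ∈ x' := by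
  induction h : ∑ p ∈ x, p using Nat.strong_induction_on generalizing x with
  | _ m ih =>
    intro N hN hF hx hq
    by_cases e : ∀ c, cs c → ∀ a ∈ c, ∀ b ∈ c, a < b → b ∈ x → a ∈ x
    · exact ⟨N, x, hN, hF, hx, hq, e⟩
    · push Not at e
      obtain ⟨c, hcc, a, ha, b, hb, hab, hbx, hax⟩ := e
      obtain ⟨N', h1, h2, h3⟩ := swap_step gd (hc.sy c hcc) (hc.sub c hcc a ha) (hc.sub c hcc b hb)
        (hc.tw c hcc a ha b hb) hN hF hx
      refine ih _ ?_ _ rfl N' h1 h2 h3 (hQ c hcc a ha b hb hab x hbx hax hq)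
      rw [swap_eq hax hbx, sum_insert (fun hm => hax (mem_of_mem_erase hm)), ← h,
        ← add_sum_erase x (fun p => p) hbx]
      omega

theorem orbit_kill {sp : Spec} {sym : ℕ} {Gd : Fam → Prop} (gd : GoodD sp sym Gd) {𝔽 : Fam}
    {cs : Finset ℕ → Prop} (hc : Cells sp.n sym 𝔽 cs)
    (hd : ∀ c d, cs c → cs d → c = d ∨ Disjoint c d) {i : ℕ} {y : Finset ℕ}
    (hy : ∀ N, Gd N → (∀ j y, 𝔽 j y → N j y) → ¬ N i y) (x : Finset ℕ) :
    (∀ c, cs c → (x ∩ c).card = (y ∩ c).card) → (∀ p, (∀ c, cs c → p ∉ c) → (p ∈ x ↔ p ∈ y)) →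
    ∀ N, Gd N → (∀ j y, 𝔽 j y → N j y) → ¬ N i x := by
  induction h : (x \ y).card using Nat.strong_induction_on generalizing x with
  | _ m ih =>
    intro h1 h2 N hN hF hx
    by_cases e : x ⊆ y
    · have : x = y := by
        refine Subset.antisymm e fun p hp => ?_
        by_cases hp' : ∀ c, cs c → p ∉ c
        · exact (h2 p hp').2 hp
        · push Not at hp'
          obtain ⟨c, hcc, hpc⟩ := hp'
          have := eq_of_subset_of_card_le (inter_subset_inter_right (u := c) e) (h1 c hcc).ge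
          have h3 : p ∈ x ∩ c := this ▸ mem_inter.2 ⟨hp, hpc⟩
          exact (mem_inter.1 h3).1
      exact hy N hN hF (this ▸ hx)
    · obtain ⟨b, hbx, hby⟩ := not_subset.1 e
      have hb : ∃ c, cs c ∧ b ∈ c := by
        by_contra hn
        push Not at hn
        exact hby ((h2 b hn).1 hbx)
      obtain ⟨c, hcc, hbc⟩ := hb
      have ha : ¬ y ∩ c ⊆ x ∩ c := by
        intro hs
        have := eq_of_subset_of_card_le hs (h1 c hcc).le
        have h3 : b ∈ y ∩ c := this ▸ mem_inter.2 ⟨hbx, hbc⟩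
        exact hby (mem_inter.1 h3).1
      obtain ⟨a, ha1, ha2⟩ := not_subset.1 ha
      have hay := (mem_inter.1 ha1).1
      have hac := (mem_inter.1 ha1).2
      have hax : a ∉ x := fun h => ha2 (mem_inter.2 ⟨h, hac⟩)
      obtain ⟨N', g1, g2, g3⟩ := swap_step gd (hc.sy c hcc) (hc.sub c hcc a hac) (hc.sub c hcc b hbc)
        (hc.tw c hcc a hac b hbc) hN hF hx
      refine ih _ ?_ _ rfl ?_ ?_ N' g1 g2 g3
      · rw [swap_eq hax hbx, insert_sdiff_of_mem _ hay, ← h]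
        refine card_lt_card ⟨sdiff_subset_sdiff (erase_subset _ _) (Subset.refl _), fun hs => ?_⟩
        have := hs (mem_sdiff.2 ⟨hbx, hby⟩)
        simp at this
      · intro d hd'
        rw [← h1 d hd']
        have hab : a ∈ d ↔ b ∈ d := by
          rcases hd c d hcc hd' with rfl | hdis
          · simp [hac, hbc]
          · simp [disjoint_left.1 hdis hac, disjoint_left.1 hdis hbc]
        conv_lhs => rw [← swap_fix hab]
        rw [← image_inter _ _ (Equiv.injective _), card_image_of_injective _ (Equiv.injective _)]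
      · intro p hp
        have h3 : p ≠ a := fun e => hp c hcc (e ▸ hac)
        have h4 : p ≠ b := fun e => hp c hcc (e ▸ hbc)
        rw [mem_swap, Equiv.swap_apply_of_ne_of_ne h3 h4]
        exact h2 p hp

end Pool.Agent.P.MP_9e9aa3_co
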