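import Pool.Agent.P.MP_9e9aa3_co.Snd2

set_option autoImplicit false

namespace Pool.Agent.P.MP_9e9aa3_co

open Finset E

noncomputable def line (T : Tab) (k : ℕ) : Finset ℕ :=
  (range T.ps.length).filter (fun s => (getN T.ps s).testBit k = true)

theorem mem_line {T : Tab} {k p : ℕ} : p ∈ line T k ↔ (getN T.ps p).testBit k = true := by
  unfold line
  rw [mem_filter, mem_range, and_iff_right_iff_imp]
  intro h
  by_contra hn
  rw [getN_ge _ _ (not_lt.1 hn)] at h
  simp at h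

/-- the chosen lines -/
def FL (T : Tab) (F : ℕ) : Fam := fun i y =>
  ∃ k, F.testBit k = true ∧ (getN T.ms i).testBit k = true ∧ line T k = y

def FS (T : Tab) (F : ℕ) (N : Fam) : Prop := ∀ j y, FL T F j y → N j y

def Inv (Gd : Fam → Prop) (T : Tab) (F C : ℕ) : Prop := ∀ N, Gd N → FS T F N →
  (∀ i, T.act.testBit i = true → ∀ x, N i x → ∃ k, (getN T.ms i).testBit k = true ∧ line T k = x) ∧
  ∀ i k, (getN T.ms i).testBit k = true → N i (line T k) → C.testBit k = true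

def Rf (Gd : Fam → Prop) (T : Tab) (F C : ℕ) : Prop :=
  Inv Gd T F C → ∀ N, Gd N → FS T F N → False

def AllRf (Gd : Fam → Prop) (T : Tab) : List (ℕ × ℕ) → Prop
  | [] => True
  | a :: l => Rf Gd T a.1 a.2 ∧ AllRf Gd T l

structure Ctx (sp : Spec) (Gd : Fam → Prop) (T : Tab) : Prop where
  gd : GoodD sp T.sym Gd
  k7 : ∀ i, getN sp.k i ≤ 7
  len : T.ps.length = sp.n
  dis : ∀ i j k, (getN T.ms i).testBit k = true → (getN T.ms j).testBit k = true → i = j
  card : ∀ i k, (getN T.ms i).testBit k = true → (line T k).card = getN sp.k i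

def Kill (Gd : Fam → Prop) (T : Tab) (F i k : ℕ) : Prop :=
  ∀ N, Gd N → FS T F N → ¬ N i (line T k)

variable {sp : Spec} {Gd : Fam → Prop} {T : Tab}

theorem Inv.shrink {F C C' : ℕ} (h : Inv Gd T F C)
    (hc : ∀ i k, (getN T.ms i).testBit k = true → C.testBit k = true →
      C'.testBit k = true ∨ Kill Gd T F i k) : Inv Gd T F C' := by
  intro N hN hF
  refine ⟨(h N hN hF).1, fun i k hk hl => ?_⟩
  rcases hc i k hk ((h N hN hF).2 i k hk hl) with e | e
  · exact e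
  · exact absurd hl (e N hN hF)

theorem okm_ok (X : Ctx sp Gd T) {N : Fam} (hN : Gd N) {i j k q : ℕ}
    (hk : (getN T.ms i).testBit k = true) (hq : (getN T.ms j).testBit q = true)
    (h1 : N i (line T k)) (h2 : N j (line T q)) : (okm sp T k).testBit q = true := by
  unfold okm
  rw [force_eq, X.dis _ _ _ (clsOf_ok T.ms i k hk) hk, cntS_eq]
  obtain ⟨x, y, z, w, e1, e2⟩ := cntA_ok (T.ps.filter (fun p => Nat.land p (bit k) ≠ 0)) 0 0 0 0
  rw [e1, tb_mux8, (e2 q).1, val_zero, zero_add, List.countP_filter, countP_getN]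
  have e3 : (range T.ps.length).filter (fun s => ((getN T.ps s).testBit q &&
      decide (Nat.land (getN T.ps s) (bit k) ≠ 0)) = true) = line T k ∩ line T q := by
    ext s
    simp only [line, mem_filter, mem_inter, Bool.and_eq_true, decide_eq_true_eq, land_bit_ne]
    tauto
  have e4 : (line T k ∩ line T q).card ≤ 7 :=
    (card_le_card inter_subset_left).trans (X.card i k hk ▸ X.k7 i)
  rw [e3, Nat.mod_eq_of_lt (by omega)]
  unfold alw
  rw [tb_uni]
  exact ⟨j, hq, relF_ok (X.gd.hyp N hN) X.k7 h1 h2⟩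

theorem child_ok (X : Ctx sp Gd T) {F C i k : ℕ} (hk : (getN T.ms i).testBit k = true)
    (hI : Inv Gd T F C) (h : Rf Gd T (Nat.lor F (bit k)) (Nat.land C (okm sp T k))) :
    Kill Gd T F i k := by
  have mono : ∀ N, FS T (Nat.lor F (bit k)) N → FS T F N := by
    rintro N hF j y ⟨q, h1, h2, h3⟩
    exact hF j y ⟨q, by rw [tb_lor, h1]; rfl, h2, h3⟩
  intro N hN hF hl
  refine h (fun N' hN' hF' => ⟨(hI N' hN' (mono N' hF')).1, fun j q hq hl' => ?_⟩) N hN ?_
  · rw [tb_land, (hI N' hN' (mono N' hF')).2 j q hq hl',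
      okm_ok X hN' hk hq (hF' i _ ⟨k, by rw [tb_lor, tb_bit]; simp, hk, rfl⟩) hl']
    rfl
  · rintro j y ⟨q, h1, h2, h3⟩
    rw [tb_lor, tb_bit, Bool.or_eq_true, decide_eq_true_eq] at h1
    rcases h1 with h1 | h1
    · exact hF j y ⟨q, h1, h2, h3⟩
    · subst h1
      rw [← h3, X.dis j i k h2 hk]
      exact hl

theorem kids1_ok (X : Ctx sp Gd T) {rc ex : ℕ → ℕ → ℕ → ℕ} {F i : ℕ}
    (hrc : ∀ F C S, rc F C S ≠ 0 → Rf Gd T F C)
    (hex : ∀ k S C, (getN T.ms i).testBit k = true → Kill Gd T F i k → Inv Gd T F C →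
      Inv Gd T F (ex k S C)) (fu : ℕ) :
    ∀ Y C S, kids1 sp T rc ex F fu Y C S ≠ 0 →
      (∀ q, Y.testBit q = true → (getN T.ms i).testBit q = true) → Inv Gd T F C →
      ∀ q, Y.testBit q = true → Kill Gd T F i q := by
  induction fu with
  | zero => intro Y C S h; exact absurd rfl h
  | succ fu ih =>
    intro Y C S h hY hI q hq
    have h' : force (Nat.land S 16383) (fun k => Bool.rec
      (Bool.rec (Bool.rec (kids1 sp T rc ex F fu (Nat.xor Y (bit k)) (ex k S C)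
        (rc (Nat.lor F (bit k)) (Nat.land C (okm sp T k)) (Nat.shiftRight S 15))) 0
        (Nat.beq (rc (Nat.lor F (bit k)) (Nat.land C (okm sp T k)) (Nat.shiftRight S 15)) 0))
        (rc (Nat.lor F (bit k)) (Nat.land C (okm sp T k)) (Nat.shiftRight S 15))
        (Nat.beq (Nat.xor Y (bit k)) 0))
      0 (Nat.beq (Nat.land Y (bit k)) 0)) ≠ 0 := h
    rw [force_eq] at h'
    generalize Nat.land S 16383 = k at h'
    simp only [brec_beq] at h'
    have hx : q ≠ k → (Nat.xor Y (bit k)).testBit q = true := by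
      intro e
      rw [tb_xor, tb_bit, hq]
      simp [Ne.symm e]
    split_ifs at h' with e1 e2 e3
    · exact absurd rfl h'
    · have hk := hY k ((land_bit_ne _ _).1 e1)
      by_cases e : q = k
      · exact e ▸ child_ok X hk hI (hrc _ _ _ h')
      · have := hx e
        rw [zero_tb e2] at this
        exact absurd this (by simp)
    · exact absurd rfl h'
    · have hk := hY k ((land_bit_ne _ _).1 e1)
      have hkill := child_ok X hk hI (hrc _ _ _ e3)
      by_cases e : q = k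
      · exact e ▸ hkill
      · refine ih _ _ _ h' (fun r hr => ?_) (hex k S C hk hkill hI) q (hx e)
        by_cases e' : k = r
        · exact e' ▸ hk
        · rw [tb_xor, tb_bit] at hr
          apply hY
          simpa [e'] using hr

theorem kids_ok (X : Ctx sp Gd T) {rc ex : ℕ → ℕ → ℕ → ℕ} {F i Y C S : ℕ}
    (hrc : ∀ F C S, rc F C S ≠ 0 → Rf Gd T F C)
    (hex : ∀ k S C, (getN T.ms i).testBit k = true → Kill Gd T F i k → Inv Gd T F C →
      Inv Gd T F (ex k S C)) (h : kids sp T rc ex F Y C S ≠ 0)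
    (hY : ∀ q, Y.testBit q = true → (getN T.ms i).testBit q = true) (hI : Inv Gd T F C) :
    ∀ q, Y.testBit q = true → Kill Gd T F i q := by
  unfold kids at h
  rw [brec_beq] at h
  split_ifs at h with e
  · intro q hq
    rw [zero_tb e] at hq
    exact absurd hq (by simp)
  · exact kids1_ok X hrc hex _ _ _ _ h hY hI

theorem ex0_ok (X : Ctx sp Gd T) {F i : ℕ} (k C : ℕ) (hk : (getN T.ms i).testBit k = true)
    (hkill : Kill Gd T F i k) (hI : Inv Gd T F C) : Inv Gd T F (Nat.xor C (bit k)) := by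
  refine hI.shrink fun j q hq hc => ?_
  by_cases e : k = q
  · subst e
    rw [X.dis j i k hq hk]
    exact Or.inr hkill
  · left
    rw [tb_xor, tb_bit, hc]
    simp [e]

/-- what a branching rule provides -/
structure Br (Gd : Fam → Prop) (T : Tab) (F C i s Y : ℕ) (us uf : Prop) : Prop where
  sub : ∀ q, Y.testBit q = true → (getN T.ms i).testBit q = true
  ex : ∀ N, Gd N → FS T F N → ∃ x, N i x ∧ (us → s ∈ x) ∧ (uf → ¬ FL T F i x)
  mem : Inv Gd T F C → ∀ N, Gd N → FS T F N → ∀ x, N i x → (us → s ∈ x) → (uf → ¬ FL T F i x) →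
    ∃ q, Y.testBit q = true ∧ line T q = x

theorem flag_ok {w t : ℕ} (h : flag sp T w t ≠ 0) :
    tU t < sp.n ∧ w.testBit (tI t) = true ∧ T.act.testBit (tI t) = true := by
  obtain ⟨h1, h2⟩ := cle_ne h
  rw [tb_ne, tb_land, Bool.and_eq_true] at h2
  exact ⟨h1, h2⟩

theorem br0_ok (X : Ctx sp Gd T) {t F C : ℕ} {f : ℕ → ℕ} (h : br0 sp T t C f ≠ 0) :
    ∃ Y us uf, f Y ≠ 0 ∧ Br Gd T F C (tI t) (tU t) Y us uf := by
  obtain ⟨h1, h2⟩ := cz_ne (a := brOK sp T t) h
  obtain ⟨h3, h4, h5⟩ := flag_ok h1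
  refine ⟨_, True, False, h2, ?_, ?_, ?_⟩
  · intro q hq
    simp only [mp, tb_land, Bool.and_eq_true] at hq
    exact hq.2.1
  · intro N hN _
    obtain ⟨x, hx, hs⟩ := (X.gd.hyp N hN).cov _ h4 _ (mem_range.2 h3)
    exact ⟨x, hx, fun _ => hs, False.elim⟩
  · intro hI N hN hF x hx hs _
    obtain ⟨q, hq, rfl⟩ := (hI N hN hF).1 _ h5 x hx
    refine ⟨q, ?_, rfl⟩
    simp only [mp, tb_land, Bool.and_eq_true]
    exact ⟨(hI N hN hF).2 _ q hq hx, hq, mem_line.1 (hs trivial)⟩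

theorem allMeet_ok {l : List ℕ} {F x : ℕ} (h : allMeet l F x ≠ 0) :
    x ≠ 0 ∧ ∀ m ∈ l, Nat.land F m ≠ 0 := by
  unfold allMeet at h
  refine fold_ind (P := fun (l : List ℕ) (r : ℕ) => r ≠ 0 → x ≠ 0 ∧ ∀ m ∈ l, Nat.land F m ≠ 0)
    ?_ ?_ l h
  · intro h
    exact ⟨h, by simp⟩
  · intro e l r ih h
    obtain ⟨h1, h2⟩ := cz_ne h
    exact ⟨(ih h2).1, List.forall_mem_cons.2 ⟨h1, (ih h2).2⟩⟩

theorem br1_ok (X : Ctx sp Gd T) {t F C : ℕ} {f : ℕ → ℕ} (h : br1 sp T t F C f ≠ 0) :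
    ∃ Y us uf, f Y ≠ 0 ∧ Br Gd T F C (tI t) (tU t) Y us uf := by
  obtain ⟨h1, h2⟩ := cz_ne h
  obtain ⟨h3, h4, h5⟩ := flag_ok h1
  obtain ⟨h6, h7⟩ := allMeet_ok h2
  obtain ⟨h8, h9⟩ := cz_ne' h6
  have h10 : ∀ c ∈ getL sp.two (tI t), andn (getN T.ms c) (getN T.ps (tU t)) ∈ twoM sp T t := by
    unfold twoM
    refine fold_ind (P := fun (l : List ℕ) (r : List ℕ) =>
      ∀ c ∈ l, andn (getN T.ms c) (getN T.ps (tU t)) ∈ r) (by simp) ?_ _
    intro e l r ih
    exact List.forall_mem_cons.2 ⟨List.mem_cons_self, fun c hc => List.mem_cons_of_mem _ (ih c hc)⟩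
  refine ⟨_, True, True, h9, ?_, ?_, ?_⟩
  · intro q hq
    simp only [mp, tb_land, tb_andn, Bool.and_eq_true] at hq
    exact hq.1.2.1
  · intro N hN hF
    have h11 : ∀ c ∈ getL sp.two (tI t), ∃ y, N c y ∧ tU t ∉ y := by
      intro c hc
      obtain ⟨k, hk⟩ := ne_zero_tb (h7 _ (h10 c hc))
      simp only [tb_land, tb_andn, Bool.and_eq_true] at hk
      refine ⟨_, hF c _ ⟨k, hk.1, hk.2.1, rfl⟩, fun hm => ?_⟩
      have := hk.2.2
      rw [mem_line.1 hm] at this
      exact absurd this (by simp)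
    obtain ⟨k0, hk0⟩ := card_le_one_iff_subset_singleton.1 (clr_ok h8)
    obtain ⟨x, hx, hs, hne⟩ := (X.gd.hyp N hN).two _ h4 _ (mem_range.2 h3) h11 (line T k0)
    refine ⟨x, hx, fun _ => hs, fun _ => ?_⟩
    rintro ⟨k, g1, g2, rfl⟩
    have : k ∈ dec (Nat.land F (mp T t)) := by
      simp only [mem_dec, mp, tb_land, Bool.and_eq_true]
      exact ⟨g1, g2, mem_line.1 hs⟩
    exact hne (by rw [mem_singleton.1 (hk0 this)])
  · intro hI N hN hF x hx hs hf
    obtain ⟨q, hq, rfl⟩ := (hI N hN hF).1 _ h5 x hx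
    refine ⟨q, ?_, rfl⟩
    simp only [mp, tb_land, tb_andn, Bool.and_eq_true]
    refine ⟨⟨(hI N hN hF).2 _ q hq hx, hq, mem_line.1 (hs trivial)⟩, ?_⟩
    cases e : F.testBit q
    · rfl
    · exact absurd ⟨q, e, hq, rfl⟩ (hf trivial)

theorem br2_ok (X : Ctx sp Gd T) {t F C : ℕ} {f : ℕ → ℕ} (h : br2 sp T t F C f ≠ 0) :
    ∃ Y us uf, f Y ≠ 0 ∧ Br Gd T F C (tI t) (tU t) Y us uf := by
  obtain ⟨h1, h2⟩ := cz_ne h
  rw [tb_ne] at h1
  cases e : getN sp.lo (tI t) with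
  | zero => rw [e] at h2; exact absurd rfl h2
  | succ r =>
    rw [e] at h2
    obtain ⟨h8, h9⟩ := cz_ne' (a := clr (Nat.land F (getN T.ms (tI t))) r) h2
    refine ⟨_, False, True, h9, ?_, ?_, ?_⟩
    · intro q hq
      simp only [tb_land, tb_andn, Bool.and_eq_true] at hq
      exact hq.1.2
    · intro N hN hF
      obtain ⟨x, hx, hn⟩ := (X.gd.hyp N hN).lo (tI t)
        ((dec (Nat.land F (getN T.ms (tI t)))).image (line T))
        (by rw [e]; exact lt_of_le_of_lt (card_image_le.trans (clr_ok h8)) (Nat.lt_succ_self _))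
      refine ⟨x, hx, False.elim, fun _ => ?_⟩
      rintro ⟨k, g1, g2, rfl⟩
      refine hn (mem_image_of_mem _ ?_)
      simp only [mem_dec, tb_land, Bool.and_eq_true]
      exact ⟨g1, g2⟩
    · intro hI N hN hF x hx _ hf
      obtain ⟨q, hq, rfl⟩ := (hI N hN hF).1 _ h1 x hx
      refine ⟨q, ?_, rfl⟩
      simp only [tb_land, tb_andn, Bool.and_eq_true]
      refine ⟨⟨(hI N hN hF).2 _ q hq hx, hq⟩, ?_⟩
      cases e : F.testBit q
      · rfl
      · exact absurd ⟨q, e, hq, rfl⟩ (hf trivial)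

theorem brK_ok (X : Ctx sp Gd T) {kind t F C : ℕ} {f : ℕ → ℕ} (h : brK sp T kind t F C f ≠ 0) :
    ∃ Y us uf, f Y ≠ 0 ∧ Br Gd T F C (tI t) (tU t) Y us uf := by
  rcases kind with _ | _ | a
  · exact br0_ok X h
  · exact br1_ok X h
  · exact br2_ok X h

theorem plain_ok (X : Ctx sp Gd T) {rc : ℕ → ℕ → ℕ → ℕ} {F C S i s : ℕ}
    (hrc : ∀ F C S, rc F C S ≠ 0 → Rf Gd T F C)
    (h : ∃ Y us uf, kids sp T rc ex0 F Y C S ≠ 0 ∧ Br Gd T F C i s Y us uf) : Rf Gd T F C := by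
  obtain ⟨Y, us, uf, h1, h2⟩ := h
  intro hI N hN hF
  obtain ⟨x, hx, g1, g2⟩ := h2.ex N hN hF
  obtain ⟨q, hq, rfl⟩ := h2.mem hI N hN hF x hx g1 g2
  exact kids_ok X hrc (fun k _ C hk hkill hI => ex0_ok X k C hk hkill hI) h1 h2.sub hI q hq N hN hF hx

theorem tw_ok (X : Ctx sp Gd T) {t F C : ℕ} (h1 : twOK sp T t ≠ 0) (h2 : Nat.land C (twA T t) = 0)
    (hI : Inv Gd T F C) : Inv Gd T F (andn C (twB T t)) := by
  obtain ⟨h3, h4, h5⟩ := flag_ok h1
  refine hI.shrink fun j q hq hc => ?_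
  cases e : (twB T t).testBit q
  · left
    rw [tb_andn, hc, e]
    rfl
  · right
    simp only [twB, tb_andn, tb_land, Bool.and_eq_true] at e
    rw [X.dis j _ q hq e.1.1]
    intro N hN hF hl
    have := (X.gd.hyp N hN).tw _ h4 _ (mem_range.2 h3) (tV t) (fun x hx hu => ?_) _ hl
      (mem_line.2 e.1.2)
    · have e2 := e.2
      rw [mem_line.1 this] at e2
      exact absurd e2 (by simp)
    · obtain ⟨r, hr, rfl⟩ := (hI N hN hF).1 _ h5 x hx
      have h6 := zero_tb h2 r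
      simp only [twA, mp, tb_andn, tb_land, (hI N hN hF).2 _ r hr hx, hr, mem_line.1 hu] at h6
      rw [mem_line]
      simpa using h6

theorem hsL_ok (r : ℕ) : ∀ h Y, ∃ B : Finset ℕ, B.card ≤ r ∧ ∀ q, Y.testBit q = true →
    (∀ p ∈ B, (getN T.ps p).testBit q = false) → (hsL T r h Y).testBit q = true := by
  induction r with
  | zero => intro h Y; exact ⟨∅, le_refl _, fun q hq _ => hq⟩
  | succ r ih =>
    intro h Y
    have e : hsL T (r + 1) h Y = force (Nat.land h 63) fun p =>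
      hsL T r (Nat.shiftRight h 6) (andn Y (getN T.ps p)) := rfl
    rw [e, force_eq]
    obtain ⟨B, h1, h2⟩ := ih (Nat.shiftRight h 6) (andn Y (getN T.ps (Nat.land h 63)))
    refine ⟨insert (Nat.land h 63) B, (card_insert_le _ _).trans (by omega), fun q hq hB => ?_⟩
    refine h2 q ?_ fun p hp => hB p (mem_insert_of_mem hp)
    rw [tb_andn, hq, hB _ (mem_insert_self _ _)]
    rfl

theorem hs_ok (X : Ctx sp Gd T) {i r h F C : ℕ} (h1 : hsN sp T i = r + 1)
    (h2 : hsL T r h (Nat.land C (getN T.ms i)) = 0) : Rf Gd T F C := by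
  intro hI N hN hF
  have h3 : hsN sp T i ≠ 0 := by omega
  obtain ⟨h4, _⟩ := cz_ne h3
  have h5 : getN sp.hs i = r + 1 := by
    rw [← h1]
    unfold hsN
    rw [cz_eq, if_neg h4]
  obtain ⟨B, g1, g2⟩ := hsL_ok (T := T) r h (Nat.land C (getN T.ms i))
  obtain ⟨x, hx, hd⟩ := (X.gd.hyp N hN).hs i B (by omega)
  obtain ⟨q, hq, rfl⟩ := (hI N hN hF).1 _ ((tb_ne _ _).1 h4) x hx
  have := g2 q (by rw [tb_land, (hI N hN hF).2 _ q hq hx, hq]; rfl) (fun p hp => ?_)
  · rw [zero_tb h2] at this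
    exact absurd this (by simp)
  · cases e : (getN T.ps p).testBit q
    · rfl
    · exact absurd hp (disjoint_left.1 hd (mem_line.2 e))

theorem dead_ok {i F C : ℕ} (h : andn (Nat.land F (getN T.ms i)) C ≠ 0) : Rf Gd T F C := by
  intro hI N hN hF
  obtain ⟨k, hk⟩ := ne_zero_tb h
  simp only [tb_andn, tb_land, Bool.and_eq_true] at hk
  have := (hI N hN hF).2 i k hk.1.2 (hF i _ ⟨k, hk.1.1, hk.1.2, rfl⟩)
  rw [this] at hk
  exact absurd hk.2 (by simp)

theorem getP_ok {cuts : List (ℕ × ℕ)} (hc : AllRf Gd T cuts) {j : ℕ} {f : ℕ → ℕ → ℕ}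
    (h : getP cuts j f ≠ 0) : ∃ F C, Rf Gd T F C ∧ f F C ≠ 0 := by
  induction cuts generalizing j with
  | nil => exact absurd rfl h
  | cons a l ih =>
    cases j with
    | zero => exact ⟨a.1, a.2, hc.1, h⟩
    | succ j => exact ih hc.2 h

theorem cut_ok {F C C0 : ℕ} (h : Rf Gd T F C0) (h2 : andn C C0 = 0) : Rf Gd T F C := by
  intro hI
  refine h (hI.shrink fun i k _ hc => Or.inl ?_)
  have := zero_tb h2 k
  rw [tb_andn, hc] at this
  simpa using this

end Pool.Agent.P.MP_9e9aa3_co
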