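import Pool.Agent.P.MP_9e9aa3_co.Snd3

set_option autoImplicit false

namespace Pool.Agent.P.MP_9e9aa3_co

open Finset E

variable {sp : Spec} {Gd : Fam → Prop} {T : Tab}

theorem cellP_eq (c : ℕ) : cellP sp T c = (pts sp.n c).map (getN T.ps) := by
  unfold cellP
  induction pts sp.n c with
  | nil => rfl
  | cons a l ih => exact congrArg (List.cons _) ih

noncomputable def cellS (n c : ℕ) : Finset ℕ := (pts n c).toFinset

theorem mem_cellS {n c p : ℕ} : p ∈ cellS n c ↔ p < n ∧ c.testBit p = true := by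
  unfold cellS
  rw [List.mem_toFinset, mem_pts]

theorem twinX_ok {c k : ℕ} (h : (twinX sp T c).testBit k = false) :
    ∀ a ∈ cellS sp.n c, ∀ b ∈ cellS sp.n c, (getN T.ps a).testBit k = (getN T.ps b).testBit k := by
  have key : ∀ m ∈ cellP sp T c, ∀ m' ∈ cellP sp T c, m.testBit k = m'.testBit k := by
    unfold twinX at h
    cases e : cellP sp T c with
    | nil => simp
    | cons a l =>
      rw [e] at h
      have h1 : ∀ m ∈ l, m.testBit k = a.testBit k := by
        refine fold_ind (P := fun (l : List ℕ) (r : ℕ) => r.testBit k = false →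
          ∀ m ∈ l, m.testBit k = a.testBit k) (by simp) ?_ l h
        intro b l r ih h
        rw [tb_lor, tb_xor, Bool.or_eq_false_iff] at h
        refine List.forall_mem_cons.2 ⟨?_, ih h.2⟩
        have := h.1
        revert this
        cases a.testBit k <;> cases b.testBit k <;> simp
      have h2 : ∀ m ∈ a :: l, m.testBit k = a.testBit k := List.forall_mem_cons.2 ⟨rfl, h1⟩
      intro m hm m' hm'
      rw [h2 m hm, h2 m' hm']
  intro a ha b hb
  rw [cellP_eq] at key
  exact key _ (List.mem_map_of_mem (List.mem_toFinset.1 ha)) _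
    (List.mem_map_of_mem (List.mem_toFinset.1 hb))

theorem canB_ok {c q : ℕ} (h : (canB sp T c).testBit q = true) :
    ∃ a ∈ cellS sp.n c, ∃ b ∈ cellS sp.n c, a < b ∧ b ∈ line T q ∧ a ∉ line T q := by
  unfold canB at h
  rw [cellP_eq] at h
  have hs := pts_sorted sp.n c
  unfold cellS
  simp only [List.mem_toFinset]
  generalize pts sp.n c = l at h hs
  induction l with
  | nil => exact absurd h (by simp)
  | cons a l ih =>
    cases l with
    | nil => exact absurd h (by simp)
    | cons b l =>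
      have h' : (Nat.lor (andn (getN T.ps b) (getN T.ps a)) _).testBit q = true := h
      rw [tb_lor, Bool.or_eq_true] at h'
      rcases h' with h' | h'
      · rw [tb_andn, Bool.and_eq_true] at h'
        refine ⟨a, by simp, b, by simp, (List.pairwise_cons.1 hs).1 b (by simp), mem_line.2 h'.1,
          fun hm => ?_⟩
        have := h'.2
        rw [mem_line.1 hm] at this
        exact absurd this (by simp)
      · obtain ⟨a', ha, b', hb, h3⟩ := ih h' (List.pairwise_cons.1 hs).2
        exact ⟨a', List.mem_cons_of_mem _ ha, b', List.mem_cons_of_mem _ hb, h3⟩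

theorem cell_val (c q : ℕ) : val (cell0 sp T c) (cell1 sp T c) (cell2 sp T c) q =
    (line T q ∩ cellS sp.n c).card % 8 := by
  obtain ⟨x, y, z, w, e1, e2⟩ := cntA_ok (cellP sp T c) 0 0 0 0
  unfold cell0 cell1 cell2
  rw [e1, e1, e1, (e2 q).1, val_zero, zero_add, cellP_eq, List.countP_map,
    List.countP_eq_length_filter, ← List.toFinset_card_of_nodup ((pts_nodup _ _).filter _)]
  congr 2
  ext p
  simp only [cellS, List.mem_toFinset, List.mem_filter, mem_inter, mem_line, Function.comp]
  tauto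

theorem agree_ok (l : List ℕ) (k q : ℕ) : ∀ O, (agree l (bit k) O).testBit q = true →
    O.testBit q = true ∧ ∀ p ∈ l, p.testBit q = p.testBit k := by
  induction l with
  | nil => intro O h; exact ⟨h, by simp⟩
  | cons p l ih =>
    intro O h
    have h' : (Bool.rec (agree l (bit k) (Nat.land O p)) (agree l (bit k) (andn O p))
      (Nat.beq (Nat.land p (bit k)) 0) : ℕ).testBit q = true := h
    rw [brec_beq] at h'
    split_ifs at h' with e
    · obtain ⟨h1, h2⟩ := ih _ h'
      rw [tb_andn, Bool.and_eq_true] at h1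
      rw [land_bit_zero] at e
      exact ⟨h1.1, List.forall_mem_cons.2 ⟨by rw [e]; simpa using h1.2, h2⟩⟩
    · obtain ⟨h1, h2⟩ := ih _ h'
      rw [tb_land, Bool.and_eq_true] at h1
      exact ⟨h1.1, List.forall_mem_cons.2 ⟨by rw [(land_bit_ne _ _).1 e, h1.2], h2⟩⟩

structure RC (sp : Spec) (T : Tab) (F s : ℕ) (cs : List ℕ) (u cb : ℕ) (pl : List ℕ) : Prop where
  un : ∀ p, u.testBit p = true ↔ ∃ c ∈ cs, c.testBit p = true
  dis : ∀ c ∈ cs, ∀ d ∈ cs, c = d ∨ ∀ p, c.testBit p = true → d.testBit p = false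
  tw : ∀ c ∈ cs, Nat.land F (twinX sp T c) = 0
  low : ∀ c ∈ cs, c.testBit s = true → ∀ a, a < s → c.testBit a = false
  can : ∀ q, cb.testBit q = true → ∃ c ∈ cs, (canB sp T c).testBit q = true
  pl : ∀ c ∈ cs, cell0 sp T c ∈ pl ∧ cell1 sp T c ∈ pl ∧ cell2 sp T c ∈ pl

theorem low_ok {c s : ℕ} (h : Nat.mul (Nat.land c (bit s)) (Nat.land c (Nat.sub (bit s) 1)) = 0)
    (hs : c.testBit s = true) (a : ℕ) (ha : a < s) : c.testBit a = false := by
  rcases Nat.mul_eq_zero.1 h with e | e
  · rw [land_bit_zero, hs] at e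
    exact absurd e (by simp)
  · have := zero_tb e a
    rw [tb_land, tb_bit_sub] at this
    simpa [ha] using this

theorem rdC_ok {F s : ℕ} {f : ℕ → ℕ → List ℕ → ℕ → ℕ} (nc : ℕ) : ∀ cs u cb pl S,
    rdC sp T F s f nc u cb pl S ≠ 0 → RC sp T F s cs u cb pl →
    ∃ cs u cb pl S, RC sp T F s cs u cb pl ∧ f u cb pl S ≠ 0 := by
  induction nc with
  | zero => intro cs u cb pl S h R; exact ⟨cs, u, cb, pl, S, R, h⟩
  | succ nc ih =>
    intro cs u cb pl S h R
    have h' : force (Nat.land S 68719476735) (fun c =>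
      cz (Nat.land u c) (cz (Nat.land F (twinX sp T c))
        (cz (Nat.mul (Nat.land c (bit s)) (Nat.land c (Nat.sub (bit s) 1)))
          (rdC sp T F s f nc (Nat.lor u c) (Nat.lor cb (canB sp T c))
            (cell0 sp T c :: cell1 sp T c :: cell2 sp T c :: pl)
            (Nat.shiftRight S 36)) 0) 0) 0) ≠ 0 := h
    rw [force_eq] at h'
    generalize Nat.land S 68719476735 = c at h'
    obtain ⟨h1, h'⟩ := cz_ne' h'
    obtain ⟨h2, h'⟩ := cz_ne' h'
    obtain ⟨h3, h'⟩ := cz_ne' h'
    have hd : ∀ d ∈ cs, ∀ p, d.testBit p = true → c.testBit p = false := by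
      intro d hd p hp
      have := zero_tb h1 p
      rw [tb_land, (R.un p).2 ⟨d, hd, hp⟩] at this
      simpa using this
    refine ih (c :: cs) _ _ _ _ h' ⟨?_, ?_, ?_, ?_, ?_, ?_⟩
    · intro p
      rw [tb_lor, Bool.or_eq_true, R.un]
      simp only [List.mem_cons, exists_eq_or_imp]
      exact or_comm
    · intro a ha b hb
      rcases List.mem_cons.1 ha with ha' | ha' <;> rcases List.mem_cons.1 hb with hb' | hb'
      · exact Or.inl (ha'.trans hb'.symm)
      · right
        intro p hp
        cases e : b.testBit p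
        · rfl
        · rw [ha', hd b hb' p e] at hp
          exact absurd hp (by simp)
      · exact Or.inr (hb' ▸ hd a ha')
      · exact R.dis a ha' b hb'
    · exact List.forall_mem_cons.2 ⟨h2, R.tw⟩
    · exact List.forall_mem_cons.2 ⟨low_ok h3, R.low⟩
    · intro q hq
      rw [tb_lor, Bool.or_eq_true] at hq
      rcases hq with hq | hq
      · obtain ⟨d, hd, h⟩ := R.can q hq
        exact ⟨d, List.mem_cons_of_mem _ hd, h⟩
      · exact ⟨c, List.mem_cons_self, hq⟩
    · refine List.forall_mem_cons.2 ⟨by simp, fun d hd => ?_⟩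
      have := R.pl d hd
      simp [this]

theorem RC.cells {F s u cb : ℕ} {cs pl : List ℕ} (R : RC sp T F s cs u cb pl) (hs : T.sym ≠ 0) :
    Cells sp.n T.sym (FL T F) (fun c => ∃ m ∈ cs, cellS sp.n m = c) := by
  refine ⟨fun _ _ => hs, ?_, ?_⟩
  · rintro _ ⟨m, _, rfl⟩ a ha
    exact (mem_cellS.1 ha).1
  · rintro _ ⟨m, hm, rfl⟩ a ha b hb j _ ⟨k, h1, _, rfl⟩
    have := zero_tb (R.tw m hm) k
    rw [tb_land, h1, Bool.true_and] at this
    rw [mem_line, mem_line, twinX_ok this a ha b hb]

theorem exO_ok (X : Ctx sp Gd T) {F s u cb i : ℕ} {cs pl : List ℕ} (R : RC sp T F s cs u cb pl)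
    (hs : T.sym ≠ 0) (k S C : ℕ) (hk : (getN T.ms i).testBit k = true) (hkill : Kill Gd T F i k)
    (hI : Inv Gd T F C) : Inv Gd T F (exO (getN T.ms i) pl (restP sp T u) k S C) := by
  unfold exO
  rw [cz_eq]
  split_ifs
  · exact ex0_ok X k C hk hkill hI
  refine hI.shrink fun j q hq hc => ?_
  cases e : (agree pl (bit k) (agree (restP sp T u) (bit k) (getN T.ms i))).testBit q
  · left
    rw [tb_andn, hc, e]
    rfl
  right
  obtain ⟨h1, h2⟩ := agree_ok _ _ _ _ e
  obtain ⟨h3, h4⟩ := agree_ok _ _ _ _ h1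
  rw [X.dis j i q hq h3]
  refine orbit_kill X.gd (R.cells hs) ?_ hkill _ ?_ ?_
  · rintro _ _ ⟨c, hc, rfl⟩ ⟨d, hd, rfl⟩
    rcases R.dis c hc d hd with rfl | h
    · exact Or.inl rfl
    · refine Or.inr (disjoint_left.2 fun p h5 h6 => ?_)
      have := h p (mem_cellS.1 h5).2
      rw [(mem_cellS.1 h6).2] at this
      exact absurd this (by simp)
  · rintro _ ⟨c, hc, rfl⟩
    have g1 := cell_val (sp := sp) (T := T) c q
    have g2 := cell_val (sp := sp) (T := T) c k
    have g3 : (line T q ∩ cellS sp.n c).card ≤ 7 :=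
      (card_le_card inter_subset_left).trans (X.card i q h3 ▸ X.k7 i)
    have g4 : (line T k ∩ cellS sp.n c).card ≤ 7 :=
      (card_le_card inter_subset_left).trans (X.card i k hk ▸ X.k7 i)
    unfold val at g1 g2
    rw [h2 _ (R.pl c hc).1, h2 _ (R.pl c hc).2.1, h2 _ (R.pl c hc).2.2, g2] at g1
    omega
  · intro p hp
    rw [mem_line, mem_line]
    by_cases hn : p < sp.n
    · rw [h4 (getN T.ps p)]
      unfold restP
      rw [cellP_eq]
      refine List.mem_map_of_mem (mem_pts.2 ⟨hn, ?_⟩)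
      rw [tb_andn, tb_bit_sub]
      cases e' : u.testBit p
      · simp [hn]
      · obtain ⟨c, hc, h5⟩ := (R.un p).1 e'
        exact absurd (mem_cellS.2 ⟨hn, h5⟩) (hp _ ⟨c, hc, rfl⟩)
    · rw [getN_ge _ _ (by rw [X.len]; omega)]
      simp

theorem opSym_ok (X : Ctx sp Gd T) {rc : ℕ → ℕ → ℕ → ℕ} {t F C S : ℕ}
    (hrc : ∀ F C S, rc F C S ≠ 0 → Rf Gd T F C) (h : opSym sp T rc t F C S ≠ 0) : Rf Gd T F C := by
  obtain ⟨hs, h⟩ := cz_ne h
  obtain ⟨cs, u, cb, pl, S1, R, h⟩ := rdC_ok _ [] _ _ _ _ h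
    ⟨by simp, by simp, by simp, by simp, by simp, by simp⟩
  rw [force_eq] at h
  obtain ⟨Y, us, uf, h1, B⟩ := brK_ok X h
  intro hI N hN hF
  obtain ⟨x, hx, g1, g2⟩ := B.ex N hN hF
  have hc := R.cells hs
  have hQ : ∀ c, (∃ m ∈ cs, cellS sp.n m = c) → ∀ a ∈ c, ∀ b ∈ c, a < b → ∀ x : Finset ℕ, b ∈ x →
      a ∉ x → ((us → tU t ∈ x) ∧ (uf → ¬ FL T F (tI t) x)) →
      ((us → tU t ∈ x.image (Equiv.swap a b)) ∧
        (uf → ¬ FL T F (tI t) (x.image (Equiv.swap a b)))) := by
    rintro _ ⟨c, hc', rfl⟩ a ha b hb hab y hby hay ⟨q1, q2⟩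
    constructor
    · intro hu
      have h2 : tU t ≠ a := fun e => hay (e ▸ q1 hu)
      have h3 : tU t ≠ b := by
        intro e
        have := R.low c hc' (e ▸ (mem_cellS.1 hb).2) a (e ▸ hab)
        rw [(mem_cellS.1 ha).2] at this
        exact absurd this (by simp)
      rw [mem_swap, Equiv.swap_apply_of_ne_of_ne h2 h3]
      exact q1 hu
    · intro _ hf
      have := hc.tw _ ⟨c, hc', rfl⟩ a ha b hb _ _ hf
      rw [mem_swap, mem_swap, Equiv.swap_apply_left, Equiv.swap_apply_right] at this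
      exact hay (this.1 hby)
  obtain ⟨N', x', k1, k2, k3, ⟨k4, k5⟩, k6⟩ := wlog_can X.gd hc
    (Q := fun x => (us → tU t ∈ x) ∧ (uf → ¬ FL T F (tI t) x)) hQ (tI t) x N hN hF hx ⟨g1, g2⟩
  · obtain ⟨q, hq, rfl⟩ := B.mem hI N' k1 k2 x' k3 k4 k5
    refine kids_ok X hrc (fun k S C => exO_ok X R hs k S C) h1 (fun r hr => ?_) hI q ?_ N' k1 k2 k3
    · rw [tb_andn, Bool.and_eq_true] at hr
      exact B.sub r hr.1
    · rw [tb_andn, hq]
      cases e : cb.testBit q
      · rfl
      · obtain ⟨c, hc', h2⟩ := R.can q e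
        obtain ⟨a, ha, b, hb, hab, h3, h4⟩ := canB_ok h2
        exact absurd (k6 _ ⟨c, hc', rfl⟩ a ha b hb hab h3) h4

theorem run_all (X : Ctx sp Gd T) {cuts : List (ℕ × ℕ)} (hc : AllRf Gd T cuts) (fu : ℕ) :
    ∀ F C S, run sp T cuts fu F C S ≠ 0 → Rf Gd T F C := by
  induction fu with
  | zero => intro F C S h; exact absurd rfl h
  | succ fu ih =>
    intro F C S h
    have e : run sp T cuts (fu + 1) F C S = Nat.rec
      (force (Nat.shiftRight (Nat.land S 1048575) 3) fun t =>
        cz (twOK sp T t) 0 (cz (Nat.land C (twA T t))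
          (run sp T cuts fu F (andn C (twB T t)) (Nat.shiftRight S 20)) 0))
      (fun o1 _ => Nat.rec
        (force (Nat.shiftRight (Nat.land S 16383) 3) fun t =>
          br0 sp T t C fun X => kids sp T (run sp T cuts fu) ex0 F X C (Nat.shiftRight S 14))
        (fun o2 _ => Nat.rec
          (force (Nat.shiftRight (Nat.land S 255) 3) fun i =>
            Nat.rec 0 (fun r _ => cz (hsL T r (Nat.shiftRight (Nat.land S 274877906943) 8)
              (Nat.land C (getN T.ms i))) (Nat.shiftRight S 38) 0) (hsN sp T i))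
          (fun o3 _ => Nat.rec
            (force (Nat.shiftRight (Nat.land S 16383) 3) fun t =>
              br1 sp T t F C fun X => kids sp T (run sp T cuts fu) ex0 F X C (Nat.shiftRight S 14))
            (fun o4 _ => Nat.rec
              (force (Nat.shiftRight (Nat.land S 16383) 3) fun t =>
                br2 sp T t F C fun X => kids sp T (run sp T cuts fu) ex0 F X C (Nat.shiftRight S 14))
              (fun o5 _ => Nat.rec
                (force (Nat.shiftRight (Nat.land S 65535) 3) fun t =>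
                  opSym sp T (run sp T cuts fu) t F C (Nat.shiftRight S 16))
                (fun o6 _ => Nat.rec
                  (force (Nat.shiftRight (Nat.land S 255) 3) fun i =>
                    cz (andn (Nat.land F (getN T.ms i)) C) 0 (Nat.shiftRight S 8))
                  (fun _ _ => getP cuts (Nat.shiftRight (Nat.land S 2047) 3) fun F0 C0 =>
                    ceq F F0 (cz (andn C C0) (Nat.shiftRight S 11) 0) 0)
                  o6) o5) o4) o3) o2) o1) (Nat.land S 7) := rfl
    rw [e] at h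
    clear e
    generalize Nat.land S 7 = o at h
    rcases o with _ | _ | _ | _ | _ | _ | _ | o
    · replace h : force _ _ ≠ 0 := h
      rw [force_eq] at h
      obtain ⟨h1, h⟩ := cz_ne h
      obtain ⟨h2, h⟩ := cz_ne' h
      exact fun hI => ih _ _ _ h (tw_ok X h1 h2 hI)
    · replace h : force _ _ ≠ 0 := h
      rw [force_eq] at h
      exact plain_ok X ih (br0_ok X h)
    · replace h : force _ _ ≠ 0 := h
      rw [force_eq] at h
      generalize Nat.shiftRight (Nat.land S 255) 3 = i at h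
      cases e : hsN sp T i with
      | zero => rw [e] at h; exact absurd rfl h
      | succ r =>
        rw [e] at h
        exact hs_ok X e (cz_ne' (a := hsL T r _ _) h).1
    · replace h : force _ _ ≠ 0 := h
      rw [force_eq] at h
      exact plain_ok X ih (br1_ok X h)
    · replace h : force _ _ ≠ 0 := h
      rw [force_eq] at h
      exact plain_ok X ih (br2_ok X h)
    · replace h : force _ _ ≠ 0 := h
      rw [force_eq] at h
      exact opSym_ok X ih h
    · replace h : force _ _ ≠ 0 := h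
      rw [force_eq] at h
      exact dead_ok (cz_ne h).1
    · replace h : getP _ _ _ ≠ 0 := h
      obtain ⟨F0, C0, h1, h2⟩ := getP_ok hc h
      obtain ⟨rfl, h3⟩ := ceq_ne h2
      exact cut_ok h1 (cz_ne' h3).1

theorem run_ok (X : Ctx sp Gd T) {cuts : List (ℕ × ℕ)} {fu F C S : ℕ}
    (h : Nat.ble 1 (run sp T cuts fu F C S) = true) (hc : AllRf Gd T cuts) : Rf Gd T F C :=
  run_all X hc fu F C S (ble_one h)

end Pool.Agent.P.MP_9e9aa3_co
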