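import Pool.Agent.P.MP_9e9aa3_co.Snd4

set_option autoImplicit false

namespace Pool.Agent.P.MP_9e9aa3_co

open Finset E

/-- the leaf routine has been passed by the line `x` -/
def Lf (leaf : List ℕ → ℕ → ℕ → ℕ) (x : Finset ℕ) : Prop :=
  ∃ l m s, leaf l m s ≠ 0 ∧ l.Nodup ∧ (∀ p, p ∈ l ↔ p ∈ x) ∧ dec m = x

structure GS (x : Finset ℕ) (cur : List ℕ) (cm av r : ℕ) : Prop where
  nd : cur.Nodup
  cm : ∀ p, p ∈ cur ↔ cm.testBit p = true
  sub : ∀ p ∈ cur, p ∈ x
  av : ∀ p ∈ x, p ∉ cur → av.testBit p = true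
  card : x.card = cur.length + r

theorem GS.done {x : Finset ℕ} {cur : List ℕ} {cm av s : ℕ} {leaf : List ℕ → ℕ → ℕ → ℕ}
    (g : GS x cur cm av 0) (h : leaf cur cm s ≠ 0) : Lf leaf x := by
  have e : cur.toFinset = x := by
    refine eq_of_subset_of_card_le (fun p hp => g.sub p (List.mem_toFinset.1 hp)) ?_
    rw [List.toFinset_card_of_nodup g.nd, g.card]
    omega
  refine ⟨cur, cm, s, h, g.nd, fun p => by rw [← e, List.mem_toFinset], ?_⟩
  ext p
  rw [mem_dec, ← g.cm, ← e, List.mem_toFinset]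

theorem GS.more {x : Finset ℕ} {cur : List ℕ} {cm av r : ℕ} (g : GS x cur cm av (r + 1)) :
    ∃ p ∈ x, p ∉ cur := by
  by_contra hc
  push Not at hc
  have := card_le_card (s := x) (t := cur.toFinset) fun p hp => List.mem_toFinset.2 (hc p hp)
  rw [List.toFinset_card_of_nodup g.nd, g.card] at this
  omega

theorem GS.pos {x : Finset ℕ} {cur : List ℕ} {cm av p : ℕ} (g : GS x cur cm av 0) (hp : p ∈ x) :
    p ∈ cur := by
  have e : cur.toFinset = x := by
    refine eq_of_subset_of_card_le (fun p hp => g.sub p (List.mem_toFinset.1 hp)) ?_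
    rw [List.toFinset_card_of_nodup g.nd, g.card]
    omega
  rw [← e] at hp
  exact List.mem_toFinset.1 hp

theorem GS.step {x : Finset ℕ} {cur : List ℕ} {cm av r p : ℕ} {rm : ℕ → ℕ}
    (g : GS x cur cm av (r + 1)) (hrm : ∀ p ∈ x, ∀ q ∈ x, (rm p).testBit q = true → q = p)
    (hp : p ∈ x) (hc : p ∉ cur) : GS x (p :: cur) (Nat.lor cm (bit p)) (andn av (rm p)) r := by
  refine ⟨List.nodup_cons.2 ⟨hc, g.nd⟩, ?_, List.forall_mem_cons.2 ⟨hp, g.sub⟩, ?_, ?_⟩
  · intro q
    rw [List.mem_cons, tb_lor, tb_bit, g.cm, Bool.or_eq_true, decide_eq_true_eq, eq_comm, or_comm]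
  · intro q hq hn
    rw [List.mem_cons, not_or] at hn
    rw [tb_andn, g.av q hq hn.2]
    cases e : (rm p).testBit q
    · rfl
    · exact absurd (hrm p hp q hq e) hn.1
  · rw [g.card, List.length_cons]
    omega

theorem fr_ok {x : Finset ℕ} {rm pr : ℕ → ℕ} {leaf : List ℕ → ℕ → ℕ → ℕ}
    (hrm : ∀ p ∈ x, ∀ q ∈ x, (rm p).testBit q = true → q = p)
    (hpr : ∀ p ∈ x, ∀ a, (pr p).testBit a = true → a ∈ x ∧ a < p) (l : List ℕ) :
    ∀ cur cm av r st, fr rm pr leaf l cur cm av r st ≠ 0 → GS x cur cm av r → l.Pairwise (· < ·) →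
      (∀ p ∈ x, p ∉ cur → p ∈ l) → Lf leaf x := by
  induction l with
  | nil =>
    intro cur cm av r st h g _ hl
    cases r with
    | zero => exact g.done h
    | succ r =>
      obtain ⟨p, hp, hc⟩ := g.more
      exact absurd (hl p hp hc) (by simp)
  | cons p l ih =>
    intro cur cm av r st h g hs hl
    cases r with
    | zero => exact g.done h
    | succ r =>
      have h' : cz (Nat.land av (bit p)) (fr rm pr leaf l cur cm av (r + 1) st) (cz (andn (pr p) cm)
        (E.sq (fr rm pr leaf l (p :: cur) (Nat.lor cm (bit p)) (andn av (rm p)) r st)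
          (fr rm pr leaf l cur cm av (r + 1))) (fr rm pr leaf l cur cm av (r + 1) st)) ≠ 0 := h
      rw [List.pairwise_cons] at hs
      by_cases e : p ∈ x ∧ p ∉ cur
      · have e1 : Nat.land av (bit p) ≠ 0 := (land_bit_ne _ _).2 (g.av p e.1 e.2)
        have e2 : andn (pr p) cm = 0 := by
          apply eq_zero_of_tb
          intro a
          rw [tb_andn]
          cases e3 : (pr p).testBit a
          · rfl
          · obtain ⟨h1, h2⟩ := hpr p e.1 a e3
            have : a ∈ cur := by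
              by_contra hn
              rcases List.mem_cons.1 (hl a h1 hn) with h3 | h3
              · omega
              · have := hs.1 a h3
                omega
            rw [(g.cm a).1 this]
            rfl
        rw [cz_eq, if_neg e1, cz_eq, if_pos e2] at h'
        refine ih _ _ _ _ _ (sq_ne h').1 (g.step hrm e.1 e.2) hs.2 fun q hq hn => ?_
        rw [List.mem_cons, not_or] at hn
        exact (List.mem_cons.1 (hl q hq hn.2)).resolve_left hn.1
      · have : ∃ s, fr rm pr leaf l cur cm av (r + 1) s ≠ 0 := by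
          simp only [cz_eq] at h'
          split_ifs at h'
          · exact ⟨_, h'⟩
          · exact (sq_ne h').2
          · exact ⟨_, h'⟩
        obtain ⟨s, hs'⟩ := this
        refine ih _ _ _ _ _ hs' g hs.2 fun q hq hn => ?_
        refine (List.mem_cons.1 (hl q hq hn)).resolve_left fun e' => e ?_
        exact e' ▸ ⟨hq, hn⟩

theorem pick_ok {rm pr : ℕ → ℕ} {g : List ℕ → ℕ → ℕ → ℕ → ℕ} {cur : List ℕ} {cm av p : ℕ}
    (h1 : av.testBit p = true) (h2 : andn (pr p) cm = 0) (l : List ℕ) :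
    ∀ st, pick rm pr g cur cm av l st ≠ 0 → p ∈ l →
      ∃ s, g (p :: cur) (Nat.lor cm (bit p)) (andn av (rm p)) s ≠ 0 := by
  induction l with
  | nil => intro st _ h; exact absurd h (by simp)
  | cons a l ih =>
    intro st h hp
    have h' : cz (Nat.land av (bit a)) (pick rm pr g cur cm av l st) (cz (andn (pr a) cm)
      (E.sq (g (a :: cur) (Nat.lor cm (bit a)) (andn av (rm a)) st) (pick rm pr g cur cm av l))
      (pick rm pr g cur cm av l st)) ≠ 0 := h
    by_cases e : p = a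
    · subst e
      rw [cz_eq, if_neg ((land_bit_ne _ _).2 h1), cz_eq, if_pos h2] at h'
      exact ⟨_, (sq_ne h').1⟩
    · have : ∃ s, pick rm pr g cur cm av l s ≠ 0 := by
        simp only [cz_eq] at h'
        split_ifs at h'
        · exact ⟨_, h'⟩
        · exact (sq_ne h').2
        · exact ⟨_, h'⟩
      obtain ⟨s, hs⟩ := this
      exact ih s hs ((List.mem_cons.1 hp).resolve_left e)

theorem ms_ok {x : Finset ℕ} {n : ℕ} {rm pr : ℕ → ℕ} {leaf : List ℕ → ℕ → ℕ → ℕ}
    (hx : ∀ p ∈ x, p < n) (hrm : ∀ p ∈ x, ∀ q ∈ x, (rm p).testBit q = true → q = p)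
    (hpr : ∀ p ∈ x, ∀ a, (pr p).testBit a = true → a ∈ x ∧ a < p) (l : List ℕ)
    (hl : ∀ y ∈ l, (x ∩ dec y).card = 1 ∧
      ∀ p ∈ x, ∀ a, (pr p).testBit a = true → y.testBit p = true → y.testBit a = true) :
    ∀ cur cm av r st, ms n rm pr leaf l cur cm av r st ≠ 0 → GS x cur cm av r → Lf leaf x := by
  induction l with
  | nil =>
    intro cur cm av r st h g
    refine fr_ok hrm hpr _ _ _ _ _ _ h g (pts_sorted _ _) fun p hp _ => ?_
    rw [mem_pts, tb_bit_sub]
    simp [hx p hp]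
  | cons y l ih =>
    intro cur cm av r st h g
    have ih' := ih fun z hz => hl z (List.mem_cons_of_mem _ hz)
    obtain ⟨h1, h2⟩ := hl y List.mem_cons_self
    have h' : cz (Nat.land cm y) (Nat.rec st (fun r1 _ => pick rm pr
      (fun c m a s => ms n rm pr leaf l c m a r1 s) cur cm av (pts n y) st) r)
      (ms n rm pr leaf l cur cm av r st) ≠ 0 := h
    rw [cz_eq] at h'
    split_ifs at h' with e
    swap
    · exact ih' _ _ _ _ _ h' g
    obtain ⟨p, hp⟩ := card_eq_one.1 h1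
    have hp1 : p ∈ x ∩ dec y := hp ▸ mem_singleton_self p
    rw [mem_inter, mem_dec] at hp1
    have hc : p ∉ cur := by
      intro hc
      have := zero_tb e p
      rw [tb_land, (g.cm p).1 hc, hp1.2] at this
      exact absurd this (by simp)
    cases r with
    | zero => exact absurd (g.pos hp1.1) hc
    | succ r =>
      have e2 : andn (pr p) cm = 0 := by
        apply eq_zero_of_tb
        intro a
        rw [tb_andn]
        cases e3 : (pr p).testBit a
        · rfl
        · obtain ⟨h3, h4⟩ := hpr p hp1.1 a e3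
          have : a ∈ x ∩ dec y := mem_inter.2 ⟨h3, mem_dec.2 (h2 p hp1.1 a e3 hp1.2)⟩
          rw [hp, mem_singleton] at this
          omega
      obtain ⟨s, hs⟩ := pick_ok (g.av p hp1.1 hc) e2 _ _ h' (mem_pts.2 ⟨hx p hp1.1, hp1.2⟩)
      exact ih' _ _ _ _ _ hs (g.step hrm hp1.1 hc)

theorem disC_ok {sp : Spec} {i b : ℕ} {leaf : List ℕ → ℕ → ℕ → ℕ} (F : Cfg) :
    ∀ st, disC sp i b leaf F st ≠ 0 → ∀ e ∈ F, isDis sp i e.1 = 0 → andn b e.2 = 0 →
      ∃ s, leaf (pts sp.n e.2) e.2 s ≠ 0 := by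
  induction F with
  | nil => intro st _ e he; exact absurd he (by simp)
  | cons a F ih =>
    intro st h e he h1 h2
    have h' : cz (isDis sp i a.1) (cz (andn b a.2) (E.sq (leaf (pts sp.n a.2) a.2 st)
      (disC sp i b leaf F)) (disC sp i b leaf F st)) (disC sp i b leaf F st) ≠ 0 := h
    rcases List.mem_cons.1 he with rfl | he
    · rw [cz_eq, if_pos h1, cz_eq, if_pos h2] at h'
      exact ⟨_, (sq_ne h').1⟩
    · have : ∃ s, disC sp i b leaf F s ≠ 0 := by
        simp only [cz_eq] at h'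
        split_ifs at h'
        · exact (sq_ne h').2
        · exact ⟨_, h'⟩
        · exact ⟨_, h'⟩
      obtain ⟨s, hs⟩ := this
      exact ih s hs e he h1 h2

/-- the situation of the generator -/
structure GC (sp : Spec) (F : Cfg) (N : Fam) (i : ℕ) (x : Finset ℕ) : Prop where
  hyp : Hyp sp (range sp.n) N
  k7 : ∀ i, getN sp.k i ≤ 7
  sub : SubC F N
  mem : N i x

variable {sp : Spec} {F : Cfg} {N : Fam} {i : ℕ} {x : Finset ℕ}

theorem GC.lt (g : GC sp F N i x) : ∀ p ∈ x, p < sp.n :=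
  fun _ hp => mem_range.1 ((g.hyp.sub i x g.mem).1 hp)

theorem GC.rel (g : GC sp F N i x) {e : ℕ × ℕ} (he : e ∈ F) :
    (relF sp i e.1).testBit (x ∩ dec e.2).card = true := relF_ok g.hyp g.k7 g.mem (g.sub e he)

theorem tb_two {c : ℕ} (h : Nat.testBit 2 c = true) : c = 1 := by
  have : (2 : ℕ) = 2 ^ 1 := rfl
  rw [this, Nat.testBit_two_pow] at h
  simpa [eq_comm] using h

theorem GC.must (g : GC sp F N i x) : ∀ y ∈ mustL sp F i, (x ∩ dec y).card = 1 ∧ ∃ e ∈ F, e.2 = y := by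
  unfold mustL
  refine fold_ind (P := fun (l : Cfg) (r : List ℕ) => (∀ e ∈ l, e ∈ F) →
    ∀ y ∈ r, (x ∩ dec y).card = 1 ∧ ∃ e ∈ F, e.2 = y) (by simp) ?_ F fun _ h => h
  intro e l r ih hl
  rw [List.forall_mem_cons] at hl
  rw [brec_beq]
  split_ifs with h
  · refine List.forall_mem_cons.2 ⟨⟨?_, e, hl.1, rfl⟩, ih hl.2⟩
    have := g.rel hl.1
    rw [h] at this
    exact tb_two this
  · exact ih hl.2

theorem thru_ok (F : Cfg) (j p q : ℕ) (h : (thru F j (bit p)).testBit q = true) :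
    ∃ e ∈ F, e.1 = j ∧ e.2.testBit p = true ∧ e.2.testBit q = true := by
  unfold thru at h
  refine fold_ind (P := fun (l : Cfg) (r : ℕ) => r.testBit q = true →
    ∃ e ∈ l, e.1 = j ∧ e.2.testBit p = true ∧ e.2.testBit q = true) (by simp) ?_ F h
  intro e l r ih h
  have k : r.testBit q = true → ∃ e' ∈ e :: l, e'.1 = j ∧ e'.2.testBit p = true ∧
      e'.2.testBit q = true := fun h => by
    obtain ⟨a, ha, h⟩ := ih h
    exact ⟨a, List.mem_cons_of_mem _ ha, h⟩
  rw [ceq_eq, cz_eq] at h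
  split_ifs at h with h1 h2
  · exact k h
  · rw [tb_lor, Bool.or_eq_true] at h
    rcases h with h | h
    · exact ⟨e, List.mem_cons_self, h1, (land_bit_ne _ _).1 h2, h⟩
    · exact k h
  · exact k h

theorem GC.rem (g : GC sp F N i x) : ∀ p ∈ x, ∀ q ∈ x, (rem sp F i p).testBit q = true → q = p := by
  intro p hp q hq h
  have h0 : (remT sp F i (bit p)).testBit q = true → q = p := by
    unfold remT
    refine fold_ind (P := fun (l : List (ℕ × ℕ × ℕ)) (r : ℕ) => (∀ e ∈ l, e ∈ sp.tri) →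
      r.testBit q = true → q = p) ?_ ?_ sp.tri fun _ h => h
    · intro _ h
      rw [tb_bit] at h
      exact (of_decide_eq_true h).symm
    · intro e l r ih hl h
      rw [List.forall_mem_cons] at hl
      rw [ceq_eq, cz_eq] at h
      split_ifs at h with h1 h2
      · exact ih hl.2 h
      · rw [tb_lor, Bool.or_eq_true] at h
        rcases h with h | h
        · obtain ⟨z, hz, z1, z2, z3⟩ := thru_ok _ _ _ _ h
          obtain ⟨q', hq'⟩ := ne_zero_tb h2
          obtain ⟨y, hy, y1, y2, _⟩ := thru_ok _ _ _ _ hq'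
          exact g.hyp.tri e hl.1 x (dec y.2) (dec z.2) (h1 ▸ g.mem) (y1 ▸ g.sub y hy)
            (z1 ▸ g.sub z hz) p hp (mem_dec.2 y2) (mem_dec.2 z2) q hq (mem_dec.2 z3)
        · exact ih hl.2 h
      · exact ih hl.2 h
  unfold E.rem at h
  refine fold_ind (P := fun (l : Cfg) (r : ℕ) => (∀ e ∈ l, e ∈ F) → r.testBit q = true → q = p)
    (fun _ => h0) ?_ F (fun _ h => h) h
  intro e l r ih hl h
  rw [List.forall_mem_cons] at hl
  rw [cle_eq, cz_eq] at h
  split_ifs at h with h1 h2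
  · exact ih hl.2 h
  · rw [tb_lor, Bool.or_eq_true] at h
    rcases h with h | h
    · have h3 := g.rel hl.1
      have h4 : (x ∩ dec e.2).card ≤ 1 := by
        by_contra hc
        have h5 : 2 ^ 2 ≤ 2 ^ (x ∩ dec e.2).card := Nat.pow_le_pow_right (by norm_num) (by omega)
        have := Nat.ge_two_pow_of_testBit h3
        omega
      exact card_le_one.1 h4 q (mem_inter.2 ⟨hq, mem_dec.2 h⟩) p
        (mem_inter.2 ⟨hp, mem_dec.2 ((land_bit_ne _ _).1 h2)⟩)
    · exact ih hl.2 h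
  · exact ih hl.2 h

theorem disU_ok (F : Cfg) (p : ℕ) (h : (disU sp F i).testBit p = true) :
    ∃ e ∈ F, isDis sp i e.1 = 0 ∧ e.2.testBit p = true := by
  unfold disU at h
  refine fold_ind (P := fun (l : Cfg) (r : ℕ) => r.testBit p = true →
    ∃ e ∈ l, isDis sp i e.1 = 0 ∧ e.2.testBit p = true) (by simp) ?_ F h
  intro e l r ih h
  have k : r.testBit p = true → ∃ e' ∈ e :: l, isDis sp i e'.1 = 0 ∧ e'.2.testBit p = true :=
    fun h => by
      obtain ⟨a, ha, h⟩ := ih h
      exact ⟨a, List.mem_cons_of_mem _ ha, h⟩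
  rw [cz_eq] at h
  split_ifs at h with h1
  · rw [tb_lor, Bool.or_eq_true] at h
    rcases h with h | h
    · exact ⟨e, List.mem_cons_self, h1, h⟩
    · exact k h
  · exact k h

theorem GC.dis (g : GC sp F N i x) {e : ℕ × ℕ} (he : e ∈ F) (h : isDis sp i e.1 = 0) {p : ℕ}
    (hp : p ∈ x) (hq : e.2.testBit p = true) : dec e.2 = x := by
  unfold isDis at h
  rw [cle_eq] at h
  split_ifs at h with h1
  have h2 := zero_tb h (x ∩ dec e.2).card
  have h3 : 0 < (x ∩ dec e.2).card := card_pos.2 ⟨p, mem_inter.2 ⟨hp, mem_dec.2 hq⟩⟩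
  have h4 : Nat.testBit 1 (x ∩ dec e.2).card = false := by
    rw [show (1 : ℕ) = 2 ^ 0 from rfl, Nat.testBit_two_pow]
    simp
    omega
  rw [tb_andn, g.rel he, tb_lor, tb_bit, h4] at h2
  have h5 : getN sp.k i = (x ∩ dec e.2).card := by simpa using h2
  have h6 := (g.hyp.sub i x g.mem).2
  have h7 := (g.hyp.sub _ _ (g.sub e he)).2
  have h8 : x ∩ dec e.2 = x := eq_of_subset_of_card_le inter_subset_left (by omega)
  exact (eq_of_subset_of_card_le (inter_eq_left.1 h8) (by omega)).symm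

theorem GC.dis_leaf (g : GC sp F N i x) {leaf : List ℕ → ℕ → ℕ → ℕ} {b st : ℕ}
    (h : disC sp i b leaf F st ≠ 0) (hb : ∀ p, b.testBit p = true → p ∈ x)
    (hd : ∃ p ∈ x, (disU sp F i).testBit p = true) : Lf leaf x := by
  obtain ⟨p, hp, hd⟩ := hd
  obtain ⟨e, he, h1, h2⟩ := disU_ok F p hd
  have h3 := g.dis he h1 hp h2
  obtain ⟨s, hs⟩ := disC_ok F st h e he h1 (eq_zero_of_tb fun a => by
    rw [tb_andn]
    cases e3 : b.testBit a
    · rfl
    · have := hb a e3
      rw [← h3, mem_dec] at this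
      rw [this]
      rfl)
  refine ⟨_, _, s, hs, pts_nodup _ _, fun q => ?_, h3⟩
  rw [mem_pts, ← mem_dec, h3, and_iff_right_iff_imp]
  exact g.lt q

theorem GC.genA (g : GC sp F N i x) {leaf : List ℕ → ℕ → ℕ → ℕ} {pr : ℕ → ℕ} {st : ℕ}
    (hpr : ∀ p ∈ x, ∀ a, (pr p).testBit a = true → (a ∈ x ∧ a < p) ∧
      ∀ e ∈ F, e.2.testBit p = true → e.2.testBit a = true)
    (h : genA sp F i pr leaf st ≠ 0) : Lf leaf x := by
  obtain ⟨h1, s, h2⟩ := sq_ne h
  by_cases hd : ∃ p ∈ x, (disU sp F i).testBit p = true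
  · exact g.dis_leaf h1 (by simp) hd
  push Not at hd
  refine ms_ok g.lt g.rem (fun p hp a ha => (hpr p hp a ha).1) _ (fun y hy => ?_) _ _ _ _ _ h2
    ⟨List.nodup_nil, by simp, by simp, fun p hp _ => ?_, by simp [(g.hyp.sub i x g.mem).2]⟩
  · obtain ⟨h3, e, he, rfl⟩ := g.must y hy
    exact ⟨h3, fun p hp a ha => (hpr p hp a ha).2 e he⟩
  · rw [tb_andn, tb_bit_sub]
    simp [g.lt p hp, hd p hp]

theorem GC.genS (g : GC sp F N i x) {leaf : List ℕ → ℕ → ℕ → ℕ} {pr : ℕ → ℕ} {s st : ℕ}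
    (hpr : ∀ p ∈ x, ∀ a, (pr p).testBit a = true → (a ∈ x ∧ a < p) ∧
      ∀ e ∈ F, e.2.testBit p = true → e.2.testBit a = true) (hs : s ∈ x)
    (h : genS sp F i s pr leaf st ≠ 0) : Lf leaf x := by
  obtain ⟨h1, s1, h2⟩ := sq_ne h
  by_cases hd : ∃ p ∈ x, (disU sp F i).testBit p = true
  · refine g.dis_leaf h1 (fun p hp => ?_) hd
    rw [tb_bit] at hp
    exact (of_decide_eq_true hp) ▸ hs
  push Not at hd
  rw [cz_eq, if_pos ((land_bit_zero _ _).2 (by simpa using hd s hs))] at h2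
  have hk := (g.hyp.sub i x g.mem).2
  have hpos : 0 < x.card := card_pos.2 ⟨s, hs⟩
  have g0 : GS x [] 0 (andn (Nat.sub (bit sp.n) 1) (disU sp F i)) (Nat.sub (getN sp.k i) 1 + 1) := by
    refine ⟨List.nodup_nil, by simp, by simp, fun p hp _ => ?_, ?_⟩
    · rw [tb_andn, tb_bit_sub]
      simp [g.lt p hp, hd p hp]
    · show _ = 0 + (getN sp.k i - 1 + 1)
      omega
  have g1 := g0.step g.rem hs (by simp)
  rw [show Nat.lor 0 (bit s) = bit s from Nat.zero_or _] at g1
  refine ms_ok g.lt g.rem (fun p hp a ha => (hpr p hp a ha).1) _ (fun y hy => ?_) _ _ _ _ _ h2 g1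
  obtain ⟨h3, e, he, rfl⟩ := g.must y hy
  exact ⟨h3, fun p hp a ha => (hpr p hp a ha).2 e he⟩

theorem cntL_eq (y : ℕ) {l : List ℕ} (hn : l.Nodup) (hl : ∀ p, p ∈ l ↔ p ∈ x) :
    cntL y l = (x ∩ dec y).card := by
  have h1 : ∀ l : List ℕ, cntL y l = l.countP (fun p => y.testBit p) := by
    intro l
    induction l with
    | nil => rfl
    | cons a l ih =>
      show cntL y l + tb y a = _
      rw [List.countP_cons, ih, tb_val]
  rw [h1, List.countP_eq_length_filter, ← List.toFinset_card_of_nodup (hn.filter _)]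
  congr 1
  ext p
  simp only [List.mem_toFinset, List.mem_filter, mem_inter, mem_dec, hl]

theorem GC.inval (g : GC sp F N i x) {l : List ℕ} (hn : l.Nodup) (hl : ∀ p, p ∈ l ↔ p ∈ x)
    (a b : ℕ) : inval sp F i l a b = b := by
  unfold E.inval
  refine fold_ind (P := fun (L : Cfg) (r : ℕ) => (∀ e ∈ L, e ∈ F) → r = b) (fun _ => rfl) ?_ F
    fun _ h => h
  intro e L r ih hL
  rw [List.forall_mem_cons] at hL
  rw [cz_eq, if_neg ((tb_ne _ _).2 (by rw [cntL_eq _ hn hl]; exact g.rel hL.1)), ih hL.2]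

end Pool.Agent.P.MP_9e9aa3_co
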