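import Pool.Agent.P.MP_9e9aa3_co.Snd5

set_option autoImplicit false

namespace Pool.Agent.P.MP_9e9aa3_co

open Finset E

def Ref (Gd : Fam → Prop) (F : Cfg) : Prop := ∀ N, Gd N → SubC F N → False

def AllRef (Gd : Fam → Prop) : List Cfg → Prop
  | [] => True
  | a :: l => Ref Gd a ∧ AllRef Gd l

def AllTab (sp : Spec) (T : Tab) (ex : ℕ → ℕ → ℕ) (F : Cfg) : List ℕ → Prop
  | [] => True
  | a :: l => Nat.ble 1 (tabC sp T ex F a) = true ∧ AllTab sp T ex F l

noncomputable def lorB (l : List ℕ) : ℕ := List.rec 0 (fun a _ ih => Nat.lor (bit a) ih) l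

noncomputable def rootOK (T : Tab) (F : Cfg) (al : List ℕ) (F0 C0 : ℕ) : ℕ :=
  ceq F0 (Nat.sub (bit F.length) 1) (cz (andn (lorL T.ms) C0) (cz (andn T.act (lorB al)) 1 0) 0) 0

variable {sp : Spec} {Gd : Fam → Prop} {T : Tab}

theorem tb_lineM (l : List ℕ) (k p : ℕ) : (lineM l (bit k)).testBit p = (getN l p).testBit k := by
  induction l generalizing p with
  | nil => simp [lineM]
  | cons a l ih =>
    have e : lineM (a :: l) (bit k) = 2 * lineM l (bit k) + cz (Nat.land a (bit k)) 0 1 := rfl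
    rw [e, cz_eq]
    cases p with
    | zero =>
      rw [Nat.testBit_zero, getN_zero]
      split_ifs with h
      · rw [(land_bit_zero _ _).1 h]
        simp
      · rw [(land_bit_ne _ _).1 h]
        simp
    | succ p =>
      rw [Nat.testBit_succ, getN_succ, ← ih]
      congr 1
      split_ifs <;> omega

theorem baseOK_ok (F : Cfg) : ∀ t, baseOK T F t ≠ 0 →
    (∀ e ∈ F, ∃ k, t ≤ k ∧ k < t + F.length ∧ (getN T.ms e.1).testBit k = true ∧ line T k = dec e.2) ∧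
    ∀ k, t ≤ k → k < t + F.length →
      ∃ e ∈ F, (getN T.ms e.1).testBit k = true ∧ line T k = dec e.2 := by
  induction F with
  | nil => intro t _; simp
  | cons a F ih =>
    intro t h
    have h' : cz (Nat.land (getN T.ms a.1) (bit t)) 0
      (ceq (lineM T.ps (bit t)) a.2 (baseOK T F (t + 1)) 0) ≠ 0 := h
    obtain ⟨h1, h'⟩ := cz_ne h'
    obtain ⟨h2, h'⟩ := ceq_ne h'
    obtain ⟨h3, h4⟩ := ih _ h'
    rw [land_bit_ne] at h1
    have h5 : line T t = dec a.2 := by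
      ext p
      rw [mem_line, mem_dec, ← h2, tb_lineM]
    rw [List.length_cons]
    constructor
    · refine List.forall_mem_cons.2 ⟨⟨t, le_refl _, by omega, h1, h5⟩, fun e he => ?_⟩
      obtain ⟨k, k1, k2, k3⟩ := h3 e he
      exact ⟨k, by omega, by omega, k3⟩
    · intro k k1 k2
      by_cases e : k = t
      · subst e
        exact ⟨a, List.mem_cons_self, h1, h5⟩
      · obtain ⟨e, he, k3⟩ := h4 k (by omega) (by omega)
        exact ⟨e, List.mem_cons_of_mem _ he, k3⟩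

theorem tab_ctx {sym : ℕ} {F : Cfg} (gd : GoodD sp sym Gd) (h : Nat.ble 1 (tabS sp T F) = true)
    (hs : T.sym = sym) : Ctx sp Gd T := by
  obtain ⟨h1, h⟩ := cz_ne (ble_one h)
  obtain ⟨h2, h⟩ := ceq_ne h
  obtain ⟨h3, h⟩ := cz_ne h
  obtain ⟨_, h⟩ := cz_ne h
  refine ⟨hs ▸ gd, le7_ok h1, by rw [← h2, lenL_eq], (disj_ok h3).2, fun i k hk => ?_⟩
  obtain ⟨x, y, z, w, e1, e2⟩ := cntA_ok T.ps 0 0 0 0
  rw [e1] at h
  obtain ⟨h4, h⟩ := cz_ne' h
  obtain ⟨h5, _⟩ := cz_ne' h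
  have g1 := zero_tb h4 k
  have g2 := zero_tb h5 k
  rw [tb_land, tb_lorL _ _ _ hk, Bool.true_and] at g1
  rw [tb_andn, tb_lorL _ _ _ hk, Bool.true_and, tb_mux8, ((e2 k).2 g1).2, val_zero, zero_add,
    countP_getN, Bool.not_eq_false', tb_uni] at g2
  obtain ⟨j, g3, g4⟩ := g2
  rw [tb_bit, (disj_ok h3).2 j i k g3 hk] at g4
  exact (of_decide_eq_true g4).symm

theorem qOf_ok (i q : ℕ) (l : List ℕ) (h : (qOf T i l).testBit q = true) :
    (getN T.ms i).testBit q = true ∧ ∀ p ∈ l, (getN T.ps p).testBit q = true := by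
  unfold qOf at h
  refine fold_ind (P := fun (l : List ℕ) (r : ℕ) => r.testBit q = true →
    (getN T.ms i).testBit q = true ∧ ∀ p ∈ l, (getN T.ps p).testBit q = true) ?_ ?_ l h
  · intro h
    exact ⟨h, by simp⟩
  · intro e l r ih h
    rw [tb_land, Bool.and_eq_true] at h
    exact ⟨(ih h.1).1, List.forall_mem_cons.2 ⟨h.2, (ih h.1).2⟩⟩

theorem tabC_ok (X : Ctx sp Gd T) {ex : ℕ → ℕ → ℕ}
    (gx : ∀ N, Gd N → ∀ i m, N i (dec m) → ex i m ≠ 0) {F : Cfg} {i : ℕ}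
    (h : Nat.ble 1 (tabC sp T ex F i) = true) {N : Fam} (hN : Gd N) (hF : SubC F N) {x : Finset ℕ}
    (hx : N i x) : ∃ k, (getN T.ms i).testBit k = true ∧ line T k = x := by
  have g : GC sp F N i x := ⟨X.gd.hyp N hN, X.k7, hF, hx⟩
  obtain ⟨l, m, s, h1, h2, h3, h4⟩ := g.genA (pr := zero1) (by simp [zero1]) (ble_one h)
  unfold leafT at h1
  rw [brec_beq, cz_eq, if_neg (gx N hN i m (h4 ▸ hx)), g.inval h2 h3] at h1
  split_ifs at h1 with e
  · exact absurd rfl h1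
  obtain ⟨q, hq⟩ := ne_zero_tb e
  obtain ⟨h5, h6⟩ := qOf_ok i q l hq
  refine ⟨q, h5, (eq_of_subset_of_card_le (fun p hp => mem_line.2 (h6 p ((h3 p).2 hp))) ?_).symm⟩
  rw [X.card i q h5, (g.hyp.sub i x hx).2]

theorem allTab_ok {ex : ℕ → ℕ → ℕ} {F : Cfg} {al : List ℕ} (tc : AllTab sp T ex F al) (i : ℕ) :
    (lorB al).testBit i = true → Nat.ble 1 (tabC sp T ex F i) = true := by
  induction al with
  | nil => simp [lorB]
  | cons a l ih =>
    intro h
    have h' : (Nat.lor (bit a) (lorB l)).testBit i = true := h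
    rw [tb_lor, tb_bit, Bool.or_eq_true, decide_eq_true_eq] at h'
    rcases h' with rfl | h'
    · exact tc.1
    · exact ih tc.2 h'

theorem tab_ref (X : Ctx sp Gd T) {ex : ℕ → ℕ → ℕ}
    (gx : ∀ N, Gd N → ∀ i m, N i (dec m) → ex i m ≠ 0) {F : Cfg}
    (ts : Nat.ble 1 (tabS sp T F) = true) {al : List ℕ} (tc : AllTab sp T ex F al) {F0 C0 : ℕ}
    (hr : Nat.ble 1 (rootOK T F al F0 C0) = true) (R : Rf Gd T F0 C0) : Ref Gd F := by
  obtain ⟨_, h⟩ := cz_ne (ble_one ts)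
  obtain ⟨_, h⟩ := ceq_ne h
  obtain ⟨_, h⟩ := cz_ne h
  obtain ⟨hb, _⟩ := cz_ne h
  obtain ⟨b1, b2⟩ := baseOK_ok F 0 hb
  obtain ⟨r1, h⟩ := ceq_ne (ble_one hr)
  obtain ⟨r2, h⟩ := cz_ne' h
  obtain ⟨r3, _⟩ := cz_ne' h
  have hal := allTab_ok tc
  intro N hN hF
  refine R (fun N' hN' hF' => ⟨fun i hi x hx => ?_, fun i k hk _ => ?_⟩) N hN ?_
  · have h1 := zero_tb r3 i
    rw [tb_andn, hi] at h1
    refine tabC_ok X gx (hal i (by simpa using h1)) hN' (fun e he => ?_) hx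
    obtain ⟨k, _, k2, k3, k4⟩ := b1 e he
    refine hF' _ _ ⟨k, ?_, k3, k4⟩
    rw [r1, tb_bit_sub]
    simpa using k2
  · have h1 := zero_tb r2 k
    rw [tb_andn, tb_lorL _ _ _ hk] at h1
    simpa using h1
  · rintro j _ ⟨k, k1, k2, rfl⟩
    rw [r1, tb_bit_sub] at k1
    obtain ⟨e, he, k3, k4⟩ := b2 k (Nat.zero_le _) (by simpa using k1)
    rw [X.dis j _ k k2 k3, k4]
    exact hF e he

theorem memC_eq (F : Cfg) (i m a b : ℕ) : memC F i m a b = if (i, m) ∈ F then a else b := by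
  induction F with
  | nil => rfl
  | cons e F ih =>
    have h : memC (e :: F) i m a b = ceq e.2 m (ceq e.1 i a (memC F i m a b)) (memC F i m a b) := rfl
    rw [h, ceq_eq, ceq_eq, ih]
    obtain ⟨c, d⟩ := e
    by_cases h1 : d = m <;> by_cases h2 : c = i
    · simp [h1, h2]
    · simp [h1, h2, Ne.symm h2]
    · simp [h1, Ne.symm h1]
    · simp [h1, Ne.symm h1]

theorem subC_ok {G F : Cfg} {x : ℕ} (h : subC G F x ≠ 0) : ∀ e ∈ G, e ∈ F := by
  unfold subC at h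
  refine fold_ind (P := fun (l : Cfg) (r : ℕ) => r ≠ 0 → ∀ e ∈ l, e ∈ F) (by simp) ?_ G h
  intro e l r ih h
  rw [memC_eq] at h
  split_ifs at h with h1
  · exact List.forall_mem_cons.2 ⟨h1, ih h⟩
  · exact absurd rfl h

def rho (S p : ℕ) : ℕ := Nat.land (Nat.shiftRight S (6 * p)) 63

theorem rho_succ (S p : ℕ) : rho (Nat.shiftRight S 6) p = rho S (p + 1) := by
  unfold rho
  congr 1
  show (S >>> 6) >>> (6 * p) = S >>> (6 * (p + 1))
  rw [← Nat.shiftRight_add]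
  congr 1
  omega

theorem tb_img (n : ℕ) : ∀ S y q, (img (rdP n S) y).testBit q = true ↔
    ∃ p, p < n ∧ y.testBit p = true ∧ rho S p = q := by
  induction n with
  | zero => intro S y q; simp [img, rdP]
  | succ n ih =>
    intro S y q
    have e : img (rdP (n + 1) S) y = cz (Nat.land y 1) (img (rdP n (Nat.shiftRight S 6))
      (Nat.shiftRight y 1)) (Nat.lor (bit (rho S 0)) (img (rdP n (Nat.shiftRight S 6))
      (Nat.shiftRight y 1))) := rfl
    have e2 : ∀ p, (Nat.shiftRight y 1).testBit p = y.testBit (p + 1) := fun p => by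
      show (y >>> 1).testBit p = _
      rw [Nat.testBit_shiftRight, add_comm]
    have e3 : Nat.land y 1 = 0 ↔ y.testBit 0 = false := land_bit_zero y 0
    rw [e, cz_eq]
    split_ifs with h
    · rw [ih]
      simp only [e2, rho_succ]
      constructor
      · rintro ⟨p, h1, h2⟩
        exact ⟨p + 1, by omega, h2⟩
      · rintro ⟨p, h1, h2, h3⟩
        cases p with
        | zero => rw [e3.1 h] at h2; exact absurd h2 (by simp)
        | succ p => exact ⟨p, by omega, h2, h3⟩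
    · rw [tb_lor, Bool.or_eq_true, ih, tb_bit, decide_eq_true_eq]
      simp only [e2, rho_succ]
      constructor
      · rintro (h1 | ⟨p, h1, h2⟩)
        · exact ⟨0, by omega, by simpa [e3] using h, h1⟩
        · exact ⟨p + 1, by omega, h2⟩
      · rintro ⟨p, h1, h2, h3⟩
        cases p with
        | zero => exact Or.inl h3
        | succ p => exact Or.inr ⟨p, by omega, h2, h3⟩

theorem tb_lor_rdP (n : ℕ) : ∀ S q, (lorL (rdP n S)).testBit q = true ↔ ∃ p, p < n ∧ rho S p = q := by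
  induction n with
  | zero => intro S q; simp [lorL, rdP]
  | succ n ih =>
    intro S q
    have e : lorL (rdP (n + 1) S) = Nat.lor (bit (rho S 0)) (lorL (rdP n (Nat.shiftRight S 6))) := rfl
    rw [e, tb_lor, Bool.or_eq_true, ih, tb_bit, decide_eq_true_eq]
    simp only [rho_succ]
    constructor
    · rintro (h1 | ⟨p, h1, h2⟩)
      · exact ⟨0, by omega, h1⟩
      · exact ⟨p + 1, by omega, h2⟩
    · rintro ⟨p, h1, h3⟩
      cases p with
      | zero => exact Or.inl h3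
      | succ p => exact Or.inr ⟨p, by omega, h3⟩

theorem imgC_eq (r : List ℕ) (F : Cfg) : imgC r F = F.map (fun e => (e.1, img r e.2)) := by
  induction F with
  | nil => rfl
  | cons a l ih => exact congrArg (List.cons _) ih

theorem iso_ok {sym : ℕ} (gd : GoodD sp sym Gd) (hs : sym ≠ 0) {G F : Cfg} {S x : ℕ}
    (h : iso sp.n G F (rdP sp.n S) x ≠ 0) (hG : Ref Gd G) : Ref Gd F := by
  obtain ⟨h1, h2⟩ := ceq_ne h
  have h3 := subC_ok h2
  have him : (range sp.n).image (rho S) = range sp.n := by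
    ext q
    have := tb_lor_rdP sp.n S q
    rw [h1, tb_bit_sub, decide_eq_true_eq] at this
    simp only [mem_image, mem_range, this]
  have hinj : Set.InjOn (rho S) (range sp.n) := card_image_iff.1 (by rw [him])
  intro N hN hF
  refine hG _ (gd.inv hs _ hinj him N hN) fun e he => ?_
  have := h3 e he
  rw [imgC_eq, List.mem_map] at this
  obtain ⟨a, ha, rfl⟩ := this
  refine ⟨_, hF a ha, ?_⟩
  ext q
  rw [mem_dec, tb_img, mem_image]
  constructor
  · rintro ⟨p, h4, h5⟩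
    exact ⟨p, mem_range.1 (((gd.hyp N hN).sub _ _ (hF a ha)).1 h4), mem_dec.1 h4, h5⟩
  · rintro ⟨p, _, h4, h5⟩
    exact ⟨p, mem_dec.2 h4, h5⟩

theorem getC_ok {L : List Cfg} (hc : AllRef Gd L) {j : ℕ} {f : Cfg → ℕ}
    (h : getC L j f ≠ 0) : ∃ G, Ref Gd G ∧ f G ≠ 0 := by
  induction L generalizing j with
  | nil => exact absurd rfl h
  | cons a l ih =>
    cases j with
    | zero => exact ⟨a, hc.1, h⟩
    | succ j => exact ih hc.2 h

theorem leafP_ok {sym : ℕ} (gd : GoodD sp sym Gd) {L : List Cfg} (hL : AllRef Gd L) {F : Cfg}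
    {i nw : ℕ} {N : Fam} {x : Finset ℕ} (hN : Gd N) (g : GC sp F N i x)
    (hn : nw ≠ 0 → ∀ e ∈ F, e.1 = i → dec e.2 ≠ x) (h : Lf (leafP sp sym L F i nw) x) : False := by
  obtain ⟨l, m, s, h1, h2, h3, h4⟩ := h
  unfold leafP at h1
  rw [g.inval h2 h3] at h1
  have h5 : ∀ y, cz nw y (memC F i m s y) = y := by
    intro y
    rw [cz_eq, memC_eq]
    split_ifs with e1 e2
    · rfl
    · exact absurd h4 (hn e1 _ e2 rfl)
    · rfl
  beta_reduce at h1
  rw [h5] at h1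
  obtain ⟨G, hG, h6⟩ := getC_ok hL h1
  have hF : SubC ((i, m) :: F) N := List.forall_mem_cons.2 ⟨h4 ▸ g.mem, g.sub⟩
  rw [cz_eq] at h6
  split_ifs at h6
  · exact hG N hN fun e he => hF e (subC_ok h6 e he)
  · exact iso_ok gd (cz_ne h6).1 (cz_ne h6).2 hG N hN hF

def FC (F : Cfg) : Fam := fun j y => ∃ e ∈ F, e.1 = j ∧ dec e.2 = y

theorem subC_iff {F : Cfg} {N : Fam} : SubC F N ↔ ∀ j y, FC F j y → N j y := by
  constructor
  · rintro h _ _ ⟨e, he, rfl, rfl⟩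
    exact h e he
  · intro h e he
    exact h _ _ ⟨e, he, rfl, rfl⟩

theorem cellsOK_ok {n sym s x : ℕ} {F : Cfg} {cells : List ℕ} (h : cellsOK n sym F s cells x ≠ 0) :
    x ≠ 0 ∧ Cells n sym (FC F) (fun c => ∃ m ∈ cells, dec m = c) ∧
      ∀ c ∈ cells, c.testBit s = true → ∀ a, a < s → c.testBit a = false := by
  have key : x ≠ 0 ∧ ∀ c ∈ cells, sym ≠ 0 ∧ c < bit n ∧
      (c.testBit s = true → ∀ a, a < s → c.testBit a = false) ∧
      ∀ e ∈ F, Nat.mul (Nat.land e.2 c) (andn c e.2) = 0 := by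
    unfold cellsOK at h
    refine fold_ind (P := fun (l : List ℕ) (r : ℕ) => r ≠ 0 → x ≠ 0 ∧ ∀ c ∈ l, sym ≠ 0 ∧ c < bit n ∧
      (c.testBit s = true → ∀ a, a < s → c.testBit a = false) ∧
      ∀ e ∈ F, Nat.mul (Nat.land e.2 c) (andn c e.2) = 0) (fun h => ⟨h, by simp⟩) ?_ cells h
    intro c l r ih h
    obtain ⟨h1, h⟩ := cz_ne h
    obtain ⟨h2, h⟩ := cle_ne h
    obtain ⟨h3, h⟩ := cz_ne' h
    have h4 : r ≠ 0 ∧ ∀ e ∈ F, Nat.mul (Nat.land e.2 c) (andn c e.2) = 0 := by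
      refine fold_ind (P := fun (l : Cfg) (t : ℕ) => t ≠ 0 →
        r ≠ 0 ∧ ∀ e ∈ l, Nat.mul (Nat.land e.2 c) (andn c e.2) = 0) (fun h => ⟨h, by simp⟩) ?_ F h
      intro e l t ih h
      obtain ⟨h5, h6⟩ := cz_ne' h
      exact ⟨(ih h6).1, List.forall_mem_cons.2 ⟨h5, (ih h6).2⟩⟩
    exact ⟨(ih h4.1).1, List.forall_mem_cons.2 ⟨⟨h1, h2, low_ok h3, h4.2⟩, (ih h4.1).2⟩⟩
  refine ⟨key.1, ⟨?_, ?_, ?_⟩, fun c hc => (key.2 c hc).2.2.1⟩
  · rintro _ ⟨m, hm, rfl⟩
    exact (key.2 m hm).1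
  · rintro _ ⟨m, hm, rfl⟩ a ha
    have h1 := (key.2 m hm).2.1
    rw [bit_eq] at h1
    have h2 := Nat.ge_two_pow_of_testBit (mem_dec.1 ha)
    exact (Nat.pow_lt_pow_iff_right (by norm_num)).1 (lt_of_le_of_lt h2 h1)
  · rintro _ ⟨m, hm, rfl⟩ a ha b hb _ _ ⟨e, he, rfl, rfl⟩
    rw [mem_dec] at ha hb
    rw [mem_dec, mem_dec]
    rcases Nat.mul_eq_zero.1 ((key.2 m hm).2.2.2 e he) with h1 | h1
    · have h2 := zero_tb h1 a
      have h3 := zero_tb h1 b
      rw [tb_land, ha, Bool.and_true] at h2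
      rw [tb_land, hb, Bool.and_true] at h3
      rw [h2, h3]
    · have h2 := zero_tb h1 a
      have h3 := zero_tb h1 b
      rw [tb_andn, ha, Bool.true_and, Bool.not_eq_false'] at h2
      rw [tb_andn, hb, Bool.true_and, Bool.not_eq_false'] at h3
      rw [h2, h3]

theorem pre_ok (cells : List ℕ) (p a : ℕ) (h : (pre cells p).testBit a = true) :
    ∃ c ∈ cells, c.testBit p = true ∧ c.testBit a = true ∧ a < p := by
  unfold pre at h
  refine fold_ind (P := fun (l : List ℕ) (r : ℕ) => r.testBit a = true →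
    ∃ c ∈ l, c.testBit p = true ∧ c.testBit a = true ∧ a < p) (by simp) ?_ cells h
  intro e l r ih h
  have k : r.testBit a = true → ∃ c ∈ e :: l, c.testBit p = true ∧ c.testBit a = true ∧ a < p :=
    fun h => by
      obtain ⟨a, ha, h⟩ := ih h
      exact ⟨a, List.mem_cons_of_mem _ ha, h⟩
  rw [cz_eq] at h
  split_ifs at h with h1
  · exact k h
  · rw [tb_lor, Bool.or_eq_true, tb_land, Bool.and_eq_true, tb_bit_sub, decide_eq_true_eq] at h
    rcases h with h | h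
    · exact ⟨e, List.mem_cons_self, (land_bit_ne _ _).1 h1, h⟩
    · exact k h

theorem pre_can {n sym : ℕ} {F : Cfg} {cells : List ℕ} {x : Finset ℕ}
    (hc : Cells n sym (FC F) (fun c => ∃ m ∈ cells, dec m = c))
    (hx : ∀ c, (∃ m ∈ cells, dec m = c) → ∀ a ∈ c, ∀ b ∈ c, a < b → b ∈ x → a ∈ x) :
    ∀ p ∈ x, ∀ a, (pre cells p).testBit a = true → (a ∈ x ∧ a < p) ∧
      ∀ e ∈ F, e.2.testBit p = true → e.2.testBit a = true := by
  intro p hp a ha
  obtain ⟨c, h1, h2, h3, h4⟩ := pre_ok _ _ _ ha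
  refine ⟨⟨hx _ ⟨c, h1, rfl⟩ a (mem_dec.2 h3) p (mem_dec.2 h2) h4 hp, h4⟩, fun e he h5 => ?_⟩
  exact mem_dec.1 ((hc.tw _ ⟨c, h1, rfl⟩ a (mem_dec.2 h3) p (mem_dec.2 h2) _ _
    ⟨e, he, rfl, rfl⟩).2 (mem_dec.2 h5))

theorem p1S_ok {sym : ℕ} (gd : GoodD sp sym Gd) {L : List Cfg} {F : Cfg}
    {i s st : ℕ} {cells : List ℕ} (h : Nat.ble 1 (p1S sp sym L F i s cells st) = true)
    (hL : AllRef Gd L) : Ref Gd F := by
  obtain ⟨h1, h⟩ := cz_ne (ble_one h)
  obtain ⟨h2, h⟩ := cle_ne h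
  obtain ⟨h3, h⟩ := cz_ne h
  obtain ⟨h4, h5, h6⟩ := cellsOK_ok h
  intro N hN hF
  obtain ⟨x, hx, hs⟩ := (gd.hyp N hN).cov i ((tb_ne _ _).1 h3) s (mem_range.2 h2)
  have hQ : ∀ c, (∃ m ∈ cells, dec m = c) → ∀ a ∈ c, ∀ b ∈ c, a < b → ∀ x : Finset ℕ, b ∈ x →
      a ∉ x → s ∈ x → s ∈ x.image (Equiv.swap a b) := by
    rintro _ ⟨c, hc, rfl⟩ a ha b hb hab y _ hay hsy
    have g2 : s ≠ a := fun e => hay (e ▸ hsy)
    have g3 : s ≠ b := by
      intro e
      have := h6 c hc (e ▸ mem_dec.1 hb) a (e ▸ hab)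
      rw [mem_dec.1 ha] at this
      exact absurd this (by simp)
    rwa [mem_swap, Equiv.swap_apply_of_ne_of_ne g2 g3]
  obtain ⟨N', x', k1, k2, k3, k4, k5⟩ := wlog_can gd h5 (Q := fun x => s ∈ x) hQ i x N hN
    (subC_iff.1 hF) hx hs
  have g : GC sp F N' i x' := ⟨gd.hyp N' k1, le7_ok h1, subC_iff.2 k2, k3⟩
  exact leafP_ok gd hL k1 g (fun h => absurd rfl h) (g.genS (pre_can h5 k5) k4 h4)

theorem cntC_ok (F : Cfg) (i : ℕ) : ∃ L : Finset (Finset ℕ), L.card ≤ cntC F i ∧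
    ∀ e ∈ F, e.1 = i → dec e.2 ∈ L := by
  unfold cntC
  refine fold_ind (P := fun (l : Cfg) (r : ℕ) => ∃ L : Finset (Finset ℕ), L.card ≤ r ∧
    ∀ e ∈ l, e.1 = i → dec e.2 ∈ L) ⟨∅, by simp⟩ ?_ F
  rintro e l r ⟨L, h1, h2⟩
  rw [ceq_eq]
  split_ifs with h
  · exact ⟨insert (dec e.2) L, (card_insert_le _ _).trans (Nat.succ_le_succ h1),
      List.forall_mem_cons.2 ⟨fun _ => mem_insert_self _ _, fun a ha hi =>
        mem_insert_of_mem (h2 a ha hi)⟩⟩
  · exact ⟨L, h1, List.forall_mem_cons.2 ⟨fun h' => absurd h' h, h2⟩⟩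

theorem p1N_ok {sym : ℕ} (gd : GoodD sp sym Gd) {L : List Cfg} {F : Cfg}
    {i st : ℕ} {cells : List ℕ} (h : Nat.ble 1 (p1N sp sym L F i cells st) = true)
    (hL : AllRef Gd L) : Ref Gd F := by
  obtain ⟨h1, h⟩ := cz_ne (ble_one h)
  obtain ⟨h2, h⟩ := cle_ne h
  obtain ⟨h4, h5, _⟩ := cellsOK_ok h
  intro N hN hF
  obtain ⟨M, m1, m2⟩ := cntC_ok F i
  obtain ⟨x, hx, hs⟩ := (gd.hyp N hN).lo i M (lt_of_le_of_lt m1 h2)
  have hQ : ∀ c, (∃ m ∈ cells, dec m = c) → ∀ a ∈ c, ∀ b ∈ c, a < b → ∀ x : Finset ℕ, b ∈ x →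
      a ∉ x → ¬ FC F i x → ¬ FC F i (x.image (Equiv.swap a b)) := by
    intro c hc a ha b hb _ y hby hay _ hf
    have := h5.tw c hc a ha b hb _ _ hf
    rw [mem_swap, mem_swap, Equiv.swap_apply_left, Equiv.swap_apply_right] at this
    exact hay (this.1 hby)
  obtain ⟨N', x', k1, k2, k3, k4, k5⟩ := wlog_can gd h5 (Q := fun x => ¬ FC F i x) hQ i x N hN
    (subC_iff.1 hF) hx (by
      rintro ⟨e, he, e1, rfl⟩
      exact hs (m2 e he e1))
  have g : GC sp F N' i x' := ⟨gd.hyp N' k1, le7_ok h1, subC_iff.2 k2, k3⟩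
  exact leafP_ok gd hL k1 g (fun _ e he e1 e2 => k4 ⟨e, he, e1, e2⟩) (g.genA (pre_can h5 k5) h4)

/- the standard notions of a good family -/

theorem good_std (sp : Spec) (sym : ℕ) : GoodD sp sym (Hyp sp (range sp.n)) :=
  ⟨fun _ h => h, fun _ f h1 h2 N hN => by
    have := hN.map h1
    rwa [h2] at this⟩

theorem gx_std (Gd : Fam → Prop) : ∀ N, Gd N → ∀ i m, N i (dec m) → ex1 i m ≠ 0 :=
  fun _ _ _ _ _ => one_ne_zero

theorem exists_label {α : Type} [DecidableEq α] (G : Finset α) :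
    ∃ f : α → ℕ, Set.InjOn f G ∧ G.image f = range G.card := by
  classical
  let e := G.equivFin
  refine ⟨fun a => if h : a ∈ G then (e ⟨a, h⟩ : ℕ) else 0, ?_, ?_⟩
  · intro a ha b hb h
    have ha' : a ∈ G := ha
    have hb' : b ∈ G := hb
    simp only [dif_pos ha', dif_pos hb'] at h
    have := e.injective (Fin.ext h)
    exact congrArg Subtype.val this
  · ext q
    rw [mem_image, mem_range]
    constructor
    · rintro ⟨a, ha, rfl⟩
      simp only [dif_pos ha]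
      exact (e ⟨a, ha⟩).2
    · intro hq
      refine ⟨(e.symm ⟨q, hq⟩).1, (e.symm ⟨q, hq⟩).2, ?_⟩
      simp only [dif_pos (e.symm ⟨q, hq⟩).2]
      simp

theorem noCfg_of_ref (h : Ref (Hyp sp (range sp.n)) []) : NoCfg sp := by
  intro α _ G N hG hN
  obtain ⟨f, h1, h2⟩ := exists_label G
  have := hN.map h1
  rw [h2, hG] at this
  exact h _ this (by simp [SubC])

theorem memL_ok (l : List ℕ) (m : ℕ) : memL l m ≠ 0 ↔ m ∈ l := by
  induction l with
  | nil => simp [memL]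
  | cons a l ih =>
    have e : memL (a :: l) m = ceq a m 1 (memL l m) := rfl
    rw [e, ceq_eq, List.mem_cons]
    split_ifs with h
    · simp [h]
    · rw [ih]
      simp [Ne.symm h]

theorem mapN_mapN {α : Type} (f : α → ℕ) (g : ℕ → ℕ) (N : ℕ → Finset α → Prop) :
    mapN g (mapN f N) = mapN (g ∘ f) N := by
  funext i y
  apply propext
  constructor
  · rintro ⟨_, ⟨x, hx, rfl⟩, rfl⟩
    exact ⟨x, hx, image_image.symm⟩
  · rintro ⟨x, hx, rfl⟩
    exact ⟨_, ⟨x, hx, rfl⟩, image_image⟩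

end Pool.Agent.P.MP_9e9aa3_co
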