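import Mathlib
import Pool.Agent.P.MP_9e9aa3_co.Frac5

set_option autoImplicit false

open Filter Topology Finset

namespace Pool.Agent.P.MP_9e9aa3_co

/-- compactness: on a fixed point set, approximate structures cannot be too good -/
lemma compact_fin (h : NoFrac5) (m : ℕ) : ∃ g : ℝ, 0 < g ∧ ∀ w : Fin 5 → Finset (Fin m) → ℝ,
    (∀ a A, 0 ≤ w a A) → (∀ a, ∑ A, w a A = 6) →
    (∀ a b c, a ≠ b → a ≠ c → b ≠ c → ∀ A B C : Finset (Fin m), (A ∩ B ∩ C).card ≠ 1 →
      w a A * w b B * w c C = 0) →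
    (∀ a s, |∑ A ∈ univ.filter (fun A => s ∈ A), w a A - 1| ≤ g) → False := by
  classical
  let W : Set (Fin 5 → Finset (Fin m) → ℝ) := {w | (∀ a A, 0 ≤ w a A) ∧ (∀ a, ∑ A, w a A = 6) ∧
    (∀ a b c, a ≠ b → a ≠ c → b ≠ c → ∀ A B C : Finset (Fin m), (A ∩ B ∩ C).card ≠ 1 →
      w a A * w b B * w c C = 0)}
  have hclosed : IsClosed W := by
    simp only [W, Set.ofPred_and, Set.ofPred_forall]
    refine IsClosed.inter ?_ (IsClosed.inter ?_ ?_)
    · exact isClosed_iInter fun a => isClosed_iInter fun A =>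
        isClosed_le continuous_const (by fun_prop)
    · exact isClosed_iInter fun a => isClosed_eq (by fun_prop) continuous_const
    · refine isClosed_iInter fun a => isClosed_iInter fun b => isClosed_iInter fun c =>
        isClosed_iInter fun _ => isClosed_iInter fun _ => isClosed_iInter fun _ =>
        isClosed_iInter fun A => isClosed_iInter fun B => isClosed_iInter fun C =>
        isClosed_iInter fun _ => isClosed_eq (by fun_prop) continuous_const
  have hcomp : IsCompact W := by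
    refine (isCompact_Icc (a := fun _ _ => (0 : ℝ)) (b := fun _ _ => (6 : ℝ))).of_isClosed_subset
      hclosed ?_
    rintro w ⟨h0, h6, -⟩
    refine ⟨fun a A => h0 a A, fun a A => ?_⟩
    rw [← h6 a]
    exact Finset.single_le_sum (f := w a) (fun B _ => h0 a B) (Finset.mem_univ A)
  let Φ : (Fin 5 → Finset (Fin m) → ℝ) → Fin 5 → Fin m → ℝ :=
    fun w a s => ∑ A ∈ univ.filter (fun A => s ∈ A), w a A - 1
  have hcont : Continuous fun w => ‖Φ w‖ := by
    refine Continuous.norm ?_
    simp only [Φ]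
    fun_prop
  have hpos : ∀ w ∈ W, 0 < ‖Φ w‖ := by
    rintro w ⟨h0, h6, h3⟩
    rw [norm_pos_iff]
    intro hz
    have hsum : ∀ a (p : Finset (Fin m) → Prop) [DecidablePred p],
        ∑ A ∈ (univ.filter fun A => 0 < w a A).filter p, w a A
          = ∑ A ∈ univ.filter p, w a A := by
      intro a p _
      refine Finset.sum_subset ?_ ?_
      · intro A hA
        exact Finset.mem_filter.2 ⟨Finset.mem_univ _, (Finset.mem_filter.1 hA).2⟩
      · intro A hA hn
        by_contra hne
        exact hn (Finset.mem_filter.2 ⟨Finset.mem_filter.2 ⟨Finset.mem_univ _,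
          lt_of_le_of_ne (h0 a A) (Ne.symm hne)⟩, (Finset.mem_filter.1 hA).2⟩)
    refine h (Fin m) (fun a => univ.filter fun A => 0 < w a A) w ?_ ?_ ?_ ?_
    · intro a A hA
      exact (Finset.mem_filter.1 hA).2
    · intro a
      have := hsum a (fun _ => True)
      simp only [Finset.filter_true] at this
      rw [this, h6]
    · intro a s
      rw [hsum a (fun A => s ∈ A)]
      have := congrFun (congrFun hz a) s
      simp only [Φ, Pi.zero_apply] at this
      linarith
    · intro a b c hab hac hbc A hA B hB C hC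
      by_contra hne
      have h1 := h3 a b c hab hac hbc A B C hne
      have h2 := mul_pos (mul_pos (Finset.mem_filter.1 hA).2 (Finset.mem_filter.1 hB).2)
        (Finset.mem_filter.1 hC).2
      exact h2.ne' h1
  obtain ⟨g, hg, hle⟩ := hcomp.exists_forall_le' hcont.continuousOn hpos
  refine ⟨g / 2, by linarith, fun w h0 h6 h3 hw => ?_⟩
  have h1 := hle w ⟨h0, h6, h3⟩
  have h2 : ‖Φ w‖ ≤ g / 2 := by
    rw [pi_norm_le_iff_of_nonneg (by linarith)]
    intro a
    rw [pi_norm_le_iff_of_nonneg (by linarith)]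
    intro s
    exact hw a s
  linarith

lemma compact_fin' (h : NoFrac5) (m : ℕ) : ∃ g : ℝ, 0 < g ∧ ∀ N : ℕ, 0 < N →
    ∀ R : Fin 5 → Fin m → Finset (Fin N),
    (∀ a b c, a ≠ b → a ≠ c → b ≠ c → ∀ t u v, ∃! s, t ∈ R a s ∧ u ∈ R b s ∧ v ∈ R c s) →
    (∀ a s, |((R a s).card : ℝ) / N - 1 / 6| ≤ g) → False := by
  classical
  obtain ⟨g, hg, hw⟩ := compact_fin h m
  refine ⟨g / 6, by linarith, fun N hN R hR hD => ?_⟩
  have hN0 : (0 : ℝ) < N := by exact_mod_cast hN
  let P : Fin 5 → Fin N → Finset (Fin m) := fun a t => univ.filter fun s => t ∈ R a s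
  let w : Fin 5 → Finset (Fin m) → ℝ := fun a A => ∑ t, if P a t = A then (6 / N : ℝ) else 0
  have hw0 : ∀ a A, w a A ≠ 0 → ∃ t, P a t = A := by
    intro a A hA
    by_contra hn
    push Not at hn
    exact hA (Finset.sum_eq_zero fun t _ => if_neg (hn t))
  refine hw w ?_ ?_ ?_ ?_
  · intro a A
    refine Finset.sum_nonneg fun t _ => ?_
    split_ifs
    · positivity
    · exact le_rfl
  · intro a
    simp only [w]
    rw [Finset.sum_comm]
    simp only [Finset.sum_ite_eq, Finset.mem_univ, if_true, Finset.sum_const, Finset.card_univ,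
      Fintype.card_fin, nsmul_eq_mul]
    field_simp
  · intro a b c hab hac hbc A B C hne
    by_contra hz
    obtain ⟨t, rfl⟩ := hw0 a A (fun h0 => hz (by rw [h0]; ring))
    obtain ⟨u, rfl⟩ := hw0 b B (fun h0 => hz (by rw [h0]; ring))
    obtain ⟨v, rfl⟩ := hw0 c C (fun h0 => hz (by rw [h0]; ring))
    apply hne
    obtain ⟨s, hs, hu⟩ := hR a b c hab hac hbc t u v
    rw [Finset.card_eq_one]
    refine ⟨s, ?_⟩
    ext s'
    simp only [P, Finset.mem_inter, Finset.mem_filter, Finset.mem_univ, true_and,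
      Finset.mem_singleton]
    constructor
    · rintro ⟨⟨h1, h2⟩, h3⟩
      exact hu s' ⟨h1, h2, h3⟩
    · rintro rfl
      exact ⟨⟨hs.1, hs.2.1⟩, hs.2.2⟩
  · intro a s
    have e1 : ∑ A ∈ univ.filter (fun A => s ∈ A), w a A = 6 * (((R a s).card : ℝ) / N) := by
      simp only [w]
      rw [Finset.sum_comm]
      simp only [Finset.sum_ite_eq, Finset.mem_filter, Finset.mem_univ, true_and, P]
      rw [← Finset.sum_filter]
      simp only [Finset.filter_mem_eq_inter, Finset.univ_inter, Finset.sum_const, nsmul_eq_mul]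
      ring
    rw [e1]
    have := abs_le.1 (hD a s)
    rw [abs_le]
    constructor <;> linarith [this.1, this.2]

lemma card_le_343 {V : Type} [Fintype V] (N : ℕ) (hN : 0 < N) (R : Fin 5 → V → Finset (Fin N))
    (hR : ∀ t u v, ∃! s, t ∈ R 0 s ∧ u ∈ R 1 s ∧ v ∈ R 2 s)
    (hD : ∀ a s, (N : ℝ) / 7 ≤ (R a s).card) : Fintype.card V ≤ 343 := by
  classical
  have hN0 : (0 : ℝ) < N := by exact_mod_cast hN
  have h1 : ∑ s, (R 0 s ×ˢ R 1 s ×ˢ R 2 s).card ≤ N ^ 3 := by
    rw [← Finset.card_biUnion]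
    · refine (Finset.card_le_univ _).trans ?_
      simp only [Fintype.card_prod, Fintype.card_fin]
      exact le_of_eq (by ring)
    · intro s _ s' _ hne
      simp only [Function.onFun]
      rw [Finset.disjoint_left]
      rintro ⟨t, u, v⟩ h2 h3
      simp only [Finset.mem_product] at h2 h3
      exact hne ((hR t u v).unique h2 h3)
  have h2 : ∑ _s : V, ((N : ℝ) / 7) ^ 3 ≤ ∑ s, ((R 0 s ×ˢ R 1 s ×ˢ R 2 s).card : ℝ) := by
    refine Finset.sum_le_sum fun s _ => ?_
    rw [Finset.card_product, Finset.card_product]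
    push_cast
    have h7 : (0 : ℝ) ≤ N / 7 := by positivity
    calc ((N : ℝ) / 7) ^ 3 = (N / 7) * ((N / 7) * (N / 7)) := by ring
      _ ≤ _ := mul_le_mul (hD 0 s) (mul_le_mul (hD 1 s) (hD 2 s) h7 (by positivity))
          (by positivity) (by positivity)
  have h3 : ∑ s, ((R 0 s ×ˢ R 1 s ×ˢ R 2 s).card : ℝ) ≤ (N : ℝ) ^ 3 := by exact_mod_cast h1
  rw [Finset.sum_const, Finset.card_univ, nsmul_eq_mul] at h2
  have h4 : (Fintype.card V : ℝ) * (N : ℝ) ^ 3 ≤ 343 * (N : ℝ) ^ 3 := by nlinarith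
  have h5 : (Fintype.card V : ℝ) ≤ 343 := le_of_mul_le_mul_right h4 (by positivity)
  exact_mod_cast h5

/-- no family of boxes with sides of density close to `1/6` covers all triples exactly once -/
theorem compact (h : NoFrac5) : ∃ g : ℝ, 0 < g ∧ g ≤ 1 / 42 ∧ ∀ (V : Type) [Fintype V] (N : ℕ),
    0 < N → ∀ R : Fin 5 → V → Finset (Fin N),
    (∀ a b c, a ≠ b → a ≠ c → b ≠ c → ∀ t u v, ∃! s, t ∈ R a s ∧ u ∈ R b s ∧ v ∈ R c s) →
    (∀ a s, |((R a s).card : ℝ) / N - 1 / 6| ≤ g) → False := by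
  classical
  choose g hg hw using compact_fin' h
  obtain ⟨m0, -, hm0⟩ := Finset.exists_min_image (Finset.range 344) g ⟨0, by simp⟩
  refine ⟨min (g m0) (1 / 42), lt_min (hg m0) (by norm_num), min_le_right _ _,
    fun V _ N hN R hR hD => ?_⟩
  have hN0 : (0 : ℝ) < N := by exact_mod_cast hN
  have hc : Fintype.card V ≤ 343 := by
    refine card_le_343 N hN R (hR 0 1 2 (by decide) (by decide) (by decide)) fun a s => ?_
    have h1 := (abs_le.1 ((hD a s).trans (min_le_right _ _))).1
    have h2 : (1 : ℝ) / 7 ≤ ((R a s).card : ℝ) / N := by linarith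
    rw [le_div_iff₀ hN0] at h2
    linarith
  let e := (Fintype.equivFin V).symm
  refine hw (Fintype.card V) N hN (fun a s => R a (e s)) ?_ ?_
  · intro a b c hab hac hbc t u v
    obtain ⟨s, hs, hu⟩ := hR a b c hab hac hbc t u v
    refine ⟨e.symm s, by simpa using hs, fun s' hs' => ?_⟩
    rw [← hu (e s') hs', Equiv.symm_apply_apply]
  · intro a s
    exact ((hD a (e s)).trans (min_le_left _ _)).trans
      (hm0 _ (Finset.mem_range.2 (by omega)))

end Pool.Agent.P.MP_9e9aa3_co
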