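import Mathlib

set_option autoImplicit false

open Finset Function

namespace Pool.Agent.P.MP_9e9aa3_co

section boxes

variable {N : ℕ} (L : Fin 5 → (Fin 5 → Fin N) → Prop)

/-- the side in direction `a` of the box through `z` -/
noncomputable def side (a : Fin 5) (z : Fin 5 → Fin N) : Finset (Fin N) := by
  classical
  exact univ.filter fun t => ∀ i, L i (update z a t)

lemma mem_side (a : Fin 5) (z : Fin 5 → Fin N) (t : Fin N) :
    t ∈ side L a z ↔ ∀ i, L i (update z a t) := by
  simp [side]

variable (hind : ∀ i z t, L i (update z i t) ↔ L i z)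
  (hR : ∀ i j z, i ≠ j → L i z → L j z → ∀ k, L k z)

include hind hR

lemma mem_side' {a b : Fin 5} (hab : a ≠ b) {z : Fin 5 → Fin N} (hz : ∀ i, L i z) (t : Fin N) :
    t ∈ side L a z ↔ L b (update z a t) := by
  rw [mem_side]
  exact ⟨fun h => h b, fun h => hR a b _ hab ((hind a z t).2 (hz a)) h⟩

lemma side_update {b : Fin 5} {z : Fin 5 → Fin N} (hz : ∀ i, L i z) {t : Fin N}
    (ht : ∀ i, L i (update z b t)) (a : Fin 5) : side L a (update z b t) = side L a z := by
  ext s
  by_cases hab : a = b
  · subst hab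
    rw [mem_side, mem_side, update_idem]
  · rw [mem_side' L hind hR hab ht, mem_side' L hind hR hab hz, update_comm (Ne.symm hab), hind]

lemma move_three {a b c : Fin 5} {z : Fin 5 → Fin N} (hz : ∀ i, L i z) {t u v : Fin N}
    (ht : t ∈ side L a z) (hu : u ∈ side L b z) (hv : v ∈ side L c z) :
    (∀ i, L i (update (update (update z a t) b u) c v)) ∧
      ∀ k, side L k (update (update (update z a t) b u) c v) = side L k z := by
  have h1 := (mem_side L a z t).1 ht
  have e1 := side_update L hind hR hz h1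
  have h2 := (mem_side L b _ u).1 (e1 b ▸ hu)
  have e2 := side_update L hind hR h1 h2
  have h3 := (mem_side L c _ v).1 ((e2 c).symm ▸ (e1 c).symm ▸ hv)
  have e3 := side_update L hind hR h2 h3
  exact ⟨h3, fun k => by rw [e3, e2, e1]⟩

omit hind hR in
lemma two_more : ∀ a b c : Fin 5, a ≠ b → a ≠ c → b ≠ c → ∃ d e : Fin 5, d ≠ e ∧
    d ≠ a ∧ d ≠ b ∧ d ≠ c ∧ e ≠ a ∧ e ≠ b ∧ e ≠ c ∧
    ∀ k, k = a ∨ k = b ∨ k = c ∨ k = d ∨ k = e := by
  decide

theorem boxes (hN : 0 < N) (hex : ∀ i j z, i ≠ j → ∃ t, L i (update z j t)) :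
    ∃ V : Finset (Fin 5 → Finset (Fin N)),
      (∀ a b c, a ≠ b → a ≠ c → b ≠ c → ∀ t u v,
        ∃! s : V, t ∈ s.1 a ∧ u ∈ s.1 b ∧ v ∈ s.1 c) ∧
      ∀ s ∈ V, ∀ a, ∃ z b, b ≠ a ∧ ∀ t, t ∈ s a ↔ L b (update z a t) := by
  classical
  let V : Finset (Fin 5 → Finset (Fin N)) :=
    (univ.filter fun z => ∀ i, L i z).image fun z a => side L a z
  have hV : ∀ s, s ∈ V ↔ ∃ z, (∀ i, L i z) ∧ (fun a => side L a z) = s := by
    intro s
    simp [V]
  refine ⟨V, ?_, ?_⟩
  · intro a b c hab hac hbc t u v
    obtain ⟨d, e, hde, hda, hdb, hdc, hea, heb, hec, hall⟩ := two_more a b c hab hac hbc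
    refine existsUnique_of_exists_of_unique ?_ ?_
    · let z0 : Fin 5 → Fin N := update (update (update (fun _ => ⟨0, hN⟩) a t) b u) c v
      obtain ⟨s, hs⟩ := hex d e z0 hde
      obtain ⟨s', hs'⟩ := hex e d (update z0 e s) hde.symm
      have hT := hR d e _ hde ((hind d _ s').2 hs) hs'
      set z := update (update z0 e s) d s' with hz
      have hmem : ∀ k, z k ∈ side L k z := by
        intro k
        rw [mem_side, update_eq_self]
        exact hT
      have za : z a = t := by
        simp [hz, z0, update_of_ne hda.symm, update_of_ne hea.symm, update_of_ne hac,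
          update_of_ne hab]
      have zb : z b = u := by
        simp [hz, z0, update_of_ne hdb.symm, update_of_ne heb.symm, update_of_ne hbc]
      have zc : z c = v := by
        simp [hz, z0, update_of_ne hdc.symm, update_of_ne hec.symm]
      exact ⟨⟨_, (hV _).2 ⟨z, hT, rfl⟩⟩, za ▸ hmem a, zb ▸ hmem b, zc ▸ hmem c⟩
    · rintro ⟨s, hs⟩ ⟨s', hs'⟩ ⟨h1, h2, h3⟩ ⟨h1', h2', h3'⟩
      obtain ⟨z, hz, rfl⟩ := (hV _).1 hs
      obtain ⟨z', hz', rfl⟩ := (hV _).1 hs'
      obtain ⟨hy, ey⟩ := move_three L hind hR hz h1 h2 h3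
      obtain ⟨hy', ey'⟩ := move_three L hind hR hz' h1' h2' h3'
      set y := update (update (update z a t) b u) c v with hydef
      set y' := update (update (update z' a t) b u) c v with hydef'
      have hw : update y d (y' d) = update y' e (y e) := by
        funext k
        rcases hall k with rfl | rfl | rfl | rfl | rfl
        · simp [hydef, hydef', update_of_ne hda.symm, update_of_ne hea.symm, update_of_ne hac,
            update_of_ne hab]
        · simp [hydef, hydef', update_of_ne hdb.symm, update_of_ne heb.symm, update_of_ne hbc]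
        · simp [hydef, hydef', update_of_ne hdc.symm, update_of_ne hec.symm]
        · rw [update_self, update_of_ne hde]
        · rw [update_self, update_of_ne hde.symm]
      have hT : ∀ i, L i (update y d (y' d)) :=
        hR d e _ hde ((hind d _ _).2 (hy d)) (by rw [hw]; exact (hind e _ _).2 (hy' e))
      have f1 := side_update L hind hR hy hT
      rw [hw] at hT f1
      have f2 := side_update L hind hR hy' hT
      refine Subtype.ext (funext fun k => ?_)
      simp only
      rw [← ey k, ← ey' k, ← f1 k, ← f2 k]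
  · intro s hs a
    obtain ⟨z, hz, rfl⟩ := (hV _).1 hs
    obtain ⟨b, hb⟩ := exists_ne a
    exact ⟨z, b, hb, fun t => mem_side' L hind hR hb.symm hz t⟩

end boxes

end Pool.Agent.P.MP_9e9aa3_co
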