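import Mathlib

set_option autoImplicit false

open Finset Function
open scoped BigOperators

namespace Pool.Agent.P.MP_9e9aa3_co

lemma expect_invol {A B : Type} [Fintype A] [Fintype B] (σ : A × B → A × B)
    (hσ : Involutive σ) (f : A × B → ℝ) :
    𝔼 a, 𝔼 b, f (σ (a, b)) = 𝔼 a, 𝔼 b, f (a, b) := by
  rw [← Finset.expect_product' univ univ (fun a b => f (σ (a, b))),
    ← Finset.expect_product' univ univ (fun a b => f (a, b)), Finset.univ_product_univ]
  exact Fintype.expect_bijective σ hσ.bijective _ _ fun _ => rfl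

lemma expect_update {ι β : Type} [Fintype ι] [DecidableEq ι] [Fintype β] [Nonempty β]
    (g : (ι → β) → ℝ) (j : ι) : 𝔼 x : ι → β, 𝔼 t, g (update x j t) = 𝔼 x, g x := by
  have h := expect_invol (A := ι → β) (B := β) (fun q => (update q.1 j q.2, q.1 j))
    (fun q => by simp) (fun q => g q.1)
  simpa [Fintype.expect_const] using h

lemma expect_grid {ι κ β : Type} [Fintype ι] [DecidableEq ι] [Fintype κ] [DecidableEq κ]
    [Fintype β] [Nonempty β] (g : (ι → β) → ℝ) (z : ι → κ) :
    𝔼 F : ι → κ → β, g (fun i => F i (z i)) = 𝔼 x, g x := by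
  have h := expect_invol (A := ι → κ → β) (B := ι → β)
    (fun q => (fun i => update (q.1 i) (z i) (q.2 i), fun i => q.1 i (z i)))
    (fun q => by simp) (fun q => g q.2)
  simpa [Fintype.expect_const] using h

section energy

variable {n : ℕ} (S : Finset (Fin 7 → Fin n))

/-- the line through `x` in direction `i` contains a point of `S` -/
def Lp (i : Fin 7) (x : Fin 7 → Fin n) : Prop := ∃ p ∈ S, ∀ j, j ≠ i → x j = p j

lemma Lp_update (i : Fin 7) (x : Fin 7 → Fin n) (t : Fin n) :
    Lp S i (update x i t) ↔ Lp S i x := by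
  unfold Lp
  refine exists_congr fun p => and_congr_right fun _ => forall_congr' fun j =>
    forall_congr' fun hj => ?_
  rw [update_of_ne hj]

/-- indicator of `Lp` -/
noncomputable def ind (i : Fin 7) (x : Fin 7 → Fin n) : ℝ := by
  classical
  exact if Lp S i x then 1 else 0

lemma ind_update (i : Fin 7) (x : Fin 7 → Fin n) (t : Fin n) :
    ind S i (update x i t) = ind S i x := by
  unfold ind
  rw [propext (Lp_update S i x t)]

lemma ind_nonneg (i : Fin 7) (x : Fin 7 → Fin n) : 0 ≤ ind S i x := by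
  unfold ind; split_ifs <;> norm_num

lemma ind_le_one (i : Fin 7) (x : Fin 7 → Fin n) : ind S i x ≤ 1 := by
  unfold ind; split_ifs <;> norm_num

lemma ind_mul_self (i : Fin 7) (x : Fin 7 → Fin n) : ind S i x * ind S i x = ind S i x := by
  unfold ind; split_ifs <;> norm_num

/-- density of `Lp i` along the line through `x` in direction `j` -/
noncomputable def dens (i j : Fin 7) (x : Fin 7 → Fin n) : ℝ := 𝔼 t, ind S i (update x j t)

/-- normalised number of points of `S` in the plane through `x` in directions `i, j` -/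
noncomputable def plane (i j : Fin 7) (x : Fin 7 → Fin n) : ℝ :=
  ((S.filter fun p => ∀ k, k ≠ i → k ≠ j → x k = p k).card : ℝ) / n

lemma plane_comm (i j : Fin 7) (x : Fin 7 → Fin n) : plane S i j x = plane S j i x := by
  unfold plane
  have h : (S.filter fun p => ∀ k, k ≠ i → k ≠ j → x k = p k)
      = S.filter fun p => ∀ k, k ≠ j → k ≠ i → x k = p k :=
    Finset.filter_congr fun p _ => ⟨fun h k a b => h k b a, fun h k a b => h k b a⟩
  rw [h]

lemma dens_nonneg (i j : Fin 7) (x : Fin 7 → Fin n) : 0 ≤ dens S i j x :=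
  Finset.expect_nonneg fun _ _ => ind_nonneg S _ _

lemma dens_le_one [NeZero n] (i j : Fin 7) (x : Fin 7 → Fin n) : dens S i j x ≤ 1 :=
  Finset.expect_le univ_nonempty fun _ _ => ind_le_one S _ _

lemma dens_update (i j : Fin 7) (x : Fin 7 → Fin n) (t : Fin n) :
    dens S i j (update x j t) = dens S i j x := by
  simp only [dens, update_idem]

lemma dens_le_plane {i j : Fin 7} (hij : i ≠ j) (x : Fin 7 → Fin n) :
    dens S i j x ≤ plane S i j x := by
  classical
  unfold dens plane
  rw [Fintype.expect_eq_sum_div_card, Fintype.card_fin]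
  refine div_le_div_of_nonneg_right ?_ (by positivity)
  simp only [ind]
  rw [Finset.sum_boole]
  refine Nat.cast_le.2 ((Finset.card_le_card ?_).trans (Finset.card_image_le (f := fun p => p j)))
  intro t ht
  obtain ⟨p, hp, h⟩ := (Finset.mem_filter.1 ht).2
  refine Finset.mem_image.2 ⟨p, Finset.mem_filter.2 ⟨hp, fun k hi hj => ?_⟩, ?_⟩
  · rw [← h k hi, update_of_ne hj]
  · rw [← h j hij.symm, update_self]

lemma expect_plane [NeZero n] {i j : Fin 7} (hij : i ≠ j) :
    𝔼 x, plane S i j x ≤ (S.card : ℝ) / (n : ℝ) ^ 6 := by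
  classical
  have hn : (0 : ℝ) < n := by exact_mod_cast Nat.pos_of_ne_zero (NeZero.ne n)
  rw [Fintype.expect_eq_sum_div_card]
  simp only [plane]
  rw [← Finset.sum_div]
  have h1 : ∑ x : Fin 7 → Fin n, (S.filter fun p => ∀ k, k ≠ i → k ≠ j → x k = p k).card
      ≤ S.card * n ^ 2 := by
    simp only [Finset.card_filter]
    rw [Finset.sum_comm]
    refine Finset.sum_le_card_nsmul S _ _ fun p _ => ?_
    rw [← Finset.card_filter]
    have h2 : (univ.filter fun x : Fin 7 → Fin n => ∀ k, k ≠ i → k ≠ j → x k = p k) ⊆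
        (univ : Finset (Fin n × Fin n)).image fun q => update (update p i q.1) j q.2 := by
      intro x hx
      refine Finset.mem_image.2 ⟨(x i, x j), Finset.mem_univ _, funext fun k => ?_⟩
      by_cases hj : k = j
      · subst hj; simp
      · by_cases hi : k = i
        · subst hi; simp [update_of_ne hj]
        · simp [update_of_ne hj, update_of_ne hi, (Finset.mem_filter.1 hx).2 k hi hj]
    refine ((Finset.card_le_card h2).trans Finset.card_image_le).trans ?_
    simp [sq]
  have h3 : ∑ x : Fin 7 → Fin n,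
      ((S.filter fun p => ∀ k, k ≠ i → k ≠ j → x k = p k).card : ℝ) ≤ S.card * (n : ℝ) ^ 2 := by
    exact_mod_cast h1
  have h4 : (Fintype.card (Fin 7 → Fin n) : ℝ) = (n : ℝ) ^ 7 := by simp
  rw [h4, div_div, div_le_div_iff₀ (by positivity) (by positivity)]
  calc _ ≤ (S.card * (n : ℝ) ^ 2) * (n : ℝ) ^ 6 :=
        mul_le_mul_of_nonneg_right h3 (by positivity)
    _ = _ := by ring

lemma expect_dens [NeZero n] (i j : Fin 7) : 𝔼 x, dens S i j x = 𝔼 x, ind S i x :=
  expect_update (ind S i) j

lemma expect_ind_mul [NeZero n] {i j : Fin 7} (hij : i ≠ j) :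
    𝔼 x, ind S i x * ind S j x = 𝔼 x, dens S i j x * dens S j i x := by
  rw [← expect_update (fun x => ind S i x * ind S j x) i,
    ← expect_update (fun x => 𝔼 s, ind S i (update x i s) * ind S j (update x i s)) j]
  refine Finset.expect_congr rfl fun x _ => ?_
  unfold dens
  rw [Fintype.expect_mul_expect]
  refine Finset.expect_congr rfl fun t _ => Finset.expect_congr rfl fun s _ => ?_
  rw [ind_update, update_comm hij.symm, ind_update]

lemma point_ineq {a b r : ℝ} (ha : 0 ≤ a) (hb : 0 ≤ b) (ha1 : a ≤ 1)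
    (har : a ≤ r) (hbr : b ≤ r) :
    1 / 8 * (a - 1 / 6) ^ 2 - a * b ≤ -(7 / 12) * (a + b) + 5 / 6 * r + 1 / 36 := by
  rcases le_total a b with h | h
  · nlinarith [mul_nonneg ha (sub_nonneg.2 h), sq_nonneg (a - 1 / 6)]
  · nlinarith [mul_nonneg hb (sub_nonneg.2 h), sq_nonneg (b - 1 / 6), sq_nonneg (a - 2 * b + 1 / 6),
      mul_nonneg (sub_nonneg.2 h) (show 0 ≤ 1 - (a - b) by linarith)]

lemma pair_ineq [NeZero n] {i j : Fin 7} (hij : i ≠ j) :
    𝔼 x, (1 / 8 * (dens S i j x - 1 / 6) ^ 2 - ind S i x * ind S j x) ≤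
      -(7 / 12) * (𝔼 x, ind S i x + 𝔼 x, ind S j x) + 5 / 6 * ((S.card : ℝ) / (n : ℝ) ^ 6)
        + 1 / 36 := by
  rw [Finset.expect_sub_distrib, expect_ind_mul S hij, ← Finset.expect_sub_distrib]
  refine (Finset.expect_le_expect fun x _ => point_ineq (dens_nonneg S i j x)
    (dens_nonneg S j i x) (dens_le_one S i j x) (dens_le_plane S hij x)
    ((dens_le_plane S hij.symm x).trans (plane_comm S j i x).le)).trans ?_
  rw [Finset.expect_add_distrib, Finset.expect_add_distrib, ← Finset.mul_expect,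
    ← Finset.mul_expect, Finset.expect_add_distrib, expect_dens, expect_dens,
    Fintype.expect_const]
  have := expect_plane S hij
  linarith

/-- the energy of a point -/
noncomputable def en (x : Fin 7 → Fin n) : ℝ :=
  (∑ i, ind S i x - 1) * (7 - ∑ i, ind S i x)
    + ∑ i, ∑ j ∈ univ.erase i, 1 / 8 * (dens S i j x - 1 / 6) ^ 2

lemma en_eq (x : Fin 7 → Fin n) : en S x = 7 * ∑ i, ind S i x - 7
    + ∑ i, ∑ j ∈ univ.erase i, (1 / 8 * (dens S i j x - 1 / 6) ^ 2 - ind S i x * ind S j x) := by
  have h1 : (∑ i, ind S i x) * (∑ i, ind S i x)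
      = ∑ i, ind S i x + ∑ i, ∑ j ∈ univ.erase i, ind S i x * ind S j x := by
    rw [Finset.sum_mul_sum, ← Finset.sum_add_distrib]
    refine Finset.sum_congr rfl fun i _ => ?_
    rw [← Finset.add_sum_erase _ _ (Finset.mem_univ i), ind_mul_self]
  simp only [en, Finset.sum_sub_distrib]
  linear_combination -h1

theorem expect_en [NeZero n] :
    𝔼 x, en S x ≤ 35 * ((S.card : ℝ) / (n : ℝ) ^ 6 - 1 / 6) := by
  simp only [en_eq]
  rw [Finset.expect_add_distrib, Finset.expect_sub_distrib, ← Finset.mul_expect,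
    Finset.expect_sum_comm, Finset.expect_sum_comm, Fintype.expect_const]
  simp only [Finset.expect_sum_comm]
  set α := (S.card : ℝ) / (n : ℝ) ^ 6
  set Λ := ∑ i, 𝔼 x, ind S i x with hΛ
  have h1 : ∀ i : Fin 7, ∑ j ∈ univ.erase i,
      𝔼 x, (1 / 8 * (dens S i j x - 1 / 6) ^ 2 - ind S i x * ind S j x) ≤
      -(7 / 12) * (5 * 𝔼 x, ind S i x + Λ) + 5 * α + 1 / 6 := by
    intro i
    refine (Finset.sum_le_sum fun j hj =>
      pair_ineq S (Finset.mem_erase.1 hj).1.symm).trans (le_of_eq ?_)
    rw [Finset.sum_add_distrib, Finset.sum_add_distrib, ← Finset.mul_sum, Finset.sum_add_distrib,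
      Finset.sum_erase_eq_sub (f := fun j => 𝔼 x, ind S j x) (Finset.mem_univ i)]
    simp only [Finset.sum_const, Finset.card_erase_of_mem (Finset.mem_univ i), Finset.card_univ,
      Fintype.card_fin, nsmul_eq_mul]
    push_cast
    ring
  have h2 := Finset.sum_le_sum fun i (_ : i ∈ univ) => h1 i
  rw [Finset.sum_add_distrib, Finset.sum_add_distrib, ← Finset.mul_sum, Finset.sum_add_distrib,
    ← Finset.mul_sum] at h2
  simp only [Finset.sum_const, Finset.card_univ, Fintype.card_fin, nsmul_eq_mul] at h2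
  push_cast at h2
  linarith

end energy

/-- exponential moment of a sum of independent centred bounded terms -/
lemma chernoff {β : Type} [Fintype β] [Nonempty β] (y : β → ℝ) (hy : ∀ x, |y x| ≤ 1)
    (h0 : 𝔼 x, y x = 0) (c : ℝ) (hc : |c| ≤ 1) (N : ℕ) :
    𝔼 f : Fin N → β, Real.exp (c * ∑ t, y (f t)) ≤ Real.exp (N * c ^ 2) := by
  classical
  have h1 : 𝔼 x, Real.exp (c * y x) ≤ Real.exp (c ^ 2) := by
    have h2 : ∀ x, Real.exp (c * y x) ≤ (1 + c ^ 2) + c * y x := by
      intro x
      have h3 : |c * y x| ≤ 1 := by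
        rw [abs_mul]; exact mul_le_one₀ hc (abs_nonneg _) (hy x)
      have h4 := (abs_le.1 (Real.abs_exp_sub_one_sub_id_le h3)).2
      have h5 : (y x) ^ 2 ≤ 1 := by rw [sq_le_one_iff_abs_le_one]; exact hy x
      nlinarith [sq_nonneg c]
    refine (Finset.expect_le_expect fun x _ => h2 x).trans ?_
    rw [Finset.expect_add_distrib, ← Finset.mul_expect, h0, Fintype.expect_const]
    linarith [Real.add_one_le_exp (c ^ 2)]
  have h6 := Finset.expect_pow univ (fun x => Real.exp (c * y x)) N
  rw [Fintype.piFinset_univ] at h6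
  simp only [Finset.mul_sum, Real.exp_sum]
  rw [← h6, Real.exp_nat_mul]
  exact pow_le_pow_left₀ (Finset.expect_nonneg fun _ _ => (Real.exp_pos _).le) h1 N

end Pool.Agent.P.MP_9e9aa3_co
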