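import Mathlib
import Pool.Agent.P.MP_9e9aa3_co.Frac5
import Pool.Agent.P.MP_9e9aa3_co.Limit
import Pool.Agent.P.MP_9e9aa3_co.Stab1
import Pool.Agent.P.MP_9e9aa3_co.Stab2
import Pool.Agent.P.MP_9e9aa3_co.Stab3

set_option autoImplicit false

open Finset Function Filter Topology
open scoped BigOperators

namespace Pool.Agent.P.MP_9e9aa3_co

section sampling

variable {n N : ℕ} (S : Finset (Fin 7 → Fin n))

/-- the point of the cube selected by the grid index `z` -/
def pt (F : Fin 7 → Fin N → Fin n) (z : Fin 7 → Fin N) : Fin 7 → Fin n := fun i => F i (z i)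

lemma pt_update (F : Fin 7 → Fin N → Fin n) (z : Fin 7 → Fin N) (j : Fin 7) (t : Fin N) :
    pt F (update z j t) = update (pt F z) j (F j t) := by
  funext k
  by_cases h : k = j
  · subst h; simp [pt]
  · simp [pt, update_of_ne h]

lemma pt_update' (F : Fin 7 → Fin N → Fin n) (z : Fin 7 → Fin N) (j : Fin 7)
    (f : Fin N → Fin n) : pt (update F j f) z = update (pt F z) j (f (z j)) := by
  funext k
  by_cases h : k = j
  · subst h; simp [pt]
  · simp [pt, update_of_ne h]

/-- deviation of the sampled count from its mean -/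
noncomputable def dv (F : Fin 7 → Fin N → Fin n) (z : Fin 7 → Fin N) (i j : Fin 7) : ℝ :=
  ∑ t, (ind S i (update (pt F z) j (F j t)) - dens S i j (pt F z))

lemma expect_dv [NeZero n] (z : Fin 7 → Fin N) (i j : Fin 7) (c : ℝ) (hc : |c| ≤ 1) :
    𝔼 F, Real.exp (c * dv S F z i j) ≤ Real.exp (N * c ^ 2) := by
  rw [← expect_update (fun F => Real.exp (c * dv S F z i j)) j]
  refine Finset.expect_le univ_nonempty fun F _ => ?_
  simp only [dv, pt_update', update_idem, dens_update, update_self]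
  refine chernoff (fun s => ind S i (update (pt F z) j s) - dens S i j (pt F z)) ?_ ?_ c hc N
  · intro s
    have h1 := ind_nonneg S i (update (pt F z) j s)
    have h2 := ind_le_one S i (update (pt F z) j s)
    have h3 := dens_nonneg S i j (pt F z)
    have h4 := dens_le_one S i j (pt F z)
    rw [abs_le]
    constructor <;> linarith
  · rw [Finset.expect_sub_distrib, Fintype.expect_const, dens, sub_self]

lemma sum_ind_le (x : Fin 7 → Fin n) : ∑ i, ind S i x ≤ 7 := by
  simpa using Finset.sum_le_card_nsmul univ (fun i => ind S i x) 1 fun i _ => ind_le_one S i x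

lemma one_le_sum_ind (hcov : ∀ x, ∃ p ∈ S, hammingDist x p ≤ 1) (x : Fin 7 → Fin n) :
    1 ≤ ∑ i, ind S i x := by
  obtain ⟨p, hp, h⟩ := hcov x
  obtain ⟨i, hi⟩ := (hamming_le_one_iff _ _).1 h
  have h1 : ind S i x = 1 := if_pos ⟨p, hp, hi⟩
  rw [← h1]
  exact Finset.single_le_sum (f := fun i => ind S i x) (fun j _ => ind_nonneg S j x) (mem_univ i)

lemma en_parts (hcov : ∀ x, ∃ p ∈ S, hammingDist x p ≤ 1) (x : Fin 7 → Fin n) :
    0 ≤ en S x ∧ (∑ i, ind S i x - 1) * (7 - ∑ i, ind S i x) ≤ en S x ∧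
      ∀ i j, i ≠ j → 1 / 8 * (dens S i j x - 1 / 6) ^ 2 ≤ en S x := by
  have h1 : 0 ≤ (∑ i, ind S i x - 1) * (7 - ∑ i, ind S i x) :=
    mul_nonneg (by linarith [one_le_sum_ind S hcov x]) (by linarith [sum_ind_le S x])
  have h2 : ∀ i : Fin 7, 0 ≤ ∑ j ∈ univ.erase i, 1 / 8 * (dens S i j x - 1 / 6) ^ 2 :=
    fun i => Finset.sum_nonneg fun _ _ => by positivity
  have h3 := Finset.sum_nonneg fun i (_ : i ∈ univ) => h2 i
  unfold en
  refine ⟨by linarith, by linarith, fun i j hij => ?_⟩
  have h4 := Finset.single_le_sum (fun i (_ : i ∈ univ) => h2 i) (mem_univ i)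
  have h5 := Finset.single_le_sum (s := univ.erase i)
    (f := fun j => 1 / 8 * (dens S i j x - 1 / 6) ^ 2) (fun _ _ => by positivity)
    (Finset.mem_erase.2 ⟨hij.symm, mem_univ j⟩)
  linarith

lemma exists_grid [NeZero n] (hcov : ∀ x, ∃ p ∈ S, hammingDist x p ≤ 1) (g ε : ℝ) (hg : 0 < g)
    (hg1 : g ≤ 1) (hN : (N : ℝ) ^ 7 * (98 * Real.exp (-(g ^ 2 / 16)) ^ N) < 1 / 2)
    (hε : (N : ℝ) ^ 7 * (32 / g ^ 2 * (35 * ε)) ≤ 1 / 2)
    (hS : (S.card : ℝ) / (n : ℝ) ^ 6 ≤ 1 / 6 + ε) :
    ∃ F : Fin 7 → Fin N → Fin n, ∀ z, en S (pt F z) < g ^ 2 / 32 ∧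
      ∀ i j, |dv S F z i j| ≤ N * g / 2 := by
  let E : ℝ := Real.exp (-(g / 4 * (N * g / 2)))
  let bad : (Fin 7 → Fin N → Fin n) → (Fin 7 → Fin N) → Fin 7 → Fin 7 → ℝ := fun F z i j =>
    E * (Real.exp (g / 4 * dv S F z i j) + Real.exp (-(g / 4) * dv S F z i j))
  have hE : 0 < E := Real.exp_pos _
  have hbad0 : ∀ F z i j, 0 ≤ bad F z i j := fun F z i j => by positivity
  have hc : |g / 4| ≤ 1 := by rw [abs_le]; constructor <;> linarith
  have hbad : ∀ z i j, 𝔼 F, bad F z i j ≤ 2 * Real.exp (-(g ^ 2 / 16)) ^ N := by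
    intro z i j
    simp only [bad]
    rw [← Finset.mul_expect, Finset.expect_add_distrib]
    have h1 := expect_dv S z i j (g / 4) hc
    have h2 := expect_dv S z i j (-(g / 4)) (by rwa [abs_neg])
    rw [neg_sq] at h2
    have h3 : E * Real.exp (N * (g / 4) ^ 2) = Real.exp (-(g ^ 2 / 16)) ^ N := by
      rw [← Real.exp_nat_mul, ← Real.exp_add]
      congr 1
      ring
    nlinarith
  let Φ : (Fin 7 → Fin N → Fin n) → ℝ := fun F =>
    ∑ z, (32 / g ^ 2 * en S (pt F z) + ∑ i, ∑ j, bad F z i j)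
  have hΦ : 𝔼 F, Φ F < 1 := by
    simp only [Φ]
    rw [Finset.expect_sum_comm]
    have h1 : ∀ z : Fin 7 → Fin N, 𝔼 F, (32 / g ^ 2 * en S (pt F z) + ∑ i, ∑ j, bad F z i j) ≤
        32 / g ^ 2 * (35 * ε) + 98 * Real.exp (-(g ^ 2 / 16)) ^ N := by
      intro z
      rw [Finset.expect_add_distrib, ← Finset.mul_expect]
      simp only [Finset.expect_sum_comm]
      refine add_le_add (mul_le_mul_of_nonneg_left ?_ (by positivity)) ?_
      · have h2 := expect_grid (en S) z
        have h3 := expect_en S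
        have h4 : 𝔼 F : Fin 7 → Fin N → Fin n, en S (pt F z) = 𝔼 x, en S x := h2
        linarith
      · have h2 := Finset.sum_le_sum fun i (_ : i ∈ univ) =>
          Finset.sum_le_sum fun j (_ : j ∈ univ) => hbad z i j
        simp only [Finset.sum_const, Finset.card_univ, Fintype.card_fin, nsmul_eq_mul] at h2
        push_cast at h2
        linarith
    have h2 := Finset.sum_le_sum fun z (_ : z ∈ univ) => h1 z
    simp only [Finset.sum_const, Finset.card_univ, Fintype.card_fun, Fintype.card_fin,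
      nsmul_eq_mul] at h2
    push_cast at h2
    linarith
  obtain ⟨F, -, hF⟩ := Finset.exists_lt_of_expect_lt univ_nonempty hΦ
  refine ⟨F, fun z => ?_⟩
  have hb : ∀ z, 0 ≤ ∑ i, ∑ j, bad F z i j := fun z =>
    Finset.sum_nonneg fun i _ => Finset.sum_nonneg fun j _ => hbad0 F z i j
  have he : ∀ z, 0 ≤ 32 / g ^ 2 * en S (pt F z) := fun z =>
    mul_nonneg (by positivity) (en_parts S hcov _).1
  have h1 := Finset.single_le_sum
    (f := fun z => 32 / g ^ 2 * en S (pt F z) + ∑ i, ∑ j, bad F z i j)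
    (fun z _ => add_nonneg (he z) (hb z)) (mem_univ z)
  simp only [Φ] at hF
  constructor
  · have h2 : 32 / g ^ 2 * en S (pt F z) < 1 := by linarith [hb z]
    rw [div_mul_eq_mul_div, div_lt_one (by positivity)] at h2
    linarith
  · intro i j
    have h2 := Finset.single_le_sum (f := fun i => ∑ j, bad F z i j)
      (fun i _ => Finset.sum_nonneg fun j _ => hbad0 F z i j) (mem_univ i)
    have h3 := Finset.single_le_sum (f := fun j => bad F z i j)
      (fun j _ => hbad0 F z i j) (mem_univ j)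
    have h4 : bad F z i j < 1 := by linarith [he z]
    simp only [bad, E] at h4
    rw [mul_add, ← Real.exp_add, ← Real.exp_add] at h4
    have h5 := Real.exp_lt_one_iff.1 (lt_of_le_of_lt (le_add_of_nonneg_right (Real.exp_pos _).le) h4)
    have h6 := Real.exp_lt_one_iff.1 (lt_of_le_of_lt (le_add_of_nonneg_left (Real.exp_pos _).le) h4)
    rw [abs_le]
    constructor <;> nlinarith

lemma all_lines (hcov : ∀ x, ∃ p ∈ S, hammingDist x p ≤ 1) {x : Fin 7 → Fin n}
    (hx : en S x < 1) {i j : Fin 7} (hij : i ≠ j) (hi : Lp S i x) (hj : Lp S j x) (k : Fin 7) :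
    Lp S k x := by
  by_contra hk
  have h1 : ind S i x = 1 := if_pos hi
  have h2 : ind S j x = 1 := if_pos hj
  have h3 : ind S k x = 0 := if_neg hk
  have h4 : 2 ≤ ∑ i, ind S i x := by
    have := Finset.sum_le_sum_of_subset_of_nonneg (f := fun i => ind S i x)
      (Finset.subset_univ {i, j}) fun l _ _ => ind_nonneg S l x
    rw [Finset.sum_pair hij] at this
    linarith
  have h5 : ∑ i, ind S i x ≤ 6 := by
    rw [← Finset.add_sum_erase _ _ (mem_univ k), h3, zero_add]
    have := Finset.sum_le_card_nsmul (univ.erase k) (fun i => ind S i x) 1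
      fun i _ => ind_le_one S i x
    simpa using this
  have h6 := (en_parts S hcov x).2.1
  nlinarith

end sampling

/-- extension of a five-dimensional grid index by two fixed coordinates -/
def emb {N : ℕ} (o : Fin N) (z : Fin 5 → Fin N) : Fin 7 → Fin N :=
  fun k => if h : k.val < 5 then z ⟨k.val, h⟩ else o

lemma emb_update {N : ℕ} (o : Fin N) (z : Fin 5 → Fin N) (a : Fin 5) (t : Fin N) :
    emb o (update z a t) = update (emb o z) (Fin.castLE (by norm_num) a) t := by
  funext k
  by_cases h : k = Fin.castLE (by norm_num) a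
  · subst h
    simp [emb]
  · rw [update_of_ne h]
    unfold emb
    split_ifs with hk
    · rw [update_of_ne]
      rintro rfl
      exact h rfl
    · rfl

/-- TASK A (stability). -/
theorem stab (h : NoFrac5) : ∃ ε : ℝ, 0 < ε ∧ ∀ n : ℕ, 0 < n → ∀ S : Finset (Fin 7 → Fin n),
    (∀ x, ∃ p ∈ S, hammingDist x p ≤ 1) → (1 / 6 + ε) * (n : ℝ) ^ 6 ≤ S.card := by
  classical
  obtain ⟨g, hg, hg1, hcomp⟩ := compact h
  have hr : |Real.exp (-(g ^ 2 / 16))| < 1 := by
    rw [abs_of_pos (Real.exp_pos _), Real.exp_lt_one_iff]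
    have : 0 < g ^ 2 / 16 := by positivity
    linarith
  have hlim := tendsto_pow_const_mul_const_pow_of_abs_lt_one 7 hr
  obtain ⟨N, hN1, hN2⟩ := ((eventually_ge_atTop 1).and
    (hlim.eventually (gt_mem_nhds (show (0 : ℝ) < 1 / 196 by norm_num)))).exists
  have hN0 : (0 : ℝ) < N := by exact_mod_cast hN1
  refine ⟨g ^ 2 / (2240 * (N : ℝ) ^ 7), by positivity, fun n hn S hcov => ?_⟩
  have : NeZero n := ⟨hn.ne'⟩
  have hn0 : (0 : ℝ) < n := by exact_mod_cast hn
  by_contra hlt
  push Not at hlt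
  obtain ⟨F, hF⟩ := exists_grid (N := N) S hcov g (g ^ 2 / (2240 * (N : ℝ) ^ 7)) hg (by linarith)
    (by linarith) (le_of_eq (by field_simp; norm_num))
    (by rw [div_le_iff₀ (by positivity)]; exact hlt.le)
  let ι : Fin 5 → Fin 7 := Fin.castLE (by norm_num)
  have hι : Injective ι := Fin.castLE_injective _
  let o : Fin N := ⟨0, hN1⟩
  let L : Fin 5 → (Fin 5 → Fin N) → Prop := fun i z => Lp S (ι i) (pt F (emb o z))
  have hL : ∀ i z a t, L i (update z a t) ↔
      Lp S (ι i) (update (pt F (emb o z)) (ι a) (F (ι a) t)) := by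
    intro i z a t
    simp only [L, emb_update, pt_update, ι]
  have hD : ∀ a b z, b ≠ a → ∀ A : Finset (Fin N), (∀ t, t ∈ A ↔ L b (update z a t)) →
      |(A.card : ℝ) / N - 1 / 6| ≤ g := by
    intro a b z hba A hA
    obtain ⟨h1, h2⟩ := hF (emb o z)
    have h3 := (en_parts S hcov (pt F (emb o z))).2.2 (ι b) (ι a) (hι.ne hba)
    have h4 := h2 (ι b) (ι a)
    set d := dens S (ι b) (ι a) (pt F (emb o z)) with hd
    have h5 : |d - 1 / 6| ≤ g / 2 := abs_le_of_sq_le_sq (by linarith) (by linarith)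
    have h6 : dv S F (emb o z) (ι b) (ι a) = A.card - N * d := by
      unfold dv
      rw [Finset.sum_sub_distrib]
      simp only [ind, Finset.sum_boole, Finset.sum_const, Finset.card_univ, Fintype.card_fin,
        nsmul_eq_mul]
      congr 3
      ext t
      rw [hA, hL]
      simp
    rw [h6] at h4
    have h7 : |(A.card : ℝ) / N - d| ≤ g / 2 := by
      have : (A.card : ℝ) / N - d = (A.card - N * d) / N := by field_simp
      rw [this, abs_div, abs_of_pos hN0, div_le_iff₀ hN0]
      linarith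
    have h8 := abs_sub_le ((A.card : ℝ) / N) d (1 / 6)
    linarith
  obtain ⟨V, hV1, hV2⟩ := boxes L (fun i z t => by rw [hL, Lp_update]) (fun i j z hij hi hj k =>
    all_lines S hcov ((hF _).1.trans_le (by nlinarith)) (hι.ne hij) hi hj (ι k)) hN1
    (fun i j z hij => by
      have h1 := hD j i z hij (univ.filter fun t => L i (update z j t)) (by simp)
      have h2 : (0 : ℝ) < ((univ.filter fun t => L i (update z j t)).card : ℝ) / N := by
        linarith [(abs_le.1 h1).1]
      have h3 : 0 < (univ.filter fun t => L i (update z j t)).card := by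
        exact_mod_cast (div_pos_iff_of_pos_right hN0).1 h2
      obtain ⟨t, ht⟩ := Finset.card_pos.1 h3
      exact ⟨t, (Finset.mem_filter.1 ht).2⟩)
  refine hcomp V N hN1 (fun a s => s.1 a) hV1 fun a s => ?_
  obtain ⟨z, b, hb, hz⟩ := hV2 s.1 s.2 a
  exact hD a b z hb _ hz

end Pool.Agent.P.MP_9e9aa3_co
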